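import Pool.Agent.Lib.NFB.Blue2

/-! Row ADJ: pointed homotopy classes of maps out of the fibre form a group. -/

namespace Pool.Agent.Lib.NFB

open Set Topology unitInterval
open scoped Topology.Homotopy

noncomputable section

namespace ADJ

variable {Y : Type} [TopologicalSpace Y]

/-- composition with a pointed self-map of the target -/
def post {y₀ : Y} (k : Pt y₀ y₀) : Pt (WY.e y₀) (WY.e y₀) :=
  ⟨⟨fun w => ⟨k.1.comp w.1, fun u => (congrArg k.1 (w.2.1 u)).trans k.2,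
      fun u => (congrArg k.1 (w.2.2.1 u)).trans k.2,
      fun z => (congrArg k.1 (w.2.2.2.1 z)).trans k.2,
      fun z z' h => congrArg k.1 (w.2.2.2.2 z z' h)⟩,
    ((ContinuousMap.continuous_postcomp k.1).comp continuous_subtype_val).subtype_mk _⟩,
    Subtype.ext (ContinuousMap.ext fun _ => k.2)⟩

theorem rf_zero (x : Fin 2 → I) : rf x 0 = x 0 := rfl

theorem rf_upd (x : Fin 2 → I) (a : I) :
    rf (Function.update x 0 a) = Function.update (rf x) 0 a := by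
  funext j
  fin_cases j
  · rfl
  · rfl

theorem tr_le {y : Y} (f g : Ω^ (Fin 2) Y y) (t : Fin 2 → I) (h : (t 0 : ℝ) ≤ 1 / 2) :
    GenLoop.transAt 0 f g t =
      f (Function.update t 0 (Set.projIcc 0 1 zero_le_one (2 * (t 0 : ℝ)))) := if_pos h

theorem tr_gt {y : Y} (f g : Ω^ (Fin 2) Y y) (t : Fin 2 → I) (h : ¬ (t 0 : ℝ) ≤ 1 / 2) :
    GenLoop.transAt 0 f g t =
      g (Function.update t 0 (Set.projIcc 0 1 zero_le_one (2 * (t 0 : ℝ) - 1))) := if_neg h

theorem sy {y : Y} (f : Ω^ (Fin 2) Y y) (t : Fin 2 → I) : GenLoop.symmAt 1 f t = f (rf t) := rfl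

end ADJ

theorem bADJ (h1 : St_ADJ1) : St_ADJ := by
  intro T Y _ _ _ D y₀
  obtain ⟨cur, hc, hs, hi⟩ := h1 T Y D y₀
  refine ⟨fun F => (⟦cur F⟧ : P2 (WY.e y₀)), ?_, ?_, ?_, ?_, ?_⟩
  · intro x
    refine Quotient.inductionOn x fun p => ?_
    obtain ⟨F, hF⟩ := hs p
    exact ⟨F, congrArg (Quotient.mk _) hF⟩
  · intro F F' h
    exact hi F F' (Quotient.exact h)
  · intro k
    refine ⟨hmap (ADJ.post k), fun F F' h => ?_⟩
    have e : cur F' = gmap (ADJ.post k) (cur F) :=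
      GenLoop.ext _ _ fun x => Subtype.ext (ContinuousMap.ext fun w =>
        ((hc F' x w).trans (h _)).trans (congrArg k.1 (hc F x w)).symm)
    exact congrArg (Quotient.mk _) e
  · intro F F' h
    have e : cur F' = GenLoop.symmAt 1 (cur F) :=
      GenLoop.ext _ _ fun x => Subtype.ext (ContinuousMap.ext fun w => by
        rw [ADJ.sy, hc, hc, h, D.b_Φ])
    exact (congrArg (Quotient.mk _) e).trans (HomotopyGroup.inv_spec (i := 1)).symm
  · intro F F'
    obtain ⟨R, hR⟩ := hs (GenLoop.transAt 0 (cur F') (cur F))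
    refine ⟨R, (congrArg (Quotient.mk _) hR).trans (HomotopyGroup.mul_spec (i := 0)).symm, ?_⟩
    intro k hk hk' y
    obtain ⟨⟨x, w⟩, rfl⟩ := D.surj y
    rw [D.b_Φ, ← hc R, ← hc R, hR]
    by_cases hx : (x 0 : ℝ) ≤ 1 / 2
    · rw [ADJ.tr_le _ _ x hx, ADJ.tr_le _ _ (rf x) hx, hc, hc, hk', D.b_Φ, ADJ.rf_upd, ADJ.rf_zero]
    · rw [ADJ.tr_gt _ _ x hx, ADJ.tr_gt _ _ (rf x) hx, hc, hc, hk, D.b_Φ, ADJ.rf_upd, ADJ.rf_zero]

end

end Pool.Agent.Lib.NFB
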