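import Pool.Agent.Lib.NFB.Blue2

/-! Row ADJ1: pointed maps out of the fibre are double loops. -/

namespace Pool.Agent.Lib.NFB

open Set Topology unitInterval ContinuousMap
open scoped Topology.Homotopy

namespace ADJ1

variable {T Y : Type} [TopologicalSpace T] [TopologicalSpace Y] {y₀ : Y}

theorem zr (v : WY y₀) {p : Q4} (h : p.1 ∈ Cube.boundary (Fin 2) → v = WY.e y₀) (hp : Zr p) :
    v.1 p.2 = y₀ := by
  obtain ⟨x, z, u⟩ := p
  rcases hp with a | rfl | rfl | rfl | ⟨rfl, n, a⟩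
  · rw [h a]
    rfl
  · exact v.2.1 u
  · exact v.2.2.1 u
  · exact v.2.2.2.1 z
  · exact (v.2.2.2.2 z 0 ⟨n, by simpa using a⟩).trans (v.2.1 0)

theorem desc [T2Space T] (D : Mo T) (G : C(I × (Fin 2 → I), WY y₀))
    (hG : ∀ s, ∀ x ∈ Cube.boundary (Fin 2), G (s, x) = WY.e y₀) :
    ∃ H : C(I × T, Y), (∀ s p, H (s, D.Φ p) = (G (s, p.1)).1 p.2) ∧ ∀ s, H (s, D.t₀) = y₀ := by
  have q : IsQuotientMap ((ContinuousMap.id I).prodMap D.Φ) :=
    (map_continuous _).isClosedMap.isQuotientMap (map_continuous _)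
      (Function.surjective_id.prodMap D.surj)
  let g : C(I × Q4, Y) := ⟨fun z => (G (z.1, z.2.1)).1 z.2.2, Continuous.eval
    (continuous_subtype_val.comp (G.continuous.comp (by fun_prop))) (by fun_prop)⟩
  have f : Function.FactorsThrough g ((ContinuousMap.id I).prodMap D.Φ) := by
    rintro ⟨s, p⟩ ⟨s', p'⟩ h
    obtain ⟨rfl, h'⟩ : s = s' ∧ D.Φ p = D.Φ p' := Prod.ext_iff.1 h
    rcases (D.fib p p').1 h' with rfl | ⟨a, b⟩ | ⟨a, b, c, d⟩
    · rfl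
    · exact (zr _ (hG s _) a).trans (zr _ (hG s _) b).symm
    · obtain ⟨x, z, u⟩ := p
      obtain ⟨x', z', u'⟩ := p'
      obtain rfl : x = x' := a
      obtain rfl : u = 0 := b
      obtain rfl : u' = 0 := c
      exact (G (s, x)).2.2.2.2 z z' d
  have e : ∀ s p, q.lift g f (s, D.Φ p) = (G (s, p.1)).1 p.2 := fun s p =>
    DFunLike.congr_fun (q.lift_comp g f) (s, p)
  refine ⟨q.lift g f, e, fun s => ?_⟩
  obtain ⟨p, hp⟩ := D.surj D.t₀
  rw [← hp, e]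
  exact zr _ (hG s _) ((D.base p).1 hp)

end ADJ1

theorem bADJ1 : St_ADJ1 := by
  intro T Y _ _ _ D y₀
  have z : ∀ (F : Pt D.t₀ y₀) p, Zr p → F.1 (D.Φ p) = y₀ := fun F p h =>
    (congrArg F.1 ((D.base p).2 h)).trans F.2
  let cur : Pt D.t₀ y₀ → Ω^ (Fin 2) (WY y₀) (WY.e y₀) := fun F =>
    ⟨⟨fun x => ⟨(F.1.comp D.Φ).curry x, fun u => z F _ (.inr (.inl rfl)),
      fun u => z F _ (.inr (.inr (.inl rfl))), fun u => z F _ (.inr (.inr (.inr (.inl rfl)))),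
      fun u u' h => congrArg F.1 ((D.fib _ _).2 (.inr (.inr ⟨rfl, rfl, rfl, h⟩)))⟩,
      (map_continuous _).subtype_mk _⟩,
      fun x hx => Subtype.ext (ContinuousMap.ext fun w => z F (x, w) (.inl hx))⟩
  refine ⟨cur, fun _ _ _ => rfl, fun p => ?_, fun F F' ⟨K⟩ => ?_⟩
  · obtain ⟨H, h1, h2⟩ := ADJ1.desc D (p.1.comp .snd) fun _ => p.2
    exact ⟨⟨H.curry 0, h2 0⟩, GenLoop.ext _ _ fun x =>
      Subtype.ext (ContinuousMap.ext fun w => h1 0 (x, w))⟩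
  · obtain ⟨H, h1, h2⟩ := ADJ1.desc D K.toHomotopy.toContinuousMap fun s x hx =>
      (K.eq_fst s hx).trans ((cur F).2 x hx)
    refine ⟨⟨⟨H, fun y => ?_, fun y => ?_⟩, fun s y hy => ?_⟩⟩
    · obtain ⟨p, rfl⟩ := D.surj y
      exact (h1 0 p).trans (congrArg (fun v : WY y₀ => v.1 p.2) (K.apply_zero p.1))
    · obtain ⟨p, rfl⟩ := D.surj y
      exact (h1 1 p).trans (congrArg (fun v : WY y₀ => v.1 p.2) (K.apply_one p.1))
    · obtain rfl : y = D.t₀ := hy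
      exact (h2 s).trans F.2.symm

end Pool.Agent.Lib.NFB
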