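import Pool.Agent.Lib.NFB.Blue1

/-! Good representatives of maps into bodies. -/

namespace Pool.Agent.Lib.NFB

open Set Topology Metric unitInterval

theorem bAPX (hSHR : St_SHR) (hLIP : St_LIP) : St_APX := by
  intro V V' _ _ _ _ _ _ C A hC hA f₀
  obtain ⟨S, K, hS⟩ := hSHR V' A hA
  obtain ⟨μ, hμ, hone⟩ := hS.one
  have c0 : Continuous fun x : C => (f₀ x : V') := continuous_subtype_val.comp f₀.continuous
  have c1 : Continuous fun x : C => S (1, (f₀ x : V')) :=
    S.continuous.comp (continuous_const.prodMk c0)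
  obtain ⟨f, hf, hfF⟩ := hLIP V V' C hC ⟨_, c1⟩ (μ / 2) (half_pos hμ)
  have hfF' : ∀ x : C, ‖f x - S (1, (f₀ x : V'))‖ < μ / 2 := hfF
  have cf : Continuous fun x : C => f x := hf.continuous.comp continuous_subtype_val
  have hb : ∀ x : C, closedBall (f x) (μ / 2) ⊆ A := fun x =>
    (closedBall_subset_closedBall' (by rw [dist_eq_norm]; linarith [hfF' x])).trans (hone _ (f₀ x).2)
  have hseg : ∀ (t : I) (x : C), f x + (t : ℝ) • (S (1, (f₀ x : V')) - f x) ∈ A := fun t x => by
    refine hb x ?_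
    rw [mem_closedBall, dist_eq_norm, add_sub_cancel_left, norm_smul, norm_sub_rev,
      Real.norm_of_nonneg t.2.1]
    have := mul_le_of_le_one_left (norm_nonneg (f x - S (1, (f₀ x : V')))) t.2.2
    linarith [hfF' x]
  let f₁ : C(C, A) := ⟨fun x => ⟨f x, hb x (mem_closedBall_self (half_pos hμ).le)⟩, cf.subtype_mk _⟩
  let g : C(C, A) := ⟨fun x => ⟨S (1, (f₀ x : V')), hS.mem 1 _ (f₀ x).2⟩, c1.subtype_mk _⟩
  have h1 : f₁.Homotopic g := ⟨{
    toFun := fun z => ⟨f z.2 + (z.1 : ℝ) • (S (1, (f₀ z.2 : V')) - f z.2), hseg z.1 z.2⟩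
    continuous_toFun := ((cf.comp continuous_snd).add
      ((continuous_subtype_val.comp continuous_fst).smul
        ((c1.comp continuous_snd).sub (cf.comp continuous_snd)))).subtype_mk _
    map_zero_left := fun x => Subtype.ext (by simp [f₁])
    map_one_left := fun x => Subtype.ext (by simp [g]) }⟩
  have h2 : f₀.Homotopic g := ⟨{
    toFun := fun z => ⟨S (z.1, (f₀ z.2 : V')), hS.mem z.1 _ (f₀ z.2).2⟩
    continuous_toFun :=
      (S.continuous.comp (continuous_fst.prodMk (c0.comp continuous_snd))).subtype_mk _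
    map_zero_left := fun x => Subtype.ext (hS.zero _)
    map_one_left := fun x => rfl }⟩
  exact ⟨f, μ / 2, f₁, hf, half_pos hμ, fun x hx => hb ⟨x, hx⟩, fun _ => rfl, h1.trans h2.symm⟩

end Pool.Agent.Lib.NFB
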