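import Pool.Agent.Lib.NFB.Blue1

/-! Block ATI: equivalent bodies have equivalent stable doubles. -/

namespace Pool.Agent.Lib.NFB

open Set Topology Metric unitInterval Module ContinuousMap

namespace ATI

variable {V : Type} [NormedAddCommGroup V] [NormedSpace ℝ V]

/-- exchange of the two ball coordinates -/
def sw (z : V × V × V) : V × V × V := (z.1, z.2.2, z.2.1)

omit [NormedSpace ℝ V] in
theorem sw_mem {W : Set V} {z : V × V × V} (h : z ∈ NB W (V × V)) : sw z ∈ NB W (V × V) := by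
  refine ⟨h.1, ?_⟩
  have h2 := h.2
  rw [mem_closedBall_zero_iff, Prod.norm_def] at h2 ⊢
  rwa [max_comm] at h2

omit [NormedSpace ℝ V] in
theorem step_sw {W : Set V} {F G : V × V × V → V × V × V} (h : Step (NB W (V × V)) F G) :
    Step (NB W (V × V)) (sw ∘ F ∘ sw) (sw ∘ G ∘ sw) := by
  obtain ⟨S, K, hf, h1, h2, h3⟩ := h
  refine ⟨⟨fun z => sw (S (z.1, sw z.2)), by unfold sw; fun_prop⟩,
    ⟨fun z => sw (K (z.1, sw z.2)), by unfold sw; fun_prop⟩,
    ⟨fun t x => congrArg sw (hf.left t (sw x)), fun t x => congrArg sw (hf.right t (sw x))⟩,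
    fun t x hx => sw_mem (h1 t _ (sw_mem hx)), fun x hx => congrArg sw (h2 _ (sw_mem hx)),
    fun x hx => congrArg sw (h3 _ (sw_mem hx))⟩

/-- the triangular homeomorphism -/
noncomputable def JJ (f : C(V, V)) {l d : ℝ} (hl : l ≠ 0) (hd : d ≠ 0) :
    (V × V × V) ≃ₜ (V × V × V) where
  toFun z := (f z.1 + d • z.2.1, l • z.1, z.2.2)
  invFun z := (l⁻¹ • z.2.1, d⁻¹ • (z.1 - f (l⁻¹ • z.2.1)), z.2.2)
  left_inv z := by simp [smul_smul, hl, hd]
  right_inv z := by simp [smul_smul, hl, hd]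
  continuous_toFun := by fun_prop
  continuous_invFun := by fun_prop

/-- the exchange as a homeomorphism -/
def swH : (V × V × V) ≃ₜ (V × V × V) where
  toFun := sw
  invFun := sw
  left_inv _ := rfl
  right_inv _ := rfl
  continuous_toFun := by unfold sw; fun_prop
  continuous_invFun := by unfold sw; fun_prop

/-- the data of one direction -/
structure Dir (W W' : Set V) (f₀ : C(W, W')) (S' : C(I × V, V)) (f : C(V, V)) (l d : ℝ) :
    Prop where
  lp : 0 < l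
  dp : 0 < d
  ld : l * d ≤ 1 / 4
  ext : ∀ x : W, f x = S' (1, f₀ x)
  zero : ∀ y, S' (0, y) = y
  mem : ∀ t, ∀ y ∈ W', S' (t, y) ∈ W'
  ball : ∀ y ∈ W', closedBall (S' (1, y)) d ⊆ W'
  bd : ∀ x ∈ W, l * ‖x‖ ≤ 1 / 4

variable {W W' : Set V} {f₀ : C(W, W')} {g₀ : C(W', W)} {S K S' : C(I × V, V)} {f g : C(V, V)}
  {l d d' : ℝ}

theorem Dir.into (D : Dir W W' f₀ S' f l d) (x : W) {v : V} (hv : ‖v‖ ≤ 1) : f x + d • v ∈ W' := by
  refine D.ball _ (f₀ x).2 ?_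
  rw [← D.ext, mem_closedBall, dist_eq_norm, add_sub_cancel_left, norm_smul,
    Real.norm_of_nonneg D.dp.le]
  exact mul_le_of_le_one_right D.dp.le hv

/-- the first coordinate of the embedding -/
def Dir.ph (D : Dir W W' f₀ S' f l d) : C(W × closedBall (0 : V) 1, W') :=
  ⟨fun p => ⟨f p.1 + d • (p.2 : V), D.into p.1 (mem_closedBall_zero_iff.1 p.2.2)⟩, by fun_prop⟩

theorem Dir.ph_hom (D : Dir W W' f₀ S' f l d) : D.ph.Homotopic (f₀.comp .fst) := by
  have hm : ∀ (t : I) (v : closedBall (0 : V) 1), ‖(t : ℝ) • (v : V)‖ ≤ 1 := fun t v => by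
    rw [norm_smul, Real.norm_of_nonneg t.2.1]
    exact mul_le_one₀ t.2.2 (norm_nonneg _) (mem_closedBall_zero_iff.1 v.2)
  let m : C(W × closedBall (0 : V) 1, W') :=
    ⟨fun p => ⟨S' (1, f₀ p.1), D.mem _ _ (f₀ p.1).2⟩, by fun_prop⟩
  have h1 : m.Homotopic D.ph := homotopic_of
    ⟨fun z => ⟨f z.2.1 + d • ((z.1 : ℝ) • (z.2.2 : V)), D.into _ (hm _ _)⟩, by fun_prop⟩
    (fun p => Subtype.ext (by simp [m, D.ext])) fun p => Subtype.ext (by simp [Dir.ph])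
  have h2 : (f₀.comp .fst).Homotopic m := homotopic_of
    ⟨fun z => ⟨S' (z.1, f₀ z.2.1), D.mem _ _ (f₀ z.2.1).2⟩, by fun_prop⟩
    (fun p => Subtype.ext (D.zero _)) fun p => rfl
  exact h1.symm.trans h2.symm

theorem Dir.back (D : Dir W W' f₀ S' f l d) (h : (g₀.comp f₀).Homotopic (.id W)) :
    (g₀.comp D.ph).Homotopic .fst :=
  ((Homotopic.refl g₀).comp D.ph_hom).trans (h.comp (.refl .fst))

theorem chain [FiniteDimensional ℝ V] (h3 : St_SC3) (hL : St_LIN) (hT : St_TRI)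
    (hW : IsCompact W) (hS : Shr W S K) (D : Dir W W' f₀ S' f l d) (D' : Dir W' W g₀ S g l d')
    (h : (g₀.comp f₀).Homotopic (.id W)) :
    Relation.ReflTransGen (Step (NB W (V × V))) id fun z =>
      (g (f z.1 + d • z.2.1) + d' • z.2.2, (l • z.1, l • (f z.1 + d • z.2.1))) := by
  obtain ⟨H⟩ := D.back h
  refine ((Relation.ReflTransGen.single (h3 V (V × V) W S K hS)).tail
    (hL V W S K l d d' hS.fam D.lp D.dp D'.dp D.ld D'.ld D'.ball D.bd)).tail
    (hT V W S K f g l d d' hW hS D.lp D.dp D'.dp D.ld D'.ball D.bd (fun x hx => ?_)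
      H.toContinuousMap (fun p => ?_) fun p => H.apply_one p)
  · have := D.into ⟨x, hx⟩ (v := 0) (by simp)
    rw [smul_zero, add_zero] at this
    exact D'.bd _ this
  · have e : H.toContinuousMap (0, p) = g₀ (D.ph p) := H.apply_zero p
    rw [e, ← D'.ext]
    rfl

theorem Dir.J_mem (D : Dir W W' f₀ S' f l d) {z : V × V × V} (h : z ∈ NB W (V × V)) :
    JJ f D.lp.ne' D.dp.ne' z ∈ NB W' (V × V) := by
  have h2 := h.2
  rw [mem_closedBall_zero_iff, Prod.norm_def, max_le_iff] at h2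
  refine ⟨D.into ⟨z.1, h.1⟩ h2.1, ?_⟩
  rw [mem_closedBall_zero_iff, Prod.norm_def, max_le_iff]
  refine ⟨?_, h2.2⟩
  show ‖l • z.1‖ ≤ 1
  rw [norm_smul, Real.norm_of_nonneg D.lp.le]
  linarith [D.bd _ h.1]

/-- the zero section -/
def inc (W : Set V) : C(W, NB W (V × V)) :=
  ⟨fun x => ⟨(x, 0), x.2, mem_closedBall_self zero_le_one⟩, by fun_prop⟩

theorem inc_hom (W : Set V) : ((inc W).comp (nbp W (V × V))).Homotopic (.id _) := by
  have hm : ∀ (t : I) (z : NB W (V × V)), (t : ℝ) • z.1.2 ∈ closedBall (0 : V × V) 1 :=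
    fun t z => by
      rw [mem_closedBall_zero_iff, norm_smul, Real.norm_of_nonneg t.2.1]
      exact mul_le_one₀ t.2.2 (norm_nonneg _) (mem_closedBall_zero_iff.1 z.2.2)
  exact homotopic_of ⟨fun z => ⟨(z.2.1.1, (z.1 : ℝ) • z.2.1.2), z.2.2.1, hm _ _⟩, by fun_prop⟩
    (fun z => Subtype.ext (by simp [inc, nbp])) fun z => Subtype.ext (by simp)

omit [NormedSpace ℝ V] in
theorem fst_mem (z : NB W (V × V)) : z.1.2.1 ∈ closedBall (0 : V) 1 :=
  mem_closedBall_zero_iff.2 ((norm_fst_le _).trans (mem_closedBall_zero_iff.1 z.2.2))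

omit [NormedSpace ℝ V] in
theorem snd_mem (z : NB W (V × V)) : z.1.2.2 ∈ closedBall (0 : V) 1 :=
  mem_closedBall_zero_iff.2 ((norm_snd_le _).trans (mem_closedBall_zero_iff.1 z.2.2))

theorem Dir.left (D : Dir W W' f₀ S' f l d) (h : (g₀.comp f₀).Homotopic (.id W))
    (π : C(NB W (V × V), closedBall (0 : V) 1)) (j : C(NB W (V × V), NB W' (V × V)))
    (hj : ∀ z, (j z).1.1 = f z.1.1 + d • (π z : V)) :
    (((inc W).comp (g₀.comp (nbp W' (V × V)))).comp j).Homotopic (.id _) := by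
  have e : ((inc W).comp (g₀.comp (nbp W' (V × V)))).comp j =
      (inc W).comp ((g₀.comp D.ph).comp ((nbp W (V × V)).prodMk π)) :=
    ContinuousMap.ext fun z => congrArg (fun y => inc W (g₀ y)) (Subtype.ext (hj z))
  rw [e]
  exact ((Homotopic.refl (inc W)).comp ((D.back h).comp (.refl _))).trans (inc_hom W)

theorem ext_ex [FiniteDimensional ℝ V] (hW : IsCompact W) (a : C(W, V)) :
    ∃ f : C(V, V), ∀ x : W, f x = a x := by
  have : TietzeExtension V := TietzeExtension.of_tvs ℝ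
  obtain ⟨f, hf⟩ := a.exists_restrict_eq hW.isClosed
  exact ⟨f, fun x => by rw [← hf]; rfl⟩

theorem compl_ne [Nontrivial V] (W : Set V) : (NB W (V × V))ᶜ.Nonempty := by
  obtain ⟨v, hv⟩ := NormedSpace.exists_lt_norm ℝ (V × V) 1
  exact ⟨(0, v), fun h => absurd (mem_closedBall_zero_iff.1 h.2) (not_le.2 hv)⟩

end ATI

open ATI in
theorem bATI (hS : St_SHR) (hB : St_BOR) (hE : St_ELP) (h0 : St_ATI0) (h3 : St_SC3) (hL : St_LIN)
    (hT : St_TRI) : St_ATI := by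
  intro V _ _ _ _ W W' hW hW' f₀ ⟨g₀, a1, a2⟩
  obtain ⟨S, K, s⟩ := hS V W hW
  obtain ⟨S', K', s'⟩ := hS V W' hW'
  obtain ⟨d', hd', b⟩ := s.one
  obtain ⟨d, hd, b'⟩ := s'.one
  obtain ⟨f, hf⟩ := ext_ex hW.1 ⟨fun x => S' (1, f₀ x), by fun_prop⟩
  obtain ⟨g, hg⟩ := ext_ex hW'.1 ⟨fun y => S (1, g₀ y), by fun_prop⟩
  obtain ⟨R, hR0, hR⟩ := (hW.1.union hW'.1).isBounded.exists_pos_norm_le
  obtain ⟨l, hl, hl'⟩ : ∃ l : ℝ, 0 < l ∧ l * (R + d + d') = 1 / 4 :=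
    ⟨1 / 4 / (R + d + d'), by positivity, by field_simp⟩
  have q : ∀ y : ℝ, y ≤ R + d + d' → l * y ≤ 1 / 4 := fun y hy =>
    hl' ▸ mul_le_mul_of_nonneg_left hy hl.le
  have D : Dir W W' f₀ S' f l d := ⟨hl, hd, q _ (by linarith), hf, s'.zero, s'.mem, b',
    fun x hx => q _ (by linarith [hR x (.inl hx)])⟩
  have D' : Dir W' W g₀ S g l d' := ⟨hl, hd', q _ (by linarith), hg, s.zero, s.mem, b,
    fun x hx => q _ (by linarith [hR x (.inr hx)])⟩
  have e : EL (NB W (V × V)) := hE.1 _ _ _ _ hW (hE.2.1 (V × V) 1 one_pos)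
  have e' : EL (NB W' (V × V)) := hE.1 _ _ _ _ hW' (hE.2.1 (V × V) 1 one_pos)
  let J := JJ f hl.ne' hd.ne'
  let J' := (swH.trans (JJ g hl.ne' hd'.ne')).trans swH
  let j : C(NB W (V × V), NB W' (V × V)) := ⟨fun z => ⟨J z, D.J_mem z.2⟩, by fun_prop⟩
  let j' : C(NB W' (V × V), NB W (V × V)) :=
    ⟨fun z => ⟨J' z, sw_mem (D'.J_mem (sw_mem z.2))⟩, by fun_prop⟩
  obtain ⟨h, h1, h2⟩ := h0 _ _ _ e.1 e'.1 (compl_ne W) (compl_ne W') (hB _ _ e) (hB _ _ e') J J' j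
    ((inc W').comp (f₀.comp (nbp W _))) j' ((inc W).comp (g₀.comp (nbp W' _))) (fun _ => rfl)
    (fun _ => rfl) (D.left a1 ⟨fun z => ⟨_, fst_mem z⟩, by fun_prop⟩ j fun _ => rfl)
    (D'.left a2 ⟨fun z => ⟨_, snd_mem z⟩, by fun_prop⟩ j' fun _ => rfl)
    (chain h3 hL hT hW.1 s D D' a1)
    ((chain h3 hL hT hW'.1 s' D' D a2).lift (fun F => sw ∘ F ∘ sw) fun _ _ => step_sw)
  exact ⟨h, h1, (Homotopic.refl (nbp W' _)).comp h2⟩

end Pool.Agent.Lib.NFB
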