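import Pool.Agent.Lib.NFB.Blue1

/-! Doubles are equivalent when each body embeds in the other. -/

namespace Pool.Agent.Lib.NFB

open Set Topology Metric unitInterval

namespace ATI0

variable {V : Type} [NormedAddCommGroup V] {N N' : Set V}

theorem fold1 (hF : St_FOLD) (hN : IsClosed N) (a : Nᶜ.Nonempty) (a' : N'ᶜ.Nonempty) (J : V ≃ₜ V)
    (j : C(N, N')) (hj : ∀ x, (j x : V) = J x) (k : C(N', N)) (hk : ∀ x, k (j x) = x) :
    ∃ Φ : C(Db N', Db N), IsFold (J '' N) k Φ := by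
  obtain ⟨Φ, h⟩ := hF V N N' ⟨fun z => J z.2, by fun_prop⟩ ⟨fun z => J.symm z.2, by fun_prop⟩ hN a a'
    ⟨fun _ x => J.symm_apply_apply x, fun _ x => J.apply_symm_apply x⟩
    (fun _ x hx => by
      have := (j ⟨x, hx⟩).2
      rwa [hj] at this)
    (k.comp ContinuousMap.snd) fun _ x h =>
      (congrArg k (Subtype.ext (hj x).symm : (⟨J x, h⟩ : N') = j x)).trans (hk x)
  exact ⟨Φ.comp ⟨fun z => (0, z), by fun_prop⟩, fun z => h 0 z⟩

theorem over_congr {w : Db N} {x : N} {P Q : Prop} (h : Over w x P) (h1 : Q → P)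
    (h2 : P → Q ∨ dp N x = 0) : Over w x Q := by
  refine ⟨h.1, h.2.trans ?_⟩
  by_cases p : P
  · rcases h2 p with q | q
    · rw [if_pos p, if_pos q]
    · rw [q, mul_zero, mul_zero]
  · rw [if_neg p, if_neg fun q => p (h1 q)]

theorem comp (a : Nᶜ.Nonempty) (a' : N'ᶜ.Nonempty) (J J' : V ≃ₜ V) (j k' : C(N, N'))
    (j' k : C(N', N)) (hj : ∀ x, (j x : V) = J x) (hj' : ∀ y, (j' y : V) = J' y)
    (hk : ∀ x, k (j x) = x) (hk' : ∀ y, k' (j' y) = y) {Φ : C(Db N', Db N)}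
    {Φ' : C(Db N, Db N')} (h : IsFold (J '' N) k Φ) (h' : IsFold (J' '' N') k' Φ') :
    IsFold ((J' ∘ J) '' N) (k.comp k') (Φ.comp Φ') := fun z => by
  have e : dpr N' (Φ' z) = k' (dpr N z) := Subtype.ext (h' z).1
  have key : ∀ y : N', J' y = z.1.1 → k' (dpr N z) = y := fun y hy =>
    (congrArg k' (Subtype.ext ((hj' y).trans hy).symm : dpr N z = j' y)).trans (hk' y)
  have h1 := h (Φ' z)
  rw [e] at h1
  refine over_congr h1 ?_ ?_
  · rintro ⟨s, x, hx, hz⟩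
    have hz' : J' (j ⟨x, hx⟩) = z.1.1 := by rw [hj]; exact hz
    refine ⟨?_, x, hx, ?_⟩
    · rw [(h' z).2, if_pos ⟨s, _, (j ⟨x, hx⟩).2, hz'⟩, one_mul]
      exact dp_nonneg _ _
    · rw [(h' z).1, key _ hz', hj]
  · rintro ⟨s, x, hx, hz⟩
    rw [(h' z).1] at hz
    by_cases p : 0 ≤ z.1.2 ∧ z.1.1 ∈ J' '' N'
    · obtain ⟨s', y, hy, hy'⟩ := p
      rw [key ⟨y, hy⟩ hy'] at hz
      exact .inl ⟨s', x, hx, (congrArg J' hz).trans hy'⟩
    · rw [(h' z).2, if_neg p, ← hz] at s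
      have e2 : k' (dpr N z) = j ⟨x, hx⟩ := Subtype.ext (hz.symm.trans (hj ⟨x, hx⟩).symm)
      refine .inr ?_
      rw [ContinuousMap.comp_apply, e2, hk]
      refine (dp_nonneg _ _).antisymm' (not_lt.1 fun hp => ?_)
      have h3 : J x ∈ interior N' :=
        interior_maximal (s := N') (t := J '' interior N)
          (by
            rintro _ ⟨y, hy, rfl⟩
            have := (j ⟨y, interior_subset hy⟩).2
            rwa [hj] at this)
          (J.isOpenMap _ isOpen_interior) ⟨x, (dp_pos_iff a).1 hp, rfl⟩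
      linarith [(dp_pos_iff a').2 h3]

theorem ind (hI : St_ISO) (c : IsCompact N) (a : Nᶜ.Nonempty) (t : HT N) {G : V → V}
    (h : Relation.ReflTransGen (Step N) id G) : ∀ (k : C(N, N)) (Φ : C(Db N, Db N)),
    (∀ (x : N) (h : G x ∈ N), k ⟨G x, h⟩ = x) → IsFold (G '' N) k Φ →
    Φ.Homotopic (.id (Db N)) := by
  induction h with
  | refl =>
    intro k Φ h1 h2
    have : Φ = .id _ := ContinuousMap.ext fun z => by
      have h3 := h2 z
      rw [show k (dpr N z) = dpr N z from h1 (dpr N z) (dpr N z).2] at h3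
      refine h3.unique (P' := 0 ≤ z.1.2) ⟨rfl, ?_⟩ (and_iff_left ⟨_, z.2.1, rfl⟩)
      change z.1.2 = _ * dp N z.1.1
      rw [← z.2.2]
      split_ifs with s
      · rw [abs_of_nonneg s, one_mul]
      · rw [abs_of_neg (not_le.1 s), neg_mul_neg, one_mul]
    rw [this]
  | tail _ s ih =>
    intro k Φ h1 h2
    obtain ⟨k₀, Φ₀, b1, b2, b3⟩ := hI V N c a t _ _ s k Φ h1 h2
    exact b3.symm.trans (ih k₀ Φ₀ b1 b2)

end ATI0

theorem bATI0 (hFOLD : St_FOLD) (hISO : St_ISO) (hLEFT : St_LEFT) : St_ATI0 := by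
  intro V _ N N' cN cN' a a' t t' J J' j c' j' c hj hj' e e' s s'
  have := isCompact_iff_compactSpace.1 cN
  have := isCompact_iff_compactSpace.1 cN'
  obtain ⟨k, hk, -⟩ := hLEFT N N' t j c
    (fun x y h => Subtype.ext (J.injective (by rw [← hj, ← hj, h]))) e
  obtain ⟨k', hk', kc⟩ := hLEFT N' N t' j' c'
    (fun x y h => Subtype.ext (J'.injective (by rw [← hj', ← hj', h]))) e'
  obtain ⟨Φ, h⟩ := ATI0.fold1 hFOLD cN.isClosed a a' J j hj k hk
  obtain ⟨Φ', h'⟩ := ATI0.fold1 hFOLD cN'.isClosed a' a J' j' hj' k' hk'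
  refine ⟨Φ', ⟨Φ, ATI0.ind hISO cN a t s (k.comp k') _ (fun x hx => ?_)
    (ATI0.comp a a' J J' j k' j' k hj hj' hk hk' h h'), ATI0.ind hISO cN' a' t' s' (k'.comp k) _
    (fun x hx => ?_) (ATI0.comp a' a J' J j' k j k' hj' hj hk' hk h' h)⟩, ?_⟩
  · rw [show (⟨(J' ∘ J) x, hx⟩ : N) = j' (j x) from Subtype.ext (by rw [hj', hj]; rfl),
      ContinuousMap.comp_apply, hk', hk]
  · rw [show (⟨(J ∘ J') x, hx⟩ : N') = j (j' x) from Subtype.ext (by rw [hj, hj']; rfl),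
      ContinuousMap.comp_apply, hk, hk']
  · rw [show (dpr N').comp Φ' = k'.comp (dpr N) from
      ContinuousMap.ext fun z => Subtype.ext (h' z).1]
    exact kc.comp (.refl _)

end Pool.Agent.Lib.NFB
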