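import Pool.Agent.Lib.NFB.Blue1

/-! Row `BDP`: paths in a product with a ball move into the frontier. -/

namespace Pool.Agent.Lib.NFB

open Set Topology Metric unitInterval Module

namespace BDP

theorem rel_trans {X : Type} [TopologicalSpace X] {R : X → X → Prop} {x y z x' y' z' : X}
    {a : Path x y} {b : Path y z} {a' : Path x' y'} {b' : Path y' z'} (h : ∀ t, R (a t) (a' t))
    (k : ∀ t, R (b t) (b' t)) (t : I) : R (a.trans b t) (a'.trans b' t) := by
  simp only [Path.trans_apply]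
  split_ifs
  · exact h _
  · exact k _

variable {V F : Type} [NormedAddCommGroup V] [NormedAddCommGroup F] [NormedSpace ℝ F] {W : Set V}

theorem hom {x y : NB W F} {a b : Path x y} (h : ∀ t, (a t).1.1 = (b t).1.1) : a.Homotopic b := by
  have m : ∀ s t : I, ((a t).1.1, (1 - s : ℝ) • (a t).1.2 + (s : ℝ) • (b t).1.2) ∈ NB W F :=
    fun s t => ⟨(a t).2.1, convex_closedBall (0 : F) 1 (a t).2.2 (b t).2.2 (one_minus_nonneg s)
      (nonneg s) (sub_add_cancel _ _)⟩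
  refine ⟨⟨⟨⟨fun z => ⟨_, m z.1 z.2⟩, by fun_prop⟩, fun t => Subtype.ext ?_,
    fun t => Subtype.ext ?_⟩, fun s t ht => Subtype.ext ?_⟩⟩
  · simp
  · simp [h]
  · rcases ht with rfl | rfl <;> simp [← add_smul]

theorem notMem {w : V} {v : F} : (w, v) ∉ interior (NB W F) ↔ w ∉ interior W ∨ 1 ≤ ‖v‖ := by
  rw [interior_prod_eq, interior_closedBall _ one_ne_zero, mem_prod, not_and_or, mem_ball_zero_iff,
    not_lt]

theorem arc (hF : 1 < Module.rank ℝ F) {e : F} (he : ‖e‖ = 1) (x : NB W F)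
    (hx : x.1 ∉ interior (NB W F)) : ∃ p : Path x ⟨(x.1.1, e), x.2.1, by simp [he]⟩,
      ∀ t, (p t).1 ∉ interior (NB W F) ∧ (p t).1.1 = x.1.1 := by
  have k : ∃ q : Path x.1.2 e, ∀ t, q t ∈ closedBall (0 : F) 1 ∧
      (x.1.1, q t) ∉ interior (NB W F) := by
    rcases notMem.1 hx with h | h
    · obtain ⟨q, hq⟩ := ((convex_closedBall (0 : F) 1).isPathConnected ⟨0, by simp⟩).joinedIn _
        x.2.2 e (by simp [he])
      exact ⟨q, fun t => ⟨hq t, notMem.2 (.inl h)⟩⟩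
    · obtain ⟨q, hq⟩ := (isPathConnected_sphere hF (0 : F) zero_le_one).joinedIn x.1.2
        (mem_sphere_zero_iff_norm.2 ((mem_closedBall_zero_iff.1 x.2.2).antisymm h)) e (by simp [he])
      exact ⟨q, fun t => ⟨sphere_subset_closedBall (hq t),
        notMem.2 (.inr (mem_sphere_zero_iff_norm.1 (hq t)).ge)⟩⟩
  obtain ⟨q, hq⟩ := k
  exact ⟨⟨⟨fun t => ⟨(x.1.1, q t), x.2.1, (hq t).1⟩, by fun_prop⟩, Subtype.ext (by simp),
    Subtype.ext (by simp)⟩, fun t => ⟨(hq t).2, rfl⟩⟩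

end BDP

open BDP in
/-- Row `BDP`. -/
theorem bBDP : St_BDP := by
  intro V F _ _ _ _ W hF x y γ hx hy
  have hF' : 1 < Module.rank ℝ F := by
    rw [← finrank_eq_rank]
    exact_mod_cast hF
  have : Nontrivial F := nontrivial_of_finrank_pos (R := ℝ) (by omega)
  obtain ⟨e, he⟩ := exists_norm_eq F zero_le_one
  obtain ⟨p, hp⟩ := arc hF' he x hx
  obtain ⟨q, hq⟩ := arc hF' he y hy
  let m : Path (⟨(x.1.1, e), x.2.1, by simp [he]⟩ : NB W F) ⟨(y.1.1, e), y.2.1, by simp [he]⟩ :=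
    ⟨⟨fun t => ⟨((γ t).1.1, e), (γ t).2.1, by simp [he]⟩, by fun_prop⟩, Subtype.ext (by simp),
      Subtype.ext (by simp)⟩
  let R := fun u v : NB W F => u.1 ∉ interior (NB W F) ∧ u.1.1 = v.1.1
  have k := rel_trans (R := R) (a' := .refl x) hp (rel_trans (R := R) (a := m) (b := q.symm)
    (a' := γ) (b' := .refl y) (fun t => ⟨notMem.2 (.inr he.ge), rfl⟩) fun t => hq _)
  exact ⟨_, (hom fun t => (k t).2).trans (.trans ⟨Path.Homotopy.reflTrans _⟩
    ⟨Path.Homotopy.transRefl _⟩), fun t => (k t).1⟩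

end Pool.Agent.Lib.NFB
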