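import Pool.Agent.Lib.NFB.Blue2

/-! Quotient coverings of mapping tori. -/

namespace Pool.Agent.Lib.NFB

open Set Topology

theorem bBOCOV : St_BOCOV := by
  intro Γ A A' _ _ _ _ p φ φ' h hp hc
  let s : Γ → C(A, A) := fun γ => ⟨(γ • ·), hp.continuous_const_smul γ⟩
  have hs : ∀ (γ : Γ) y, s γ (φ y) = φ (s γ y) := fun γ y => (hc γ y).symm
  let act : MulAction Γ (Bo φ) :=
    { smul := fun γ => Bo.map (s γ) (hs γ)
      one_smul := Bo.ind fun r y => congrArg (fun z => bm φ (r, z)) (one_smul Γ y)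
      mul_smul := fun γ δ => Bo.ind fun r y => congrArg (fun z => bm φ (r, z)) (mul_smul γ δ y) }
  have ha : ∀ (γ : Γ) r y, γ • bm φ (r, y) = bm φ (r, γ • y) := fun _ _ _ => rfl
  have hq : IsOpenQuotientMap (bm φ' ∘ Prod.map (id : ℝ → ℝ) p) :=
    bm_open.comp (IsOpenQuotientMap.id.prodMap hp.isOpenQuotientMap)
  have hq' : IsQuotientMap (Bo.map p h ∘ bm φ) := hq.isQuotientMap
  refine ⟨act, ha, ?_⟩
  refine
    { toIsQuotientMap := IsQuotientMap.of_comp (bm φ).continuous (Bo.map p h).continuous hq'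
      continuous_const_smul := fun γ => (Bo.map (s γ) (hs γ)).continuous
      apply_eq_iff_mem_orbit := ?_
      disjoint := Bo.ind fun r y => ?_ }
  · intro e₁ e₂
    induction e₁ using Bo.ind with
    | h r y =>
    induction e₂ using Bo.ind with
    | h r' y' =>
    rw [Bo.map_bm, Bo.map_bm]
    constructor
    · intro e
      obtain ⟨n, h1, h2⟩ := bm_eq.1 e.symm
      obtain ⟨γ, h3⟩ := hp.apply_eq_iff_mem_orbit.1 (h2.trans (semi_zpow h n y').symm)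
      refine ⟨γ, (ha γ r' y').trans (bm_eq.2 ⟨n, h1, ?_⟩)⟩
      exact h3.symm.trans (semi_zpow (hs γ) n y')
    · rintro ⟨γ, h3⟩
      have h4 := congrArg (Bo.map p h) (h3.symm.trans (ha γ r' y'))
      rwa [Bo.map_bm, Bo.map_bm, hp.map_smul] at h4
  · obtain ⟨U, hU, h1⟩ := hp.disjoint y
    refine ⟨bm φ '' (Ioo (r - 1 / 2) (r + 1 / 2) ×ˢ U), bm_open.isOpenMap.image_mem_nhds
      (prod_mem_nhds (Ioo_mem_nhds (by linarith) (by linarith)) hU), ?_⟩
    rintro γ ⟨_, ⟨_, ⟨⟨t, u⟩, ⟨ht, hu⟩, rfl⟩, rfl⟩, ⟨t', u'⟩, ⟨ht', hu'⟩, e⟩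
    obtain ⟨n, h2, h3⟩ := bm_eq.1 (e.trans (ha γ t u))
    have h4 : |(n : ℝ)| < 1 := by
      rw [abs_lt]
      constructor <;> linarith [ht.1, ht.2, ht'.1, ht'.2, show t = t' + n from h2]
    obtain rfl : n = 0 := Int.abs_lt_one_iff.1 (by exact_mod_cast h4)
    exact h1 γ ⟨u', ⟨u, hu, by simpa using h3⟩, hu'⟩

end Pool.Agent.Lib.NFB
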