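import Pool.Agent.Lib.NFB.Blue1

/-! Homotopy extension into bodies. -/

namespace Pool.Agent.Lib.NFB

open Set Topology Metric unitInterval
open scoped Classical

noncomputable section

theorem bBOR (hENR : St_ENR) : St_BOR := by
  intro V _ _ _ N hN Y _ _ _ A hA c h h0
  obtain ⟨O, r, hO, hNO, hr, hrO, hrN⟩ := hENR V N hN
  have : TietzeExtension.{0} V := TietzeExtension.of_tvs ℝ
  let g : I × Y → V := fun p => if hp : p.2 ∈ A then (h (p.1, ⟨p.2, hp⟩) : V) else c p.2
  have g0 : ∀ y, g (0, y) = c y := fun y => by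
    by_cases hy : y ∈ A
    · exact (dif_pos hy).trans (congrArg Subtype.val (h0 ⟨y, hy⟩))
    · exact dif_neg hy
  have g1 : ∀ s (a : A), g (s, a) = h (s, a) := fun s a => dif_pos a.2
  have c0 : IsClosed {p : I × Y | p.1 = 0} := isClosed_eq continuous_fst continuous_const
  have c1 : IsClosed {p : I × Y | p.2 ∈ A} := hA.preimage continuous_snd
  have hg : ContinuousOn g ({p | p.1 = 0} ∪ {p | p.2 ∈ A}) := by
    refine ContinuousOn.union_of_isClosed ?_ ?_ c0 c1
    · refine (continuous_subtype_val.comp (c.continuous.comp continuous_snd)).continuousOn.congr ?_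
      rintro ⟨s, y⟩ (rfl : s = 0)
      exact g0 y
    · rw [continuousOn_iff_continuous_domRestrict]
      have h1 : Continuous fun p : {p : I × Y | p.2 ∈ A} => (h (p.1.1, ⟨p.1.2, p.2⟩) : V) := by
        fun_prop
      exact h1.congr fun p => (g1 p.1.1 ⟨p.1.2, p.2⟩).symm
  obtain ⟨G, hG⟩ := ContinuousMap.exists_restrict_eq (c0.union c1)
    ⟨_, continuousOn_iff_continuous_domRestrict.1 hg⟩
  have G0 : ∀ y, G (0, y) = c y := fun y =>
    (DFunLike.congr_fun hG ⟨(0, y), Or.inl rfl⟩).trans (g0 y)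
  have G1 : ∀ s (a : A), G (s, a) = h (s, a) := fun s a =>
    (DFunLike.congr_fun hG ⟨(s, a), Or.inr a.2⟩).trans (g1 s a)
  have hB : IsClosed (Prod.snd '' (G ⁻¹' Oᶜ)) :=
    ((hO.isClosed_compl.preimage G.continuous).isCompact.image continuous_snd).isClosed
  obtain ⟨τ, t0, t1, t2⟩ := exists_continuous_zero_one_of_isClosed hB hA (by
    rw [Set.disjoint_left]
    rintro _ ⟨⟨s, y⟩, hp, rfl⟩ hy
    exact hp (hNO (G1 s ⟨y, hy⟩ ▸ (h (s, ⟨y, hy⟩)).2)))
  let ρ : Y → I := fun y => ⟨τ y, t2 y⟩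
  have hρ : Continuous ρ := τ.continuous.subtype_mk _
  have hm : ∀ p : I × Y, r (G (p.1 * ρ p.2, p.2)) ∈ N := fun p => by
    refine hrO ?_
    by_contra hc
    have h1 : ρ p.2 = 0 := Subtype.ext (t0 ⟨_, hc, rfl⟩)
    rw [h1, mul_zero, G0] at hc
    exact hc (hNO (c p.2).2)
  have hc : Continuous fun p : I × Y => p.1 * ρ p.2 :=
    continuous_induced_rng.2 ((continuous_subtype_val.comp continuous_fst).mul
      (continuous_subtype_val.comp (hρ.comp continuous_snd)))
  refine ⟨⟨fun p => ⟨_, hm p⟩, (hr.comp (G.continuous.comp (hc.prodMk continuous_snd))).subtype_mk _⟩,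
    fun y => Subtype.ext ?_, fun s a => Subtype.ext ?_⟩
  · change r (G (0 * ρ y, y)) = c y
    rw [zero_mul, G0, hrN _ (c y).2]
  · have h1 : ρ a = 1 := Subtype.ext (t1 a.2)
    change r (G (s * ρ a, a)) = h (s, a)
    rw [h1, mul_one, G1, hrN _ (h (s, a)).2]

end

end Pool.Agent.Lib.NFB
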