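import Pool.Agent.Lib.NFB.Blue1

/-! Row CBAS: the point, the empty space and spheres are equivalent to bodies. -/

namespace Pool.Agent.Lib.NFB

open Set Topology Metric unitInterval Module

namespace CBAS

variable {V : Type} [NormedAddCommGroup V] [NormedSpace ℝ V]

theorem el [FiniteDimensional ℝ V] : EL {x : V | 1 ≤ ‖x‖ ∧ ‖x‖ ≤ 2} := by
  haveI := FiniteDimensional.proper_real V
  refine ⟨(isCompact_closedBall (0 : V) 2).of_isClosed_subset
    ((isClosed_le continuous_const continuous_norm).inter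
      (isClosed_le continuous_norm continuous_const))
    fun x hx => mem_closedBall_zero_iff.2 hx.2, fun x hx => ?_⟩
  rcases le_total ‖x‖ (3 / 2) with h | h
  · refine ⟨x, 1 / 10, by norm_num, fun y hy h1 w h2 t t0 t1 => ⟨?_, ?_⟩⟩
    · have a := norm_sub_le (y + t • w) (t • (w - y))
      have e : y + t • w - t • (w - y) = (1 + t) • y := by module
      have b := norm_sub_le (w - x) (y - x)
      rw [sub_sub_sub_cancel_right] at b
      rw [e, norm_smul, norm_smul, Real.norm_of_nonneg t0, Real.norm_of_nonneg (by linarith)] at a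
      nlinarith [hy.1]
    · have a := norm_add_le y (t • w)
      have b := norm_sub_norm_le y x
      have c := norm_sub_norm_le w x
      rw [norm_smul, Real.norm_of_nonneg t0] at a
      nlinarith [norm_nonneg w]
  · refine ⟨-x, 1 / 10, by norm_num, fun y hy h1 w h2 t t0 t1 => ⟨?_, ?_⟩⟩
    · have a := norm_sub_le (y + t • w) (t • w)
      have b := norm_sub_norm_le x y
      have c := norm_sub_norm_le w (-x)
      rw [norm_sub_rev] at b
      rw [norm_neg] at c
      rw [add_sub_cancel_right, norm_smul, Real.norm_of_nonneg t0] at a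
      nlinarith [norm_nonneg w, hx.2]
    · have a := norm_add_le ((1 - t) • y) (t • (w + y))
      have e : (1 - t) • y + t • (w + y) = y + t • w := by module
      have b := norm_add_le (w - -x) (y - x)
      have e2 : w - -x + (y - x) = w + y := by abel
      rw [e2] at b
      rw [e, norm_smul, norm_smul, Real.norm_of_nonneg t0, Real.norm_of_nonneg (by linarith)] at a
      nlinarith [hy.2, hy.1]

theorem nrm {x : V} (hx : 1 ≤ ‖x‖) (t : I) :
    ‖((1 - (t : ℝ)) * ‖x‖⁻¹ + t) • x‖ = 1 - t + t * ‖x‖ := by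
  have p : 0 < ‖x‖ := one_pos.trans_le hx
  have a := t.2.1
  have b := sub_nonneg.2 t.2.2
  rw [norm_smul, Real.norm_of_nonneg (by positivity)]
  field_simp

end CBAS

open CBAS in
theorem bCBAS (hELP : St_ELP) : St_CBAS := by
  refine ⟨⟨ℝ, inferInstance, inferInstance, inferInstance, Icc 0 1, .const _ (),
    hELP.2.2 0 1 one_pos, .const _ 0, homotopic_of ⟨fun z => z.1 * z.2, by fun_prop⟩
      (fun x => by simp) fun x => by simp, by rw [Subsingleton.elim (ContinuousMap.comp _ _) (.id _)]⟩,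
    ⟨ℝ, inferInstance, inferInstance, inferInstance, ∅, ⟨fun x => x.2.elim, by fun_prop⟩,
      ⟨isCompact_empty, fun _ h => h.elim⟩, .of_inv ⟨fun x => x.elim, by fun_prop⟩
        (fun x => x.2.elim) fun x => x.elim⟩, fun V _ _ _ => ?_⟩
  have c : Continuous fun x : {x : V | 1 ≤ ‖x‖ ∧ ‖x‖ ≤ 2} => ‖x.1‖⁻¹ :=
    continuous_subtype_val.norm.inv₀ fun x => (one_pos.trans_le x.2.1).ne'
  let e : C({x : V | 1 ≤ ‖x‖ ∧ ‖x‖ ≤ 2}, sphere (0 : V) 1) := ⟨fun x => ⟨‖x.1‖⁻¹ • x.1, by
    simpa using nrm x.2.1 0⟩, by fun_prop⟩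
  let g : C(sphere (0 : V) 1, {x : V | 1 ≤ ‖x‖ ∧ ‖x‖ ≤ 2}) := ⟨fun y => ⟨y.1, by
    rw [mem_setOf_eq, mem_sphere_zero_iff_norm.1 y.2]
    norm_num⟩, by fun_prop⟩
  let H : C(I × {x : V | 1 ≤ ‖x‖ ∧ ‖x‖ ≤ 2}, {x : V | 1 ≤ ‖x‖ ∧ ‖x‖ ≤ 2}) := ⟨fun z =>
    ⟨((1 - (z.1 : ℝ)) * ‖z.2.1‖⁻¹ + z.1) • z.2.1, by
      rw [mem_setOf_eq, nrm z.2.2.1]
      have a := z.1.2.1
      have b := z.1.2.2
      constructor <;> nlinarith [z.2.2.1, z.2.2.2]⟩, by
    fun_prop (disch := exact fun x => (one_pos.trans_le x.2.2.1).ne')⟩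
  have h : e.comp g = .id _ := ContinuousMap.ext fun y =>
    Subtype.ext (by simp [e, g, mem_sphere_zero_iff_norm.1 y.2])
  exact ⟨V, inferInstance, inferInstance, inferInstance, _, e, el, g, homotopic_of H
    (fun x => Subtype.ext (by simp [H, e, g])) fun x => Subtype.ext (by simp [H]), by rw [h]⟩

end Pool.Agent.Lib.NFB
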