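import Pool.Agent.Lib.NFB.Blue2

/-! Sums, mapping tori and products with the circle are equivalent to bodies. -/

namespace Pool.Agent.Lib.NFB

open Set Topology unitInterval ContinuousMap

namespace CBO

/-- the map from the empty space -/
def emp (A : Type) [TopologicalSpace A] : C(Empty, A) :=
  ⟨Empty.elim, continuous_of_discreteTopology⟩

theorem sum (hC : St_CLS) (hB : St_CBAS) (A B : Type) [TopologicalSpace A] [TopologicalSpace B]
    (a : CC A) (b : CC B) : CC (A ⊕ B) := by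
  have h := hC A B Empty (emp A) (emp B) a b hB.2.1
  refine (CC.of_HE (f := se (inA (emp A) (emp B)) (inB (emp A) (emp B))) ?_).2 h
  refine HE.of_inv (DM.lift ⟨.inl, continuous_inl⟩ ⟨fun z => z.1.elim, ?_⟩ ⟨.inr, continuous_inr⟩
    (fun c => c.elim) fun c => c.elim) ?_ ?_
  · exact continuous_iff_continuousAt.2 fun z => z.1.elim
  · rintro (x | x) <;> rfl
  · exact DM.ind (fun _ => rfl) (fun c => c.elim) fun _ => rfl

theorem tor (hT : St_TORUS) (hC : St_CLS) (hB : St_CBAS) (A Y : Type) [TopologicalSpace A]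
    [TopologicalSpace Y] [CompactSpace A] [T2Space Y] (a : CC A) (φ : A ≃ₜ A) (π : C(ℝ × A, Y))
    (h1 : Function.Surjective π)
    (h2 : ∀ z z', π z = π z' ↔ ∃ n : ℤ, z'.1 = z.1 + n ∧ z'.2 = (φ ^ n) z.2) : CC Y := by
  obtain ⟨e, -⟩ := hT A Y φ π h1 h2
  exact (CC.of_HE (HE.homeo e)).1 (hC A A (A ⊕ A) _ _ a a (sum hC hB A A a a))

theorem refl_zpow {A : Type} [TopologicalSpace A] (n : ℤ) (y : A) :
    ((Homeomorph.refl A) ^ n) y = y := by
  rw [show Homeomorph.refl A = 1 from rfl, one_zpow]; rfl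

end CBO

theorem bCBO (hT : St_TORUS) (hC : St_CLS) (hB : St_CBAS) : St_CBO := by
  refine ⟨CBO.sum hC hB, fun A _ _ _ a => ⟨fun φ => ?_, ?_⟩⟩
  · exact CBO.tor hT hC hB A _ a φ (bm φ) bm_open.surjective fun _ _ => bm_eq
  · refine CBO.tor hT hC hB A _ a (.refl A) ⟨fun z => (z.2, ex z.1), by fun_prop⟩ ?_ ?_
    · rintro ⟨y, w⟩
      obtain ⟨r, rfl⟩ := ex_surj w
      exact ⟨(r, y), rfl⟩
    · rintro ⟨r, y⟩ ⟨r', y'⟩
      simp only [coe_mk, Prod.mk.injEq, CBO.refl_zpow]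
      rw [eq_comm (a := ex r), ex_eq_iff, eq_comm (a := y), and_comm, exists_and_right]

end Pool.Agent.Lib.NFB
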