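import Pool.Agent.Lib.NFB.Blue1

/-! The union of the three pieces is a body. -/

namespace Pool.Agent.Lib.NFB

open Set Topology Metric Filter

namespace CEL

variable {W : Type} [NormedAddCommGroup W] [NormedSpace ℝ W]

theorem loc {N N' : Set W} {x₀ : W} (hs : N' ⊆ N) (hn : ∀ᶠ y in 𝓝 x₀, y ∈ N → y ∈ N')
    (h : ∃ e r, 0 < r ∧ ELat N' x₀ e r) : ∃ e r, 0 < r ∧ ELat N x₀ e r := by
  obtain ⟨e, r, hr, h⟩ := h
  obtain ⟨ρ, hρ, hb⟩ := Metric.eventually_nhds_iff.1 hn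
  refine ⟨e, min r ρ, lt_min hr hρ, fun y hy h1 w h2 t h3 h4 => hs ?_⟩
  exact h y (hb (by rw [dist_eq_norm]; exact h1.trans_le (min_le_right _ _)) hy)
    (h1.trans_le (min_le_left _ _)) w (h2.trans_le (min_le_left _ _)) t h3
    (h4.trans (min_le_left _ _))

theorem junction {N : Set (W × ℝ)} {Q G : Set W} {y₀ : W} {s : ℝ} (hs : |s| = 1)
    (hQ : Q ∈ 𝓝 y₀) (hG : ∃ e r, 0 < r ∧ ELat G y₀ e r)
    (h1 : ∀ y ∈ Q, ∀ p, 0 ≤ s * (p - s) → |p - s| ≤ 1 / 2 → (y, p) ∈ N)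
    (h2 : ∀ y ∈ G, ∀ p, |p - s| ≤ 1 / 2 → (y, p) ∈ N)
    (h3 : ∀ z ∈ N, |z.2 - s| < 1 / 2 → 0 ≤ s * (z.2 - s) ∨ z.1 ∈ G) :
    ∃ e r, 0 < r ∧ ELat N (y₀, s) e r := by
  obtain ⟨e, r, hr, hG⟩ := hG
  obtain ⟨ρ, hρ, hb⟩ := Metric.mem_nhds_iff.1 hQ
  have he : 0 < ‖e‖ + 2 := by positivity
  obtain ⟨r', p0, p1, p2, p3⟩ : ∃ r' : ℝ, 0 < r' ∧ r' ≤ r ∧ r' ≤ 1 / 8 ∧ r' * (‖e‖ + 2) ≤ ρ :=
    ⟨min r (min (1 / 8) (ρ / (‖e‖ + 2))), by positivity, min_le_left _ _,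
      (min_le_right _ _).trans (min_le_left _ _),
      (le_div_iff₀ he).1 ((min_le_right _ _).trans (min_le_right _ _))⟩
  refine ⟨(e, s), r', p0, fun y hy a1 w a2 t a3 a4 => ?_⟩
  have b1 : ‖y.1 - y₀‖ < r' := (norm_fst_le (y - (y₀, s))).trans_lt a1
  have b2 : |y.2 - s| < r' := (norm_snd_le (y - (y₀, s))).trans_lt a1
  have b3 : ‖w.1 - e‖ < r' := (norm_fst_le (w - (e, s))).trans_lt a2
  have b4 : |w.2 - s| < r' := (norm_snd_le (w - (e, s))).trans_lt a2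
  have c1 : |w.2| ≤ 2 := by
    have := abs_add_le (w.2 - s) s
    rw [sub_add_cancel] at this
    linarith
  have c2 : |y.2 + t * w.2 - s| ≤ 1 / 2 := by
    have := abs_add_le (y.2 - s) (t * w.2)
    rw [abs_mul, abs_of_nonneg a3] at this
    rw [show y.2 + t * w.2 - s = y.2 - s + t * w.2 by ring]
    nlinarith
  show (y.1 + t • w.1, y.2 + t * w.2) ∈ N
  rcases h3 y hy (by linarith) with h | h
  · refine h1 _ (hb ?_) _ ?_ c2
    · have d1 : ‖w.1‖ ≤ ‖e‖ + 1 := by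
        have := norm_add_le (w.1 - e) e
        rw [sub_add_cancel] at this
        linarith
      have d2 := norm_add_le (y.1 - y₀) (t • w.1)
      rw [norm_smul, Real.norm_of_nonneg a3] at d2
      rw [mem_ball, dist_eq_norm, show y.1 + t • w.1 - y₀ = y.1 - y₀ + t • w.1 by abel]
      have d3 : t * ‖w.1‖ ≤ r' * (‖e‖ + 1) := mul_le_mul a4 d1 (norm_nonneg _) p0.le
      linarith
    · have d1 : s * s = 1 := by rw [← abs_mul_abs_self, hs, one_mul]
      have d2 : |s * (w.2 - s)| ≤ 1 := by rw [abs_mul, hs]; linarith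
      have d3 : 0 ≤ s * w.2 := by have := (abs_le.1 d2).1; nlinarith
      have := mul_nonneg a3 d3
      nlinarith
  · exact h2 _ (hG _ h (b1.trans_le p1) _ (b3.trans_le p1) t a3 (a4.trans p1)) _ c2

end CEL

open CEL in
theorem bCEL (hELP : St_ELP) (hGRN : St_GRN) : St_CEL := by
  intro V A B _ _ _ _ _ _ _ _ _ NA NB C f g δ R hA hB hC hf hg hδ hR fA gB sA sB sC
  obtain ⟨pr, bl, iv⟩ := hELP
  have eG := hGRN V (A × B) C (fun x => (f x, g x)) δ hC (hf.prodMk hg) hδ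
  set G := Gr C (fun x => (f x, g x)) δ with hG
  have e1 := pr _ _ _ _ (pr _ _ _ _ (bl V R hR) (pr _ _ _ _ hA (bl B R hR)))
    (iv (-2) (-1) (by norm_num))
  have e2 := pr _ _ _ _ eG (iv (-3 / 2) (3 / 2) (by norm_num))
  have e3 := pr _ _ _ _ (pr _ _ _ _ (bl V R hR) (pr _ _ _ _ (bl A R hR) hB))
    (iv 1 2 (by norm_num))
  have nA : ∀ y ∈ G, NA ∈ 𝓝 y.2.1 := fun y hy => by
    refine mem_of_superset (closedBall_mem_nhds _ hδ) fun a ha => fA _ hy.1 ?_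
    have h1 : dist y.2.1 (f y.1) ≤ δ := by
      rw [dist_eq_norm]; exact (norm_fst_le (y.2 - (f y.1, g y.1))).trans hy.2
    have := dist_triangle a y.2.1 (f y.1)
    rw [mem_closedBall] at ha ⊢
    linarith
  have nB : ∀ y ∈ G, NB ∈ 𝓝 y.2.2 := fun y hy => by
    refine mem_of_superset (closedBall_mem_nhds _ hδ) fun a ha => gB _ hy.1 ?_
    have h1 : dist y.2.2 (g y.1) ≤ δ := by
      rw [dist_eq_norm]; exact (norm_snd_le (y.2 - (f y.1, g y.1))).trans hy.2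
    have := dist_triangle a y.2.2 (g y.1)
    rw [mem_closedBall] at ha ⊢
    linarith
  have nV : ∀ y ∈ G, closedBall (0 : V) R ∈ 𝓝 y.1 := fun y hy =>
    mem_of_superset (isOpen_ball.mem_nhds (sC hy.1)) ball_subset_closedBall
  have q1 : ∀ y ∈ G, closedBall (0 : V) R ×ˢ (NA ×ˢ closedBall (0 : B) R) ∈ 𝓝 y := fun y hy =>
    prod_mem_nhds (nV y hy) (prod_mem_nhds (nA y hy)
      (mem_of_superset (nB y hy) (sB.trans ball_subset_closedBall)))
  have q3 : ∀ y ∈ G, closedBall (0 : V) R ×ˢ (closedBall (0 : A) R ×ˢ NB) ∈ 𝓝 y := fun y hy =>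
    prod_mem_nhds (nV y hy) (prod_mem_nhds
      (mem_of_superset (nA y hy) (sA.trans ball_subset_closedBall)) (nB y hy))
  have m2 : ∀ y ∈ G, ∀ p : ℝ, -3 / 2 ≤ p → p ≤ 3 / 2 → (y, p) ∈ Om NA NB C f g δ R :=
    fun y hy p a b => .inl (.inr ⟨hy, a, b⟩)
  have lt : ∀ (z : (V × (A × B)) × ℝ) (c : ℝ), z.2 < c → ∀ᶠ y in 𝓝 z, y.2 < c := fun z c h =>
    (isOpen_lt continuous_snd continuous_const).mem_nhds h
  have gt : ∀ (z : (V × (A × B)) × ℝ) (c : ℝ), c < z.2 → ∀ᶠ y in 𝓝 z, c < y.2 := fun z c h =>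
    (isOpen_lt continuous_const continuous_snd).mem_nhds h
  have ng : ∀ z : (V × (A × B)) × ℝ, z.1 ∉ G → ∀ᶠ y in 𝓝 z, y.1 ∉ G := fun z h =>
    (eG.1.isClosed.preimage continuous_fst).isOpen_compl.mem_nhds h
  refine ⟨(e1.1.union e2.1).union e3.1, fun z hz => ?_⟩
  by_cases c1 : z.2 < 1 ∧ (z.2 < -1 ∨ z.1 ∉ G)
  · have k : ∀ᶠ y in 𝓝 z, y ∈ Om NA NB C f g δ R →
        y ∈ (closedBall (0 : V) R ×ˢ (NA ×ˢ closedBall (0 : B) R)) ×ˢ Icc (-2 : ℝ) (-1) := by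
      rcases c1.2 with h | h
      · filter_upwards [lt z _ h] with y hy hm
        rcases hm with (hm | hm) | hm
        · exact hm
        · exact ⟨mem_of_mem_nhds (q1 _ hm.1), by linarith [hm.2.1], hy.le⟩
        · linarith [hm.2.1]
      · filter_upwards [lt z _ c1.1, ng z h] with y hy hy' hm
        rcases hm with (hm | hm) | hm
        · exact hm
        · exact absurd hm.1 hy'
        · linarith [hm.2.1]
    exact loc (fun _ h => .inl (.inl h)) k (e1.2 z (k.self_of_nhds hz))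
  by_cases c3 : -1 < z.2 ∧ (1 < z.2 ∨ z.1 ∉ G)
  · have k : ∀ᶠ y in 𝓝 z, y ∈ Om NA NB C f g δ R →
        y ∈ (closedBall (0 : V) R ×ˢ (closedBall (0 : A) R ×ˢ NB)) ×ˢ Icc (1 : ℝ) 2 := by
      rcases c3.2 with h | h
      · filter_upwards [gt z _ h] with y hy hm
        rcases hm with (hm | hm) | hm
        · linarith [hm.2.2]
        · exact ⟨mem_of_mem_nhds (q3 _ hm.1), hy.le, by linarith [hm.2.2]⟩
        · exact hm
      · filter_upwards [gt z _ c3.1, ng z h] with y hy hy' hm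
        rcases hm with (hm | hm) | hm
        · linarith [hm.2.2]
        · exact absurd hm.1 hy'
        · exact hm
    exact loc (fun _ h => .inr h) k (e3.2 z (k.self_of_nhds hz))
  have zG : z.1 ∈ G ∧ -1 ≤ z.2 ∧ z.2 ≤ 1 := by
    by_cases h : z.1 ∈ G
    · refine ⟨h, not_lt.1 fun h' => c1 ⟨by linarith, .inl h'⟩,
        not_lt.1 fun h' => c3 ⟨by linarith, .inl h'⟩⟩
    · rcases lt_or_ge z.2 1 with h' | h'
      · exact absurd ⟨h', .inr h⟩ c1
      · exact absurd ⟨by linarith, .inr h⟩ c3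
  obtain ⟨y₀, p⟩ := z
  obtain ⟨z1, z2, z3⟩ := zG
  rcases z2.eq_or_lt with rfl | z2
  · refine junction (by simp) (q1 _ z1) (eG.2 _ z1) (fun y hy p a b => ?_) (fun y hy p b => ?_)
      fun y hy b => ?_
    · exact .inl (.inl ⟨hy, by linarith [(abs_le.1 b).1], by linarith⟩)
    · exact m2 y hy p (by linarith [(abs_le.1 b).1]) (by linarith [(abs_le.1 b).2])
    · rcases hy with (hm | hm) | hm
      · exact .inl (by linarith [hm.2.2])
      · exact .inr hm.1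
      · linarith [hm.2.1, (abs_lt.1 b).2]
  rcases z3.eq_or_lt with rfl | z3
  · refine junction (by simp) (q3 _ z1) (eG.2 _ z1) (fun y hy p a b => ?_) (fun y hy p b => ?_)
      fun y hy b => ?_
    · exact .inr ⟨hy, by linarith, by linarith [(abs_le.1 b).2]⟩
    · exact m2 y hy p (by linarith [(abs_le.1 b).1]) (by linarith [(abs_le.1 b).2])
    · rcases hy with (hm | hm) | hm
      · linarith [hm.2.2, (abs_lt.1 b).1]
      · exact .inr hm.1
      · exact .inl (by linarith [hm.2.1])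
  · refine loc (N' := G ×ˢ Icc (-3 / 2) (3 / 2)) (fun _ h => .inl (.inr h)) ?_
      (e2.2 _ ⟨z1, by linarith, by linarith⟩)
    filter_upwards [gt (y₀, p) _ z2, lt (y₀, p) _ z3] with y a b hm
    rcases hm with (hm | hm) | hm
    · linarith [hm.2.2]
    · exact hm
    · linarith [hm.2.1]

end Pool.Agent.Lib.NFB
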