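import Pool.Agent.Lib.NFB.Blue2

/-! Recognising an attached cell. -/

namespace Pool.Agent.Lib.NFB

open Set Topology Metric unitInterval

theorem bCELL : St_CELL := by
  intro V A P _ _ _ _ _ _ _ j Φ φ hj h1 h2 h3 h4
  have : ProperSpace V := FiniteDimensional.proper_real V
  have nm : ∀ z : sphere (0 : V) 1 × I, ‖(1 - z.2.1) • z.1.1‖ = 1 - z.2.1 := fun z => by
    rw [norm_smul, norm_eq_of_mem_sphere, mul_one, Real.norm_of_nonneg (sub_nonneg.2 z.2.2.2)]
  let R : C(sphere (0 : V) 1 × I, closedBall (0 : V) 1) :=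
    ⟨fun z => ⟨(1 - z.2.1) • z.1.1, mem_closedBall_zero_iff.2 (by
      rw [nm]; linarith [z.2.2.1])⟩, Continuous.subtype_mk (by fun_prop) _⟩
  let o : closedBall (0 : V) 1 := ⟨0, mem_closedBall_self zero_le_one⟩
  have no : ‖o.1‖ < 1 := by simp [o]
  have nR : ∀ z, ‖(R z).1‖ = 1 - z.2.1 := nm
  have lt : ∀ c (t : I), t ≠ 0 → ‖(R (c, t)).1‖ < 1 := fun c t h => by
    have : (0 : ℝ) < t := unitInterval.pos_iff_ne_zero.2 h
    rw [nR]
    linarith
  have ne : ∀ c (t : I), t ≠ 1 → R (c, t) ≠ o := fun c t h e => h (Subtype.ext (by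
    have k := nR (c, t)
    rw [e] at k
    simp only [o, norm_zero] at k
    show (t : ℝ) = 1
    linarith))
  let F : C(DM φ (cu _), P) := DM.lift j (Φ.comp R) (.const _ (Φ o))
    (fun c => (congrArg Φ (Subtype.ext (by simp [R]))).trans (h1 c))
    fun c => congrArg Φ (Subtype.ext (by simp [R, o]))
  have inj : Function.Injective F := fun x y h => by
    rcases x.cases with ⟨a, rfl⟩ | ⟨c, t, t0, t1, rfl⟩ | ⟨b, rfl⟩ <;>
      rcases y.cases with ⟨a', rfl⟩ | ⟨c', t', t0', t1', rfl⟩ | ⟨b', rfl⟩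
    · rw [hj h]
    · exact absurd h.symm (h3 _ _ (lt c' t' t0'))
    · exact absurd h.symm (h3 _ _ no)
    · exact absurd h (h3 _ _ (lt c t t0))
    · have e := h2 _ _ (lt c t t0) (lt c' t' t0') h
      have k := nR (c, t)
      rw [e, nR] at k
      obtain rfl : t = t' := Subtype.ext (by simp only at k; linarith)
      have p : (1 - t.1) ≠ 0 := fun q => t1 (Subtype.ext (by show (t : ℝ) = 1; linarith))
      obtain rfl : c = c' := Subtype.ext (smul_right_injective V p (congrArg Subtype.val e))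
      rfl
    · exact absurd (h2 _ _ (lt c t t0) no h) (ne c t t1)
    · exact absurd h (h3 _ _ no)
    · exact absurd (h2 _ _ (lt c' t' t0') no h.symm) (ne c' t' t1')
    · rfl
  have sur : Function.Surjective F := fun p => by
    rcases h4 p with ⟨a, rfl⟩ | ⟨x, rfl⟩
    · exact ⟨inA _ _ a, rfl⟩
    by_cases hx : x.1 = 0
    · exact ⟨inB _ _ (), congrArg Φ (Subtype.ext hx.symm)⟩
    have n0 : ‖x.1‖ ≠ 0 := norm_ne_zero_iff.2 hx
    have n1 : ‖x.1‖ ≤ 1 := mem_closedBall_zero_iff.1 x.2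
    refine ⟨cy _ _ (⟨‖x.1‖⁻¹ • x.1, mem_sphere_zero_iff_norm.2 (norm_smul_inv_norm hx)⟩,
      ⟨1 - ‖x.1‖, by linarith, by linarith [norm_nonneg x.1]⟩), congrArg Φ (Subtype.ext ?_)⟩
    simp [R, smul_smul, n0]
  exact ⟨Continuous.homeoOfEquivCompactToT2 (f := Equiv.ofBijective F ⟨inj, sur⟩) F.continuous,
    fun _ => rfl⟩

end Pool.Agent.Lib.NFB
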