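import Pool.Agent.Lib.NFB.Blue1

/-! Row CHART: doubles of bodies are manifolds. -/

namespace Pool.Agent.Lib.NFB

open Set Topology Metric unitInterval Module

theorem bCHART (hF : St_FIELD) (hL : St_LEV) : St_CHART := by
  intro V _ _ _ N hN h1 h2
  obtain ⟨u, m, η, c, f⟩ := hF V N hN h1 h2
  have hη : 0 < η := f.pos.trans_le f.le
  have key : ∀ P : V × ℝ → Prop, (P = fun p => sd N p.1 + |p.2| = 0) →
      Nonempty (ChartedSpace (EuclideanSpace ℝ (Fin (finrank ℝ V))) {p // P p}) := by
    rintro _ rfl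
    refine hL (V × ℝ) (fun p => sd N p.1 + |p.2|) _
      (((continuous_sd N).comp continuous_fst).add continuous_snd.abs)
      (by rw [Module.finrank_prod, Module.finrank_self]) fun p hp => ?_
    have hq : ∀ {q : V × ℝ} {r : ℝ}, ‖q - p‖ < r → ‖q.1 - p.1‖ < r ∧ |q.2 - p.2| < r :=
      fun h => ⟨(norm_fst_le _).trans_lt h, (norm_snd_le _).trans_lt h⟩
    rcases lt_trichotomy p.2 0 with h | h | h
    · refine ⟨(0, 1), -p.2 / 2, by linarith, fun q hr s hs t ht hst => ?_⟩
      have h3 := (abs_lt.1 (hq hr).2).2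
      simp only [Prod.fst_add, Prod.snd_add, Prod.smul_mk, smul_zero, add_zero, smul_eq_mul,
        mul_one]
      rw [abs_of_neg (by linarith [ht.2]), abs_of_neg (by linarith [hs.2])]
      linarith
    · have h0 : sd N p.1 = 0 := by
        have h4 : sd N p.1 + |p.2| = 0 := hp
        rwa [h, abs_zero, add_zero] at h4
      have hm : 0 < m p.1 := f.pos.trans_le (f.big _ (by rw [h0, abs_zero]; exact hη.le))
      refine ⟨(u p.1, 0), min (1 / 2) (η / 2), lt_min (by norm_num) (by linarith),
        fun q hr s hs t ht hst => ?_⟩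
      have r1 : min (1 / 2) (η / 2) ≤ 1 / 2 := min_le_left _ _
      have r2 : min (1 / 2) (η / 2) ≤ η / 2 := min_le_right _ _
      simp only [Prod.fst_add, Prod.snd_add, Prod.smul_mk, smul_zero, add_zero]
      have h5 : ‖q.1 + s • u p.1 - p.1‖ ≤ η := by
        rw [add_sub_right_comm]
        refine (norm_add_le _ _).trans ?_
        have h6 : ‖s • u p.1‖ ≤ 1 / 2 * η := by
          rw [norm_smul]
          exact mul_le_mul ((abs_le.2 ⟨hs.1, hs.2⟩).trans r1) (f.bd _) (norm_nonneg _)
            (by norm_num)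
        linarith [(hq hr).1]
      have h7 := f.push p.1 _ h5 (t - s) (by linarith) (by linarith [hs.1, ht.2])
      rw [add_assoc, ← add_smul, add_sub_cancel] at h7
      have h8 : 0 < (t - s) * m p.1 := mul_pos (by linarith) hm
      linarith
    · refine ⟨(0, -1), p.2 / 2, by linarith, fun q hr s hs t ht hst => ?_⟩
      have h3 := (abs_lt.1 (hq hr).2).1
      simp only [Prod.fst_add, Prod.snd_add, Prod.smul_mk, smul_zero, add_zero, smul_eq_mul,
        mul_neg, mul_one]
      rw [abs_of_pos (by linarith [ht.2]), abs_of_pos (by linarith [hs.2])]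
      linarith
  refine key _ (funext fun z => propext ⟨fun h => ?_, fun h => ?_⟩)
  · rw [sd_of_mem h.1, h.2, neg_add_cancel]
  · have h3 : z.1 ∈ N := (sd_nonpos_iff hN.1.isClosed h1).1 (by linarith [abs_nonneg z.2])
    rw [sd_of_mem h3] at h
    exact ⟨h3, by linarith⟩

end Pool.Agent.Lib.NFB
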