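import Pool.Agent.Lib.NFB.Blue2

/-! The body of three pieces has the homotopy type of the double mapping cylinder. -/

namespace Pool.Agent.Lib.NFB

open Set Topology Metric unitInterval

namespace CHE

theorem he_fst (X : Type) [TopologicalSpace X] {E : Type} [NormedAddCommGroup E] [NormedSpace ℝ E]
    {K : Set E} (hK : Convex ℝ K) {k₀ : E} (h₀ : k₀ ∈ K) :
    HE (ContinuousMap.fst : C(X × K, X)) :=
  ⟨⟨fun x => (x, ⟨k₀, h₀⟩), by fun_prop⟩,
    homotopic_of ⟨fun z => (z.2.1, ⟨k₀ + (z.1 : ℝ) • ((z.2.2 : E) - k₀),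
      hK.add_smul_sub_mem h₀ z.2.2.2 z.1.2⟩), by fun_prop⟩ (fun x => by simp) fun x => by simp,
    .refl _⟩

/-- the convex factor of an end -/
abbrev Kf (V B : Type) [NormedAddCommGroup V] [NormedAddCommGroup B] (R a b : ℝ) :
    Set (V × B × ℝ) := closedBall 0 R ×ˢ closedBall 0 R ×ˢ Icc a b

theorem kf_compact (V B : Type) [NormedAddCommGroup V] [NormedSpace ℝ V] [FiniteDimensional ℝ V]
    [NormedAddCommGroup B] [NormedSpace ℝ B] [FiniteDimensional ℝ B] (R a b : ℝ) :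
    CompactSpace (Kf V B R a b) :=
  have := FiniteDimensional.proper_real V
  have := FiniteDimensional.proper_real B
  isCompact_iff_compactSpace.1
    ((isCompact_closedBall _ _).prod ((isCompact_closedBall _ _).prod isCompact_Icc))

theorem kf_he (X V B : Type) [TopologicalSpace X] [NormedAddCommGroup V] [NormedSpace ℝ V]
    [NormedAddCommGroup B] [NormedSpace ℝ B] {R a b : ℝ} (hR : 0 < R) (h : a ≤ b) :
    HE (ContinuousMap.fst : C(X × Kf V B R a b, X)) :=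
  he_fst X ((convex_closedBall _ _).prod ((convex_closedBall _ _).prod (convex_Icc _ _)))
    (k₀ := (0, 0, a)) ⟨mem_closedBall_self hR.le, mem_closedBall_self hR.le, left_mem_Icc.2 h⟩

end CHE

open CHE in
theorem bCHE (hG : St_GLUE) : St_CHE := by
  intro V A B _ _ _ _ _ _ _ _ _ NA NB C f g δ R f₁ g₁ cA cB cC hδ hR hf hg sA sB sC ef eg
  have := isCompact_iff_compactSpace.1 cA
  have := isCompact_iff_compactSpace.1 cB
  have := isCompact_iff_compactSpace.1 cC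
  have := kf_compact V B R (-2) (-1)
  have := kf_compact V A R 1 2
  have := FiniteDimensional.proper_real (A × B)
  have := isCompact_iff_compactSpace.1 (isCompact_closedBall (0 : A × B) δ)
  have mA : ∀ z : C × closedBall (0 : A × B) δ, (f₁ z.1 : A) + z.2.1.1 ∈ NA := fun z =>
    hf _ z.1.2 (by
      have := (norm_fst_le z.2.1).trans (mem_closedBall_zero_iff.1 z.2.2)
      rw [mem_closedBall_iff_norm, ef, add_sub_cancel_left]; linarith)
  have mB : ∀ z : C × closedBall (0 : A × B) δ, (g₁ z.1 : B) + z.2.1.2 ∈ NB := fun z =>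
    hg _ z.1.2 (by
      have := (norm_snd_le z.2.1).trans (mem_closedBall_zero_iff.1 z.2.2)
      rw [mem_closedBall_iff_norm, eg, add_sub_cancel_left]; linarith)
  let f' : C(C × closedBall (0 : A × B) δ, NA × Kf V B R (-2) (-1)) :=
    ⟨fun z => (⟨_, mA z⟩, ⟨(z.1, g₁ z.1 + z.2.1.2, -1), ball_subset_closedBall (sC z.1.2),
      ball_subset_closedBall (sB (mB z)), by norm_num⟩), by fun_prop⟩
  let g' : C(C × closedBall (0 : A × B) δ, NB × Kf V A R 1 2) :=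
    ⟨fun z => (⟨_, mB z⟩, ⟨(z.1, f₁ z.1 + z.2.1.1, 1), ball_subset_closedBall (sC z.1.2),
      ball_subset_closedBall (sA (mA z)), by norm_num⟩), by fun_prop⟩
  let s : C(C, C × closedBall (0 : A × B) δ) :=
    ⟨fun x => (x, ⟨0, mem_closedBall_self hδ.le⟩), by fun_prop⟩
  have hs : HE s := (he_fst C (convex_closedBall _ _) (mem_closedBall_self hδ.le)).of_right HE.id
  have h1 := hG _ _ _ _ _ _ f' g' (ContinuousMap.fst.comp f') (ContinuousMap.fst.comp g')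
    .fst (.id _) .fst (fun _ => rfl) (fun _ => rfl) (kf_he _ _ _ hR (by norm_num)) HE.id
    (kf_he _ _ _ hR (by norm_num))
  have h2 := hG _ _ _ _ _ _ f₁ g₁ (ContinuousMap.fst.comp f') (ContinuousMap.fst.comp g')
    (.id _) s (.id _) (fun _ => Subtype.ext (add_zero _)) (fun _ => Subtype.ext (add_zero _))
    HE.id hs HE.id
  let pA : C(NA × Kf V B R (-2) (-1), Om NA NB C f g δ R) :=
    ⟨fun z => ⟨((z.2.1.1, (z.1, z.2.1.2.1)), z.2.1.2.2),
      .inl (.inl ⟨⟨z.2.2.1, z.1.2, z.2.2.2.1⟩, z.2.2.2.2⟩)⟩, by fun_prop⟩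
  let pB : C(NB × Kf V A R 1 2, Om NA NB C f g δ R) :=
    ⟨fun z => ⟨((z.2.1.1, (z.2.1.2.1, z.1)), z.2.1.2.2),
      .inr ⟨⟨z.2.2.1, z.2.2.2.1, z.1.2⟩, z.2.2.2.2⟩⟩, by fun_prop⟩
  let pC : C((C × closedBall (0 : A × B) δ) × I, Om NA NB C f g δ R) :=
    ⟨fun z => ⟨((z.1.1, (f₁ z.1.1 + z.1.2.1.1, g₁ z.1.1 + z.1.2.1.2)), 2 * z.2 - 1),
      .inl (.inr ⟨⟨z.1.1.2, by
        have := mem_closedBall_zero_iff.1 z.1.2.2
        rwa [ef, eg, Prod.mk_sub_mk, add_sub_cancel_left, add_sub_cancel_left]⟩,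
        by constructor <;> simp only <;> linarith [z.2.2.1, z.2.2.2]⟩)⟩, by fun_prop⟩
  let Φ : C(DM f' g', Om NA NB C f g δ R) := DM.lift pA pC pB
    (fun c => Subtype.ext (Prod.ext rfl (by simp [pA, pC, f'])))
    (fun c => Subtype.ext (Prod.ext rfl (by simp [pB, pC, g']; norm_num)))
  have hI : ∀ t : I, t ≠ 0 → t ≠ 1 → -1 < 2 * (t : ℝ) - 1 ∧ 2 * (t : ℝ) - 1 < 1 := fun t a b => by
    have a' : (0 : ℝ) < t := unitInterval.pos_iff_ne_zero.2 a
    have b' : (t : ℝ) < 1 := unitInterval.lt_one_iff_ne_one.2 b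
    constructor <;> linarith
  have inj : Function.Injective Φ := by
    intro x y h
    have h' := congrArg Subtype.val h
    rcases x.cases with ⟨⟨a, ⟨v, b, r⟩, k⟩, rfl⟩ | ⟨⟨c, w, k⟩, t, h0, h1, rfl⟩ |
        ⟨⟨a, ⟨v, b, r⟩, k⟩, rfl⟩ <;>
      rcases y.cases with ⟨⟨a', ⟨v', b', r'⟩, k'⟩, rfl⟩ | ⟨⟨c', w', k'⟩, t', h0', h1', rfl⟩ |
        ⟨⟨a', ⟨v', b', r'⟩, k'⟩, rfl⟩ <;>
      obtain ⟨⟨e1, e2, e3⟩, e4⟩ : (_ = _ ∧ _ = _ ∧ _ = _) ∧ _ = _ := by
        simpa only [Φ, pA, pB, pC, DM.lift_inA, DM.lift_inB, DM.lift_cy, ContinuousMap.coe_mk,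
          Prod.mk.injEq] using h'
    · obtain rfl := Subtype.ext e2
      subst e1 e3 e4; rfl
    · linarith [(hI _ h0' h1').1, (k.2.2.2 : r ≤ -1)]
    · linarith [(k.2.2.2 : r ≤ -1), (k'.2.2.1 : 1 ≤ r')]
    · linarith [(hI _ h0 h1).1, (k'.2.2.2 : r' ≤ -1)]
    · obtain rfl := Subtype.ext e1
      obtain rfl : w = w' := Prod.ext (add_left_cancel e2) (add_left_cancel e3)
      obtain rfl : t = t' := Subtype.ext (by linarith)
      rfl
    · linarith [(hI _ h0 h1).2, (k'.2.2.1 : 1 ≤ r')]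
    · linarith [(k'.2.2.2 : r' ≤ -1), (k.2.2.1 : 1 ≤ r)]
    · linarith [(hI _ h0' h1').2, (k.2.2.1 : 1 ≤ r)]
    · obtain rfl := Subtype.ext e3
      subst e1 e2 e4; rfl
  have sur : Function.Surjective Φ := by
    rintro ⟨⟨⟨v, a, b⟩, r⟩, (⟨⟨k1, k2, k3⟩, k4⟩ | ⟨⟨k1, k2⟩, k3, k4⟩) | ⟨⟨k1, k2, k3⟩, k4⟩⟩
    · exact ⟨inA f' g' (⟨a, k2⟩, ⟨(v, b, r), k1, k3, k4⟩), rfl⟩
    · let z : C × closedBall (0 : A × B) δ :=
        (⟨v, k1⟩, ⟨(a, b) - (f v, g v), mem_closedBall_zero_iff.2 k2⟩)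
      have ea : (f₁ z.1 : A) + z.2.1.1 = a := by simp [z, ef]
      have eb : (g₁ z.1 : B) + z.2.1.2 = b := by simp [z, eg]
      simp only at k3 k4
      by_cases q0 : r ≤ -1
      · exact ⟨inA f' g' (⟨a, ea ▸ mA z⟩, ⟨(v, b, r), ball_subset_closedBall (sC k1),
          ball_subset_closedBall (sB (eb ▸ mB z)), by simp only; linarith, q0⟩), rfl⟩
      by_cases q1 : 1 ≤ r
      · exact ⟨inB f' g' (⟨b, eb ▸ mB z⟩, ⟨(v, a, r), ball_subset_closedBall (sC k1),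
          ball_subset_closedBall (sA (ea ▸ mA z)), q1, by simp only; linarith⟩), rfl⟩
      refine ⟨cy f' g' (z, ⟨(r + 1) / 2, by linarith, by linarith⟩), Subtype.ext ?_⟩
      exact Prod.ext (Prod.ext rfl (Prod.ext ea eb)) (show 2 * ((r + 1) / 2) - 1 = r by ring)
    · exact ⟨inB f' g' (⟨b, k3⟩, ⟨(v, a, r), k1, k2, k4⟩), rfl⟩
  obtain ⟨Ψ, hΨ, -⟩ := (HE.of_bij ⟨inj, sur⟩).inv
  obtain ⟨u, hu, -⟩ := h2.inv
  exact ⟨_, hu.comp (h1.comp hΨ)⟩

end Pool.Agent.Lib.NFB
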