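import Pool.Agent.Lib.NFB.Blue2

/-! The class of spaces equivalent to a body is closed under double mapping cylinders. -/

namespace Pool.Agent.Lib.NFB

open Set Topology Metric unitInterval

namespace CLS

theorem hom (hT : St_TR) {A B C : Type} [TopologicalSpace A] [TopologicalSpace B]
    [TopologicalSpace C] {f f' : C(C, A)} {g g' : C(C, B)} (hf : f.Homotopic f')
    (hg : g.Homotopic g') (h : CC (DM f g)) : CC (DM f' g') := by
  obtain ⟨F⟩ := hf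
  obtain ⟨G⟩ := hg
  let F' : C(C × I, A) := ⟨fun z => F (z.2, z.1), by fun_prop⟩
  let G' : C(C × I, B) := ⟨fun z => G (z.2, z.1), by fun_prop⟩
  exact (CC.of_HE (hT A B C F' G' 1 f' g' F.apply_one G.apply_one)).2
    ((CC.of_HE (hT A B C F' G' 0 f g F.apply_zero G.apply_zero)).1 h)

end CLS

theorem bCLS (hAP : St_APX) (hCE : St_CEL) (hCH : St_CHE) (hG : St_GLUE) (hT : St_TR) :
    St_CLS := by
  rintro A B C _ _ _ f g ⟨VA, _, _, _, NA, eA, a1, a2⟩ ⟨VB, _, _, _, NB, eB, b1, b2⟩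
    ⟨V, _, _, _, N, e, c1, c2⟩
  obtain ⟨rA, a3, -⟩ := a2.inv
  obtain ⟨rB, b3, -⟩ := b2.inv
  obtain ⟨F, δ, f₁, p1, p2, p3, p4, p5⟩ := hAP V VA N NA c1.1 a1 (rA.comp (f.comp e))
  obtain ⟨G, δ', g₁, q1, q2, q3, q4, q5⟩ := hAP V VB N NB c1.1 b1 (rB.comp (g.comp e))
  obtain ⟨R₁, r1, s1⟩ := a1.1.isBounded.subset_ball_lt 0 0
  obtain ⟨R₂, r2, s2⟩ := b1.1.isBounded.subset_ball_lt R₁ 0
  obtain ⟨R, r3, s3⟩ := c1.1.isBounded.subset_ball_lt R₂ 0
  have d0 : 0 < min δ δ' / 2 := half_pos (lt_min p2 q2)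
  have R0 : 0 < R := r1.trans (r2.trans r3)
  have u1 : ∀ x ∈ N, closedBall (F x) (2 * (min δ δ' / 2)) ⊆ NA := fun x hx =>
    (closedBall_subset_closedBall (by linarith [min_le_left δ δ'])).trans (p3 x hx)
  have u2 : ∀ x ∈ N, closedBall (G x) (2 * (min δ δ' / 2)) ⊆ NB := fun x hx =>
    (closedBall_subset_closedBall (by linarith [min_le_right δ δ'])).trans (q3 x hx)
  have t1 := s1.trans (ball_subset_ball (r2.trans r3).le)
  have t2 := s2.trans (ball_subset_ball r3.le)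
  obtain ⟨k, hk⟩ := hCH V VA VB NA NB N F G _ R f₁ g₁ a1.1 b1.1 c1.1 d0 R0 u1 u2 t1 t2 s3 p4 q4
  have h1 : CC (DM f₁ g₁) := ⟨_, inferInstance, inferInstance, inferInstance, _, k,
    hCE V VA VB NA NB N F G _ R a1 b1 c1 p1 q1 d0 R0 u1 u2 t1 t2 s3, hk⟩
  exact (CC.of_HE (hG A B N A B C (f.comp e) (g.comp e) f g (.id A) e (.id B) (fun _ => rfl)
    (fun _ => rfl) HE.id c2 HE.id)).1 ((CC.of_HE (hG A B N NA NB N (f.comp e) (g.comp e) _ _ rA
      (.id N) rB (fun _ => rfl) (fun _ => rfl) a3 HE.id b3)).2 (CLS.hom hT p5 q5 h1))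

end Pool.Agent.Lib.NFB
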