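import Pool.Agent.Lib.NFB.Blue2

/-! Cofibrations: the end of a double mapping cylinder, composites, two base points. -/

namespace Pool.Agent.Lib.NFB

open Set Topology unitInterval

namespace COF

variable {A B C : Type} [TopologicalSpace A] [TopologicalSpace B] [TopologicalSpace C]

theorem endA (f : C(C, A)) (g : C(C, B)) : Cof (inA f g) := by
  intro Y _ F h h0
  have hp : Continuous (projIcc (0 : ℝ) 1 zero_le_one) := continuous_projIcc
  have hw : Continuous fun z : I × (C × I) => (z.2.2 : ℝ) * (1 + z.1) - z.1 := by fun_prop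
  have hc : Continuous fun z : I × (C × I) =>
      if (0 : ℝ) ≤ (z.2.2 : ℝ) * (1 + z.1) - z.1 then
        F (cy f g (z.2.1, projIcc 0 1 zero_le_one ((z.2.2 : ℝ) * (1 + z.1) - z.1)))
      else h (projIcc 0 1 zero_le_one (-((z.2.2 : ℝ) * (1 + z.1) - z.1)), f z.2.1) := by
    refine Continuous.if_le ?_ ?_ continuous_const hw ?_
    · exact F.continuous.comp ((cy f g).continuous.comp
        ((continuous_fst.comp continuous_snd).prodMk (hp.comp hw)))
    · exact h.continuous.comp ((hp.comp hw.neg).prodMk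
        (f.continuous.comp (continuous_fst.comp continuous_snd)))
    · intro z hz
      rw [← hz, neg_zero, projIcc_left]
      exact (congrArg F (cy_zero f g _)).trans (h0 _).symm
  obtain ⟨H, h1, h2, h3⟩ := DM.lift_prod (f := f) (g := g) h ⟨_, hc⟩
    ⟨fun z : I × B => F (inB f g z.2), by fun_prop⟩
    (fun s c => by
      have e : ((0 : I) : ℝ) * (1 + s) - s = -s := by simp
      show (if (0 : ℝ) ≤ ((0 : I) : ℝ) * (1 + s) - s then
        F (cy f g (c, projIcc 0 1 zero_le_one (((0 : I) : ℝ) * (1 + s) - s)))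
        else h (projIcc 0 1 zero_le_one (-(((0 : I) : ℝ) * (1 + s) - s)), f c)) = h (s, f c)
      rw [e, neg_neg, projIcc_val]
      split_ifs with hs
      · have s0 : s = 0 := Subtype.ext (le_antisymm (neg_nonneg.1 hs) s.2.1)
        rw [projIcc_of_le_left _ (neg_nonpos.2 s.2.1), s0]
        exact (congrArg F (cy_zero f g _)).trans (h0 _).symm
      · rfl)
    (fun s c => by
      have e : ((1 : I) : ℝ) * (1 + s) - s = 1 := by simp
      show (if (0 : ℝ) ≤ ((1 : I) : ℝ) * (1 + s) - s then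
        F (cy f g (c, projIcc 0 1 zero_le_one (((1 : I) : ℝ) * (1 + s) - s)))
        else h (projIcc 0 1 zero_le_one (-(((1 : I) : ℝ) * (1 + s) - s)), f c))
        = F (inB f g (g c))
      rw [e, if_pos zero_le_one, projIcc_right]
      exact congrArg F (cy_one f g _))
  refine ⟨H, fun x => ?_, h1⟩
  induction x using DM.ind with
  | hA a => rw [h1, h0]
  | hB b => rw [h3]; rfl
  | hC c t =>
    rw [h2]
    have e : (t : ℝ) * (1 + ((0 : I) : ℝ)) - ((0 : I) : ℝ) = t := by simp
    show (if (0 : ℝ) ≤ (t : ℝ) * (1 + ((0 : I) : ℝ)) - ((0 : I) : ℝ) then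
      F (cy f g (c, projIcc 0 1 zero_le_one ((t : ℝ) * (1 + ((0 : I) : ℝ)) - ((0 : I) : ℝ))))
      else h (projIcc 0 1 zero_le_one (-((t : ℝ) * (1 + ((0 : I) : ℝ)) - ((0 : I) : ℝ))), f c))
      = F (cy f g (c, t))
    rw [e, if_pos t.2.1, projIcc_val]

theorem comp (i : C(A, B)) (j : C(B, C)) (hi : Cof i) (hj : Cof j) : Cof (j.comp i) := by
  intro Y _ F h h0
  obtain ⟨H, h1, h2⟩ := hi Y (F.comp j) h h0
  obtain ⟨K, k1, k2⟩ := hj Y F H h1
  exact ⟨K, k1, fun s a => (k2 s (i a)).trans (h2 s a)⟩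

theorem homeo (i : C(A, B)) (e : B ≃ₜ C) (hi : Cof i) : Cof ((e : C(B, C)).comp i) := by
  intro Y _ F h h0
  obtain ⟨H, h1, h2⟩ := hi Y (F.comp (e : C(B, C))) h h0
  refine ⟨⟨fun z => H (z.1, e.symm z.2), by fun_prop⟩, fun c => ?_, fun s a => ?_⟩
  · exact (h1 _).trans (congrArg F (e.apply_symm_apply c))
  · exact (congrArg (fun b => H (s, b)) (e.symm_apply_apply (i a))).trans (h2 s a)

theorem two {T : Type} [TopologicalSpace T] (t₀ : T) (h₀ : Cof (.const Unit t₀)) :
    Cof (bsec t₀) := by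
  intro Y _ F h h0
  choose H h1 h2 using fun ε : Bool => h₀ Y ⟨fun t => F (ε, t), by fun_prop⟩
    ⟨fun z : I × Unit => h (z.1, ε), by fun_prop⟩ fun _ => h0 ε
  have hc : Continuous fun z : Bool × (I × T) => H z.1 z.2 :=
    continuous_prod_of_discrete_left.2 fun ε => (H ε).continuous
  exact ⟨⟨fun z => H z.2.1 (z.1, z.2.2),
    hc.comp (f := fun z : I × (Bool × T) => (z.2.1, (z.1, z.2.2))) (by fun_prop)⟩,
    fun z => h1 z.1 z.2, fun s ε => h2 ε s ()⟩

end COF

theorem bCOF : St_COF :=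
  ⟨fun _ _ _ _ _ _ => ⟨COF.endA, COF.comp, COF.homeo⟩, fun _ _ => COF.two⟩

end Pool.Agent.Lib.NFB
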