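import Pool.Agent.Lib.NFB.Blue2

/-! The collapse of a double mapping cylinder onto the pushout along a cofibration. -/

namespace Pool.Agent.Lib.NFB

open Set Topology unitInterval

theorem bCOLL : St_COLL := by
  intro A B C P _ _ _ _ f i jA jB κ hP hi kA kC kB
  obtain ⟨H, H0, H1⟩ := hi (DM f i) (inB f i)
    ((cy f i).comp ⟨fun z : I × C => (z.2, σ z.1), by fun_prop⟩) (fun c => by simp)
  have H1' : ∀ s c, H (s, i c) = cy f i (c, σ s) := H1
  obtain ⟨G, GA, GB⟩ := hP.glue (DM f i) ((inA f i).comp .snd)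
    (H.comp ⟨fun z : I × B => (1, z.2), by fun_prop⟩) (fun s c => by simp [H1'])
  have GA' : ∀ x, G (0, jA x) = inA f i x := GA 0
  have GB' : ∀ x, G (0, jB x) = H (1, x) := GB 0
  obtain ⟨K, KA, KC, KB⟩ := DM.lift_prod (f := f) (g := i) (P := I) ((inA f i).comp .snd)
    ((cy f i).comp ⟨fun z : I × (C × I) => (z.2.1, z.2.2 * σ z.1), by fun_prop⟩) H
    (fun s c => by simp) (fun s c => by simp [H1'])
  obtain ⟨L, LA, LB⟩ := hP.glue P (jA.comp .snd) (κ.comp H) (fun s c => by simp [H1', kC])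
  refine ⟨G.comp ⟨fun p => (0, p), by fun_prop⟩, .symm ⟨⟨K, fun x => ?_, fun x => ?_⟩⟩,
    .symm ⟨⟨L, fun p => ?_, fun p => ?_⟩⟩⟩
  · induction x using DM.ind with
    | hA a => exact KA 0 a
    | hC c t => exact (KC 0 (c, t)).trans (by simp)
    | hB b => exact (KB 0 b).trans (H0 b)
  · induction x using DM.ind with
    | hA a => exact (KA 1 a).trans (by simp [kA, GA'])
    | hC c t => exact (KC 1 (c, t)).trans (by simp [kC, GA'])
    | hB b => exact (KB 1 b).trans (by simp [kB, GB'])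
  · rcases hP.surj p with ⟨a, rfl⟩ | ⟨b, rfl⟩
    · exact LA 0 a
    · exact (LB 0 b).trans (by simp [H0, kB])
  · rcases hP.surj p with ⟨a, rfl⟩ | ⟨b, rfl⟩
    · exact (LA 1 a).trans (by simp [GA', kA])
    · exact (LB 1 b).trans (by simp [GB'])

end Pool.Agent.Lib.NFB
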