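import Pool.Agent.Lib.NFB.Blue1

/-! Block COLLAR: points of small depth move to the frontier. -/

namespace Pool.Agent.Lib.NFB

open Set Topology Metric unitInterval

theorem bCOLLAR (hF : St_FIELD) (hR : St_ROOT) : St_COLLAR := by
  intro V _ _ _ N hN h1 h2
  obtain ⟨u, m, η, c, hf⟩ := hF V N hN h1 h2
  have cu : Continuous u := hf.lip.continuous
  have cs := continuous_sd N
  have step : ∀ x : {x : N // dp N x < c}, ∀ s t : ℝ, 0 ≤ s → s ≤ t → t ≤ 1 →
      sd N (x.1 - s • u x.1) + (t - s) * c ≤ sd N (x.1 - t • u x.1) := by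
    intro x s t hs hst ht
    have a1 : c ≤ m x.1 := hf.big _ (by
      rw [sd_of_mem x.1.2, abs_neg, abs_of_nonneg (dp_nonneg _ _)]
      exact x.2.le.trans hf.le)
    have a2 := hf.push x.1 (x.1 - t • u x.1) (by
      rw [sub_sub_cancel_left, norm_neg, norm_smul, Real.norm_of_nonneg (hs.trans hst)]
      exact (mul_le_of_le_one_left (norm_nonneg _) ht).trans (hf.bd _)) (t - s) (by linarith)
      (by linarith)
    rw [show (x.1 : V) - t • u x.1 + (t - s) • u x.1 = x.1 - s • u x.1 by module] at a2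
    have := mul_le_mul_of_nonneg_left a1 (sub_nonneg.2 hst)
    linarith
  have anti : ∀ x : {x : N // dp N x < c},
      StrictAntiOn (fun t : ℝ => -sd N (x.1 - t • u x.1)) (Icc 0 1) := fun x s hs t ht hst => by
    have := step x s t hs.1 hst.le ht.2
    have := mul_pos (sub_pos.2 hst) hf.pos
    simp only
    linarith
  have at0 : ∀ x : {x : N // dp N x < c}, sd N (x.1 - (0 : ℝ) • u x.1) = -dp N x.1 := fun x => by
    rw [zero_smul, sub_zero, sd_of_mem x.1.2]
  obtain ⟨τ, hτ⟩ := hR {x : N // dp N x < c} (fun z => -sd N (z.1.1 - z.2 • u z.1.1)) 0 1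
    zero_le_one (by fun_prop) anti fun x => by
      have a1 := step x 0 1 le_rfl zero_le_one le_rfl
      have a2 := x.2
      have a3 := dp_nonneg N x.1
      simp only [at0] at a1 ⊢
      constructor <;> linarith
  have rng : ∀ (l : I) x, 0 ≤ l * τ x ∧ l * τ x ≤ τ x := fun l x =>
    ⟨mul_nonneg l.2.1 (hτ x).1.1, mul_le_of_le_one_left (hτ x).1.1 l.2.2⟩
  have mem : ∀ (l : I) (x : {x : N // dp N x < c}), (x.1 : V) - (l * τ x) • u x.1 ∈ N := by
    intro l x
    have a1 := step x _ _ (rng l x).1 (rng l x).2 (hτ x).1.2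
    have a2 : -sd N (x.1 - τ x • u x.1) = 0 := (hτ x).2
    have a3 := mul_nonneg (sub_nonneg.2 (rng l x).2) hf.pos.le
    exact (sd_nonpos_iff hN.1.isClosed h1).1 (by linarith)
  refine ⟨c, ⟨fun z => ⟨z.2.1 - (z.1 * τ z.2) • u z.2.1, mem z.1 z.2⟩,
    Continuous.subtype_mk (by fun_prop) _⟩, hf.pos, fun x => Subtype.ext (by simp), fun x => ?_,
    fun l x => ?_, fun l x hx => Subtype.ext ?_⟩
  · have a1 := sd_of_mem (mem 1 x)
    have a2 : -sd N (x.1 - τ x • u x.1) = 0 := (hτ x).2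
    change dp N (x.1 - ((1 : I) * τ x) • u x.1) = 0
    rw [← neg_eq_zero, ← a1, Icc.coe_one, one_mul, ← neg_eq_zero, a2]
  · have a1 := sd_of_mem (mem l x)
    have a2 := step x 0 _ le_rfl (rng l x).1 ((rng l x).2.trans (hτ x).1.2)
    have a3 := mul_nonneg (rng l x).1 hf.pos.le
    rw [at0, a1, sub_zero] at a2
    change dp N (x.1 - (l * τ x) • u x.1) ≤ _
    linarith
  · have : τ x = 0 := (anti x).injOn (hτ x).1 ⟨le_rfl, zero_le_one⟩
      ((hτ x).2.trans (by simp only [at0, hx, neg_zero]))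
    change (x.1 : V) - (l * τ x) • u x.1 = _
    rw [this, mul_zero, zero_smul, sub_zero]

end Pool.Agent.Lib.NFB
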