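import Pool.Agent.Lib.NFB.Blue2

/-! Row COLW: collapsing the whiskers is a homotopy equivalence. -/

namespace Pool.Agent.Lib.NFB

open Set Topology unitInterval

noncomputable section

namespace COLW

variable {T : Type} [TopologicalSpace T] (t₀ : T)

theorem sur (p : Wg t₀) : ∃ b, p = col t₀ b := by
  obtain ⟨⟨x, y⟩, h | h⟩ := p
  · exact ⟨(true, y), Subtype.ext (Prod.ext h rfl)⟩
  · exact ⟨(false, x), Subtype.ext (Prod.ext rfl h)⟩

theorem fib {z z' : Bool × T} (h : col t₀ z = col t₀ z') : z = z' ∨ (z.2 = t₀ ∧ z'.2 = t₀) := by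
  obtain ⟨_ | _, x⟩ := z <;> obtain ⟨_ | _, y⟩ := z' <;>
    obtain ⟨h1, h2⟩ := Prod.ext_iff.1 (congrArg Subtype.val h)
  · exact .inl (congrArg _ h1)
  · exact .inr ⟨h1, h2.symm⟩
  · exact .inr ⟨h2, h1.symm⟩
  · exact .inl (congrArg _ h2)

theorem psh [CompactSpace T] [T2Space T] :
    Push (cu Bool) (bsec t₀) (.const _ (w₀ t₀)) (col t₀) := by
  refine ⟨by rintro (_ | _) <;> rfl, fun p => .inr (sur t₀ p), fun Y _ a b h => ?_⟩
  let q : C(I × (Bool × T), I × Wg t₀) := (ContinuousMap.id I).prodMap (col t₀)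
  have hq : IsQuotientMap q := q.continuous.isClosedMap.isQuotientMap q.continuous fun z => by
    obtain ⟨w, hw⟩ := sur t₀ z.2
    exact ⟨(z.1, w), Prod.ext rfl hw.symm⟩
  have hf : Function.FactorsThrough b q := by
    rintro ⟨s, ε, x⟩ ⟨s', ε', x'⟩ e
    obtain ⟨e1, e2⟩ := Prod.ext_iff.1 e
    obtain rfl : s = s' := e1
    rcases fib t₀ e2 with e3 | ⟨e3, e4⟩
    · rw [e3]
    · obtain rfl : x = t₀ := e3
      obtain rfl : x' = x := e4
      exact (h s ε).trans (h s ε').symm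
  have hl := fun z => ContinuousMap.congr_fun (hq.lift_comp b hf) z
  exact ⟨hq.lift b hf, fun s x => (hl (s, bsec t₀ true)).trans (h s true), fun s x => hl (s, x)⟩

end COLW

theorem bCOLW (hF : St_COF) (hL : St_COLL) : St_COLW := fun T _ _ _ t₀ hc =>
  hL Unit (Bool × T) Bool (Wg t₀) (cu Bool) (bsec t₀) (.const _ (w₀ t₀)) (col t₀) (wcol t₀)
    (COLW.psh t₀) (hF.2 T t₀ hc) (fun _ => rfl) (fun _ => rfl) fun _ => rfl

end

end Pool.Agent.Lib.NFB
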