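import Pool.Agent.Lib.NFB.Blue2

/-! Block CUB: running three times through a loop cubes the second homotopy group. -/

namespace Pool.Agent.Lib.NFB

open Set Topology unitInterval

noncomputable section

namespace CUB

variable {P Y : Type} [TopologicalSpace P] [TopologicalSpace Y] {P₀ : Set P} {y₀ : Y}

/-- the clamp onto the unit interval -/
def cl (t : ℝ) : I := projIcc 0 1 zero_le_one t

@[fun_prop] theorem cl_cont : Continuous cl := continuous_projIcc (h := zero_le_one)

theorem cl_lo {t : ℝ} (h : t ≤ 0) : cl t = 0 := projIcc_of_le_left _ h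

theorem cl_hi {t : ℝ} (h : 1 ≤ t) : cl t = 1 := projIcc_of_right_le _ h

theorem cl_val (z : I) : cl z = z := projIcc_val _ z

theorem lo (x : LP P₀ y₀) {t : ℝ} (h : t ≤ 0) (p : P) : x.1 (cl t, p) = y₀ := by
  rw [cl_lo h]; exact x.2.1 p

theorem hi (x : LP P₀ y₀) {t : ℝ} (h : 1 ≤ t) (p : P) : x.1 (cl t, p) = y₀ := by
  rw [cl_hi h]; exact x.2.2.1 p

theorem per (x : LP P₀ y₀) {t : ℝ} (h0 : 0 ≤ t) (h1 : t ≤ 1) (z : I) (n : ℤ) (h : t = z + n)
    (p : P) : x.1 (cl t, p) = x.1 (z, p) := by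
  have a0 := z.2.1
  have a1 := z.2.2
  have b0 : (-1 : ℤ) ≤ n := by
    have : ((-1 : ℤ) : ℝ) ≤ n := by push_cast; linarith
    exact_mod_cast this
  have b1 : n ≤ 1 := by
    have : (n : ℝ) ≤ ((1 : ℤ) : ℝ) := by push_cast; linarith
    exact_mod_cast this
  interval_cases n
  · have : z = 1 := Subtype.ext (by push_cast at h; change (z : ℝ) = 1; linarith)
    rw [lo x (by push_cast at h; linarith), this, x.2.2.1]
  · rw [h, Int.cast_zero, add_zero, cl_val]
  · have : z = 0 := Subtype.ext (by push_cast at h; change (z : ℝ) = 0; linarith)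
    rw [hi x (by push_cast at h; linarith), this, x.2.1]

/-- the value of the concatenation of three loops -/
def val (a b c : LP P₀ y₀) (z : I × P) : Y :=
  if 3 * (z.1 : ℝ) ≤ 1 then a.1 (cl (3 * z.1), z.2) else
    if 3 * (z.1 : ℝ) ≤ 2 then b.1 (cl (3 * z.1 - 1), z.2) else c.1 (cl (3 * z.1 - 2), z.2)

/-- a family of loops from its values -/
def mk {X : Type} [TopologicalSpace X] (F : X × I × P → Y) (hF : Continuous F)
    (h0 : ∀ x p, F (x, 0, p) = y₀) (h1 : ∀ x p, F (x, 1, p) = y₀)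
    (h2 : ∀ x z, ∀ p ∈ P₀, F (x, z, p) = y₀) : C(X, LP P₀ y₀) :=
  ⟨fun x => ⟨(ContinuousMap.curry ⟨F, hF⟩) x, h0 x, h1 x, h2 x⟩,
    (ContinuousMap.curry ⟨F, hF⟩).continuous.subtype_mk _⟩

variable [CompactSpace P] [T2Space P]

theorem ev {X : Type} [TopologicalSpace X] {f : X → LP P₀ y₀} {g : X → ℝ} {k : X → P}
    (hf : Continuous f) (hg : Continuous g) (hk : Continuous k) :
    Continuous fun x => (f x).1 (cl (g x), k x) :=
  (continuous_subtype_val.comp hf).eval ((cl_cont.comp hg).prodMk hk)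

theorem val_cont : Continuous fun q : (LP P₀ y₀ × LP P₀ y₀ × LP P₀ y₀) × I × P =>
    val q.1.1 q.1.2.1 q.1.2.2 q.2 := by
  refine Continuous.if_le (ev (by fun_prop) (by fun_prop) (by fun_prop))
    (Continuous.if_le (ev (by fun_prop) (by fun_prop) (by fun_prop))
      (ev (by fun_prop) (by fun_prop) (by fun_prop)) (by fun_prop) continuous_const
      fun q h => ?_) (by fun_prop) continuous_const fun q h => ?_
  · rw [hi _ (by linarith), lo _ (by linarith)]
  · rw [if_pos (by linarith), hi _ (by linarith), lo _ (by linarith)]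

/-- the concatenation of three loops -/
def cat (P₀ : Set P) (y₀ : Y) : C(LP P₀ y₀ × LP P₀ y₀ × LP P₀ y₀, LP P₀ y₀) :=
  mk _ val_cont
    (fun x p => by
      simp only [val]
      rw [if_pos (by simp), lo _ (by simp)])
    (fun x p => by
      simp only [val]
      rw [if_neg (by norm_num), if_neg (by norm_num), hi _ (by norm_num)])
    fun x z p hp => by
      simp only [val]
      split_ifs
      exacts [x.1.2.2.2 _ p hp, x.2.1.2.2.2 _ p hp, x.2.2.2.2.2 _ p hp]

theorem cat_val (a b c : LP P₀ y₀) (z : I × P) : (cat P₀ y₀ (a, b, c)).1 z = val a b c z := rfl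

theorem unit (j : ℝ) (j0 : 0 ≤ j) (j2 : j ≤ 2) (u : C(LP P₀ y₀, LP P₀ y₀))
    (hu : ∀ x (z : I) p, (u x).1 (z, p) = x.1 (cl (3 * z - j), p)) :
    u.HomotopicRel (.id _) {LP.e P₀ y₀} := by
  refine ⟨⟨⟨mk (fun q : (I × LP P₀ y₀) × I × P =>
      q.1.2.1 (cl ((1 - q.1.1) * (3 * q.2.1 - j) + q.1.1 * q.2.1), q.2.2))
      (ev (by fun_prop) (by fun_prop) (by fun_prop)) (fun x p => lo _ ?_ p) (fun x p => hi _ ?_ p)
      fun x z p hp => x.2.2.2.2 _ p hp, fun x => ?_, fun x => ?_⟩, fun s x hx => ?_⟩⟩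
  · have := mul_nonneg (sub_nonneg.2 x.1.2.2) j0
    simp only [Icc.coe_zero]
    linarith
  · have := mul_nonneg (sub_nonneg.2 x.1.2.2) (sub_nonneg.2 j2)
    simp only [Icc.coe_one]
    linarith
  · refine Subtype.ext (ContinuousMap.ext fun z => ?_)
    refine Eq.trans ?_ (hu x z.1 z.2).symm
    change x.1 (cl ((1 - ((0 : I) : ℝ)) * (3 * z.1 - j) + ((0 : I) : ℝ) * z.1), z.2) = _
    simp only [Icc.coe_zero, sub_zero, one_mul, zero_mul, add_zero]
  · refine Subtype.ext (ContinuousMap.ext fun z => ?_)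
    change x.1 (cl ((1 - ((1 : I) : ℝ)) * (3 * z.1 - j) + ((1 : I) : ℝ) * z.1), z.2) = x.1 z
    simp only [Icc.coe_one, sub_self, one_mul, zero_mul, zero_add, cl_val]
  · obtain rfl : x = LP.e P₀ y₀ := hx
    exact Subtype.ext (ContinuousMap.ext fun z => (hu (LP.e P₀ y₀) z.1 z.2).symm)

end CUB

open CUB in
theorem bCUB (hE : St_EH3) : St_CUB := by
  intro P Y _ _ _ _ P₀ y₀
  let e := LP.e P₀ y₀
  have he : ∀ z, e.1 z = y₀ := fun _ => rfl
  let κ : Pt e e := ⟨(cat P₀ y₀).comp ⟨fun x => (x, x, x), by fun_prop⟩,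
    Subtype.ext (ContinuousMap.ext fun z => by
      change val e e e z = y₀
      simp only [val, he, ite_self])⟩
  refine ⟨κ, fun w z z' p j h => ?_, hE _ e (cat P₀ y₀) κ
    ((cat P₀ y₀).comp ⟨fun x => (x, e, e), by fun_prop⟩)
    ((cat P₀ y₀).comp ⟨fun x => (e, x, e), by fun_prop⟩)
    ((cat P₀ y₀).comp ⟨fun x => (e, e, x), by fun_prop⟩) (fun _ => rfl) (fun _ => rfl)
    (fun _ => rfl) (fun _ => rfl) (unit 0 le_rfl zero_le_two _ fun x z p => ?_)
    (unit 1 zero_le_one one_le_two _ fun x z p => ?_) (unit 2 zero_le_two le_rfl _ fun x z p => ?_)⟩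
  · change val w w w (z, p) = _
    have a0 := z.2.1
    have a1 := z.2.2
    simp only [val]
    split_ifs with h1 h2
    · exact per w (by linarith) h1 z' j h p
    · exact per w (by linarith) (by linarith) z' (j - 1) (by push_cast; linarith) p
    · exact per w (by linarith) (by linarith) z' (j - 2) (by push_cast; linarith) p
  · change val x e e (z, p) = _
    simp only [val, he, ite_self, sub_zero]
    split_ifs with h1
    exacts [rfl, (hi x (by linarith) p).symm]
  · change val e x e (z, p) = _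
    simp only [val, he]
    split_ifs with h1 h2
    exacts [(lo x (by linarith) p).symm, rfl, (hi x (by linarith) p).symm]
  · change val e e x (z, p) = _
    simp only [val, he]
    split_ifs with h1 h2
    exacts [(lo x (by linarith) p).symm, (lo x (by linarith) p).symm, rfl]

end

end Pool.Agent.Lib.NFB
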