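import Pool.Agent.Lib.NFB.Blue2
import Pool.Agent.Lib.LT.B_BALL

/-! Cubes are simplices. -/

namespace Pool.Agent.Lib.NFB

open Set Topology Metric unitInterval
open Pool.Agent.Lib.LT Pool.Agent.Lib.MP_77749b_gt

namespace CUBE

theorem aff_mem {n : ℕ} (u : Fin n → I) :
    (fun i => 2 * (u i : ℝ) - 1) ∈ closedBall (0 : Fin n → ℝ) 1 := by
  rw [mem_closedBall_zero_iff, pi_norm_le_iff_of_nonneg zero_le_one]
  intro i
  rw [Real.norm_eq_abs, abs_le]
  constructor <;> linarith [(u i).2.1, (u i).2.2]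

theorem aff_ball {n : ℕ} (u : Fin n → I) :
    (fun i => 2 * (u i : ℝ) - 1) ∈ ball (0 : Fin n → ℝ) 1 ↔ ∀ i, u i ≠ 0 ∧ u i ≠ 1 := by
  rw [mem_ball_zero_iff, pi_norm_lt_iff zero_lt_one]
  refine forall_congr' fun i => ?_
  rw [Real.norm_eq_abs, abs_lt, ← unitInterval.pos_iff_ne_zero, ← unitInterval.lt_one_iff_ne_one,
    ← Subtype.coe_lt_coe, ← Subtype.coe_lt_coe, Icc.coe_zero, Icc.coe_one]
  constructor <;> rintro ⟨a, b⟩ <;> constructor <;> linarith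

theorem cube (n : ℕ) {Q : Type} [TopologicalSpace Q] [CompactSpace Q] (k : Q → Fin n → I)
    (hk : Continuous k) (hb : Function.Bijective k) :
    ∃ χ : Dl (n + 1) ≃ₜ Q, ∀ t, Inn t ↔ ∀ i, k (χ t) i ≠ 0 ∧ k (χ t) i ≠ 1 := by
  obtain ⟨h, hc, hj, hi⟩ := st_BALL n
  set g : Q → Dl (n + 1) := fun q => h fun i => 2 * (k q i : ℝ) - 1 with hg
  have g1 : Continuous g := hc.comp_continuous (by fun_prop) fun q => aff_mem _
  have g2 : Function.Bijective g := by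
    refine ⟨fun p q e => hb.1 (funext fun i => Subtype.ext ?_), fun t => ?_⟩
    · have := congrFun (hj.injOn (aff_mem _) (aff_mem _) e) i
      linarith
    · obtain ⟨x, hx, rfl⟩ := hj.surjOn (mem_univ t)
      rw [mem_closedBall_zero_iff, pi_norm_le_iff_of_nonneg zero_le_one] at hx
      obtain ⟨q, hq⟩ := hb.2 fun i => ⟨(x i + 1) / 2, by
        have := abs_le.1 (hx i)
        constructor <;> linarith [this.1, this.2]⟩
      refine ⟨q, congrArg h (funext fun i => ?_)⟩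
      rw [hq]
      ring
  refine ⟨(g1.homeoOfEquivCompactToT2 (f := Equiv.ofBijective g g2)).symm, fun t => ?_⟩
  obtain ⟨q, rfl⟩ := g2.2 t
  have e : (g1.homeoOfEquivCompactToT2 (f := Equiv.ofBijective g g2)).symm (g q) = q :=
    (g1.homeoOfEquivCompactToT2 (f := Equiv.ofBijective g g2)).symm_apply_apply q
  rw [e, ← aff_ball]
  exact hi _ (aff_mem _)

theorem bd (u : Fin 2 → I) :
    u ∉ Cube.boundary (Fin 2) ↔ (u 0 ≠ 0 ∧ u 0 ≠ 1) ∧ u 1 ≠ 0 ∧ u 1 ≠ 1 := by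
  simp only [Cube.boundary, mem_ofPred_eq, not_exists, not_or, Fin.forall_fin_two, ne_eq]

end CUBE

open CUBE in
theorem bCUBE : St_CUBE := by
  constructor
  · obtain ⟨χ, h⟩ := cube 4 (Q := Q4) (fun p => ![p.1 0, p.1 1, p.2.1, p.2.2]) (by fun_prop)
      ⟨fun p q e => Prod.ext (funext (Fin.forall_fin_two.2 ⟨congrFun e 0, congrFun e 1⟩))
        (Prod.ext (congrFun e 2) (congrFun e 3)),
        fun u => ⟨(![u 0, u 1], u 2, u 3), funext fun i => by fin_cases i <;> rfl⟩⟩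
    refine ⟨χ, fun t => (h t).trans ?_⟩
    rw [bd]
    exact ⟨fun a => ⟨⟨a 0, a 1⟩, (a 2).1, (a 2).2, a 3⟩, fun a i => by
      fin_cases i
      exacts [a.1.1, a.1.2, ⟨a.2.1, a.2.2.1⟩, a.2.2.2]⟩
  · obtain ⟨χ, h⟩ := cube 3 (Q := (Fin 2 → I) × I) (fun p => ![p.1 0, p.1 1, p.2]) (by fun_prop)
      ⟨fun p q e => Prod.ext (funext (Fin.forall_fin_two.2 ⟨congrFun e 0, congrFun e 1⟩))
        (congrFun e 2),
        fun u => ⟨(![u 0, u 1], u 2), funext fun i => by fin_cases i <;> rfl⟩⟩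
    refine ⟨χ, fun t => (h t).trans ?_⟩
    rw [bd]
    exact ⟨fun a => ⟨⟨a 0, a 1⟩, a 2⟩, fun a i => by
      fin_cases i
      exacts [a.1.1, a.1.2, a.2]⟩

end Pool.Agent.Lib.NFB
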