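import Pool.Agent.Lib.NFB.Blue1

/-! The double of the double cover. -/

namespace Pool.Agent.Lib.NFB

open Set Topology Metric unitInterval

namespace DCOV

variable {V : Type} [NormedAddCommGroup V] {N : Set V}

theorem ov (w : Db N) : Over w (dpr N w) (0 ≤ w.1.2) := by
  refine ⟨rfl, ?_⟩
  have h : |w.1.2| = dp N (dpr N w).1 := w.2.2
  split_ifs with h1
  · rw [← h, abs_of_nonneg h1, one_mul]
  · rw [← h, abs_of_neg (not_le.1 h1), neg_one_mul, neg_neg]

theorem zer {w w' : Db N} {x : N} {P P' : Prop} (h : Over w x P) (h' : Over w' x P')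
    (e : 0 < dp N x → (P ↔ P')) : w = w' := by
  rcases (dp_nonneg N x).eq_or_lt with h0 | h0
  · refine Subtype.ext (Prod.ext (h.1.trans h'.1.symm) ?_)
    rw [h.2, h'.2, ← h0, mul_zero, mul_zero]
  · exact h.unique h' (e h0)

theorem sgn {w : Db N} {x : N} {P : Prop} (h : Over w x P) (h0 : 0 < dp N x) : 0 ≤ w.1.2 ↔ P := by
  rw [h.2]
  split_ifs with h1
  · exact iff_of_true (by linarith) h1
  · exact iff_of_false (by linarith) h1

theorem ex (x : N) (P : Prop) : ∃ w : Db N, Over w x P := by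
  classical
  refine ⟨⟨(x.1, (if P then 1 else -1) * dp N x.1), x.2, ?_⟩, rfl, by split_ifs <;> rfl⟩
  split_ifs <;> simp [abs_of_nonneg (dp_nonneg N x.1)]

end DCOV

theorem bDCOV (hS : St_SIGN) : St_DCOV := by
  intro V _ N₁ N₂ P θ₁ θ₂ hc h₁ h₂ hT
  have m1 : ∀ x ∈ N₂, P x ∈ N₁ := fun x hx => by
    rw [hT.pre] at hx
    exact hx
  have m2 : ∀ x, 0 < dp N₁ (P x) ↔ 0 < dp N₂ x := fun x => by
    rw [dp_pos_iff h₁, dp_pos_iff h₂]
    refine ⟨fun h => ?_, fun h => ?_⟩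
    · rw [hT.pre]
      exact preimage_interior_subset_interior_preimage P.continuous h
    · rw [hT.pre] at h
      exact hT.op.interior_preimage_subset_preimage_interior h
  let a : C(Db N₂, N₁) := ⟨fun z => ⟨P z.1.1, m1 _ z.2.1⟩, by fun_prop⟩
  obtain ⟨Φ, hΦ⟩ := hS V N₁ (Db N₂) a (fun z => 0 ≤ z.1.2) h₁ fun z hz => by
    have h3 : 0 < |z.1.2| := z.2.2 ▸ (m2 _).1 ((dp_pos_iff h₁).2 hz)
    have h4 : Continuous fun y : Db N₂ => y.1.2 := by fun_prop
    rcases (abs_pos.1 h3).lt_or_gt with h | h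
    · filter_upwards [h4.continuousAt.eventually_lt continuousAt_const h] with y hy
      exact iff_of_false hy.not_ge h.not_ge
    · filter_upwards [continuousAt_const.eventually_lt h4.continuousAt h] with y hy
      exact iff_of_true hy.le h.le
  have e1 : ∀ z, dpr N₁ (Φ z) = a z := fun z => Subtype.ext (hΦ z).1
  let f : Db N₂ → Sq (θ₁.comp (dpr N₁)) := fun z => ⟨(Φ z, θ₂ (dpr N₂ z)), by
    rw [ContinuousMap.comp_apply, e1]
    exact hT.sq (dpr N₂ z) _⟩
  have cf : Continuous f := by fun_prop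
  have bf : Function.Bijective f := by
    refine ⟨fun z z' h => ?_, fun w => ?_⟩
    · have h3 : Φ z = Φ z' := congrArg (·.1.1) h
      have h4 : a z = a z' := by rw [← e1, ← e1, h3]
      have h5 : dpr N₂ z = dpr N₂ z' :=
        hT.inj _ _ (congrArg Subtype.val h4) (congrArg (·.1.2) h)
      refine DCOV.zer (DCOV.ov z) (h5 ▸ DCOV.ov z') fun h0 => ?_
      have h6 : 0 < dp N₁ (a z) := (m2 _).2 h0
      rw [← DCOV.sgn (hΦ z) h6, ← DCOV.sgn (hΦ z') (h4 ▸ h6), h3]
    · obtain ⟨x, h3, h4⟩ := hT.surj (dpr N₁ w.1.1) w.1.2 w.2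
      obtain ⟨z, hz⟩ := DCOV.ex x (0 ≤ w.1.1.1.2)
      have h5 : dpr N₂ z = x := Subtype.ext hz.1
      have h6 : a z = dpr N₁ w.1.1 := Subtype.ext ((congrArg P hz.1).trans h3)
      refine ⟨z, Subtype.ext (Prod.ext ?_ ((congrArg θ₂ h5).trans h4))⟩
      refine DCOV.zer (hΦ z) (h6 ▸ DCOV.ov w.1.1) fun h0 => DCOV.sgn hz ?_
      rw [← h5]
      exact (m2 _).1 h0
  have := compact_Db hc
  exact ⟨Continuous.homeoOfEquivCompactToT2 (f := Equiv.ofBijective f bf) cf, fun z => rfl⟩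

end Pool.Agent.Lib.NFB
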