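import Pool.Agent.Lib.NFB.Blue2

/-! Quotient coverings of double mapping cylinders. -/

namespace Pool.Agent.Lib.NFB

open Set Topology unitInterval

namespace DMCOV

theorem dis {Γ X A : Type} [Group Γ] [TopologicalSpace X] [TopologicalSpace A] [MulAction Γ X]
    [MulAction Γ A] {V : Set X} (hV : IsOpen V) {r : X → A} (hr : ContinuousOn r V)
    (he : ∀ δ : Γ, ∀ y ∈ V, r (δ • y) = δ • r y)
    (hA : ∀ a : A, ∃ U ∈ 𝓝 a, ∀ δ : Γ, ((δ • ·) '' U ∩ U).Nonempty → δ = 1) {x : X} (hx : x ∈ V) :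
    ∃ U ∈ 𝓝 x, ∀ δ : Γ, ((δ • ·) '' U ∩ U).Nonempty → δ = 1 := by
  obtain ⟨U, hU, h⟩ := hA (r x)
  refine ⟨V ∩ r ⁻¹' U, Filter.inter_mem (hV.mem_nhds hx)
    ((hr.continuousAt (hV.mem_nhds hx)).preimage_mem_nhds hU), ?_⟩
  rintro δ ⟨_, ⟨y, hy, rfl⟩, hz⟩
  exact h δ ⟨δ • r y, ⟨r y, hy.2, rfl⟩, he δ y hy.1 ▸ hz.2⟩

end DMCOV

theorem bDMCOV : St_DMCOV := by
  intro Γ A B C A' B' C' _ _ _ _ _ _ _ _ _ _ f g f' g' α γ β h0 h1 hα hγ hβ ef eg
  let m : Γ → C(DM f g, DM f g) := fun δ => DM.map ⟨(δ • ·), hα.continuous_const_smul δ⟩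
    ⟨(δ • ·), hγ.continuous_const_smul δ⟩ ⟨(δ • ·), hβ.continuous_const_smul δ⟩ (ef δ) (eg δ)
  let act : MulAction Γ (DM f g) :=
    { smul := fun δ x => m δ x
      one_smul := DM.ind (fun a => congrArg (inA f g) (one_smul Γ a))
        (fun c t => congrArg (fun c => cy f g (c, t)) (one_smul Γ c))
        fun b => congrArg (inB f g) (one_smul Γ b)
      mul_smul := fun δ δ' => DM.ind (fun a => congrArg (inA f g) (mul_smul δ δ' a))
        (fun c t => congrArg (fun c => cy f g (c, t)) (mul_smul δ δ' c))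
        fun b => congrArg (inB f g) (mul_smul δ δ' b) }
  have sA : ∀ (δ : Γ) a, δ • inA f g a = inA f g (δ • a) := fun _ _ => rfl
  have sC : ∀ (δ : Γ) c u, δ • cy f g (c, u) = cy f g (δ • c, u) := fun _ _ _ => rfl
  have sB : ∀ (δ : Γ) b, δ • inB f g b = inB f g (δ • b) := fun _ _ => rfl
  refine ⟨act, sA, sC, sB, ?_⟩
  have hq : IsQuotientMap (DM.map α γ β h0 h1) := by
    have oα := hα.isOpenQuotientMap
    have oβ := hβ.isOpenQuotientMap
    have oγ := hγ.isOpenQuotientMap.prodMap (IsOpenQuotientMap.id (X := I))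
    have o : IsOpenQuotientMap (Sum.map α (Sum.map (Prod.map γ (id : I → I)) β)) :=
      ⟨oα.surjective.sumMap (oγ.surjective.sumMap oβ.surjective),
        oα.continuous.sumMap (oγ.continuous.sumMap oβ.continuous),
        oα.isOpenMap.sumMap (oγ.isOpenMap.sumMap oβ.isOpenMap)⟩
    refine IsQuotientMap.of_comp (dq f g).continuous (map_continuous _) ?_
    have e : DM.map α γ β h0 h1 ∘ dq f g =
        dq f' g' ∘ Sum.map α (Sum.map (Prod.map γ (id : I → I)) β) := by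
      funext z
      rcases z with a | ⟨c, t⟩ | b <;> rfl
    rw [e]
    exact (dq_quot f' g').comp o.isQuotientMap
  refine { hq with
    continuous_const_smul := fun δ => (m δ).continuous
    apply_eq_iff_mem_orbit := fun {x y} => ⟨fun h => ?_, ?_⟩
    disjoint := fun x => ?_ }
  · have hh := congrArg (ht f' g') h
    rcases x.cases with ⟨a, rfl⟩ | ⟨c, t, t0, t1, rfl⟩ | ⟨b, rfl⟩ <;>
      rcases y.cases with ⟨a', rfl⟩ | ⟨c', t', t0', t1', rfl⟩ | ⟨b', rfl⟩
    · obtain ⟨δ, rfl⟩ := hα.apply_eq_iff_mem_orbit.1 (inA_inj h)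
      exact ⟨δ, rfl⟩
    · exact absurd hh.symm t0'
    · exact absurd hh zero_ne_one
    · exact absurd hh t0
    · obtain ⟨e, rfl⟩ := cy_inj t0 t1 h
      obtain ⟨δ, rfl⟩ := hγ.apply_eq_iff_mem_orbit.1 e
      exact ⟨δ, rfl⟩
    · exact absurd hh t1
    · exact absurd hh one_ne_zero
    · exact absurd hh.symm t1'
    · obtain ⟨δ, rfl⟩ := hβ.apply_eq_iff_mem_orbit.1 (inB_inj h)
      exact ⟨δ, rfl⟩
  · rintro ⟨δ, rfl⟩
    induction y using DM.ind with
    | hA a => exact congrArg (inA f' g') (hα.map_smul δ)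
    | hC c t => exact congrArg (fun c => cy f' g' (c, t)) (hγ.map_smul δ)
    | hB b => exact congrArg (inB f' g') (hβ.map_smul δ)
  · have kA : A → ht f g x ≠ 1 → ∃ U ∈ 𝓝 x, ∀ δ : Γ, ((δ • ·) '' U ∩ U).Nonempty → δ = 1 := by
      intro a hx
      obtain ⟨r, r1, r2, r3⟩ := DM.retA (f := f) (g := g) a
      refine DMCOV.dis (isOpen_compl_singleton.preimage (ht f g).continuous) r1 (fun δ y hy => ?_)
        hα.disjoint hx
      induction y using DM.ind with
      | hA a => rw [sA, r2, r2]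
      | hC c t => rw [sC, r3 _ t hy, r3 _ t hy, ef]
      | hB b => exact absurd rfl hy
    have kB : B → ht f g x ≠ 0 → ∃ U ∈ 𝓝 x, ∀ δ : Γ, ((δ • ·) '' U ∩ U).Nonempty → δ = 1 := by
      intro b hx
      obtain ⟨r, r1, r2, r3⟩ := DM.retB (f := f) (g := g) b
      refine DMCOV.dis (isOpen_compl_singleton.preimage (ht f g).continuous) r1 (fun δ y hy => ?_)
        hβ.disjoint hx
      induction y using DM.ind with
      | hA a => exact absurd rfl hy
      | hC c t => rw [sC, r3 _ t hy, r3 _ t hy, eg]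
      | hB b => rw [sB, r2, r2]
    rcases x.cases with ⟨a, rfl⟩ | ⟨c, t, -, t1, rfl⟩ | ⟨b, rfl⟩
    · exact kA a zero_ne_one
    · exact kA (f c) t1
    · exact kB b one_ne_zero

end Pool.Agent.Lib.NFB
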