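import Pool.Agent.Lib.NFB.Blue2

/-! Block DOLD: an equivariant equivalence of the fibres gives an equivalence of the bundles. -/

namespace Pool.Agent.Lib.NFB

open Set Topology unitInterval

noncomputable section

namespace DOLD

theorem one (hT : St_TORUS) (hG : St_GLUE) (hS : St_HES) {A A' : Type} [TopologicalSpace A]
    [TopologicalSpace A'] [CompactSpace A] [T2Space A] [CompactSpace A'] [T2Space A']
    {φ : A ≃ₜ A} {φ' : A' ≃ₜ A'} (F : C(A, A')) (h : ∀ y, F (φ y) = φ' (F y)) (hF : HE F) :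
    HE (Bo.map F h) := by
  obtain ⟨e, a1, a2, a3, a4⟩ := hT A (Bo φ) φ (bm φ) bm_open.surjective fun _ _ => bm_eq
  obtain ⟨e', b1, b2, b3, b4⟩ := hT A' (Bo φ') φ' (bm φ') bm_open.surjective fun _ _ => bm_eq
  have hs : ∀ y, φ'.symm (F y) = F (φ.symm y) := fun y => φ'.injective (by simp [← h])
  have h0 : ∀ c, se (.id A') (φ'.symm : C(A', A')) (sm F F c) =
      F (se (.id A) (φ.symm : C(A, A)) c) := by
    rintro (c | c)
    · rfl
    · exact hs c
  have h1 : ∀ c, se (.id A') (.id A') (sm F F c) = F (se (.id A) (.id A) c) := by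
    rintro (c | c) <;> rfl
  have hq := hG _ _ _ _ _ _ _ _ _ _ F (sm F F) F h0 h1 hF (hS _ _ _ _ F F hF hF).1 hF
  refine (HE.homeo e).of_left ?_
  have key : (Bo.map F h).comp (e : C(_, _)) =
      (e' : C(_, _)).comp (DM.map F (sm F F) F h0 h1) := by
    refine ContinuousMap.ext (DM.ind (fun y => ?_) (fun c t => ?_) fun y => ?_)
    · exact (congrArg (Bo.map F h) (a1 y)).trans (b1 (F y)).symm
    · rcases c with c | c
      · exact (congrArg (Bo.map F h) (a2 c t)).trans (b2 (F c) t).symm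
      · exact (congrArg (Bo.map F h) (a3 c t)).trans (b3 (F c) t).symm
    · exact (congrArg (Bo.map F h) (a4 y)).trans (b4 (F y)).symm
  rw [key]
  exact (HE.homeo e').comp hq

end DOLD

theorem bDOLD (hTORUS : St_TORUS) (hGLUE : St_GLUE) (hHES : St_HES) : St_DOLD :=
  fun _ _ _ _ _ _ _ _ _ _ F h hF =>
    DOLD.one hTORUS hGLUE hHES _ _ (DOLD.one hTORUS hGLUE hHES F h.a hF)

end

end Pool.Agent.Lib.NFB
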