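import Pool.Agent.Lib.NFB.Blue2

/-! Row `EH3`: a ternary operation with units multiplies homotopy classes. -/

namespace Pool.Agent.Lib.NFB

open Set Topology Metric unitInterval
open scoped Topology.Homotopy

namespace EH3

variable {L : Type} [TopologicalSpace L] (e : L)

/-- the first projection -/
def p₁ : Pt (e, e, e) e := ⟨⟨fun z => z.1, by fun_prop⟩, rfl⟩

/-- the second projection -/
def p₂ : Pt (e, e, e) e := ⟨⟨fun z => z.2.1, by fun_prop⟩, rfl⟩

/-- the third projection -/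
def p₃ : Pt (e, e, e) e := ⟨⟨fun z => z.2.2, by fun_prop⟩, rfl⟩

/-- the diagonal -/
def dg : Pt e (e, e, e) := ⟨⟨fun z => (z, z, z), by fun_prop⟩, rfl⟩

/-- the first axis -/
def i₁ : Pt e (e, e, e) := ⟨⟨fun z => (z, e, e), by fun_prop⟩, rfl⟩

/-- the second axis -/
def i₂ : Pt e (e, e, e) := ⟨⟨fun z => (e, z, e), by fun_prop⟩, rfl⟩

/-- the third axis -/
def i₃ : Pt e (e, e, e) := ⟨⟨fun z => (e, e, z), by fun_prop⟩, rfl⟩

theorem inj3 {x x' : P2 (e, e, e)} : hmap (p₁ e) x = hmap (p₁ e) x' →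
    hmap (p₂ e) x = hmap (p₂ e) x' → hmap (p₃ e) x = hmap (p₃ e) x' → x = x' :=
  Quotient.inductionOn₂ x x' fun p q h1 h2 h3 => by
    obtain ⟨H1⟩ := Quotient.exact h1
    obtain ⟨H2⟩ := Quotient.exact h2
    obtain ⟨H3⟩ := Quotient.exact h3
    exact Quotient.sound ⟨H1.prod (H2.prod H3)⟩

theorem cid {k : Pt e (e, e, e)} {k' : Pt (e, e, e) e} (h : ∀ z, k'.1 (k.1 z) = z) (x : P2 e) :
    hmap k' (hmap k x) = x :=
  (hmap_comp k k' ⟨.id L, rfl⟩ (fun z => (h z).symm) x).symm.trans (hmap_id _ (fun _ => rfl) x)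

theorem cone {k : Pt e (e, e, e)} {k' : Pt (e, e, e) e} (h : ∀ z, k'.1 (k.1 z) = e) (x : P2 e) :
    hmap k' (hmap k x) = 1 :=
  (hmap_comp k k' ⟨.const L e, rfl⟩ (fun z => (h z).symm) x).symm.trans
    (hmap_const _ (fun _ => rfl) x)

theorem diag (x : P2 e) : hmap (dg e) x = hmap (i₁ e) x * hmap (i₂ e) x * hmap (i₃ e) x := by
  refine inj3 e ?_ ?_ ?_
  · rw [map_mul, map_mul, cid e (k := dg e) fun _ => rfl, cid e (k := i₁ e) fun _ => rfl,
      cone e (k := i₂ e) fun _ => rfl, cone e (k := i₃ e) fun _ => rfl, mul_one, mul_one]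
  · rw [map_mul, map_mul, cid e (k := dg e) fun _ => rfl, cid e (k := i₂ e) fun _ => rfl,
      cone e (k := i₁ e) fun _ => rfl, cone e (k := i₃ e) fun _ => rfl, mul_one, one_mul]
  · rw [map_mul, map_mul, cid e (k := dg e) fun _ => rfl, cid e (k := i₃ e) fun _ => rfl,
      cone e (k := i₁ e) fun _ => rfl, cone e (k := i₂ e) fun _ => rfl, mul_one, one_mul]

theorem axis {k : Pt e (e, e, e)} {m : Pt (e, e, e) e} {u : C(L, L)} (h : ∀ z, u z = m.1 (k.1 z))
    (hu : u.HomotopicRel (.id L) {e}) (x : P2 e) : hmap m (hmap k x) = x :=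
  (hmap_comp k m ⟨u, (h e).trans ((congrArg m.1 k.2).trans m.2)⟩ h x).symm.trans
    ((hmap_congr (k' := ⟨.id L, rfl⟩) hu x).trans (hmap_id _ (fun _ => rfl) x))

end EH3

open EH3 in
theorem bEH3 : St_EH3 := by
  intro L _ e m κ u v w hκ hu hv hw u1 v1 w1 x
  let m' : Pt (e, e, e) e := ⟨m, (hκ e).symm.trans κ.2⟩
  rw [hmap_comp (dg e) m' κ hκ, diag, map_mul, map_mul, axis e (k := i₁ e) (m := m') hu u1,
    axis e (k := i₂ e) (m := m') hv v1, axis e (k := i₃ e) (m := m') hw w1, pow_three']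

end Pool.Agent.Lib.NFB
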