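import Pool.Agent.Lib.NFB.Blue1

/-! Products, balls and intervals are bodies. -/

namespace Pool.Agent.Lib.NFB

open Set Topology Metric

namespace ELP

theorem ball {V : Type} [NormedAddCommGroup V] [NormedSpace ℝ V] [ProperSpace V] (c : V) {R : ℝ}
    (hR : 0 < R) : EL (closedBall c R) := by
  refine ⟨isCompact_closedBall c R, fun x₀ _ => ⟨c - x₀, min 1 (R / 2), by positivity, ?_⟩⟩
  intro y hy h1 w h2 t h0 ht
  have ht1 : t ≤ 1 := ht.trans (min_le_left _ _)
  have hm : min 1 (R / 2) ≤ R / 2 := min_le_right _ _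
  rw [mem_closedBall_iff_norm] at hy ⊢
  have h3 : y + t • w - c = (1 - t) • (y - c) + t • ((y - x₀) + (w - (c - x₀))) := by module
  have h4 : ‖(y - x₀) + (w - (c - x₀))‖ ≤ R := (norm_add_le _ _).trans (by linarith)
  rw [h3]
  refine (norm_add_le _ _).trans ?_
  rw [norm_smul, norm_smul, Real.norm_of_nonneg h0, Real.norm_of_nonneg (sub_nonneg.2 ht1)]
  nlinarith [mul_le_mul_of_nonneg_left hy (sub_nonneg.2 ht1), mul_le_mul_of_nonneg_left h4 h0]

end ELP

theorem bELP : St_ELP := by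
  refine ⟨fun V V' _ _ _ _ N N' h h' => ⟨h.1.prod h'.1, fun x₀ hx => ?_⟩, fun V _ _ _ R hR => ?_,
    fun a b hab => ?_⟩
  · obtain ⟨e, r, hr, he⟩ := h.2 x₀.1 hx.1
    obtain ⟨e', r', hr', he'⟩ := h'.2 x₀.2 hx.2
    refine ⟨(e, e'), min r r', lt_min hr hr', fun y hy h1 w h2 t h0 ht => ⟨?_, ?_⟩⟩
    · exact he y.1 hy.1 ((norm_fst_le (y - x₀)).trans_lt (h1.trans_le (min_le_left _ _))) w.1
        ((norm_fst_le (w - (e, e'))).trans_lt (h2.trans_le (min_le_left _ _))) t h0
        (ht.trans (min_le_left _ _))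
    · exact he' y.2 hy.2 ((norm_snd_le (y - x₀)).trans_lt (h1.trans_le (min_le_right _ _))) w.2
        ((norm_snd_le (w - (e, e'))).trans_lt (h2.trans_le (min_le_right _ _))) t h0
        (ht.trans (min_le_right _ _))
  · have := FiniteDimensional.proper_real V
    exact ELP.ball 0 hR
  · rw [Real.Icc_eq_closedBall]
    exact ELP.ball _ (by linarith)

end Pool.Agent.Lib.NFB
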