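import Pool.Agent.Lib.NFB.Blue1

/-! Bodies are neighbourhood retracts. -/

namespace Pool.Agent.Lib.NFB

open Set Topology Metric unitInterval

theorem bENR (hF : St_FIELD) : St_ENR := by
  intro V _ _ _ N hN
  rcases N.eq_empty_or_nonempty with rfl | h1
  · exact ⟨∅, id, isOpen_empty, Subset.rfl, continuous_id, mapsTo_id _, fun _ _ => rfl⟩
  rcases Nᶜ.eq_empty_or_nonempty with h | h2
  · obtain rfl := compl_empty_iff.1 h
    exact ⟨univ, id, isOpen_univ, Subset.rfl, continuous_id, mapsTo_id _, fun _ _ => rfl⟩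
  obtain ⟨u, m, η, c, f⟩ := hF V N hN h1 h2
  have hs := fun x => sd_nonpos_iff hN.1.isClosed h1 (x := x)
  have h0 : ∀ x ∈ N, x + min 1 (max 0 (sd N x / c)) • u x = x := fun x hx => by
    rw [max_eq_left (div_nonpos_of_nonpos_of_nonneg ((hs x).2 hx) f.pos.le),
      min_eq_right zero_le_one, zero_smul, add_zero]
  refine ⟨{x | sd N x < c}, fun x => x + min 1 (max 0 (sd N x / c)) • u x,
    isOpen_lt (continuous_sd N) continuous_const, fun x hx => ((hs x).2 hx).trans_lt f.pos,
    continuous_id.add ((continuous_const.min (continuous_const.max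
      ((continuous_sd N).div_const c))).smul f.lip.continuous), fun x (hx : sd N x < c) => ?_, h0⟩
  by_cases h : x ∈ N
  · simpa only [h0 x h] using h
  have p : 0 < sd N x := not_le.1 fun k => h ((hs x).1 k)
  have t0 := (div_pos p f.pos).le
  have t1 := (div_le_one f.pos).2 hx.le
  refine (hs _).1 ?_
  simp only [max_eq_right t0, min_eq_right t1]
  have k := f.push x x (by simpa using f.pos.le.trans f.le) _ t0 t1
  have k2 := mul_le_mul_of_nonneg_left (f.big x (by rw [abs_of_pos p]; exact hx.le.trans f.le)) t0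
  rw [div_mul_cancel₀ _ f.pos.ne'] at k2
  linarith

end Pool.Agent.Lib.NFB
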