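import Pool.Agent.Lib.NFB.Blue1

/-! Block FIELD: the global inward field of a body. -/

namespace Pool.Agent.Lib.NFB

open Set Topology Metric

namespace FIELD

theorem pos_min {ι : Type} (J : Finset ι) (f : ι → ℝ) (h : ∀ j, 0 < f j) :
    ∃ ε : ℝ, 0 < ε ∧ ∀ j ∈ J, ε ≤ f j := by
  classical
  induction J using Finset.induction_on with
  | empty => exact ⟨1, one_pos, by simp⟩
  | insert a J _ ih =>
    obtain ⟨ε, h0, h1⟩ := ih
    refine ⟨min ε (f a), lt_min h0 (h a), fun j hj => ?_⟩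
    rcases Finset.mem_insert.1 hj with rfl | hj
    · exact min_le_right _ _
    · exact (min_le_left _ _).trans (h1 j hj)

variable {V : Type} [NormedAddCommGroup V] [NormedSpace ℝ V]

theorem near_front {N : Set V} (hc : IsClosed N) (h1 : N.Nonempty) (h2 : Nᶜ.Nonempty) {x : V}
    {η : ℝ} (hη : 0 < η) (hx : |sd N x| ≤ η) : ∃ z ∈ frontier N, ‖x - z‖ < 2 * η := by
  have key : (ball x (2 * η) ∩ N).Nonempty ∧ (ball x (2 * η) ∩ Nᶜ).Nonempty := by
    have hb : x ∈ ball x (2 * η) := mem_ball_self (by linarith)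
    by_cases h : x ∈ N
    · rw [sd_of_mem h, abs_neg, abs_of_nonneg (dp_nonneg N x)] at hx
      obtain ⟨y, hy, hd⟩ := (infDist_lt_iff h2).1 (show infDist x Nᶜ < 2 * η by
        unfold dp at hx; linarith)
      exact ⟨⟨x, hb, h⟩, y, mem_ball'.2 hd, hy⟩
    · rw [sd, infDist_zero_of_mem (s := Nᶜ) h, sub_zero, abs_of_nonneg infDist_nonneg] at hx
      obtain ⟨y, hy, hd⟩ := (infDist_lt_iff h1).1 (show infDist x N < 2 * η by linarith)
      exact ⟨⟨y, mem_ball'.2 hd, hy⟩, x, hb, h⟩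
  by_contra hn
  have hs : ball x (2 * η) ⊆ interior N ∪ Nᶜ := fun y hy => by
    by_cases h : y ∈ N
    · refine .inl (by_contra fun h' => hn ⟨y, ⟨subset_closure h, h'⟩, ?_⟩)
      rw [← dist_eq_norm]
      exact mem_ball'.1 hy
    · exact .inr h
  obtain ⟨⟨a, ha, ha'⟩, b, hb, hb'⟩ := key
  obtain ⟨w, -, hw, hw'⟩ := (convex_ball x (2 * η)).isPreconnected _ _ isOpen_interior
    hc.isOpen_compl hs ⟨a, ha, (hs ha).resolve_right fun h => h ha'⟩ ⟨b, hb, hb'⟩
  exact hw' (interior_subset hw)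

/-- tent function -/
noncomputable def tent (z : V) (s : ℝ) (x : V) : ℝ := max 0 (s - ‖x - z‖)

omit [NormedSpace ℝ V] in
theorem tent_nn (z : V) (s : ℝ) (x : V) : 0 ≤ tent z s x := le_max_left _ _

omit [NormedSpace ℝ V] in
theorem tent_le (z : V) {s : ℝ} (hs : 0 ≤ s) (x : V) : tent z s x ≤ s :=
  max_le hs (by linarith [norm_nonneg (x - z)])

omit [NormedSpace ℝ V] in
theorem tent_lip (z : V) (s : ℝ) (x y : V) : |tent z s x - tent z s y| ≤ ‖x - y‖ := by
  have h := abs_max_sub_max_le_abs (s - ‖x - z‖) (s - ‖y - z‖) 0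
  have h2 := abs_norm_sub_norm_le (y - z) (x - z)
  have e1 : s - ‖x - z‖ - (s - ‖y - z‖) = ‖y - z‖ - ‖x - z‖ := by ring
  rw [sub_sub_sub_cancel_right, norm_sub_rev y x] at h2
  rw [e1, max_comm, max_comm (s - ‖y - z‖)] at h
  exact h.trans h2

theorem steps {ι : Type} {N : Set V} (z e : ι → V) (s ρ a : ι → ℝ) (J : Finset ι) (y : V) {η : ℝ}
    (hp : ∀ j y, ‖y - z j‖ < 4 * s j → ∀ t : ℝ, 0 ≤ t → t ≤ 4 * s j →
      sd N (y + t • e j) ≤ sd N y - t * ρ j)
    (ha : ∀ j, 0 ≤ a j ∧ a j ≤ 4 * s j) (hy : ∀ j ∈ J, a j = 0 ∨ ‖y - z j‖ + η < 4 * s j)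
    (hs : ∑ j ∈ J, a j * ‖e j‖ ≤ η) :
    sd N (y + ∑ j ∈ J, a j • e j) ≤ sd N y - ∑ j ∈ J, a j * ρ j := by
  classical
  induction J using Finset.induction_on with
  | empty => simp
  | insert i J hi ih =>
    rw [Finset.sum_insert hi] at hs
    have h0 : ∑ j ∈ J, a j * ‖e j‖ ≤ η := by
      linarith [mul_nonneg (ha i).1 (norm_nonneg (e i))]
    have h1 := ih (fun j hj => hy j (Finset.mem_insert_of_mem hj)) h0
    rw [Finset.sum_insert hi, Finset.sum_insert hi, add_comm (a i • e i), ← add_assoc]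
    rcases hy i (Finset.mem_insert_self i J) with h | h
    · simpa [h] using h1
    · have h2 : ‖∑ j ∈ J, a j • e j‖ ≤ η := by
        refine (norm_sum_le _ _).trans (le_trans (le_of_eq ?_) h0)
        exact Finset.sum_congr rfl fun j _ => by rw [norm_smul, Real.norm_of_nonneg (ha j).1]
      have h3 := norm_add_le (y - z i) (∑ j ∈ J, a j • e j)
      rw [sub_add_eq_add_sub] at h3
      linarith [hp i (y + ∑ j ∈ J, a j • e j) (by linarith) (a i) (ha i).1 (ha i).2]

end FIELD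

open FIELD in
theorem bFIELD (hP : St_PUSH) : St_FIELD := by
  intro V _ _ _ N hN h1 h2
  have hc := hN.1.isClosed
  have key : ∀ j : frontier N, ∃ (e : V) (s ρ : ℝ), 0 < s ∧ 0 < ρ ∧ ∀ y, ‖y - (j : V)‖ < 4 * s →
      ∀ t : ℝ, 0 ≤ t → t ≤ 4 * s → sd N (y + t • e) ≤ sd N y - t * ρ := fun j => by
    obtain ⟨e, r, hr, h⟩ := hN.2 j (hc.frontier_subset j.2)
    obtain ⟨r', hr', h'⟩ := hP V N j e r hN.1 j.2 hr h
    refine ⟨e, r' / 4, r / 2, by linarith, by linarith, fun y hy t h0 ht => ?_⟩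
    exact h' y (by linarith) t h0 (by linarith)
  choose e s ρ hs hρ hp using key
  obtain ⟨J, hJ⟩ := (hN.1.of_isClosed_subset isClosed_frontier hc.frontier_subset).elim_finite_subcover
    (fun j : frontier N => ball (j : V) (s j / 2)) (fun _ => isOpen_ball) fun x hx =>
      mem_iUnion.2 ⟨⟨x, hx⟩, mem_ball_self (half_pos (hs _))⟩
  obtain ⟨η, hη, hηs⟩ := pos_min J (fun j => s j / 8) fun j => by linarith [hs j]
  have hB1 : 0 ≤ ∑ j ∈ J, ‖e j‖ := Finset.sum_nonneg fun j _ => norm_nonneg _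
  have hB2 : 0 ≤ ∑ j ∈ J, s j * ‖e j‖ :=
    Finset.sum_nonneg fun j _ => mul_nonneg (hs j).le (norm_nonneg _)
  obtain ⟨κ, hκ, hκ'⟩ : ∃ κ : ℝ, 0 < κ ∧
      κ * (1 + ∑ j ∈ J, ‖e j‖ + ∑ j ∈ J, s j * ‖e j‖) = min η (1 / 2) :=
    ⟨min η (1 / 2) / (1 + ∑ j ∈ J, ‖e j‖ + ∑ j ∈ J, s j * ‖e j‖), by positivity, by field_simp⟩
  have k1 := mul_nonneg hκ.le hB1
  have k2 := mul_nonneg hκ.le hB2
  have k3 := min_le_left η (1 / 2)
  have k4 := min_le_right η (1 / 2)
  obtain ⟨c, hc0, hcs⟩ := pos_min J (fun j => κ * (s j / 4) * ρ j) fun j => by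
    have := hs j
    have := hρ j
    positivity
  have hsum : ∀ (x : V) (t : ℝ), t ≤ 1 → ∑ j ∈ J, t * (κ * tent (j : V) (s j) x) * ‖e j‖ ≤ η := by
    intro x t ht
    refine le_trans ?_ (show κ * ∑ j ∈ J, s j * ‖e j‖ ≤ η by linarith)
    rw [Finset.mul_sum]
    refine Finset.sum_le_sum fun j _ => ?_
    rw [← mul_assoc κ]
    refine mul_le_mul_of_nonneg_right ?_ (norm_nonneg _)
    exact (mul_le_of_le_one_left (mul_nonneg hκ.le (tent_nn _ _ _)) ht).trans
      (mul_le_mul_of_nonneg_left (tent_le _ (hs j).le x) hκ.le)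
  refine ⟨fun x => ∑ j ∈ J, (κ * tent (j : V) (s j) x) • e j,
    fun x => ∑ j ∈ J, κ * tent (j : V) (s j) x * ρ j, η, min c η, lt_min hc0 hη, min_le_right _ _,
    LipschitzWith.of_dist_le_mul fun x y => ?_, fun x => ?_,
    fun x => Finset.sum_nonneg fun j _ => mul_nonneg (mul_nonneg hκ.le (tent_nn _ _ _)) (hρ j).le,
    fun x hx => ?_, fun x y hy t h0 ht => ?_⟩
  · rw [dist_eq_norm, dist_eq_norm, ← Finset.sum_sub_distrib]
    refine (norm_sum_le _ _).trans (le_trans (Finset.sum_le_sum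
      (g := fun j => κ * ‖e j‖ * ‖x - y‖) fun j _ => ?_) ?_)
    · rw [← sub_smul, ← mul_sub, norm_smul, Real.norm_eq_abs, abs_mul, abs_of_pos hκ]
      have := mul_le_mul_of_nonneg_left (tent_lip (j : V) (s j) x y)
        (mul_nonneg hκ.le (norm_nonneg (e j)))
      linarith
    · rw [← Finset.sum_mul, ← Finset.mul_sum]
      refine mul_le_mul_of_nonneg_right ?_ (norm_nonneg _)
      push_cast
      linarith
  · refine (norm_sum_le _ _).trans (le_trans (le_of_eq ?_) (hsum x 1 le_rfl))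
    exact Finset.sum_congr rfl fun j _ => by
      rw [norm_smul, Real.norm_of_nonneg (mul_nonneg hκ.le (tent_nn _ _ _)), one_mul]
  · obtain ⟨z, hz, hxz⟩ := near_front hc h1 h2 hη hx
    obtain ⟨j, hj, hzj⟩ := mem_iUnion₂.1 (hJ hz)
    rw [mem_ball, dist_eq_norm] at hzj
    have a1 := norm_add_le (x - z) (z - (j : V))
    rw [sub_add_sub_cancel] at a1
    have a2 : s j / 4 ≤ tent (j : V) (s j) x := le_max_of_le_right (by linarith [hηs j hj])
    refine (min_le_left _ _).trans ((hcs j hj).trans (le_trans ?_ (Finset.single_le_sum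
      (f := fun j : frontier N => κ * tent (j : V) (s j) x * ρ j)
      (fun j _ => mul_nonneg (mul_nonneg hκ.le (tent_nn _ _ _)) (hρ j).le) hj)))
    exact mul_le_mul_of_nonneg_right (mul_le_mul_of_nonneg_left a2 hκ.le) (hρ j).le
  · have := steps (fun j : frontier N => (j : V)) e s ρ (fun j => t * (κ * tent (j : V) (s j) x))
      J y hp (fun j => ⟨mul_nonneg h0 (mul_nonneg hκ.le (tent_nn _ _ _)), ?_⟩) (fun j hj => ?_)
      (hsum x t ht)
    · rw [Finset.smul_sum, Finset.mul_sum]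
      simpa only [smul_smul, mul_assoc] using this
    · have a1 := mul_le_of_le_one_left (mul_nonneg hκ.le (tent_nn (j : V) (s j) x)) ht
      have a2 := mul_le_of_le_one_left (tent_nn (j : V) (s j) x) (show κ ≤ 1 by linarith)
      linarith [tent_le (j : V) (hs j).le x, hs j]
    · by_cases h : s j ≤ ‖x - (j : V)‖
      · exact .inl (by rw [tent, max_eq_left (by linarith), mul_zero, mul_zero])
      · have a1 := norm_add_le (y - x) (x - (j : V))
        rw [sub_add_sub_cancel] at a1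
        exact .inr (by linarith [hηs j hj, hs j])

end Pool.Agent.Lib.NFB
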