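import Pool.Agent.Lib.NFB.Blue3

/-! The equation of the double decreases along a global field. -/

namespace Pool.Agent.Lib.NFB

open Set Topology Metric

namespace FLG

/-- a ramp -/
noncomputable def rp (d s : ℝ) : ℝ := min (max (s - d) 0) (d / 2)

theorem rp_lip (d s s' : ℝ) : |rp d s - rp d s'| ≤ |s - s'| := by
  refine (abs_min_sub_min_le_max _ _ _ _).trans (max_le ?_ (by simp))
  refine (abs_max_sub_max_le_max _ _ _ _).trans (max_le ?_ (by simp))
  rw [sub_sub_sub_cancel_right]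

theorem rp_nn {d : ℝ} (h : 0 < d) (s : ℝ) : 0 ≤ rp d s := le_min (le_max_right _ _) (by linarith)

theorem rp_le (d s : ℝ) : rp d s ≤ d / 2 := min_le_right _ _

theorem rp_zero {d s : ℝ} (h : 0 < d) (hs : s ≤ d) : rp d s = 0 := by
  rw [rp, max_eq_right (by linarith), min_eq_left (by linarith)]

theorem rp_top {d s : ℝ} (h : 0 < d) (hs : 2 * d ≤ s) : rp d s = d / 2 :=
  min_eq_right (le_max_of_le_left (by linarith))

theorem gain {d s s' t : ℝ} (h : 0 < d) (hs : |s' - s| ≤ d / 2) (t0 : 0 ≤ t) (t1 : t ≤ 1) :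
    |s' + t * ((rp d (-s) - rp d s) / 4)| ≤ |s'| - t * ((rp d (-s) + rp d s) / 4) := by
  obtain ⟨a1, a2⟩ := abs_le.1 hs
  have b1 := mul_nonneg t0 (rp_nn h s)
  have b2 := mul_nonneg t0 (rp_nn h (-s))
  have b3 := mul_le_mul t1 (rp_le d s) (rp_nn h s) zero_le_one
  have b4 := mul_le_mul t1 (rp_le d (-s)) (rp_nn h (-s)) zero_le_one
  rcases le_total s d with h1 | h1
  · rw [rp_zero h h1]
    rcases le_total (-s) d with h2 | h2
    · simp [rp_zero h h2]
    · rw [abs_of_nonpos (by linarith), abs_of_nonpos (by linarith)]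
      linarith
  · rw [rp_zero (s := -s) h (by linarith), abs_of_nonneg (by linarith), abs_of_nonneg (by linarith)]
    linarith

end FLG

open FLG in
theorem bFLG (hF : St_FIELD) : St_FLG := by
  intro V _ _ _ N hN h1 h2
  obtain ⟨u, m, η, c, f⟩ := hF V N hN h1 h2
  have hη : 0 < η := f.pos.trans_le f.le
  obtain ⟨d, hd, rfl⟩ : ∃ d, 0 < d ∧ η = 4 * d := ⟨η / 4, by linarith, by ring⟩
  refine ⟨fun p => (u p.1, (rp d (-p.2) - rp d p.2) / 4), 3, 4 * d, d / 2, min c (d / 8),
    lt_min f.pos (by linarith), by linarith, fun x y => ?_, .of_dist_le_mul fun x y => ?_,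
    fun x => ?_, fun x hx y hy t t0 t1 => ?_⟩
  · have a1 := abs_le.1 ((lipschitz_infDist_pt N).dist_le_mul x.1 y.1)
    have a2 := abs_le.1 ((lipschitz_infDist_pt Nᶜ).dist_le_mul x.1 y.1)
    have a3 := abs_le.1 ((abs_abs_sub_abs_le_abs_sub x.2 y.2).trans (norm_snd_le (x - y)))
    have a4 : dist x.1 y.1 ≤ ‖x - y‖ := (dist_eq_norm _ _).trans_le (norm_fst_le (x - y))
    simp only [NNReal.coe_one, one_mul] at a1 a2
    simp only [sd]
    exact abs_le.2 ⟨by linarith [a1.1, a2.2, a3.1], by linarith [a1.2, a2.1, a3.2]⟩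
  · have a1 : dist x.1 y.1 ≤ dist x y := le_max_left _ _
    have a2 : |x.2 - y.2| ≤ dist x y := le_max_right _ _
    have a3 := abs_le.1 (rp_lip d x.2 y.2)
    have a4 := abs_le.1 (rp_lip d (-x.2) (-y.2))
    rw [neg_sub_neg, abs_sub_comm] at a4
    refine max_le ((f.lip.dist_le_mul _ _).trans (by gcongr)) ?_
    have e : ((1 / 2 : NNReal) : ℝ) = 1 / 2 := by simp
    rw [e]
    exact abs_le.2 ⟨by linarith [a3.2, a4.1], by linarith [a3.1, a4.2]⟩
  · refine max_le (f.bd _) (abs_le.2 ⟨?_, ?_⟩)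
    · linarith [rp_nn hd (-x.2), rp_le d x.2]
    · linarith [rp_le d (-x.2), rp_nn hd x.2]
  · have a1 := f.push x.1 y.1 ((norm_fst_le (y - x)).trans (by linarith)) t t0 t1
    have a2 := gain (s := x.2) (s' := y.2) hd ((norm_snd_le (y - x)).trans hy) t0 t1
    have a3 : min c (d / 8) ≤ m x.1 + (rp d (-x.2) + rp d x.2) / 4 := by
      have b1 := rp_nn hd x.2
      have b2 := rp_nn hd (-x.2)
      have b3 := f.nn x.1
      have b4 := min_le_right c (d / 8)
      rcases le_total |x.2| (2 * d) with h | h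
      · have := f.big x.1 (abs_le.2 ⟨by linarith [(abs_le.1 hx).1],
          by linarith [(abs_le.1 hx).2, abs_nonneg x.2]⟩)
        linarith [min_le_left c (d / 8)]
      · rcases le_abs.1 h with h | h <;> linarith [rp_top hd h]
    have a4 := mul_le_mul_of_nonneg_left a3 t0
    show sd N (y.1 + t • u x.1) + |y.2 + t * ((rp d (-x.2) - rp d x.2) / 4)| ≤ _
    linarith

end Pool.Agent.Lib.NFB
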