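import Pool.Agent.Lib.NFB.Blue1

/-! Row FOLD: families of fold maps. -/

namespace Pool.Agent.Lib.NFB

open Set Topology Metric unitInterval Filter

theorem bFOLD (hS : St_SIGN) : St_FOLD := by
  intro V _ N N' S K hN h1 h2 hF hm k hk
  have e : ∀ t y, y ∈ (fun x => S (t, x)) '' N ↔ K (t, y) ∈ N := fun t y =>
    ⟨by rintro ⟨x, hx, rfl⟩; rwa [hF.left], fun h => ⟨_, h, hF.right t y⟩⟩
  obtain ⟨Φ, hΦ⟩ := hS V N (I × Db N') (k.comp ⟨fun w => (w.1, dpr N' w.2), by fun_prop⟩)
    (fun w => 0 ≤ w.2.1.2 ∧ w.2.1.1 ∈ (fun x => S (w.1, x)) '' N) h1 (by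
      rintro ⟨t, z⟩ hi
      have cK : Continuous fun w : I × Db N' => K (w.1, w.2.1.1) := by fun_prop
      have c2 : Continuous fun w : I × Db N' => w.2.1.2 := by fun_prop
      simp only [e]
      by_cases hz : K (t, z.1.1) ∈ N
      swap
      · filter_upwards [cK.continuousAt.eventually (hN.isOpen_compl.mem_nhds hz)] with w hw
        exact iff_of_false (fun h => hw h.2) fun h => hz h.2
      have a : k (t, dpr N' z) = ⟨_, hz⟩ :=
        (congrArg (fun y => k (t, y)) (Subtype.ext (hF.right t z.1.1).symm)).trans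
          (hk t ⟨_, hz⟩ (hm t _ hz))
      have b : K (t, z.1.1) ∈ interior N := by
        have : (k (t, dpr N' z) : V) ∈ interior N := hi
        rwa [a] at this
      have c : z.1.1 ∈ interior N' := by
        refine mem_interior_iff_mem_nhds.2 (mem_of_superset
          ((show Continuous fun y => K (t, y) by fun_prop).continuousAt.preimage_mem_nhds
            (mem_interior_iff_mem_nhds.1 b)) fun y hy => ?_)
        exact hF.right t y ▸ hm t _ hy
      have d : 0 < |z.1.2| := z.2.2 ▸ (dp_pos_iff h2).2 c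
      have f : ∀ᶠ w : I × Db N' in 𝓝 (t, z), K (w.1, w.2.1.1) ∈ N :=
        cK.continuousAt.preimage_mem_nhds (mem_interior_iff_mem_nhds.1 b)
      rcases lt_or_gt_of_ne (abs_pos.1 d) with g | g
      · filter_upwards [c2.continuousAt.eventually (gt_mem_nhds (a := (0 : ℝ)) g)] with w hw
        exact iff_of_false (fun h => hw.not_ge h.1) fun h => g.not_ge h.1
      · filter_upwards [f, c2.continuousAt.eventually (lt_mem_nhds (a := (0 : ℝ)) g)] with w hw hw'
        exact iff_of_true ⟨hw'.le, hw⟩ ⟨g.le, hz⟩)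
  exact ⟨Φ, fun t z => hΦ (t, z)⟩

end Pool.Agent.Lib.NFB
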