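import Pool.Agent.Lib.NFB.Blue1

/-! Row FUND: compact fundamental sets. -/

open Set Topology Filter

namespace Pool.Agent.Lib.NFB

theorem bFUND : St_FUND := by
  intro Γ M Y _ _ _ _ _ _ p hp
  have hl := hp.isCoveringMap.isLocalHomeomorph
  have key : ∀ m : M, ∃ K : Set Y, IsCompact K ∧ p '' K ∈ 𝓝 m := by
    intro m
    obtain ⟨y, rfl⟩ := hp.surjective m
    obtain ⟨e, hy, rfl⟩ := hl y
    obtain ⟨K, hK, hKs, hKc⟩ := local_compact_nhds (e.open_target.mem_nhds (e.map_source hy))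
    refine ⟨e.symm '' K, hKc.image_of_continuousOn (e.continuousOn_symm.mono hKs), ?_⟩
    exact mem_of_superset hK fun m hm => ⟨e.symm m, mem_image_of_mem _ hm, e.right_inv (hKs hm)⟩
  choose K hKc hK using key
  obtain ⟨t, ht⟩ := isCompact_univ.elim_nhds_subcover' (fun m _ => p '' K m) fun m _ => hK m
  refine ⟨⋃ m ∈ t, K m, t.isCompact_biUnion fun m _ => hKc m, fun y => ?_⟩
  obtain ⟨m, hm, c, hc, hcy⟩ : ∃ m ∈ t, p y ∈ p '' K m := by
    simpa only [mem_iUnion, exists_prop] using ht (mem_univ (p y))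
  obtain ⟨γ, hγ⟩ := hp.apply_eq_iff_mem_orbit.1 hcy.symm
  exact ⟨γ, c, mem_biUnion hm hc, hγ.symm⟩

end Pool.Agent.Lib.NFB
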