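import Pool.Agent.Lib.NFB.Blue2

/-! Generation of the fundamental group of a double mapping cylinder. -/

namespace Pool.Agent.Lib.NFB

open Set Topology unitInterval

namespace GEN

open Path.Homotopic.Quotient

variable {A B C D : Type} [TopologicalSpace A] [TopologicalSpace B] [TopologicalSpace C]
  [TopologicalSpace D]

theorem sq (G : C(I × I, D)) {x y x' y' : D} (p : Path x y) (q : Path x' y') (l : Path x x')
    (r : Path y y') (hp : ∀ t, p t = G (0, t)) (hq : ∀ t, q t = G (1, t))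
    (hl : ∀ s, l s = G (s, 0)) (hr : ∀ s, r s = G (s, 1)) :
    (mk p).trans (mk r) = (mk l).trans (mk q) := by
  obtain rfl : x = G (0, 0) := p.source.symm.trans (hp 0)
  obtain rfl : y = G (0, 1) := p.target.symm.trans (hp 1)
  obtain rfl : x' = G (1, 0) := q.source.symm.trans (hq 0)
  obtain rfl : y' = G (1, 1) := q.target.symm.trans (hq 1)
  let f₀ : C(I, D) := ⟨fun t => G (0, t), by fun_prop⟩
  let f₁ : C(I, D) := ⟨fun t => G (1, t), by fun_prop⟩
  let F : f₀.Homotopy f₁ := ⟨G, fun _ => rfl, fun _ => rfl⟩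
  obtain rfl : p = Path.id.map (map_continuous f₀) := Path.ext (funext hp)
  obtain rfl : q = Path.id.map (map_continuous f₁) := Path.ext (funext hq)
  obtain rfl : l = F.evalAt 0 := Path.ext (funext hl)
  obtain rfl : r = F.evalAt 1 := Path.ext (funext hr)
  exact eq.2 (Path.Homotopic.map_trans_evalAt F Path.id)

theorem push {U : Set D} {K : I × D → D} (hK : ContinuousOn K {z | z.2 ∈ U}) (i : C(A, D))
    (hi : ∀ a a', i a = i a' → a = a') {r : D → A} (hr : ContinuousOn r U)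
    (h0 : ∀ x ∈ U, K (0, x) = x) (h1 : ∀ x ∈ U, K (1, x) = i (r x)) {x y : D} (δ : Path x y)
    (hδ : range δ ⊆ U) {a a' : A} (l : Path x (i a)) (l' : Path y (i a'))
    (hl : ∀ s, l s = K (s, x)) (hl' : ∀ s, l' s = K (s, y)) :
    ∃ α : Path a a', (mk δ).trans (mk l') = (mk l).trans (mk (α.map i.continuous)) := by
  have hm : ∀ t, δ t ∈ U := fun t => hδ ⟨t, rfl⟩
  have hx : x ∈ U := δ.source ▸ hm 0
  have hy : y ∈ U := δ.target ▸ hm 1
  let α : Path a a' := ⟨⟨fun t => r (δ t), hr.comp_continuous δ.continuous hm⟩,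
    by change r (δ 0) = a; rw [δ.source]; exact hi _ _ (by rw [← h1 x hx, ← hl, l.target]),
    by change r (δ 1) = a'; rw [δ.target]; exact hi _ _ (by rw [← h1 y hy, ← hl', l'.target])⟩
  refine ⟨α, sq ⟨fun z => K (z.1, δ z.2), hK.comp_continuous (by fun_prop) fun z => hm z.2⟩ _ _ _ _
    (fun t => (h0 _ (hm t)).symm) (fun t => (h1 _ (hm t)).symm) (fun s => ?_) fun s => ?_⟩
  · change l s = K (s, δ 0)
    rw [δ.source, hl]
  · change l' s = K (s, δ 1)
    rw [δ.target, hl']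

theorem rev {x y z : D} (a : Path.Homotopic.Quotient x y) (b : Path.Homotopic.Quotient y z) :
    (a.trans b).symm = b.symm.trans a.symm := by
  induction a using Path.Homotopic.Quotient.ind
  induction b using Path.Homotopic.Quotient.ind
  rw [← mk_trans, ← mk_symm, Path.trans_symm]
  rfl

theorem c1 {x y z : D} (a : Path.Homotopic.Quotient x y) (b : Path.Homotopic.Quotient y z) :
    a.symm.trans (a.trans b) = b := by rw [← trans_assoc, symm_trans, refl_trans]

theorem c2 {x y z : D} (a : Path.Homotopic.Quotient x y) (b : Path.Homotopic.Quotient x z) :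
    a.trans (a.symm.trans b) = b := by rw [← trans_assoc, trans_symm, refl_trans]

variable (f : C(C, A)) (g : C(C, B))

theorem flow (ψ : C(ℝ × I, I)) (h0 : ∀ u, ψ (u, 0) = 0) (h1 : ∀ u, ψ (u, 1) = 1) :
    ∃ F : C(ℝ × DM f g, DM f g), (∀ u a, F (u, inA f g a) = inA f g a) ∧
      (∀ u c t, F (u, cy f g (c, t)) = cy f g (c, ψ (u, t))) ∧
      ∀ u b, F (u, inB f g b) = inB f g b := by
  obtain ⟨F, a, b, c⟩ := DM.lift_prod (f := f) (g := g) (P := ℝ) ((inA f g).comp .snd)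
    ⟨fun z => cy f g (z.2.1, ψ (z.1, z.2.2)), by fun_prop⟩ ((inB f g).comp .snd)
    (fun s c => by simp [h0]) fun s c => by simp [h1]
  exact ⟨F, a, fun u c t => b u (c, t), c⟩

theorem down : ∃ (K : I × DM f g → DM f g) (p : C(I × ({1}ᶜ : Set I), I)),
    ContinuousOn K {z | z.2 ∈ ht f g ⁻¹' {1}ᶜ} ∧ (∀ s a, K (s, inA f g a) = inA f g a) ∧
    (∀ s c t, K (s, cy f g (c, t.1)) = cy f g (c, p (s, t))) ∧
    (∀ t, p (0, t) = t.1) ∧ ∀ t, p (1, t) = 0 := by
  let ψ : C(ℝ × I, I) := ⟨fun z => projIcc 0 1 zero_le_one (1 - (1 - z.2) * (1 + |z.1|)),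
    continuous_projIcc.comp (by fun_prop)⟩
  obtain ⟨F, a, b, -⟩ := flow f g ψ
    (fun u => projIcc_of_le_left zero_le_one (by simp))
    fun u => projIcc_of_right_le zero_le_one (by simp)
  have ne : ∀ t : I, t ≠ 1 → (1 : ℝ) - t ≠ 0 := fun t h e => h (Subtype.ext (sub_eq_zero.1 e).symm)
  refine ⟨fun z => F (z.1 / (1 - ht f g z.2), z.2), ⟨fun z => ψ (z.1 / (1 - z.2.1), z.2.1),
    ψ.continuous.comp (Continuous.prodMk (Continuous.div (by fun_prop) (by fun_prop)
      fun z => ne _ z.2.2) (by fun_prop))⟩, F.continuous.comp_continuousOn (ContinuousOn.prodMk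
      (ContinuousOn.div (by fun_prop) (by fun_prop) fun z hz => ne _ hz) continuousOn_snd),
    fun s x => a _ x, fun s c t => b _ c t, fun t => ?_, fun t => ?_⟩
  · change projIcc 0 1 zero_le_one (1 - (1 - (t.1 : ℝ)) * (1 + |((0 : I) : ℝ) / (1 - t.1)|)) = _
    simp
  · refine projIcc_of_le_left zero_le_one ?_
    change 1 - (1 - (t.1 : ℝ)) * (1 + |(1 : ℝ) / (1 - t.1)|) ≤ 0
    have h : 0 < 1 - (t.1 : ℝ) := lt_of_le_of_ne (sub_nonneg.2 t.1.2.2) (ne _ t.2).symm
    rw [abs_of_pos (by positivity), mul_add, mul_one_div_cancel h.ne']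
    linarith

theorem up : ∃ (K : I × DM f g → DM f g) (p : C(I × ({0}ᶜ : Set I), I)),
    ContinuousOn K {z | z.2 ∈ ht f g ⁻¹' {0}ᶜ} ∧ (∀ s b, K (s, inB f g b) = inB f g b) ∧
    (∀ s c t, K (s, cy f g (c, t.1)) = cy f g (c, p (s, t))) ∧
    (∀ t, p (0, t) = t.1) ∧ ∀ t, p (1, t) = 1 := by
  let ψ : C(ℝ × I, I) := ⟨fun z => projIcc 0 1 zero_le_one (z.2 * (1 + |z.1|)),
    continuous_projIcc.comp (by fun_prop)⟩
  obtain ⟨F, -, b, a⟩ := flow f g ψ
    (fun u => projIcc_of_le_left zero_le_one (by simp))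
    fun u => projIcc_of_right_le zero_le_one (by simp)
  have ne : ∀ t : I, t ≠ 0 → (t : ℝ) ≠ 0 := fun t h e => h (Subtype.ext e)
  refine ⟨fun z => F (z.1 / ht f g z.2, z.2), ⟨fun z => ψ (z.1 / z.2.1, z.2.1),
    ψ.continuous.comp (Continuous.prodMk (Continuous.div (by fun_prop) (by fun_prop)
      fun z => ne _ z.2.2) (by fun_prop))⟩, F.continuous.comp_continuousOn (ContinuousOn.prodMk
      (ContinuousOn.div (by fun_prop) (by fun_prop) fun z hz => ne _ hz) continuousOn_snd),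
    fun s x => a _ x, fun s c t => b _ c t, fun t => ?_, fun t => ?_⟩
  · change projIcc 0 1 zero_le_one ((t.1 : ℝ) * (1 + |((0 : I) : ℝ) / t.1|)) = _
    simp
  · refine projIcc_of_right_le zero_le_one ?_
    change 1 ≤ (t.1 : ℝ) * (1 + |(1 : ℝ) / t.1|)
    have h : 0 < (t.1 : ℝ) := lt_of_le_of_ne t.1.2.1 (ne _ t.2).symm
    rw [abs_of_pos (by positivity), mul_add, mul_one_div_cancel h.ne']
    linarith

theorem seg (c : C) {y : DM f g} (l : Path y (inA f g (f c))) (m : Path y (inB f g (g c)))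
    (p q : C(I, I)) (e : p 0 = q 0) (p1 : p 1 = 0) (q1 : q 1 = 1) (hl : ∀ s, l s = cy f g (c, p s))
    (hm : ∀ s, m s = cy f g (c, q s)) : mk m = (mk l).trans (mk (vert f g c)) := by
  rw [← refl_trans (mk m), ← mk_refl]
  refine sq ⟨fun z => cy f g (c, projIcc 0 1 zero_le_one ((1 - z.2) * p z.1 + z.2 * q z.1)),
    (cy f g).continuous.comp (continuous_const.prodMk (continuous_projIcc.comp (by fun_prop)))⟩
    _ _ _ _ (fun t => ?_) (fun t => ?_) (fun s => by simp [hl]) fun s => by simp [hm]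
  · change y = cy f g (c, projIcc 0 1 zero_le_one ((1 - t) * p 0 + t * q 0))
    rw [← e, show (1 - (t : ℝ)) * p 0 + t * p 0 = p 0 by ring, projIcc_val, ← hl, l.source]
  · change cy f g (c, t) = cy f g (c, projIcc 0 1 zero_le_one ((1 - t) * p 1 + t * q 1))
    simp [p1, q1]

end GEN

open Path.Homotopic.Quotient in
theorem bGEN (hGEN0 : St_GEN0) : St_GEN := by
  intro A B C _ _ _ _ f g a₀ R hA hB
  obtain ⟨K, p, k1, k2, k3, k4, k5⟩ := GEN.down f g
  obtain ⟨r, r1, r2, r3⟩ := DM.retA (f := f) (g := g) a₀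
  have K0 : ∀ x ∈ ht f g ⁻¹' {1}ᶜ, K (0, x) = x := fun x hx => by
    induction x using DM.ind with
    | hA a => exact k2 _ a
    | hC c t => exact (k3 0 c ⟨t, hx⟩).trans (by rw [k4])
    | hB b => exact absurd rfl hx
  have K1 : ∀ x ∈ ht f g ⁻¹' {1}ᶜ, K (1, x) = inA f g (r x) := fun x hx => by
    induction x using DM.ind with
    | hA a => rw [k2, r2]
    | hC c t => exact (k3 1 c ⟨t, hx⟩).trans (by rw [k5, cy_zero, r3 c t hx])
    | hB b => exact absurd rfl hx
  have pA := fun {x y} δ hδ {a a'} => @GEN.push A _ _ _ _ K k1 (inA f g) (fun _ _ => inA_inj) r r1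
    K0 K1 x y δ hδ a a'
  have hJ : ∀ a, JoinedIn (ht f g ⁻¹' {1}ᶜ) (inA f g a₀) (inA f g a) := fun a =>
    ⟨(PathConnectedSpace.somePath a₀ a).map (inA f g).continuous, fun t => by simp⟩
  refine hGEN0 _ (ht f g ⁻¹' {1}ᶜ) (ht f g ⁻¹' {0}ᶜ) _ R
    (isOpen_compl_singleton.preimage (ht f g).continuous)
    (isOpen_compl_singleton.preimage (ht f g).continuous) (eq_univ_of_forall fun x => ?_)
    (fun y hy => ?_) (by simp) (fun δ hδ => ?_) fun y y' δ δ' δ'' h1 h2 h3 => ?_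
  · by_cases h : ht f g x = 1
    · exact .inr fun h' => zero_ne_one ((h' : ht f g x = 0).symm.trans h)
    · exact .inl h
  · induction y using DM.ind with
    | hA a => exact hJ a
    | hC c t =>
      refine (hJ (f c)).trans ⟨⟨⟨fun s => cy f g (c, s * t), by fun_prop⟩, by simp, by simp⟩,
        fun s h => hy ?_⟩
      have h' : s * t = 1 := h
      exact le_antisymm t.2.2 (h'.ge.trans unitInterval.mul_le_right)
    | hB b => exact absurd rfl hy
  · obtain ⟨α, h⟩ := pA δ hδ (.refl _) (.refl _) (fun s => (k2 s a₀).symm) fun s => (k2 s a₀).symm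
    rw [mk_refl, trans_refl, refl_trans] at h
    have h' : cls δ = cls (α.map (inA f g).continuous) := h
    rw [h']
    exact hA α
  · have key : ∀ z : DM f g, ht f g z ≠ 1 → ht f g z ≠ 0 →
        ∃ c t, t ≠ 0 ∧ t ≠ 1 ∧ z = cy f g (c, t) := fun z z1 z0 => by
      rcases z.cases with ⟨a, rfl⟩ | h | ⟨b, rfl⟩
      exacts [absurd rfl z0, h, absurd rfl z1]
    obtain ⟨c, t, t0, t1, rfl⟩ := key y (h1 ⟨1, δ.target⟩) (h2 ⟨0, δ'.source⟩)
    obtain ⟨c', t', t0', t1', rfl⟩ := key y' (h3 ⟨1, δ''.target⟩) (h2 ⟨1, δ'.target⟩)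
    obtain ⟨K', q, j1, j2, j3, j4, j5⟩ := GEN.up f g
    obtain ⟨r', s1, s2, s3⟩ := DM.retB (f := f) (g := g) (g c)
    have J0 : ∀ x ∈ ht f g ⁻¹' {0}ᶜ, K' (0, x) = x := fun x hx => by
      induction x using DM.ind with
      | hA a => exact absurd rfl hx
      | hC c t => exact (j3 0 c ⟨t, hx⟩).trans (by rw [j4])
      | hB b => exact j2 _ b
    have J1 : ∀ x ∈ ht f g ⁻¹' {0}ᶜ, K' (1, x) = inB f g (r' x) := fun x hx => by
      induction x using DM.ind with
      | hA a => exact absurd rfl hx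
      | hC c t => exact (j3 1 c ⟨t, hx⟩).trans (by rw [j5, cy_one, s3 c t hx])
      | hB b => rw [j2, s2]
    have tr : ∀ c t, t ≠ 0 → t ≠ 1 → ∃ (l : Path (cy f g (c, t)) (inA f g (f c)))
        (m : Path (cy f g (c, t)) (inB f g (g c))), (∀ s, l s = K (s, cy f g (c, t))) ∧
        (∀ s, m s = K' (s, cy f g (c, t))) ∧ mk m = (mk l).trans (mk (vert f g c)) := by
      intro c t t0 t1
      refine ⟨⟨⟨fun s => cy f g (c, p (s, ⟨t, t1⟩)), by fun_prop⟩, by simp [k4], by simp [k5]⟩,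
        ⟨⟨fun s => cy f g (c, q (s, ⟨t, t0⟩)), by fun_prop⟩, by simp [j4], by simp [j5]⟩,
        fun s => (k3 s c ⟨t, t1⟩).symm, fun s => (j3 s c ⟨t, t0⟩).symm,
        GEN.seg f g c _ _ ⟨fun s => p (s, ⟨t, t1⟩), by fun_prop⟩ ⟨fun s => q (s, ⟨t, t0⟩), by fun_prop⟩
          ((k4 _).trans (j4 ⟨t, t0⟩).symm) (k5 _) (j5 _) (fun _ => rfl) fun _ => rfl⟩
    obtain ⟨l, m, l1, m1, e⟩ := tr c t t0 t1
    obtain ⟨l', m', l1', m1', e'⟩ := tr c' t' t0' t1'
    obtain ⟨α, e1⟩ := pA δ h1 (.refl _) l (fun s => (k2 s a₀).symm) l1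
    obtain ⟨α'', e2⟩ := pA δ'' h3 (.refl _) l' (fun s => (k2 s a₀).symm) l1'
    obtain ⟨β, e3⟩ := GEN.push j1 (inB f g) (fun _ _ => inB_inj) s1 J0 J1 δ' h2 m m' m1 m1'
    rw [mk_refl, refl_trans] at e1 e2
    obtain ⟨α₁, α₂, hX⟩ := hB c c' β
    have hY := hA (α.trans α₁.symm)
    have hZ := hA (α₂.trans α''.symm)
    have e4 : mk δ' = (mk l).trans ((mk (vert f g c)).trans ((mk (β.map (inB f g).continuous)).trans
        ((mk (vert f g c')).symm.trans (mk l').symm))) := by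
      rw [← trans_assoc, ← e, ← trans_assoc, ← e3, e', trans_assoc, trans_assoc, GEN.c2, trans_symm,
        trans_refl]
    have h := R.mul_mem (R.mul_mem hZ hX) hY
    refine (congrArg (· ∈ R) ?_).mpr h
    change mk (δ.trans (δ'.trans δ''.symm)) = (mk ((α.trans α₁.symm).map _)).trans
      ((mk _).trans (mk ((α₂.trans α''.symm).map _)))
    rw [Path.map_trans, Path.map_trans, ← Path.map_symm, ← Path.map_symm]
    simp only [mk_trans, mk_symm]
    rw [← e1, ← e2, e4]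
    simp only [trans_assoc, GEN.c1, GEN.c2, GEN.rev]

end Pool.Agent.Lib.NFB
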