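import Pool.Agent.Lib.NFB.Blue1

/-! Generation of the fundamental group by two open sets. -/

namespace Pool.Agent.Lib.NFB

open Set Topology

namespace GEN0

variable {D : Type} [TopologicalSpace D] {U V : Set D} {d₀ : D}
  {R : Subgroup (FundamentalGroup D d₀)}

variable (U R) in
/-- an element of `R` followed by a path in `U` -/
def GA (x : D) (q : Path.Homotopic.Quotient d₀ x) : Prop :=
  ∃ r : Path.Homotopic.Quotient d₀ d₀, FundamentalGroup.fromPath r ∈ R ∧
    ∃ δ : Path d₀ x, range δ ⊆ U ∧ q = r.trans (.mk δ)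

variable (U V R) in
/-- the same, followed by a path in `V` -/
def GB (x : D) (q : Path.Homotopic.Quotient d₀ x) : Prop :=
  ∃ (y : D) (q' : Path.Homotopic.Quotient d₀ y) (δ : Path y x), GA U R y q' ∧ range δ ⊆ V ∧ q = q'.trans (.mk δ)

theorem rng {S : Set D} {x y z : D} {a : Path x y} {b : Path y z} (ha : range a ⊆ S)
    (hb : range b ⊆ S) : range (a.trans b) ⊆ S := by
  rw [Path.trans_range]; exact union_subset ha hb

theorem toA (hJ : ∀ y ∈ U, JoinedIn U d₀ y)
    (h3 : ∀ (y y' : D) (δ : Path d₀ y) (δ' : Path y y') (δ'' : Path d₀ y'), range δ ⊆ U →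
      range δ' ⊆ V → range δ'' ⊆ U → cls (δ.trans (δ'.trans δ''.symm)) ∈ R)
    {x : D} {q : Path.Homotopic.Quotient d₀ x} (hx : x ∈ U) (h : GA U R x q ∨ GB U V R x q) : GA U R x q := by
  rcases h with h | ⟨y, q', δ', ⟨r, hr, δ, hδ, rfl⟩, hδ', rfl⟩
  · exact h
  · obtain ⟨ε, hε⟩ := hJ x hx
    have hε' : range ε ⊆ U := by rintro _ ⟨t, rfl⟩; exact hε t
    refine ⟨r.trans (.mk (δ.trans (δ'.trans ε.symm))), R.mul_mem (h3 y x δ δ' ε hδ hδ' hε') hr,
      ε, hε', ?_⟩
    rw [Path.Homotopic.Quotient.mk_trans, Path.Homotopic.Quotient.mk_trans, Path.Homotopic.Quotient.mk_symm, Path.Homotopic.Quotient.trans_assoc,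
      Path.Homotopic.Quotient.trans_assoc, Path.Homotopic.Quotient.trans_assoc, Path.Homotopic.Quotient.trans_assoc, Path.Homotopic.Quotient.symm_trans,
      Path.Homotopic.Quotient.trans_refl]

theorem step (hJ : ∀ y ∈ U, JoinedIn U d₀ y)
    (h3 : ∀ (y y' : D) (δ : Path d₀ y) (δ' : Path y y') (δ'' : Path d₀ y'), range δ ⊆ U →
      range δ' ⊆ V → range δ'' ⊆ U → cls (δ.trans (δ'.trans δ''.symm)) ∈ R)
    {x x' : D} {q : Path.Homotopic.Quotient d₀ x} (ζ : Path x x') (hs0 : range ζ ⊆ U ∨ range ζ ⊆ V)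
    (h : GA U R x q ∨ GB U V R x q) :
    GA U R x' (q.trans (.mk ζ)) ∨ GB U V R x' (q.trans (.mk ζ)) := by
  rcases hs0 with hs0 | hs0
  · obtain ⟨r, hr, δ, hδ, rfl⟩ := toA hJ h3 (hs0 ⟨0, ζ.source⟩) h
    exact .inl ⟨r, hr, δ.trans ζ, rng hδ hs0, by rw [Path.Homotopic.Quotient.mk_trans, Path.Homotopic.Quotient.trans_assoc]⟩
  · rcases h with h | ⟨y, q', δ', h, hδ', rfl⟩
    · exact .inr ⟨x, q, ζ, h, hs0, rfl⟩
    · exact .inr ⟨y, q', δ'.trans ζ, h, rng hδ' hs0, by
        rw [Path.Homotopic.Quotient.mk_trans, Path.Homotopic.Quotient.trans_assoc]⟩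

theorem fin (P : ∀ x, Path.Homotopic.Quotient d₀ x → Prop) {x y x' y' : D} (γ : Path x y) (hx : x' = x)
    (hy : y' = y) (q : ∀ z, z = d₀ → Path.Homotopic.Quotient d₀ z) (h' : x' = d₀) (h'' : x = d₀)
    (h : P y' ((q x' h').trans (.mk (γ.cast hx hy)))) : P y ((q x h'').trans (.mk γ)) := by
  subst hx hy
  exact h

end GEN0

open GEN0 in
theorem bGEN0 : St_GEN0 := by
  intro D _ U V d₀ R hU hV hUV hJ h0 h2 h3
  rw [eq_top_iff]
  intro g _
  obtain ⟨γ, hγ⟩ := Path.Homotopic.Quotient.mk_surjective (FundamentalGroup.toPath g)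
  obtain ⟨t, t0, hm, ⟨n, hn⟩, hc⟩ := exists_monotone_Icc_subset_open_cover_unitInterval
    (c := fun b : Bool => γ ⁻¹' (if b then U else V))
    (fun b => IsOpen.preimage γ.continuous (by cases b <;> simpa))
    (fun s _ => by
      rcases (hUV.symm ▸ mem_univ (γ s) : γ s ∈ U ∪ V) with h | h
      · exact mem_iUnion.2 ⟨true, h⟩
      · exact mem_iUnion.2 ⟨false, h⟩)
  let q : ∀ z, z = d₀ → Path.Homotopic.Quotient d₀ z := fun z hz => (Path.Homotopic.Quotient.refl d₀).cast rfl hz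
  let P : ∀ x, Path.Homotopic.Quotient d₀ x → Prop := fun x p => GA U R x p ∨ GB U V R x p
  have base : ∀ z (hz : z = d₀), P z (q z hz) := by
    rintro z rfl
    refine .inl ⟨.refl z, R.one_mem, .refl z, ?_, ?_⟩
    · rw [Path.refl_range]; exact singleton_subset_iff.2 h0
    · rw [Path.Homotopic.Quotient.mk_refl, Path.Homotopic.Quotient.trans_refl]; exact Path.Homotopic.Quotient.cast_rfl_rfl _
  have key : ∀ i, P (γ (t i)) ((q (γ 0) γ.source).trans (.mk (γ.subpath 0 (t i)))) := by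
    intro i
    induction i with
    | zero =>
      rw [t0, Path.subpath_self, Path.Homotopic.Quotient.mk_refl, Path.Homotopic.Quotient.trans_refl]
      exact base _ _
    | succ i ih =>
      obtain ⟨b, hb⟩ := hc i
      have hr : range (γ.subpath (t i) (t (i + 1))) ⊆ if b then U else V := by
        rw [Path.range_subpath_of_le _ _ _ (hm i.le_succ)]
        rintro _ ⟨s, hs, rfl⟩
        exact hb hs
      have := step hJ h3 (γ.subpath (t i) (t (i + 1))) (by
        cases b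
        · exact .inr hr
        · exact .inl hr) ih
      rwa [Path.Homotopic.Quotient.trans_assoc, ← Path.Homotopic.Quotient.mk_trans,
        Path.Homotopic.Quotient.eq.2 ⟨Path.Homotopy.subpathTransSubpath γ 0 (t i) (t (i + 1))⟩] at this
  have h1 := key n
  rw [hn n le_rfl, Path.subpath_zero_one] at h1
  have h4 := fin P γ _ _ q γ.source rfl h1
  obtain ⟨r, hr, δ, hδ, he⟩ := toA hJ h3 h0 h4
  have e : q d₀ rfl = .refl d₀ := Path.Homotopic.Quotient.cast_rfl_rfl _
  rw [e, Path.Homotopic.Quotient.refl_trans, hγ] at he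
  have : g = cls δ * FundamentalGroup.fromPath r := he
  rw [this]
  exact R.mul_mem (h2 δ hδ) hr

end Pool.Agent.Lib.NFB
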