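import Pool.Agent.Lib.NFB.Blue2

/-! The fundamental group of a double mapping cylinder over a connected space. -/

namespace Pool.Agent.Lib.NFB

open Set Topology unitInterval
open Path.Homotopic.Quotient (mk trans_assoc trans_refl refl_trans trans_symm symm_trans)

namespace GEN1

variable {X : Type} [TopologicalSpace X]

theorem canc {x y z : X} {p q : Path.Homotopic.Quotient x y} {r : Path.Homotopic.Quotient y z}
    (h : p.trans r = q.trans r) : p = q := by
  rw [← trans_refl p, ← trans_symm r, ← trans_assoc, h, trans_assoc, trans_symm, trans_refl]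

theorem calc_loop {x x₁ x₂ y y₁ y₂ : X} {a : Path.Homotopic.Quotient x x₁}
    {a' : Path.Homotopic.Quotient x x₂} {v : Path.Homotopic.Quotient x₁ y₁}
    {v' : Path.Homotopic.Quotient x₂ y₂} {v₀ : Path.Homotopic.Quotient x y}
    {k : Path.Homotopic.Quotient y y₁} {k' : Path.Homotopic.Quotient y y₂}
    {β : Path.Homotopic.Quotient y₁ y₂} {w : Path.Homotopic.Quotient x x}
    (h : a.trans v = v₀.trans k) (h' : a'.trans v' = v₀.trans k')
    (hw : w.trans v₀ = v₀.trans (k.trans (β.trans k'.symm))) :
    w = a.trans (v.trans (β.trans (v'.symm.trans a'.symm))) := by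
  refine canc (r := a'.trans v') ?_
  have e : (v'.symm.trans a'.symm).trans (a'.trans v') = .refl _ := by
    rw [trans_assoc, ← trans_assoc a'.symm, symm_trans, refl_trans, symm_trans]
  rw [trans_assoc a, trans_assoc v, trans_assoc β, e, trans_refl, ← trans_assoc a, h, h',
    ← trans_assoc w, hw, trans_assoc v₀, trans_assoc k, trans_assoc β, symm_trans, trans_refl,
    trans_assoc v₀]

end GEN1

theorem bGEN1 (hGEN : St_GEN) (hVNAT : St_VNAT) : St_GEN1 := by
  intro A B C _ _ _ _ f g
  refine ⟨fun h => ?_, fun hC c₀ hs => ?_⟩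
  · obtain ⟨a₀⟩ : Nonempty A := inferInstance
    have hA : ∀ a, Joined (inA f g a₀) (inA f g a) := fun a =>
      ⟨(PathConnectedSpace.somePath a₀ a).map (inA f g).continuous⟩
    have key : ∀ x, Joined (inA f g a₀) x := DM.ind hA (fun c t => (hA (f c)).trans
      ⟨⟨⟨fun s => cy f g (c, s * t), by fun_prop⟩, by simp, by simp⟩⟩) fun b => by
        obtain ⟨c, ⟨β⟩⟩ := h b
        exact (hA (f c)).trans (Joined.trans ⟨vert f g c⟩ ⟨β.map (inB f g).continuous⟩)
    exact ⟨⟨inA f g a₀⟩, fun x y => (key x).symm.trans (key y)⟩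
  · rw [← MonoidHom.range_eq_top]
    refine hGEN A B C f g (f c₀) _ (fun δ => ⟨cls δ, rfl⟩) fun c c' β => ?_
    let κ := PathConnectedSpace.somePath c₀ c
    let κ' := PathConnectedSpace.somePath c₀ c'
    obtain ⟨ω, hω⟩ := hs (cls ((κ.map g.continuous).trans (β.trans (κ'.map g.continuous).symm)))
    obtain ⟨w, rfl⟩ := Path.Homotopic.Quotient.mk_surjective ω
    refine ⟨κ.map f.continuous, κ'.map f.continuous, cls (w.map f.continuous), ?_⟩
    have h1 := Path.Homotopic.Quotient.eq.2 (hVNAT A B C f g c₀ c κ)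
    have h2 := Path.Homotopic.Quotient.eq.2 (hVNAT A B C f g c₀ c' κ')
    have h3 := Path.Homotopic.Quotient.eq.2 (hVNAT A B C f g c₀ c₀ w)
    have h4 : mk ((w.map g.continuous).map (inB f g).continuous) =
        mk (((κ.map g.continuous).trans (β.trans (κ'.map g.continuous).symm)).map
          (inB f g).continuous) := congrArg (fun q => Path.Homotopic.Quotient.map q (inB f g)) hω
    rw [Path.map_trans, Path.map_trans, ← Path.map_symm] at h4
    rw [Path.Homotopic.Quotient.mk_trans, Path.Homotopic.Quotient.mk_trans] at h1 h2 h3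
    rw [h4, Path.Homotopic.Quotient.mk_trans, Path.Homotopic.Quotient.mk_trans,
      Path.Homotopic.Quotient.mk_symm] at h3
    exact GEN1.calc_loop h1 h2 h3

end Pool.Agent.Lib.NFB
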