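import Pool.Agent.Lib.NFB.Blue2

/-! Block GEN2: the fundamental group of a graph of spaces with one vertex. -/

namespace Pool.Agent.Lib.NFB

open Set Topology Path.Homotopic Path.Homotopic.Quotient

namespace GEN2

variable {X : Type} [TopologicalSpace X] {x y z : X} {R : Subgroup (FundamentalGroup X x)}

/-- two paths from the base point differ by a loop in `R` -/
def Rl (R : Subgroup (FundamentalGroup X x)) (p q : Path x y) : Prop :=
  ∃ r : Path.Homotopic.Quotient x x, FundamentalGroup.fromPath r ∈ R ∧ mk p = r.trans (mk q)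

theorem Rl.of_hom {p q : Path x y} (h : p.Homotopic q) : Rl R p q :=
  ⟨.refl x, R.one_mem, by rw [Quotient.refl_trans]; exact Quotient.eq.2 h⟩

theorem Rl.symm {p q : Path x y} (h : Rl R p q) : Rl R q p := by
  obtain ⟨r, h1, h2⟩ := h
  exact ⟨r.symm, R.inv_mem h1, by
    rw [h2, ← Quotient.trans_assoc, Quotient.symm_trans, Quotient.refl_trans]⟩

theorem Rl.trans {p q s : Path x y} (h : Rl R p q) (h' : Rl R q s) : Rl R p s := by
  obtain ⟨r, h1, h2⟩ := h
  obtain ⟨r', h3, h4⟩ := h'
  exact ⟨r.trans r', R.mul_mem h3 h1, by rw [h2, h4, Quotient.trans_assoc]⟩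

theorem Rl.right {p q : Path x y} (h : Rl R p q) (t : Path y z) : Rl R (p.trans t) (q.trans t) := by
  obtain ⟨r, h1, h2⟩ := h
  exact ⟨r, h1, by rw [mk_trans, mk_trans, h2, Quotient.trans_assoc]⟩

theorem rl_iff {p q : Path x y} : Rl R p q ↔ cls (p.trans q.symm) ∈ R := by
  refine ⟨fun ⟨r, h1, h2⟩ => ?_, fun h => ⟨_, h, ?_⟩⟩
  · have : mk (p.trans q.symm) = r := by
      rw [mk_trans, mk_symm, h2, Quotient.trans_assoc, Quotient.trans_symm, Quotient.trans_refl]
    rw [← this] at h1
    exact h1
  · rw [mk_trans, mk_symm, Quotient.trans_assoc, Quotient.symm_trans, Quotient.trans_refl]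

end GEN2

open GEN2 in
theorem bGEN2 (hG : St_GEN) (hV : St_VNAT) : St_GEN2 := by
  intro V E _ _ _ f₀ f₁ v₀ E₀ h₀ h₁ R hE hA hS
  let f : C(E ⊕ E, V) := se f₀ f₁
  let g : C(E ⊕ E, E) := se (.id E) (.id E)
  let P : ∀ c, Path v₀ (f c) → Path (inA f g v₀) (inB f g (g c)) := fun c α =>
    (α.map (inA f g).continuous).trans (vert f g c)
  have s1 : ∀ c α α', Rl R (P c α) (P c α') := fun c α α' => by
    refine Rl.right (rl_iff.2 ?_) _
    have := hA (α.trans α'.symm)
    rwa [Path.map_trans, ← Path.map_symm] at this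
  have s2 : ∀ c c' (κ : Path c c') α α', Rl R
      ((P c α).trans ((κ.map g.continuous).map (inB f g).continuous)) (P c' α') := by
    intro c c' κ α α'
    refine (Rl.of_hom ?_).trans (s1 c' (α.trans (κ.map f.continuous)) α')
    refine (Path.Homotopic.trans_assoc _ _ _).trans
      (((Path.Homotopic.refl _).hcomp (hV _ _ _ f g c c' κ).symm).trans ?_)
    simp only [P, Path.map_trans]
    exact (Path.Homotopic.trans_assoc _ _ _).symm
  have sl : ∀ e e' (β : Path e e') α α', Rl R
      ((P (.inl e) α).trans (β.map (inB f g).continuous)) (P (.inl e') α') :=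
    fun e e' β => s2 _ _ (β.map continuous_inl)
  have sr : ∀ e e' (β : Path e e') α α', Rl R
      ((P (.inr e) α).trans (β.map (inB f g).continuous)) (P (.inr e') α') :=
    fun e e' β => s2 _ _ (β.map continuous_inr)
  have s3 : ∀ e α α', Rl R (y := inB f g e) (P (.inl e) α) (P (.inr e) α') := by
    intro e α α'
    obtain ⟨e₀, he, ⟨l⟩⟩ := hE e
    have a0 : v₀ = f₀ e₀ := (h₀ e₀ he).symm
    have a1 : f₁ e₀ = v₀ := h₁ e₀ he
    have key : Rl R (y := inB f g e₀) (P (.inl e₀) ((Path.refl v₀).cast rfl a0.symm))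
        (P (.inr e₀) ((Path.refl v₀).cast rfl a1)) := by
      have b0 : ((P (.inl e₀) ((Path.refl v₀).cast rfl a0.symm))).Homotopic
          ((vert f g (.inl e₀)).cast (congrArg (inA f g) a0) rfl) := by
        subst a0
        exact Path.Homotopic.refl_trans _
      have b1 : ((P (.inr e₀) ((Path.refl v₀).cast rfl a1))).Homotopic
          ((vert f g (.inr e₀)).cast (congrArg (inA f g) a1.symm) rfl) := by
        subst a1
        exact Path.Homotopic.refl_trans _
      have b2 : stab f₀ f₁ (h₀ e₀ he) (h₁ e₀ he) =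
          ((vert f g (.inl e₀)).cast (congrArg (inA f g) a0) rfl).trans
            ((vert f g (.inr e₀)).cast (congrArg (inA f g) a1.symm) rfl).symm :=
        Path.ext rfl
      have b3 := hS e₀ he
      rw [b2] at b3
      exact ((Rl.of_hom b0).trans (rl_iff.2 b3)).trans (Rl.of_hom b1).symm
    exact ((sl e₀ e l _ α).symm.trans (key.right _)).trans (sr e₀ e l _ α')
  refine hG V E (E ⊕ E) f g v₀ R hA fun c c' β => ?_
  let α := PathConnectedSpace.somePath v₀ (f c)
  let α' := PathConnectedSpace.somePath v₀ (f c')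
  have key : Rl R ((P c α).trans (β.map (inB f g).continuous)) (P c' α') := by
    rcases c with e | e <;> rcases c' with e' | e'
    · exact sl e e' β _ _
    · exact (sl e e' β _ (PathConnectedSpace.somePath _ _)).trans (s3 e' _ _)
    · exact (sr e e' β _ (PathConnectedSpace.somePath _ _)).trans (s3 e' _ _).symm
    · exact sr e e' β _ _
  refine ⟨α, α', ?_⟩
  have := rl_iff.1 key
  simp only [P, Path.trans_symm, cls, mk_trans, Quotient.trans_assoc] at this ⊢
  exact this

end Pool.Agent.Lib.NFB
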