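import Pool.Agent.Lib.NFB.Blue2

/-! Gluing maps homotopic to the identity. -/

namespace Pool.Agent.Lib.NFB

open Set Topology unitInterval ContinuousMap

namespace GL1

variable {A B C : Type} [TopologicalSpace A] [TopologicalSpace B] [TopologicalSpace C]

theorem homotopic_of_eq6 {u v : C(A, B)} (h : ∀ x, u x = v x) : u.Homotopic v := by
  rw [show u = v from ContinuousMap.ext h]

theorem ends6 (hTR : St_TR) (f : C(C, A)) (g : C(C, B)) (α : C(A, A)) (β : C(B, B))
    (ha : α.Homotopic (.id A)) (hb : β.Homotopic (.id B))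
    (h0 : ∀ c, (α.comp f) (ContinuousMap.id C c) = α (f c))
    (h1 : ∀ c, (β.comp g) (ContinuousMap.id C c) = β (g c)) :
    HE (DM.map (f := f) (g := g) α (.id C) β h0 h1) := by
  obtain ⟨Ha⟩ := ha
  obtain ⟨Hb⟩ := hb
  let F : C(C × I, A) := ⟨fun z => Ha (z.2, f z.1), by fun_prop⟩
  let G : C(C × I, B) := ⟨fun z => Hb (z.2, g z.1), by fun_prop⟩
  have i0 := hTR A B C F G 0 (α.comp f) (β.comp g) (fun c => Ha.apply_zero _)
    (fun c => Hb.apply_zero _)
  have i1 := hTR A B C F G 1 f g (fun c => Ha.apply_one _) (fun c => Hb.apply_one _)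
  refine i0.of_right (i1.congr (Homotopic.symm ?_))
  obtain ⟨K, k1, k2, k3⟩ := DM.lift_prod (f := f) (g := g) (P := I) (Y := DM F G)
    ((inA F G).comp ⟨fun z => Ha z, by fun_prop⟩)
    ((cy F G).comp ⟨fun z => ((z.2.1, z.1), z.2.2), by fun_prop⟩)
    ((inB F G).comp ⟨fun z => Hb z, by fun_prop⟩)
    (fun s c => cy_zero F G (c, s)) (fun s c => cy_one F G (c, s))
  refine homotopic_of K (fun x => ?_) (fun x => ?_)
  · induction x using DM.ind with
    | hA a => exact (k1 0 a).trans (congrArg (inA F G) (Ha.apply_zero a))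
    | hC c t => exact k2 0 (c, t)
    | hB b => exact (k3 0 b).trans (congrArg (inB F G) (Hb.apply_zero b))
  · induction x using DM.ind with
    | hA a => exact (k1 1 a).trans (congrArg (inA F G) (Ha.apply_one a))
    | hC c t => exact k2 1 (c, t)
    | hB b => exact (k3 1 b).trans (congrArg (inB F G) (Hb.apply_one b))

theorem mid6 (hTR : St_TR) (f f' : C(C, A)) (g g' : C(C, B)) (γ : C(C, C))
    (hc : γ.Homotopic (.id C)) (h0 : ∀ c, f' (γ c) = ContinuousMap.id A (f c))
    (h1 : ∀ c, g' (γ c) = ContinuousMap.id B (g c)) :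
    HE (DM.map (f := f) (g := g) (.id A) γ (.id B) h0 h1) := by
  obtain ⟨E⟩ := hc
  let e : C(C × I, C) := ⟨fun z => E (z.2, z.1), by fun_prop⟩
  have i0 := hTR A B C (f'.comp e) (g'.comp e) 0 f g
    (fun c => (congrArg f' (E.apply_zero c)).trans (h0 c))
    (fun c => (congrArg g' (E.apply_zero c)).trans (h1 c))
  have i1 := hTR A B C (f'.comp e) (g'.comp e) 1 f' g'
    (fun c => congrArg f' (E.apply_one c)) (fun c => congrArg g' (E.apply_one c))
  have hm : HE (DM.map (f := f'.comp e) (g := g'.comp e) (f' := f') (g' := g') (.id A) e (.id B)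
      (fun _ => rfl) (fun _ => rfl)) := by
    refine i1.of_left (HE.of_homeo (Homeomorph.refl _) fun x => ?_)
    induction x using DM.ind with
    | hA a => rfl
    | hC c t => exact congrArg (fun y => cy f' g' (y, t)) (E.apply_one c)
    | hB b => rfl
  refine (hm.comp i0).congr (homotopic_of_eq6 fun x => ?_)
  induction x using DM.ind with
  | hA a => rfl
  | hC c t => exact congrArg (fun y => cy f' g' (y, t)) (E.apply_zero c)
  | hB b => rfl

end GL1

theorem bGL1 (hTR : St_TR) : St_GL1 := by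
  intro A B C _ _ _ f f' g g' α γ β h0 h1 ha hc hb
  have e1 := GL1.ends6 hTR f g α β ha hb (fun _ => rfl) (fun _ => rfl)
  have e2 := GL1.mid6 hTR (α.comp f) f' (β.comp g) g' γ hc h0 h1
  refine (e2.comp e1).congr (GL1.homotopic_of_eq6 fun x => ?_)
  induction x using DM.ind with
  | hA a => rfl
  | hC c t => rfl
  | hB b => rfl

end Pool.Agent.Lib.NFB
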