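import Pool.Agent.Lib.NFB.Blue2

/-! Row GLUE: the gluing lemma. -/

namespace Pool.Agent.Lib.NFB

open Set Topology unitInterval ContinuousMap

namespace GLUE

variable {A B C A' B' C' A'' B'' C'' : Type} [TopologicalSpace A] [TopologicalSpace B]
  [TopologicalSpace C] [TopologicalSpace A'] [TopologicalSpace B'] [TopologicalSpace C']
  [TopologicalSpace A''] [TopologicalSpace B''] [TopologicalSpace C'']

theorem comp {f : C(C, A)} {g : C(C, B)} {f' : C(C', A')} {g' : C(C', B')} {f'' : C(C'', A'')}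
    {g'' : C(C'', B'')} (α : C(A, A')) (γ : C(C, C')) (β : C(B, B')) (α' : C(A', A''))
    (γ' : C(C', C'')) (β' : C(B', B'')) (h0 : ∀ c, f' (γ c) = α (f c))
    (h1 : ∀ c, g' (γ c) = β (g c)) (h0' : ∀ c, f'' (γ' c) = α' (f' c))
    (h1' : ∀ c, g'' (γ' c) = β' (g' c)) :
    (DM.map α' γ' β' h0' h1').comp (DM.map α γ β h0 h1) =
      DM.map (f := f) (g := g) (f' := f'') (g' := g'') (α'.comp α) (γ'.comp γ) (β'.comp β)
        (fun c => (h0' _).trans (congrArg α' (h0 c))) fun c => (h1' _).trans (congrArg β' (h1 c)) := by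
  ext x
  induction x using DM.ind <;> rfl

theorem ends (hG : St_GL1) (f : C(C, A)) (g : C(C, B)) {α : C(A, A')} {β : C(B, B')} (hα : HE α)
    (hβ : HE β) : HE (DM.map (f := f) (g := g) (f' := α.comp f) (g' := β.comp g) α (.id C) β
      (fun _ => rfl) fun _ => rfl) := by
  obtain ⟨α', a1, a2⟩ := hα
  obtain ⟨β', b1, b2⟩ := hβ
  refine (HE.six (g := DM.map (f' := α'.comp (α.comp f)) (g' := β'.comp (β.comp g)) α' (.id C) β'
    (fun _ => rfl) fun _ => rfl) (h := DM.map (f' := α.comp (α'.comp (α.comp f)))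
      (g' := β.comp (β'.comp (β.comp g))) α (.id C) β (fun _ => rfl) fun _ => rfl) ?_ ?_).1
  · rw [comp]
    exact hG _ _ _ _ _ _ _ _ _ _ _ _ a1 (.refl _) b1
  · rw [comp]
    exact hG _ _ _ _ _ _ _ _ _ _ _ _ a2 (.refl _) b2

theorem mid (hG : St_GL1) (f : C(C', A)) (g : C(C', B)) {γ : C(C, C')} (hγ : HE γ) :
    HE (DM.map (f := f.comp γ) (g := g.comp γ) (f' := f) (g' := g) (.id A) γ (.id B)
      (fun _ => rfl) fun _ => rfl) := by
  obtain ⟨γ', c1, c2⟩ := hγ
  refine (HE.six (g := DM.map (f := (f.comp γ).comp γ') (g := (g.comp γ).comp γ') (.id A) γ' (.id B)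
    (fun _ => rfl) fun _ => rfl) (f := DM.map (f := ((f.comp γ).comp γ').comp γ)
      (g := ((g.comp γ).comp γ').comp γ) (.id A) γ (.id B) (fun _ => rfl) fun _ => rfl) ?_ ?_).2.2
  · rw [comp]
    exact hG _ _ _ _ _ _ _ _ _ _ _ _ (.refl _) c1 (.refl _)
  · rw [comp]
    exact hG _ _ _ _ _ _ _ _ _ _ _ _ (.refl _) c2 (.refl _)

end GLUE

theorem bGLUE (hG : St_GL1) : St_GLUE := by
  intro A B C A' B' C' _ _ _ _ _ _ f g f' g' α γ β h0 h1 hα hγ hβ
  have e0 : α.comp f = f'.comp γ := ContinuousMap.ext fun c => (h0 c).symm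
  have e1 : β.comp g = g'.comp γ := ContinuousMap.ext fun c => (h1 c).symm
  have key : ∀ (u : C(C, A')) (v : C(C, B')) (hu : u = f'.comp γ) (hv : v = g'.comp γ),
      HE (DM.map (f := u) (g := v) (f' := f') (g' := g') (.id A') γ (.id B')
        (fun c => by rw [hu]; rfl) fun c => by rw [hv]; rfl) := by
    rintro _ _ rfl rfl
    exact GLUE.mid hG f' g' hγ
  have h := (key _ _ e0 e1).comp (GLUE.ends hG f g hα hβ)
  rw [GLUE.comp] at h
  exact h

end Pool.Agent.Lib.NFB
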