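import Pool.Agent.Lib.NFB.Blue2

/-! The equivariant equivalence of wedges. -/

namespace Pool.Agent.Lib.NFB

open Set Topology unitInterval

namespace GMAP

variable {T Y : Type} [TopologicalSpace T] [TopologicalSpace Y] {t₀ : T}

/-- the first summand -/
def i₁ (t₀ : T) : Pt t₀ (w₀ t₀) := ⟨⟨fun y => ⟨(y, t₀), .inr rfl⟩, by fun_prop⟩, rfl⟩

/-- the second summand -/
def i₂ (t₀ : T) : Pt t₀ (w₀ t₀) := ⟨⟨fun y => ⟨(t₀, y), .inl rfl⟩, by fun_prop⟩, rfl⟩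

theorem ind {p : Wg t₀ → Prop} (h₁ : ∀ y, p ((i₁ t₀).1 y)) (h₂ : ∀ y, p ((i₂ t₀).1 y)) : ∀ z, p z := by
  rintro ⟨⟨x, y⟩, rfl | rfl⟩
  exacts [h₂ y, h₁ x]

theorem glue [T2Space T] {S : Type} [TopologicalSpace S] (F₁ F₂ : C(S × T, Y))
    (h : ∀ s, F₁ (s, t₀) = F₂ (s, t₀)) : ∃ G : C(S × Wg t₀, Y),
      (∀ s y, G (s, (i₁ t₀).1 y) = F₁ (s, y)) ∧ ∀ s y, G (s, (i₂ t₀).1 y) = F₂ (s, y) := by
  classical
  refine ⟨⟨fun z => if z.2.1.2 = t₀ then F₁ (z.1, z.2.1.1) else F₂ (z.1, z.2.1.2),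
    Continuous.if (fun z hz => ?_) (by fun_prop) (by fun_prop)⟩, fun s y => if_pos rfl, fun s y => ?_⟩
  · have h1 : z.2.1.2 = t₀ := IsClosed.frontier_subset (s := {z : S × Wg t₀ | z.2.1.2 = t₀})
      (isClosed_eq (by fun_prop) continuous_const) hz
    rw [← frontier_compl] at hz
    have h2 : z.2.1.1 = t₀ := closure_minimal (t := {z : S × Wg t₀ | z.2.1.1 = t₀})
      (fun w hw => w.2.2.resolve_right hw) (isClosed_eq (by fun_prop) continuous_const)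
      (frontier_subset_closure hz)
    rw [h1, h2, h]
  · change (if y = t₀ then F₁ (s, t₀) else F₂ (s, y)) = _
    split_ifs with e
    · rw [e, h]
    · rfl

theorem two [T2Space T] {y₀ : Y} (F₁ F₂ : Pt t₀ y₀) : ∃ g : Pt (w₀ t₀) y₀,
    (∀ y, F₁.1 y = g.1 ((i₁ t₀).1 y)) ∧ ∀ y, F₂.1 y = g.1 ((i₂ t₀).1 y) := by
  obtain ⟨G, h1, h2⟩ := glue (t₀ := t₀) (S := Unit) (F₁.1.comp .snd) (F₂.1.comp .snd)
    fun _ => F₁.2.trans F₂.2.symm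
  exact ⟨⟨G.comp ⟨fun z => ((), z), by fun_prop⟩, (h1 () t₀).trans F₁.2⟩, fun y => (h1 () y).symm,
    fun y => (h2 () y).symm⟩

/-- composition of pointed maps -/
def cp {y₀ : Y} (k : Pt y₀ y₀) (F : Pt t₀ y₀) : Pt t₀ y₀ :=
  ⟨k.1.comp F.1, (congrArg k.1 F.2).trans k.2⟩

theorem hom [T2Space T] {k : C(Wg t₀, Wg t₀)}
    (h₁ : (k.comp (i₁ t₀).1).HomotopicRel (i₁ t₀).1 {t₀})
    (h₂ : (k.comp (i₂ t₀).1).HomotopicRel (i₂ t₀).1 {t₀}) : k.Homotopic (.id _) := by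
  obtain ⟨H₁⟩ := h₁
  obtain ⟨H₂⟩ := h₂
  obtain ⟨G, h1, h2⟩ := glue (t₀ := t₀) H₁.toHomotopy.toContinuousMap H₂.toHomotopy.toContinuousMap
    fun s => (H₁.eq_snd s rfl).trans (H₂.eq_snd s rfl).symm
  exact ⟨⟨G, ind (fun y => (h1 0 y).trans (H₁.apply_zero y)) fun y => (h2 0 y).trans (H₂.apply_zero y),
    ind (fun y => (h1 1 y).trans (H₁.apply_one y)) fun y => (h2 1 y).trans (H₂.apply_one y)⟩⟩

end GMAP

open GMAP in
theorem bGMAP : St_GMAP := by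
  intro T _ _ _ D H _ cl hc h9
  have b1 : ∀ y, D.wb ((i₁ D.t₀).1 y) = (i₁ D.t₀).1 (D.b y) := fun y =>
    Subtype.ext (Prod.ext rfl D.b_t)
  have b2 : ∀ y, D.wb ((i₂ D.t₀).1 y) = (i₂ D.t₀).1 (D.b y) := fun y =>
    Subtype.ext (Prod.ext D.b_t rfl)
  obtain ⟨P, hP, hb⟩ := hc.pin (i₁ _) (i₂ _)
  have hb := hb D.wb b1 b2
  let tw : Pt (w₀ D.t₀) (w₀ D.t₀) := ⟨(D.wtw.a : C(_, _)), D.fix_tw.1⟩
  obtain ⟨g, g1, g2⟩ := two P (cp tw P)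
  obtain ⟨ht, et⟩ := hc.nat tw
  have hP' : cl (cp tw P) = cl (i₁ _) / cl (i₂ _) := by
    rw [et P _ fun _ => rfl, hP, map_mul,
      ← et (i₁ _) (i₁ _) fun y => Subtype.ext (Prod.ext rfl D.b_t.symm),
      ← et (i₂ _) (cp tw (i₂ _)) fun _ => rfl, hc.inv (i₂ _) (cp tw (i₂ _)) fun _ => rfl, div_eq_mul_inv]
  obtain ⟨F₁, f1⟩ := hc.surj ((cl (i₁ _) * cl (i₂ _)) ^ 5)
  obtain ⟨F₂, f2⟩ := hc.surj ((cl (i₁ _) / cl (i₂ _)) ^ 5)
  obtain ⟨g', g3, g4⟩ := two F₁ F₂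
  obtain ⟨h, e⟩ := hc.nat g
  obtain ⟨h', e'⟩ := hc.nat g'
  have a1 := (e _ _ g1).symm.trans hP
  have a2 := (e _ _ g2).symm.trans hP'
  have a3 := (e' _ _ g3).symm.trans f1
  have a4 := (e' _ _ g4).symm.trans f2
  have ten : ∀ x : H, (x * x) ^ 5 = x := fun x => by
    rw [← sq, ← pow_mul, show 2 * 5 = 9 + 1 from rfl, pow_succ, h9, one_mul]
  have n1 : ∀ u v : H, u * v * (u / v) = u * u := fun u v => by
    rw [mul_assoc, mul_div_cancel]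
  have n2 : ∀ u v : H, u * v / (u / v) = v * v := fun u v => by simp
  refine ⟨g.1, ⟨ind (fun y => ?_) fun y => ?_, ind (fun y => ?_) fun y => ?_⟩, g.2, g'.1,
    hom (hc.inj (cp g' (cp g (i₁ _))) _ ?_) (hc.inj (cp g' (cp g (i₂ _))) _ ?_),
    hom (hc.inj (cp g (cp g' (i₁ _))) _ ?_) (hc.inj (cp g (cp g' (i₂ _))) _ ?_)⟩
  · exact (g2 y).symm.trans (congrArg D.wtw.a (g1 y))
  · refine (g1 y).symm.trans ?_
    rw [← g2 y]
    exact Subtype.ext (Prod.ext rfl (D.bb _).symm)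
  · exact (congrArg g.1 (b1 y)).trans ((g1 _).symm.trans ((hb y).symm.trans (congrArg D.wb (g1 y))))
  · exact (congrArg g.1 (b2 y)).trans ((g2 _).symm.trans ((congrArg D.wtw.a (hb y).symm).trans
      ((D.wtw.comm _).symm.trans (congrArg D.wb (g2 y)))))
  · rw [e' (cp g _) _ fun _ => rfl, e (i₁ _) _ fun _ => rfl, a1, map_mul, a3, a4, ← mul_pow, n1, ten]
  · rw [e' (cp g _) _ fun _ => rfl, e (i₂ _) _ fun _ => rfl, a2, map_div, a3, a4, ← div_pow, n2, ten]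
  · rw [e (cp g' _) _ fun _ => rfl, e' (i₁ _) _ fun _ => rfl, a3, map_pow, map_mul, a1, a2, n1, ten]
  · rw [e (cp g' _) _ fun _ => rfl, e' (i₂ _) _ fun _ => rfl, a4, map_pow, map_div, a1, a2, n2, ten]

end Pool.Agent.Lib.NFB
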