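import Pool.Agent.Lib.NFB.Blue1

/-! Row GRA: a body for a space over the circle, with its double cover. -/

namespace Pool.Agent.Lib.NFB

open Set Topology Metric unitInterval

namespace GRA

theorem dir {Y : Type} [TopologicalSpace Y] (g : Y → ℂ) (hg : Continuous g) (h : ∀ y, g y ≠ 0) :
    ∃ θ : C(Y, Circle), ∀ y, (θ y : ℂ) = g y / (‖g y‖ : ℂ) := by
  have m : ∀ y, g y / (‖g y‖ : ℂ) ∈ Submonoid.unitSphere ℂ := fun y => by
    refine mem_sphere_zero_iff_norm.2 ?_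
    rw [norm_div, Complex.norm_real, norm_norm, div_self (norm_ne_zero_iff.2 (h y))]
  exact ⟨⟨fun y => ⟨_, m y⟩, (hg.div (Complex.continuous_ofReal.comp hg.norm) fun y =>
    Complex.ofReal_ne_zero.2 (norm_ne_zero_iff.2 (h y))).subtype_mk _⟩, fun _ => rfl⟩

theorem ne {a z : ℂ} (ha : ‖a‖ = 1) (h : ‖z‖ < 1) : a + z ≠ 0 := fun e => by
  rw [eq_neg_of_add_eq_zero_left e, norm_neg] at ha
  exact h.ne ha

theorem tI (t : I) {z : ℂ} : ‖(t : ℝ) • z‖ ≤ ‖z‖ := by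
  rw [norm_smul, Real.norm_of_nonneg t.2.1]
  exact mul_le_of_le_one_left (norm_nonneg _) t.2.2

end GRA

open GRA in
theorem bGRA (hGRN : St_GRN) (hGRS : St_GRS) (hLIP : St_LIP) : St_GRA := by
  rintro X _ θ ⟨V, _, _, _, N, e, hN, he⟩
  obtain ⟨f, f1, f2⟩ := hLIP V ℂ N hN.1 ⟨fun x => (θ (e x) : ℂ), by fun_prop⟩ (1 / 10) (by norm_num)
  replace f2 : ∀ x : N, ‖f x - θ (e x)‖ < 1 / 10 := f2
  have fc := f1.continuous
  have k : ∀ (x : N) (z : ℂ), ‖z - f x‖ ≤ 1 / 10 → ‖z - θ (e x)‖ < 1 := fun x z h => by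
    linarith [norm_sub_le_norm_sub_add_norm_sub z (f x) (θ (e x)), f2 x]
  have k0 : ∀ (x : N) (z : ℂ), ‖z - f x‖ ≤ 1 / 10 → z ≠ 0 := fun x z h => by
    simpa using ne (Circle.norm_coe (θ (e x))) (k x z h)
  have n2 : ∀ w : Gs N f (1 / 10), w.1.2 ≠ 0 := fun w h =>
    k0 ⟨_, w.2.1⟩ _ w.2.2 (by rw [h, zero_pow two_ne_zero])
  obtain ⟨θ₁, h1⟩ := dir (fun w : Gr N f (1 / 10) => w.1.2) (by fun_prop)
    fun w => k0 ⟨_, w.2.1⟩ _ w.2.2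
  obtain ⟨θ₂, h2⟩ := dir (fun w : Gs N f (1 / 10) => w.1.2) (by fun_prop) n2
  let p : C(Gr N f (1 / 10), N) := ⟨fun w => ⟨w.1.1, w.2.1⟩, by fun_prop⟩
  have hp : HE p := by
    refine ⟨⟨fun x => ⟨(x.1, f x.1), x.2, by simp⟩, by fun_prop⟩, homotopic_of
      ⟨fun w => ⟨(w.2.1.1, f w.2.1.1 + (w.1 : ℝ) • (w.2.1.2 - f w.2.1.1)), w.2.2.1, ?_⟩,
        by fun_prop⟩ (fun x => Subtype.ext ?_) fun x => Subtype.ext ?_, .refl _⟩
    · rw [add_sub_cancel_left]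
      exact (tI w.1).trans w.2.2.2
    · simp [p]
    · simp
  obtain ⟨H, h3⟩ := dir (fun w : I × Gr N f (1 / 10) =>
    (θ (e (p w.2)) : ℂ) + (w.1 : ℝ) • (w.2.1.2 - θ (e (p w.2)))) (by fun_prop)
    fun w => ne (Circle.norm_coe _) ((tI w.1).trans_lt (k (p w.2) _ w.2.2.2))
  refine ⟨V × ℂ, inferInstance, inferInstance, inferInstance, inferInstance, Gr N f (1 / 10),
    Gs N f (1 / 10), ⟨fun w => (w.1, w.2 ^ 2), by fun_prop⟩, θ₁, θ₂, e.comp p,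
    hGRN V ℂ N f _ hN f1 (by norm_num), hGRS V N f _ hN f1 (by norm_num) fun x hx => ?_,
    ⟨IsOpenMap.id.prodMap (Complex.isOpenQuotientMap_pow 2).isOpenMap, rfl,
      fun x h => Circle.ext ?_, fun x x' h h' => ?_, fun y w h => ?_⟩, he.comp hp,
    homotopic_of H (fun x => Circle.ext ?_) fun x => Circle.ext ?_⟩
  · have a := norm_sub_norm_le (θ (e ⟨x, hx⟩) : ℂ) (f x)
    have b := f2 ⟨x, hx⟩
    rw [Circle.norm_coe, norm_sub_rev] at a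
    linarith
  · rw [Circle.coe_pow, h1, h2]
    simp [div_pow]
  · obtain ⟨a, b⟩ : x.1.1 = x'.1.1 ∧ x.1.2 ^ 2 = x'.1.2 ^ 2 := Prod.ext_iff.1 h
    have c : ‖x.1.2‖ = ‖x'.1.2‖ := by
      rw [← pow_left_inj₀ (norm_nonneg _) (norm_nonneg _) two_ne_zero, ← norm_pow, b, norm_pow]
    have d := (h2 x).symm.trans ((congrArg (fun u : Circle => (u : ℂ)) h').trans (h2 x'))
    rw [c, div_left_inj' (Complex.ofReal_ne_zero.2 (norm_ne_zero_iff.2 (n2 x')))] at d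
    exact Subtype.ext (Prod.ext a d)
  · have y0 : 0 < ‖y.1.2‖ := norm_pos_iff.2 (k0 ⟨_, y.2.1⟩ _ y.2.2)
    have s0 : 0 < √‖y.1.2‖ := Real.sqrt_pos.2 y0
    have a : ((√‖y.1.2‖ : ℝ) * (w : ℂ)) ^ 2 = y.1.2 := by
      rw [mul_pow, ← Circle.coe_pow, h, h1, ← Complex.ofReal_pow, Real.sq_sqrt y0.le,
        mul_div_cancel₀ _ (Complex.ofReal_ne_zero.2 y0.ne')]
    refine ⟨⟨(y.1.1, (√‖y.1.2‖ : ℝ) * (w : ℂ)), y.2.1, by rw [a]; exact y.2.2⟩,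
      Prod.ext rfl a, Circle.ext ?_⟩
    rw [h2, norm_mul, Circle.norm_coe, mul_one, Complex.norm_real, Real.norm_of_nonneg s0.le,
      mul_div_cancel_left₀ _ (Complex.ofReal_ne_zero.2 s0.ne')]
  · rw [h3]
    simp
  · rw [h3, h1]
    simp

end Pool.Agent.Lib.NFB
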