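import Pool.Agent.Lib.NFB.Blue1

/-! Tubes around graphs of locally Lipschitz maps are bodies. -/

namespace Pool.Agent.Lib.NFB

open Set Topology Metric

theorem bGRN : St_GRN := by
  intro V V' _ _ _ _ _ C f δ hC hf hδ
  constructor
  · have : ProperSpace V' := FiniteDimensional.proper_real V'
    have h1 : Gr C f δ = (fun z : V × V' => (z.1, f z.1 + z.2)) '' (C ×ˢ closedBall 0 δ) := by
      ext ⟨x, y⟩
      constructor
      · rintro ⟨h1, h2⟩
        exact ⟨(x, y - f x), ⟨h1, mem_closedBall_zero_iff.2 h2⟩, by simp⟩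
      · rintro ⟨⟨a, b⟩, ⟨h1, h2⟩, h3⟩
        obtain ⟨rfl, rfl⟩ := Prod.mk.inj h3
        exact ⟨h1, by simpa using h2⟩
    rw [h1]
    exact (hC.1.prod (isCompact_closedBall 0 δ)).image
      (continuous_fst.prodMk ((hf.continuous.comp continuous_fst).add continuous_snd))
  · rintro ⟨x0, y0⟩ ⟨hx0, -⟩
    obtain ⟨e, r, hr, hE⟩ := hC.2 x0 hx0
    obtain ⟨K, T, hT, hK⟩ := hf x0
    obtain ⟨ρ, hρ, hρT⟩ := Metric.mem_nhds_iff.1 hT
    have hK0 : (0 : ℝ) ≤ K := K.2
    have he := norm_nonneg e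
    obtain ⟨κ0, hκ0, h0⟩ := exists_pos_mul_lt (half_pos hδ) (K * ‖e‖)
    obtain ⟨κ, hκ, hκ1, hκ2⟩ : ∃ κ : ℝ, 0 < κ ∧ κ ≤ 1 ∧ K * ‖e‖ * κ ≤ δ / 2 :=
      ⟨min κ0 1, lt_min hκ0 one_pos, min_le_right _ _,
        (mul_le_mul_of_nonneg_left (min_le_left _ _) (mul_nonneg hK0 he)).trans h0.le⟩
    obtain ⟨a, ha, ha1⟩ := exists_pos_mul_lt (half_pos hδ) (2 + 2 * K)
    obtain ⟨b, hb, hb1⟩ := exists_pos_mul_lt hρ (2 + ‖e‖)
    obtain ⟨s, hs, s1, s2, s3, s4⟩ : ∃ s : ℝ, 0 < s ∧ s ≤ 1 ∧ s ≤ κ * r ∧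
        (2 + 2 * K) * s ≤ δ / 2 ∧ (2 + ‖e‖) * s ≤ ρ :=
      ⟨min (min 1 (κ * r)) (min a b), lt_min (lt_min one_pos (mul_pos hκ hr)) (lt_min ha hb),
        (min_le_left _ _).trans (min_le_left _ _), (min_le_left _ _).trans (min_le_right _ _),
        (mul_le_mul_of_nonneg_left ((min_le_right _ _).trans (min_le_left _ _))
          (by positivity)).trans ha1.le,
        (mul_le_mul_of_nonneg_left ((min_le_right _ _).trans (min_le_right _ _))
          (by positivity)).trans hb1.le⟩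
    have s5 : s ≤ r := s2.trans (mul_le_of_le_one_left hr.le hκ1)
    refine ⟨(κ • e, f x0 - y0), s, hs, ?_⟩
    rintro ⟨x, y⟩ ⟨hx, hy⟩ hz ⟨w, u⟩ hw t ht hts
    have z1 : ‖x - x0‖ < s := (norm_fst_le ((x, y) - (x0, y0))).trans_lt hz
    have z2 : ‖y - y0‖ < s := (norm_snd_le ((x, y) - (x0, y0))).trans_lt hz
    have w1 : ‖w - κ • e‖ < s := (norm_fst_le ((w, u) - (κ • e, f x0 - y0))).trans_lt hw
    have w2 : ‖u - (f x0 - y0)‖ < s := (norm_snd_le ((w, u) - (κ • e, f x0 - y0))).trans_lt hw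
    have hy' : ‖y - f x‖ ≤ δ := hy
    have w3 : ‖w‖ ≤ κ * ‖e‖ + s := by
      have h1 := norm_le_insert' w (κ • e)
      rw [norm_smul, Real.norm_of_nonneg hκ.le] at h1
      linarith
    have tw : ‖t • w‖ = t * ‖w‖ := by rw [norm_smul, Real.norm_of_nonneg ht]
    have hxT : x ∈ T := hρT (mem_ball_iff_norm.2 (by nlinarith))
    have hx0T : x0 ∈ T := hρT (mem_ball_self hρ)
    have hxw : x + t • w ∈ T := by
      refine hρT (mem_ball_iff_norm.2 ?_)
      have h1 : ‖x + t • w - x0‖ ≤ ‖x - x0‖ + ‖t • w‖ := by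
        rw [add_sub_right_comm]; exact norm_add_le _ _
      have h2 : t * ‖w‖ ≤ s * (‖e‖ + 1) :=
        mul_le_mul hts (by nlinarith) (norm_nonneg _) hs.le
      nlinarith
    constructor
    · show x + t • w ∈ C
      have h1 : x + t • w = x + (t * κ) • (κ⁻¹ • w) := by
        rw [smul_smul, mul_assoc, mul_inv_cancel₀ hκ.ne', mul_one]
      rw [h1]
      refine hE x hx (z1.trans_le s5) _ ?_ _ (mul_nonneg ht hκ.le)
        ((mul_le_of_le_one_right ht hκ1).trans (hts.trans s5))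
      have h2 : κ⁻¹ • w - e = κ⁻¹ • (w - κ • e) := by
        rw [smul_sub, smul_smul, inv_mul_cancel₀ hκ.ne', one_smul]
      rw [h2, norm_smul, Real.norm_of_nonneg (inv_nonneg.2 hκ.le), inv_mul_lt_iff₀ hκ]
      exact w1.trans_le s2
    · show ‖y + t • u - f (x + t • w)‖ ≤ δ
      have l1 : ‖f x - f (x + t • w)‖ ≤ K * (t * ‖w‖) := by
        have h1 := hK.norm_sub_le hxT hxw
        rwa [sub_add_cancel_left, norm_neg, tw] at h1
      have l2 : ‖f x0 - f x‖ ≤ K * s := by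
        have h1 := hK.norm_sub_le hx0T hxT
        rw [norm_sub_rev x0] at h1
        exact h1.trans (mul_le_mul_of_nonneg_left z1.le hK0)
      have e1 : y + t • u - f (x + t • w) = (1 - t) • (y - f x) +
          t • ((y - y0) + (f x0 - f x) + (u - (f x0 - y0))) + (f x - f (x + t • w)) := by
        module
      have l3 : ‖(y - y0) + (f x0 - f x) + (u - (f x0 - y0))‖ ≤ (2 + K) * s :=
        (norm_add₃_le).trans (by linarith)
      have t1 : 0 ≤ 1 - t := by linarith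
      rw [e1]
      refine (norm_add₃_le).trans ?_
      rw [norm_smul, norm_smul, Real.norm_of_nonneg t1, Real.norm_of_nonneg ht]
      have m1 := mul_le_mul_of_nonneg_left hy' t1
      have m2 := mul_le_mul_of_nonneg_left l3 ht
      have m3 := mul_le_mul_of_nonneg_left (mul_le_mul_of_nonneg_left w3 hK0) ht
      have m4 : (2 + K) * s + K * (κ * ‖e‖ + s) ≤ δ := by linarith
      have m5 := mul_le_mul_of_nonneg_left m4 ht
      linarith

end Pool.Agent.Lib.NFB
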