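import Pool.Agent.Lib.NFB.Blue1

/-! Row GRS: the preimage under squaring of a tube that avoids zero is a body. -/

namespace Pool.Agent.Lib.NFB

open Set Topology Metric Filter

theorem bGRS : St_GRS := by
  intro V _ _ C f δ hC hf hδ hne
  have hc : Continuous f := hf.continuous
  refine ⟨?_, fun p₀ hp₀ => ?_⟩
  · obtain ⟨M, hM⟩ := hC.1.exists_bound_of_continuousOn hc.continuousOn
    refine (hC.1.prod (isCompact_closedBall (0 : ℂ) (1 + (δ + M)))).of_isClosed_subset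
      ((hC.1.isClosed.preimage continuous_fst).inter
        (isClosed_le (f := fun z : V × ℂ => ‖z.2 ^ 2 - f z.1‖) (by fun_prop) continuous_const))
      fun z hz => ⟨hz.1, ?_⟩
    have h1 : ‖z.2‖ ^ 2 ≤ δ + M := by
      have := norm_add_le (z.2 ^ 2 - f z.1) (f z.1)
      rw [sub_add_cancel, norm_pow] at this
      linarith [hz.2, hM _ hz.1]
    rw [mem_closedBall_zero_iff]
    nlinarith [sq_nonneg (‖z.2‖ - 1), norm_nonneg z.2]
  obtain ⟨e, r, hr, he⟩ := hC.2 p₀.1 hp₀.1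
  obtain ⟨K, s, hs, hK⟩ := hf p₀.1
  obtain ⟨κ, hκ, hκ'⟩ := exists_pos_mul_lt hδ (K * ‖e‖)
  have hz : p₀.2 ≠ 0 := fun h => by
    have := hp₀.2
    rw [h, zero_pow two_ne_zero, zero_sub, norm_neg] at this
    exact (hne _ hp₀.1).not_ge this
  set E : V × ℂ := (κ • e, (f p₀.1 - p₀.2 ^ 2) / (2 * p₀.2)) with hE
  have lt : ∀ (g : (V × ℂ) × (V × ℂ) × ℝ → ℝ) (a : ℝ), Continuous g → g (p₀, E, 0) < a →
      ∀ᶠ q in 𝓝 (p₀, E, (0 : ℝ)), g q < a := fun g a hg h =>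
    hg.continuousAt.eventually_lt continuousAt_const h
  have mem : ∀ g : (V × ℂ) × (V × ℂ) × ℝ → V, Continuous g → g (p₀, E, 0) = p₀.1 →
      ∀ᶠ q in 𝓝 (p₀, E, (0 : ℝ)), g q ∈ s := fun g hg h =>
    hg.continuousAt.preimage_mem_nhds (h.symm ▸ hs)
  have a1 := lt (fun q => ‖2 * q.1.2 * q.2.1.2 + q.1.2 ^ 2 - f q.1.1 + q.2.2 * q.2.1.2 ^ 2‖ +
    K * ‖q.2.1.1‖) δ (by fun_prop) (by
      have : 2 * p₀.2 * ((f p₀.1 - p₀.2 ^ 2) / (2 * p₀.2)) + p₀.2 ^ 2 - f p₀.1 = 0 := by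
        field_simp
        ring
      simp only [hE, this, Complex.ofReal_zero, zero_mul, add_zero, norm_zero, zero_add, norm_smul,
        Real.norm_of_nonneg hκ.le]
      linarith)
  have a2 := mem (fun q => q.1.1) (by fun_prop) rfl
  have a3 := mem (fun q => q.1.1 + q.2.2 • q.2.1.1) (by fun_prop) (by simp)
  have a4 := lt (fun q => q.2.2) 1 (by fun_prop) one_pos
  have a5 := lt (fun q => ‖q.1.1 - p₀.1‖) r (by fun_prop) (by simpa using hr)
  have a6 := lt (fun q => ‖κ⁻¹ • q.2.1.1 - e‖) r (by fun_prop) (by simpa [hE, hκ.ne'] using hr)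
  have a7 := lt (fun q => q.2.2 * κ) r (by fun_prop) (by simpa using hr)
  obtain ⟨ε, hε, H⟩ := Metric.eventually_nhds_iff.1
    (a1.and (a2.and (a3.and (a4.and (a5.and (a6.and a7))))))
  refine ⟨E, ε / 2, half_pos hε, fun y hy hy' w hw t t0 t1 => ?_⟩
  obtain ⟨b1, b2, b3, b4, b5, b6, b7⟩ := @H (y, w, t) (by
    rw [Prod.dist_eq, Prod.dist_eq (x := (w, t)), dist_eq_norm, dist_eq_norm, Real.dist_0_eq_abs,
      abs_of_nonneg t0]
    exact max_lt (by linarith) (max_lt (by linarith) (by linarith)))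
  simp only at b1 b2 b3 b4 b5 b6 b7
  refine ⟨?_, ?_⟩
  · have := he y.1 hy.1 b5 _ b6 (t * κ) (by positivity) b7.le
    rwa [smul_smul, mul_assoc, mul_inv_cancel₀ hκ.ne', mul_one] at this
  · have c1 := hK.norm_sub_le b3 b2
    rw [add_sub_cancel_left, norm_smul, Real.norm_of_nonneg t0] at c1
    have c2 : (y + t • w).2 ^ 2 - f (y + t • w).1 = (1 - t) • (y.2 ^ 2 - f y.1) +
        t • (2 * y.2 * w.2 + y.2 ^ 2 - f y.1 + t * w.2 ^ 2) - (f (y.1 + t • w.1) - f y.1) := by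
      simp only [Prod.snd_add, Prod.fst_add, Prod.smul_snd, Prod.smul_fst, Complex.real_smul]
      push_cast
      ring
    rw [c2]
    refine (norm_sub_le _ _).trans ((add_le_add (norm_add_le _ _) c1).trans ?_)
    rw [norm_smul, norm_smul, Real.norm_of_nonneg t0, Real.norm_of_nonneg (sub_nonneg.2 b4.le)]
    nlinarith [mul_le_mul_of_nonneg_left hy.2 (sub_nonneg.2 b4.le),
      mul_le_mul_of_nonneg_left b1.le t0]

end Pool.Agent.Lib.NFB
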