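import Pool.Agent.Lib.NFB.Blue2
import Pool.Agent.Lib.LT.B_EXC
import Pool.Agent.Lib.LT.B_MOD
import Pool.Agent.Lib.LT.B_RHO
import Pool.Agent.Lib.LT.B_RETR
import Pool.Agent.Lib.LT.B_HINV
import Pool.Agent.Lib.LT.B_SPLIT
import Pool.Agent.Lib.LT.B_STAR
import Pool.Agent.Lib.LT.B_LIFT

/-! The third homology of a three-sphere with a four-cell of degree divisible by three. -/

namespace Pool.Agent.Lib.NFB

open Set Pool.Agent.Lib.LT Pool.Agent.Lib.MP_77749b_gt

namespace HALG

theorem rels (n : ℕ) : REL n :=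
  rel_all (st_EXC st_RHO (st_RETR st_RHO) st_HINV (st_SPLIT st_LIFT)) (st_MOD st_STAR) n

theorem push_cp {X Y Z : Type} [TopologicalSpace X] [TopologicalSpace Y] [TopologicalSpace Z]
    (f : C(X, Y)) (g : C(Y, Z)) {k : ℕ} (c : Ch ℤ X k) :
    push g k (push f k c) = push (g.comp f) k c := by
  rw [push, push, md_md]
  rfl

/-- the inclusion of a subset -/
def vl {X : Type} [TopologicalSpace X] (S : Set X) : C(S, X) := ⟨Subtype.val, continuous_subtype_val⟩

/-- the faces of the four-simplex, in its boundary -/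
noncomputable def fc (i : Fin 5) : Sx (Bdy 5) 4 :=
  ⟨fun s => ⟨stdSimplex.map i.succAbove s, not_inn_face i s⟩,
    (stdSimplex.continuous_map _).subtype_mk _⟩

/-- the fundamental cycle of the boundary -/
noncomputable def zz : Ch ℤ (Bdy 5) 4 := ∑ i : Fin 5, (-1 : ℤ) ^ (i : ℕ) • Finsupp.single (fc i) 1

theorem push_zz {T : Type} [TopologicalSpace T] (σ : Sx T 5) (f : C(Bdy 5, T))
    (h : ∀ t : Bdy 5, σ t = f t) : push f 4 zz = bd 4 (Finsupp.single σ 1) := by
  rw [zz, bd_single, map_sum]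
  refine Finset.sum_congr rfl fun i _ => ?_
  rw [map_smul, push_single]
  exact congrArg (fun τ => (-1 : ℤ) ^ (i : ℕ) • Finsupp.single τ (1 : ℤ))
    (ContinuousMap.ext fun s => (h (fc i s)).symm)

theorem bd_zz : bd 3 zz = 0 := by
  have hi : Function.Injective (push (R := ℤ) (vl (Bdy 5)) 3) :=
    Finsupp.mapDomain_injective fun σ τ e =>
      ContinuousMap.ext fun s => Subtype.ext (DFunLike.congr_fun e s)
  apply hi
  rw [← bd_push, push_zz (ContinuousMap.id _) _ fun _ => rfl, bd_bd, map_zero]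

theorem md_sum {E : Type} [TopologicalSpace E] (ψ : Fin 3 → Sx E 4) (a : Fin 3 →₀ ℤ) :
    a.mapDomain ψ = ∑ i, a i • Finsupp.single (ψ i) (1 : ℤ) := by
  rw [Finsupp.mapDomain, Finsupp.sum_fintype _ _ fun _ => Finsupp.single_zero _]
  simp

theorem md_unit {α : Type} (σ : α) (b : Unit →₀ ℤ) :
    b.mapDomain (fun _ => σ) = b () • Finsupp.single σ (1 : ℤ) := by
  rw [Finsupp.mapDomain, Finsupp.sum_fintype _ _ fun _ => Finsupp.single_zero _]
  simp

end HALG

open HALG in
theorem bHALG (hI : St_HI) : St_HALG := by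
  intro T E _ _ _ _ S t₀ σ₄ e A ψ κ Φ c h ⟨y, hy⟩
  have r4 := rels 4 T _ _ _ _ h.ca4
  have r3 := rels 3 T _ _ _ _ h.ca3
  have rE := rels 3 E _ _ _ _ h.caE
  have inj : ∀ n : ℤ, RelB {t₀} S (k := 3) (n • Finsupp.single e (1 : ℤ)) → n = 0 := fun n hn => by
    have := r3.inj (Finsupp.single () n) (by rwa [md_unit, Finsupp.single_eq_same])
    simpa using this
  have hw : bd 3 (push κ 4 zz) = 0 := by rw [bd_push, bd_zz, map_zero]
  obtain ⟨a, ha⟩ := rE.surj (push κ 4 zz) (In_univ _) (by rw [hw]; exact zero_mem _)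
  rw [md_sum] at ha
  have hj : ∀ j, RelB {t₀} S (k := 3)
      (push ((vl S).comp (c j)) 4 (push κ 4 zz) - a j • Finsupp.single e (1 : ℤ)) := fun j => by
    have h1 := ha.push ((vl S).comp (c j)) (A' := {t₀}) (B' := S) (fun x hx => h.cA j x hx)
      fun x _ => (c j x).2
    have h2 : RelB {t₀} S (k := 3) (∑ i ∈ Finset.univ.erase j,
        a i • Finsupp.single (((vl S).comp (c j)).comp (ψ i)) (1 : ℤ)) :=
      RelB.of_mem (Submodule.sum_mem _ fun i hi => Submodule.smul_mem _ _ (single_CS (by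
        rintro _ ⟨t, rfl⟩
        exact h.cψ' i j t (Finset.ne_of_mem_erase hi)) _))
    have h3 := h1.add h2
    have e1 : ((vl S).comp (c j)).comp (ψ j) = e := ContinuousMap.ext fun t => h.cψ j t
    simp only [map_sub, map_sum, map_smul, push_single] at h3
    rw [← Finset.add_sum_erase _ _ (Finset.mem_univ j), e1] at h3
    rwa [sub_add_eq_sub_sub, sub_add_cancel] at h3
  have heq : ∀ j, a j = a 0 := fun j => by
    obtain ⟨d, hd⟩ := hI E S (c j) (c 0) (h.hom j) 3 _ hw
    have h1 : RelB {t₀} S (k := 3) (bd 4 (push (vl S) 5 d)) :=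
      RelB.of_bd (push_In _ (fun x _ => x.2) (In_univ d))
    rw [bd_push, hd, map_sub, push_cp (c j), push_cp (c 0)] at h1
    have h2 := (h1.add ((hj j).smul (-1))).add (hj 0)
    have := inj (a j - a 0) (by
      rw [sub_smul]
      exact (congrArg (RelB {t₀} S (k := 3)) (by simp only [neg_smul, one_smul]; abel)).mp h2)
    omega
  have hΦ : RelB {t₀} S (k := 3)
      (bd 4 (Finsupp.single σ₄ 1) - (3 * a 0) • Finsupp.single e (1 : ℤ)) := by
    have h1 := ha.push Φ (A' := {t₀}) (B' := S) (fun x hx => h.ΦA x hx) fun x hx => by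
      rcases h.caE.cases hx with hx | ⟨j, t, -, rfl⟩
      · rw [h.ΦA x hx]; exact h.ca3.sub rfl
      · rw [h.Φψ]; exact h.ca3.mem () t
    have e1 : ∀ j, Φ.comp (ψ j) = e := fun j => ContinuousMap.ext fun t => h.Φψ j t
    simp only [map_sub, map_sum, map_smul, push_single, e1, heq] at h1
    rw [push_cp, push_zz σ₄ _ h.att, Finset.sum_const, Finset.card_univ, Fintype.card_fin,
      ← Nat.cast_smul_eq_nsmul ℤ, smul_smul] at h1
    exact h1
  have hu : bd 3 (Finsupp.single e (1 : ℤ) -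
      Finsupp.single (ContinuousMap.const (Dl 4) t₀) (1 : ℤ)) = 0 := by
    rw [map_sub, bd_single, bd_single, sub_eq_zero]
    refine Finset.sum_congr rfl fun i _ => ?_
    exact congrArg (fun τ => (-1 : ℤ) ^ (i : ℕ) • Finsupp.single τ (1 : ℤ))
      (ContinuousMap.ext fun s => (h.ca3.bdy () _).2 (not_inn_face i s))
  obtain ⟨d, hd⟩ := hI T T _ _ hy 3 _ hu
  have hd' : bd 4 d = Finsupp.single e (1 : ℤ) -
      Finsupp.single (ContinuousMap.const (Dl 4) t₀) (1 : ℤ) := by
    rw [hd, map_sub, map_sub, push_single, push_single, push_single, push_single]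
    exact sub_eq_self.2 (sub_self _)
  have hc : Finsupp.single (ContinuousMap.const (Dl 4) t₀) (1 : ℤ) ∈ In ℤ {t₀} 4 :=
    single_CS (by rintro _ ⟨t, rfl⟩; rfl) _
  obtain ⟨b, d', -, hb⟩ := r4.surj d (In_univ _) (by
    rw [hd']
    exact sub_mem (single_CS (by rintro _ ⟨t, rfl⟩; exact h.ca3.mem () t) _)
      (In_mono h.ca3.sub _ hc))
  have h1 : RelB {t₀} S (k := 3) _ := RelB.of_bd hb
  rw [map_sub, map_sub, bd_bd, md_unit, map_smul, hd'] at h1
  have h2 := (h1.add (hΦ.smul (b ()))).add (RelB.of_mem hc)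
  have := inj (1 - 3 * (b () * a 0)) ((congrArg (RelB {t₀} S (k := 3)) (by module)).mp h2)
  omega

end Pool.Agent.Lib.NFB
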