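import Pool.Agent.Lib.NFB.Blue1

/-! Homotopy equivalences and the fundamental group. -/

namespace Pool.Agent.Lib.NFB

open Set Topology unitInterval ContinuousMap CategoryTheory

theorem bHEPI : St_HEPI := by
  intro X Y _ _ f hf
  obtain ⟨e, rfl⟩ := hf.equiv
  refine ⟨fun x => ?_, fun hY => ?_, fun hY => e.simplyConnectedSpace⟩
  · let E := FundamentalGroupoidFunctor.equivOfHomotopyEquiv e
    exact E.fullyFaithfulFunctor.map_bijective ⟨x⟩ ⟨x⟩
  · obtain ⟨H⟩ := e.left_inv
    have h : ∀ x, Joined (e.invFun (e.toFun x)) x := fun x => ⟨H.evalAt x⟩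
    refine ⟨⟨e.invFun hY.nonempty.some⟩, fun x y => ((h x).symm.trans ?_).trans (h y)⟩
    exact ⟨(PathConnectedSpace.somePath (e.toFun x) (e.toFun y)).map e.invFun.continuous⟩

end Pool.Agent.Lib.NFB
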