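import Pool.Agent.Lib.NFB.Blue2

/-! Sums and products of homotopy equivalences. -/

namespace Pool.Agent.Lib.NFB

open Set Topology unitInterval ContinuousMap

theorem HES.sum {A B : Type} [TopologicalSpace A] [TopologicalSpace B] {f : C(A, A)} {g : C(B, B)}
    (hf : f.Homotopic (.id A)) (hg : g.Homotopic (.id B)) : (sm f g).Homotopic (.id _) := by
  obtain ⟨F⟩ := hf
  obtain ⟨G⟩ := hg
  have hc : Continuous fun z : I × (A ⊕ B) =>
      Sum.map (fun a => F (z.1, a)) (fun b => G (z.1, b)) z.2 := by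
    rw [← (Homeomorph.prodSumDistrib.symm).comp_continuous_iff', continuous_sum_dom]
    exact ⟨continuous_inl.comp F.continuous, continuous_inr.comp G.continuous⟩
  refine homotopic_of ⟨_, hc⟩ ?_ ?_
  · rintro (a | b)
    exacts [congrArg Sum.inl (F.apply_zero a), congrArg Sum.inr (G.apply_zero b)]
  · rintro (a | b)
    exacts [congrArg Sum.inl (F.apply_one a), congrArg Sum.inr (G.apply_one b)]

theorem bHES : St_HES := by
  intro A B A' B' _ _ _ _ u v ⟨u', a1, a2⟩ ⟨v', b1, b2⟩
  refine ⟨⟨sm u' v', ?_, ?_⟩, ⟨u'.prodMap v', a1.prodMap b1, a2.prodMap b2⟩⟩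
  · rw [show (sm u' v').comp (sm u v) = sm (u'.comp u) (v'.comp v) from
      ContinuousMap.ext (by rintro (a | b) <;> rfl)]
    exact HES.sum a1 b1
  · rw [show (sm u v).comp (sm u' v') = sm (u.comp u') (v.comp v') from
      ContinuousMap.ext (by rintro (a | b) <;> rfl)]
    exact HES.sum a2 b2

end Pool.Agent.Lib.NFB
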