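import Pool.Agent.Lib.NFB.Blue2

/-! The cell structure of the fibre and of the boundary of the four-cube. -/

namespace Pool.Agent.Lib.NFB

open Set Topology unitInterval Pool.Agent.Lib.LT Pool.Agent.Lib.MP_77749b_gt

noncomputable section

namespace HGEO

theorem le2 (j : Fin 3) : ((j : ℕ) : ℝ) ≤ 2 := by
  have := j.2
  exact_mod_cast (by omega : (j : ℕ) ≤ 2)

/-- the thirds of the interval -/
def tr (j : Fin 3) (w : I) : I :=
  ⟨(w + (j : ℕ)) / 3, by
    have := w.2.1; have := w.2.2; have := le2 j; have : (0 : ℝ) ≤ (j : ℕ) := Nat.cast_nonneg _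
    constructor <;> linarith⟩

theorem tr_cont (j : Fin 3) : Continuous (tr j) :=
  Continuous.subtype_mk (by fun_prop) _

theorem tr3 (j : Fin 3) (w : I) : 3 * (tr j w : ℝ) = w + (j : ℕ) := by
  show 3 * (((w : ℝ) + (j : ℕ)) / 3) = _
  ring

theorem thirds (z : I) : ∃ j w, z = tr j w := by
  have h0 := z.2.1
  have h1 := z.2.2
  by_cases a : 3 * (z : ℝ) ≤ 1
  · exact ⟨0, ⟨3 * z, by constructor <;> linarith⟩, Subtype.ext (by simp [tr])⟩
  by_cases b : 3 * (z : ℝ) ≤ 2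
  · exact ⟨1, ⟨3 * z - 1, by constructor <;> linarith⟩, Subtype.ext (by simp [tr])⟩
  · exact ⟨2, ⟨3 * z - 2, by constructor <;> linarith⟩, Subtype.ext (by simp [tr])⟩

theorem int01 (w : I) {n : ℤ} (h : (w : ℝ) = n) : w = 0 ∨ w = 1 := by
  have h0 : (0 : ℤ) ≤ n := by exact_mod_cast h ▸ w.2.1
  have h1 : n ≤ (1 : ℤ) := by exact_mod_cast h ▸ w.2.2
  rcases (by omega : n = 0 ∨ n = 1) with rfl | rfl
  · exact .inl (Subtype.ext (by simpa using h))
  · exact .inr (Subtype.ext (by simpa using h))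

theorem dif0 {w w' : I} {n : ℤ} (h : (w : ℝ) - w' = n) (a : w ≠ 0) (b : w ≠ 1) (a' : w' ≠ 0)
    (b' : w' ≠ 1) : n = 0 := by
  have p : (0 : ℝ) < w := lt_of_le_of_ne w.2.1 fun e => a (Subtype.ext e.symm)
  have q : (w : ℝ) < 1 := lt_of_le_of_ne w.2.2 fun e => b (Subtype.ext e)
  have p' : (0 : ℝ) < w' := lt_of_le_of_ne w'.2.1 fun e => a' (Subtype.ext e.symm)
  have q' : (w' : ℝ) < 1 := lt_of_le_of_ne w'.2.2 fun e => b' (Subtype.ext e)
  have h0 : (-1 : ℤ) < n := by exact_mod_cast (by linarith : (-1 : ℝ) < n)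
  have h1 : n < (1 : ℤ) := by exact_mod_cast (by linarith : (n : ℝ) < 1)
  omega

theorem zr_tr (x : Fin 2 → I) (j : Fin 3) (w : I) :
    Zr (x, (tr j w, 0)) ↔ x ∈ Cube.boundary (Fin 2) ∨ w = 0 ∨ w = 1 := by
  have key : (∃ n : ℤ, 3 * (tr j w : ℝ) = n) ↔ w = 0 ∨ w = 1 := by
    rw [tr3]
    constructor
    · rintro ⟨n, hn⟩
      exact int01 w (n := n - (j : ℕ)) (by push_cast; linarith)
    · rintro (rfl | rfl)
      · exact ⟨(j : ℕ), by simp⟩
      · exact ⟨1 + (j : ℕ), by simp⟩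
  constructor
  · rintro (h | h | h | h | h)
    · exact .inl h
    · exact .inr (key.1 ⟨0, by rw [show tr j w = 0 from h]; simp⟩)
    · exact .inr (key.1 ⟨3, by rw [show tr j w = 1 from h]; simp⟩)
    · exact absurd h zero_ne_one
    · exact .inr (key.1 h.2)
  · rintro (h | h)
    · exact .inl h
    · exact .inr (.inr (.inr (.inr ⟨rfl, key.2 h⟩)))

/-- the boundary of the four-cube -/
abbrev EE : Type := {p : Q4 // Zr p ∨ p.2.2 = 0}

theorem bd4 (p : Q4) : (Zr p ∨ p.2.2 = 0) ↔ ¬ (p.1 ∉ Cube.boundary (Fin 2) ∧ p.2.1 ≠ 0 ∧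
    p.2.1 ≠ 1 ∧ p.2.2 ≠ 0 ∧ p.2.2 ≠ 1) := by
  unfold Zr
  tauto

variable {T : Type} [TopologicalSpace T] (D : Mo T)

theorem t_mem : D.t₀ ∈ D.S :=
  ⟨0, 0, ((D.base _).2 (.inr (.inl rfl))).symm⟩

theorem memS (p : Q4) : D.Φ p ∈ D.S ↔ Zr p ∨ p.2.2 = 0 := by
  constructor
  · rintro ⟨x, z, h⟩
    rcases (D.fib _ _).1 h with rfl | h | h
    exacts [.inr rfl, .inl h.1, .inr h.2.1]
  · rintro (h | h)
    · exact (D.base p).2 h ▸ t_mem D
    · exact ⟨p.1, p.2.1, by rw [← h]⟩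

theorem Φ_tr (x : Fin 2 → I) (j : Fin 3) (w : I) :
    D.Φ (x, (tr j w, 0)) = D.Φ (x, (tr 0 w, 0)) :=
  (D.fib _ _).2 (.inr (.inr ⟨rfl, rfl, rfl, (j : ℕ), by
    have := tr3 j w
    have := tr3 0 w
    simp only [Fin.val_zero, Nat.cast_zero, add_zero, Int.cast_natCast] at *
    linarith⟩))

/-- the value on the bottom face -/
def bt (x : Fin 2 → I) (r : ℝ) : D.S :=
  ⟨D.Φ (x, (tr 0 (projIcc 0 1 zero_le_one r), 0)), _, _, rfl⟩

theorem bt_out (x : Fin 2 → I) {r : ℝ} (h : x ∈ Cube.boundary (Fin 2) ∨ r ≤ 0 ∨ 1 ≤ r) :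
    bt D x r = ⟨D.t₀, t_mem D⟩ :=
  Subtype.ext ((D.base _).2 ((zr_tr _ _ _).2 (h.imp id
    (Or.imp (fun h => projIcc_of_le_left _ h) fun h => projIcc_of_right_le _ h))))

/-- the family of collapses -/
def cc : C(I × EE, D.S) :=
  ⟨fun q => if (q.2.1.2.2 : ℝ) ≤ 1 / 2 then bt D q.2.1.1 (3 * q.2.1.2.1 - 2 * q.1)
      else ⟨D.t₀, t_mem D⟩, by
    refine Continuous.if_le (Continuous.subtype_mk (D.Φ.continuous.comp (Continuous.prodMk
      (by fun_prop) (Continuous.prodMk ((tr_cont 0).comp (continuous_projIcc.comp (by fun_prop)))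
        continuous_const))) _) continuous_const (by fun_prop) continuous_const ?_
    rintro ⟨s, ⟨x, z, u⟩, hp⟩ (h : (u : ℝ) = 1 / 2)
    have h0 := s.2.1
    have h1 := s.2.2
    have u0 : u ≠ 0 := by rintro rfl; norm_num at h
    have u1 : u ≠ 1 := by rintro rfl; norm_num at h
    refine bt_out D x (r := 3 * z - 2 * s) ?_
    rcases hp with (g | g | g | g | g) | g
    · exact .inl g
    · exact .inr (.inl (by rw [show z = 0 from g]; simp only [Icc.coe_zero]; linarith))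
    · exact .inr (.inr (by rw [show z = 1 from g]; simp only [Icc.coe_one]; linarith))
    · exact absurd g u1
    · exact absurd g.1 u0
    · exact absurd g u0⟩

/-- the parameter of the collapse onto one third -/
def hf (j : Fin 3) : I :=
  ⟨(j : ℕ) / 2, by
    have := le2 j; have : (0 : ℝ) ≤ (j : ℕ) := Nat.cast_nonneg _
    constructor <;> linarith⟩

theorem hf2 (j : Fin 3) : 2 * (hf j : ℝ) = (j : ℕ) := by
  show 2 * (((j : ℕ) : ℝ) / 2) = _
  ring

/-- the collapse onto one third -/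
def cj (j : Fin 3) : C(EE, D.S) := (cc D).comp ⟨fun p => (hf j, p), by fun_prop⟩

theorem cj_le (j : Fin 3) (p : EE) (h : (p.1.2.2 : ℝ) ≤ 1 / 2) :
    cj D j p = bt D p.1.1 (3 * p.1.2.1 - (j : ℕ)) := by
  rw [← hf2]
  exact if_pos h

theorem cj_hom (j : Fin 3) : (cj D j).Homotopic (cj D 0) := by
  refine ⟨⟨(cc D).comp ⟨fun q => (σ q.1 * hf j, q.2), by fun_prop⟩, fun p => ?_, fun p => ?_⟩⟩
  · show cc D (σ 0 * hf j, p) = cc D (hf j, p)
    rw [symm_zero, one_mul]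
  · show cc D (σ 1 * hf j, p) = cc D (hf 0, p)
    rw [symm_one, zero_mul, show hf 0 = 0 from Subtype.ext (by simp [hf])]

theorem cj_zr (j : Fin 3) (p : EE) (h : Zr p.1) : (cj D j p : T) = D.t₀ := by
  by_cases g : (p.1.2.2 : ℝ) ≤ 1 / 2
  · rw [cj_le D j p g, bt_out]
    have : (0 : ℝ) ≤ (j : ℕ) := Nat.cast_nonneg _
    have := le2 j
    rcases h with h | h | h | h | ⟨-, n, h⟩
    · exact .inl h
    · exact .inr (.inl (by rw [h]; simp))
    · exact .inr (.inr (by rw [h]; simp only [Icc.coe_one]; linarith))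
    · rw [h] at g
      norm_num at g
    · rw [h]
      right
      rcases (by omega : n - (j : ℕ) ≤ 0 ∨ 1 ≤ n - (j : ℕ)) with k | k
      · exact .inl (by exact_mod_cast k)
      · exact .inr (by exact_mod_cast k)
  · exact congrArg Subtype.val (if_neg g)

end HGEO

open HGEO in
theorem bHGEO (hC : St_CUBE) : St_HGEO := by
  intro T _ _ D
  obtain ⟨⟨χ, hχ⟩, ω, hω⟩ := hC
  have b4 : ∀ t, (Zr (χ t) ∨ (χ t).2.2 = 0) ↔ ¬ Inn t := fun t => by rw [bd4, hχ]
  have b3 : ∀ j t, Zr ((ω t).1, (tr j (ω t).2, 0)) ↔ ¬ Inn t := fun j t => by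
    rw [zr_tr, hω]
    tauto
  let ψ : Fin 3 → Simplex EE 3 := fun j => ⟨fun t => ⟨((ω t).1, (tr j (ω t).2, 0)), .inr rfl⟩,
    Continuous.subtype_mk (Continuous.prodMk (by fun_prop) (Continuous.prodMk
      ((tr_cont j).comp (by fun_prop)) continuous_const)) _⟩
  let Φ : C(EE, T) := D.Φ.comp ⟨Subtype.val, continuous_subtype_val⟩
  have cψ : ∀ i j t, cj D j (ψ i t) = bt D (ω t).1 ((ω t).2 + (i : ℕ) - (j : ℕ)) := fun i j t => by
    rw [cj_le D j _ (show ((0 : I) : ℝ) ≤ 1 / 2 by norm_num), ← tr3]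
    rfl
  refine ⟨EE, inferInstance, inferInstance, D.Φ.comp (χ : C(Dl 5, Q4)), Φ.comp (ψ 0),
    {p | Zr p.1}, ψ, ⟨fun t => ⟨χ t, (b4 t).2 t.2⟩, by fun_prop⟩, Φ, cj D,
    ⟨?_, ?_, fun _ t => (memS D _).trans (b4 t), ?_, locallyFinite_of_finite _⟩,
    ⟨isClosed_singleton, ?_, fun _ t => (D.base _).trans (b3 0 t), ?_, locallyFinite_of_finite _⟩,
    ⟨?_, ?_, b3, ?_, locallyFinite_of_finite _⟩, fun _ => rfl, fun x hx => (D.base _).2 hx,
    fun j t => Φ_tr D _ j _, cj_hom D, fun j x hx => cj_zr D j x hx, fun j t => ?_,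
    fun i j t h => ?_⟩
  · have : D.S = range fun q : (Fin 2 → I) × I => D.Φ (q.1, (q.2, 0)) :=
      Set.ext fun y => ⟨fun ⟨x, z, h⟩ => ⟨(x, z), h.symm⟩, fun ⟨q, h⟩ => ⟨q.1, q.2, h.symm⟩⟩
    rw [this]
    exact (isCompact_range (by fun_prop)).isClosed
  · refine (eq_univ_of_forall fun y => .inr ?_).symm
    obtain ⟨p, rfl⟩ := D.surj y
    exact mem_iUnion.2 ⟨(), χ.symm p, congrArg D.Φ (χ.apply_symm_apply p)⟩
  · intro _ _ t t' ht _ h
    have k := mt (b4 t).1 (not_not.2 ht)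
    rcases (D.fib _ _).1 h with h | h | h
    · exact ⟨rfl, χ.injective h⟩
    · exact absurd (.inl h.1) k
    · exact absurd (.inr h.2.1) k
  · refine Subset.antisymm ?_ ?_
    · rintro _ ⟨x, z, rfl⟩
      obtain ⟨j, w, rfl⟩ := thirds z
      refine .inr (mem_iUnion.2 ⟨(), ω.symm (x, w), ?_⟩)
      show D.Φ ((ω (ω.symm (x, w))).1, (tr 0 (ω (ω.symm (x, w))).2, 0)) = _
      rw [ω.apply_symm_apply, Φ_tr D x j w]
    · rintro y (rfl | h)
      · exact t_mem D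
      · obtain ⟨_, t, rfl⟩ := mem_iUnion.1 h
        exact ⟨_, _, rfl⟩
  · intro _ _ t t' ht ht' h
    obtain ⟨-, a, b⟩ := (hω t).1 ht
    obtain ⟨-, a', b'⟩ := (hω t').1 ht'
    have e1 := tr3 0 (ω t).2
    have e2 := tr3 0 (ω t').2
    refine ⟨rfl, ω.injective ?_⟩
    rcases (D.fib _ _).1 h with h | h | ⟨h, -, -, n, hn⟩
    · have h2 : tr 0 (ω t).2 = tr 0 (ω t').2 := congrArg (fun p : Q4 => p.2.1) h
      rw [h2] at e1
      exact Prod.ext (congrArg (fun p : Q4 => p.1) h) (Subtype.ext (by linarith))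
    · exact absurd ht ((b3 0 t).1 h.1)
    · have hn' : 3 * ((tr 0 (ω t).2 : ℝ) - tr 0 (ω t').2) = n := hn
      have d : ((ω t).2 : ℝ) - (ω t').2 = n := by linarith
      rw [dif0 d a b a' b', Int.cast_zero] at d
      exact Prod.ext h (Subtype.ext (by linarith))
  · have : {p : EE | Zr p.1} = Φ ⁻¹' {D.t₀} := Set.ext fun p => (D.base _).symm
    rw [this]
    exact isClosed_singleton.preimage Φ.continuous
  · refine (eq_univ_of_forall ?_).symm
    rintro ⟨⟨x, z, u⟩, h | h⟩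
    · exact .inl h
    · obtain rfl : u = 0 := h
      obtain ⟨j, w, rfl⟩ := thirds z
      refine .inr (mem_iUnion.2 ⟨j, ω.symm (x, w), Subtype.ext ?_⟩)
      show ((ω (ω.symm (x, w))).1, (tr j (ω (ω.symm (x, w))).2, (0 : I))) = _
      rw [ω.apply_symm_apply]
  · intro j j' t t' ht ht' h
    obtain ⟨-, a, b⟩ := (hω t).1 ht
    obtain ⟨-, a', b'⟩ := (hω t').1 ht'
    have e1 := tr3 j (ω t).2
    have e2 := tr3 j' (ω t').2
    have h2 : tr j (ω t).2 = tr j' (ω t').2 := congrArg (fun p : EE => p.1.2.1) h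
    rw [h2] at e1
    have d : ((ω t).2 : ℝ) - (ω t').2 = (((j' : ℕ) : ℤ) - (j : ℕ) : ℤ) := by
      push_cast
      linarith
    have d0 := dif0 d a b a' b'
    rw [d0, Int.cast_zero] at d
    exact ⟨Fin.ext (by omega), ω.injective
      (Prod.ext (congrArg (fun p : EE => p.1.1) h) (Subtype.ext (by linarith)))⟩
  · rw [cψ, add_sub_cancel_right]
    show D.Φ (_, (tr 0 (projIcc 0 1 zero_le_one ((ω t).2 : ℝ)), 0)) = _
    rw [projIcc_val]
    rfl
  · rw [cψ, bt_out]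
    have h0 := (ω t).2.2.1
    have h1 := (ω t).2.2.2
    right
    rcases (by have := Fin.val_ne_of_ne h; omega : (i : ℕ) + 1 ≤ j ∨ (j : ℕ) + 1 ≤ i) with k | k
    · have : ((i : ℕ) : ℝ) + 1 ≤ (j : ℕ) := by exact_mod_cast k
      exact .inl (by linarith)
    · have : ((j : ℕ) : ℝ) + 1 ≤ (i : ℕ) := by exact_mod_cast k
      exact .inr (by linarith)

end

end Pool.Agent.Lib.NFB
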