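import Pool.Agent.Lib.NFB.Blue2
import Pool.Agent.Lib.LT.B_HINV

/-! Homotopic maps agree on homology. -/

namespace Pool.Agent.Lib.NFB

open Set unitInterval Finsupp Pool.Agent.Lib.LT Pool.Agent.Lib.LT.HINV Pool.Agent.Lib.MP_77749b_gt

theorem bHI : St_HI := by
  rintro E F _ _ f g ⟨K⟩ k z hz
  have hD : Def {p : I × E | p.1 = 1} univ fun p r => (max p.1 r, p.2) :=
    ⟨Continuous.continuousOn (by fun_prop), fun p _ => Prod.ext (max_eq_left (nonneg' (t := p.1))) rfl,
      fun p _ => max_eq_right le_one', fun _ _ _ => trivial,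
      fun p hp r => Prod.ext (max_eq_left (le_one'.trans_eq hp.symm)) rfl⟩
  let i : C(E, I × E) := ⟨fun x => (0, x), by fun_prop⟩
  have h0 : push K.toContinuousMap (k + 1) (push i (k + 1) z) = push f (k + 1) z := by
    refine lin_ext ((push K.toContinuousMap (k + 1)).comp (push i (k + 1))) _ (fun τ => ?_) z
    simp only [LinearMap.comp_apply, push_single]
    exact congrArg (single · 1) (ContinuousMap.ext fun p => K.apply_zero _)
  have h1 : push K.toContinuousMap (k + 1) (md (fun τ => rl hD τ fun j => (j, true))
      (push i (k + 1) z)) = push g (k + 1) z := by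
    refine lin_ext ((push K.toContinuousMap (k + 1)).comp
      ((md fun τ => rl hD τ fun j => (j, true)).comp (push i (k + 1)))) _ (fun τ => ?_) z
    simp only [LinearMap.comp_apply, push_single, md_single]
    refine congrArg (single · 1) (ContinuousMap.ext fun p => ?_)
    rw [ContinuousMap.comp_apply, rl_apply hD (subset_univ _),
      show HINV.ht (Prod.snd ∘ fun j : Fin (k + 1) => (j, true)) p = 1 from ht_true p,
      max_eq_right le_one']
    exact (K.apply_one _).trans (congrArg (fun q => g (τ q)) (stdSimplex.map_id_apply p))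
  refine ⟨-push K.toContinuousMap (k + 2) (PR hD (k + 1) (push i (k + 1) z)), ?_⟩
  rw [map_neg, bd_push, bd_PR hD (In_univ _), bd_push, hz, map_zero, map_zero, sub_zero, map_sub, h0, h1,
    neg_sub]

end Pool.Agent.Lib.NFB
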