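import Pool.Agent.Lib.NFB.Blue1

/-! The equivalence preserves the kernel of the winding number. -/

namespace Pool.Agent.Lib.NFB

open Set Topology Metric unitInterval Module ContinuousMap

namespace HK

variable {X Y : Type} [TopologicalSpace X] [TopologicalSpace Y]

/-- the argument of `θ` grows by `r` along `δ` -/
def Inc (θ : C(X, Circle)) {a b : X} (δ : Path a b) (r : ℝ) : Prop :=
  ∃ L : C(I, ℝ), (∀ t, ex (L t) = θ (δ t)) ∧ L 1 - L 0 = r

theorem exists_inc (θ : C(X, Circle)) {a b : X} (δ : Path a b) : ∃ r, Inc θ δ r := by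
  obtain ⟨x, hx⟩ := ex_surj (θ (δ 0))
  obtain ⟨L, h, -⟩ := ex_cov.exists_path_lifts (θ.comp δ.toContinuousMap) x hx.symm
  exact ⟨_, L, fun t => congrFun h t, rfl⟩

theorem Inc.symm {θ : C(X, Circle)} {a b : X} {δ : Path a b} {r : ℝ} (h : Inc θ δ r) :
    Inc θ δ.symm (-r) := by
  obtain ⟨L, h1, h2⟩ := h
  refine ⟨L.comp ⟨σ, continuous_symm⟩, fun t => h1 (σ t), ?_⟩
  simp only [comp_apply, coe_mk, symm_one, symm_zero]
  linarith

theorem Inc.trans {θ : C(X, Circle)} {a b c : X} {δ : Path a b} {δ' : Path b c} {r r' : ℝ}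
    (h : Inc θ δ r) (h' : Inc θ δ' r') : Inc θ (δ.trans δ') (r + r') := by
  obtain ⟨L, h1, h2⟩ := h
  obtain ⟨L', k1, k2⟩ := h'
  obtain ⟨n, hn⟩ := ex_eq_iff.1 (show ex (L 1) = ex (L' 0) by rw [h1, k1, δ.target, δ'.source])
  let A : Path (L 0) (L 1) := ⟨L, rfl, rfl⟩
  let B : Path (L 1) (L' 1 + n) := ⟨⟨fun t => L' t + n, by fun_prop⟩, hn.symm, rfl⟩
  refine ⟨(A.trans B).toContinuousMap, fun t => ?_, ?_⟩
  · show ex ((A.trans B) t) = _
    simp only [Path.trans_apply]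
    split_ifs
    · exact h1 _
    · show ex (L' _ + n) = _
      rw [ex_add, ex_int, mul_one, k1]
  · show (A.trans B) 1 - (A.trans B) 0 = _
    rw [Path.target, Path.source]
    linarith

theorem Inc.eq {θ : C(X, Circle)} {a : X} {φ} (hφ : IsWind θ a φ) {δ : Path a a} {r : ℝ}
    (h : Inc θ δ r) : r = ((φ (cls δ)).toAdd : ℤ) := by
  obtain ⟨L, h1, h2⟩ := h
  exact h2 ▸ hφ δ L h1

theorem conj {θ : C(X, Circle)} {a b : X} {φ ψ} (hφ : IsWind θ a φ) (hψ : IsWind θ b ψ)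
    (γ : Path a b) (x : FundamentalGroup X a) :
    ψ (FundamentalGroup.fundamentalGroupMulEquivOfPath γ x) = φ x := by
  obtain ⟨δ⟩ := x
  obtain ⟨r, hr⟩ := exists_inc θ γ
  obtain ⟨s, hs⟩ := exists_inc θ δ
  have e1 := (hr.symm.trans (hs.trans hr)).eq hψ
  have e2 := hs.eq hφ
  have : (ψ (cls (γ.symm.trans (δ.trans γ)))).toAdd = (φ (cls δ)).toAdd := by
    have : (((ψ (cls (γ.symm.trans (δ.trans γ)))).toAdd : ℤ) : ℝ) = ((φ (cls δ)).toAdd : ℤ) := by
      linarith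
    exact_mod_cast this
  exact Multiplicative.toAdd.injective this

theorem map {θ : C(Y, Circle)} (f : C(X, Y)) {a : X} {φ ψ} (hφ : IsWind (θ.comp f) a φ)
    (hψ : IsWind θ (f a) ψ) (x : FundamentalGroup X a) : ψ (FundamentalGroup.map f a x) = φ x := by
  obtain ⟨δ⟩ := x
  obtain ⟨s, hs⟩ := exists_inc (θ.comp f) δ
  have e1 := Inc.eq hψ (δ := δ.map f.continuous) hs
  have e2 := hs.eq hφ
  have : (ψ (cls (δ.map f.continuous))).toAdd = (φ (cls δ)).toAdd := by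
    exact_mod_cast e1.symm.trans e2
  exact Multiplicative.toAdd.injective this

theorem sq {θ : C(X, Circle)} {e : Sq θ} {φ ψ} (hφ : IsWind θ (sqp θ e) φ)
    (hψ : IsWind (om θ) e ψ) (x : FundamentalGroup (Sq θ) e) :
    (φ (FundamentalGroup.map (sqp θ) e x)).toAdd = 2 * (ψ x).toAdd := by
  obtain ⟨δ⟩ := x
  obtain ⟨s, L, h1, h2⟩ := exists_inc (om θ) δ
  have e1 := hψ δ L h1
  have e2 := hφ (δ.map (sqp θ).continuous) (L + L) fun t => by
    rw [ContinuousMap.add_apply, ex_add, h1, ← pow_two]; exact (δ t).2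
  have : (((φ (cls (δ.map (sqp θ).continuous))).toAdd : ℤ) : ℝ) = 2 * ((ψ (cls δ)).toAdd : ℤ) := by
    rw [← e1, ← e2, ContinuousMap.add_apply, ContinuousMap.add_apply]; ring
  exact_mod_cast this

end HK

theorem bHK (hWIND : St_WIND) (hWINH : St_WINH) (hHEPI : St_HEPI) (hSQW : St_SQW) : St_HK := by
  intro X _ θ e₀ φ hφ h γ hh
  obtain ⟨φ₂, h2⟩ := hWIND _ (om θ) e₀
  obtain ⟨φ₃, h3⟩ := hWIND _ (om θ) (h.toFun (sqp θ e₀))
  have k : ∀ x, φ₂ (FundamentalGroup.fundamentalGroupMulEquivOfPath γ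
      (FundamentalGroup.map h.toFun (sqp θ e₀) x)) = φ x := fun x =>
    (HK.conj h3 h2 γ _).trans (HK.map h.toFun (hWINH _ _ _ _ _ hh.symm hφ) h3 x)
  refine le_antisymm ?_ fun y hy => ?_
  · rintro _ ⟨x, hx, rfl⟩
    refine Multiplicative.toAdd.injective ((HK.sq hφ h2 _).trans ?_)
    show 2 * (φ₂ (FundamentalGroup.fundamentalGroupMulEquivOfPath γ
      (FundamentalGroup.map h.toFun (sqp θ e₀) x))).toAdd = _
    rw [k, show φ x = 1 from hx]
    rfl
  · have hy' : φ y = 1 := hy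
    obtain ⟨z, rfl⟩ : y ∈ (FundamentalGroup.map (sqp θ) e₀).range := by
      rw [(hSQW X θ e₀ φ hφ).1, Subgroup.mem_comap, hy']
      exact one_mem _
    obtain ⟨u, rfl⟩ := (FundamentalGroup.fundamentalGroupMulEquivOfPath γ).surjective z
    obtain ⟨x, rfl⟩ := ((hHEPI _ _ h.toFun ⟨h.invFun, h.left_inv, h.right_inv⟩).1 (sqp θ e₀)).2 u
    refine ⟨x, ?_, rfl⟩
    have := HK.sq hφ h2 (FundamentalGroup.fundamentalGroupMulEquivOfPath γ
      (FundamentalGroup.map h.toFun (sqp θ e₀) x))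
    rw [hy', k, toAdd_one] at this
    exact Multiplicative.toAdd.injective (show (φ x).toAdd = 0 by omega)

end Pool.Agent.Lib.NFB
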