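import Pool.Agent.Lib.NFB.Blue2

/-! Row IND: the induced bundle. -/

namespace Pool.Agent.Lib.NFB

open Set Topology unitInterval ContinuousMap

noncomputable section

namespace IND

variable {A A' : Type} [TopologicalSpace A] [TopologicalSpace A']

theorem key (ρ : Act A) (ρ' : Act A') (j : C(A, A')) (q : C(A', A)) (e : C(A', ℝ))
    (h1 : ∀ y, ρ.a y = y) (h2 : ∀ y, ρ'.a (ρ'.a (j y)) = j y) (h3 : ∀ y, ρ'.b (j y) = j (ρ.b y))
    (h4 : ∀ y, q (j y) = y) (h5 : ∀ y, q (ρ'.a (j y)) = y) (h6 : ∀ w, q (ρ'.b w) = ρ.b (q w))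
    (h7 : ∀ y, e (j y) = 0) (h8 : ∀ y, e (ρ'.a (j y)) = 1) (h9 : ∀ w, e (ρ'.b w) = e w)
    (h0 : ∀ w, ∃ y, w = j y ∨ w = ρ'.a (j y)) :
    ∃ F : C(Z ρ, Z ρ'), HE F ∧
      ∀ α β y, F (zm ρ ((α, β), y)) = zm ρ' ((2 * α, β), j y) := by
  let F : C(Z ρ, Z ρ') :=
    Z.lift ((zm ρ').comp ⟨fun z => ((2 * z.1.1, z.1.2), j z.2), by fun_prop⟩)
      (fun α β y => by
        simp only [comp_apply, coe_mk, h1]
        rw [show 2 * (α + 1) = 2 * α + 1 + 1 by ring, ← zm_a (2 * α) β (j y),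
          ← zm_a (2 * α + 1) β (ρ'.a (j y)), h2])
      fun α β y => by
        simp only [comp_apply, coe_mk, ← h3]
        rw [zm_b]
  let G : C(Z ρ', Z ρ) :=
    Z.lift ((zm ρ).comp ⟨fun z => (((z.1.1 - e z.2) / 2, z.1.2), q z.2), by fun_prop⟩)
      (fun α β w => by
        obtain ⟨y, rfl | rfl⟩ := h0 w
        · simp only [comp_apply, coe_mk, h4, h5, h7, h8, add_sub_cancel_right, sub_zero]
        · simp only [comp_apply, coe_mk, h2, h4, h5, h7, h8]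
          rw [← zm_a ((α - 1) / 2) β y, h1, show (α + 1 - 0) / 2 = (α - 1) / 2 + 1 by ring])
      fun α β w => by
        simp only [comp_apply, coe_mk, h6, h9]
        rw [zm_b]
  have hF : ∀ α β y, F (zm ρ ((α, β), y)) = zm ρ' ((2 * α, β), j y) := fun α β y => Z.lift_zm ..
  have hG : ∀ α β w, G (zm ρ' ((α, β), w)) = zm ρ (((α - e w) / 2, β), q w) :=
    fun α β w => Z.lift_zm ..
  refine ⟨F, HE.of_inv G (Z.ind fun x y => ?_) (Z.ind fun x w => ?_), hF⟩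
  · obtain ⟨α, β⟩ := x
    rw [hF, hG, h4, h7, show (2 * α - 0) / 2 = α by ring]
  · obtain ⟨α, β⟩ := x
    obtain ⟨y, rfl | rfl⟩ := h0 w
    · rw [hG, hF, h4, h7, show 2 * ((α - 0) / 2) = α by ring]
    · rw [hG, hF, h5, h8, show 2 * ((α - 1) / 2) = α - 1 by ring, ← zm_a (α - 1) β (j y),
        sub_add_cancel]

/-- the level of a sheet -/
def lev : C(Bool, ℝ) := ⟨fun ε => cond ε 1 0, continuous_of_discreteTopology⟩

end IND

theorem bIND : St_IND := by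
  intro T _ D
  obtain ⟨γ, g1, g2⟩ := IND.key (Act.triv Unit) bsw (.const _ false) (cu Bool) IND.lev
    (fun _ => rfl) (fun _ => rfl) (fun _ => rfl) (fun _ => rfl) (fun _ => rfl) (fun _ => rfl)
    (fun _ => rfl) (fun _ => rfl) (fun _ => rfl)
    (by rintro (_ | _); exacts [⟨(), .inl rfl⟩, ⟨(), .inr rfl⟩])
  obtain ⟨ζ, z1, z2⟩ := IND.key D.act D.psw ⟨fun y => (false, y), by fun_prop⟩ .snd
    (IND.lev.comp .fst)
    (fun _ => rfl) (fun _ => rfl) (fun _ => rfl) (fun _ => rfl) (fun _ => rfl) (fun _ => rfl)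
    (fun _ => rfl) (fun _ => rfl) (fun _ => rfl)
    (by rintro ⟨_ | _, y⟩; exacts [⟨y, .inl rfl⟩, ⟨y, .inr rfl⟩])
  refine ⟨γ, ζ, g1, z1, Z.ind fun x y => ?_, Z.ind fun x y => ?_⟩
  · obtain ⟨α, β⟩ := x
    exact (congrArg (zpr bsw) (g2 α β y)).trans (uDat.db_zm α β y).symm
  · obtain ⟨α, β⟩ := x
    exact (congrArg (Z.map (bsec D.t₀) D.sec_sw) (g2 α β y)).trans (z2 α β D.t₀).symm

end

end Pool.Agent.Lib.NFB
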