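import Pool.Agent.Lib.NFB.Blue1

/-! Isotopic embeddings have homotopic fold maps. -/

namespace Pool.Agent.Lib.NFB

open Set Topology Metric unitInterval

theorem bISO (hF : St_FOLD) : St_ISO := by
  intro V _ N hN hc hT F G ⟨S, K, fam, mem, h0, h1⟩ k₁ Φ₁ hk hΦ
  have : CompactSpace N := isCompact_iff_compactSpace.1 hN
  let A : Set (I × N) := {p | K (p.1, p.2) ∈ N ∨ p.1 = 1}
  have hA : IsClosed A := (hN.isClosed.preimage (f := fun p : I × N => K (p.1, p.2))
    (by fun_prop)).union (isClosed_eq continuous_fst continuous_const)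
  have hm : ∀ (s : I) (a : A), S (σ (σ s * σ a.1.1), K (a.1.1, a.1.2)) ∈ N := by
    rintro s ⟨⟨t, y⟩, h | h⟩
    · exact mem _ _ h
    · obtain rfl : t = 1 := h
      simp only [symm_one, mul_zero, symm_zero, fam.right]
      exact y.2
  obtain ⟨H, -, H1⟩ := hT (I × N) A hA (k₁.comp ContinuousMap.snd)
    (k₁.comp ⟨fun z : I × A => ⟨S (σ (σ z.1 * σ z.2.1.1), K (z.2.1.1, z.2.1.2)), hm z.1 z.2⟩,
      Continuous.subtype_mk (by fun_prop) _⟩)
    fun a => congrArg k₁ (Subtype.ext (by simp [fam.right]))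
  let k : C(I × N, N) := H.comp ⟨fun p => (1, p), by fun_prop⟩
  have kl : ∀ t (x : N) (h : S (t, x) ∈ N), k (t, ⟨S (t, x), h⟩) = x := fun t x h => by
    have e := H1 1 ⟨(t, ⟨S (t, x), h⟩), .inl (by simp [fam.left])⟩
    refine e.trans ((congrArg k₁ (Subtype.ext ?_)).trans (hk x (h1 x x.2 ▸ mem 1 x x.2)))
    simp [fam.left, h1 x x.2]
  have k1 : ∀ y, k (1, y) = k₁ y := fun y =>
    (H1 1 ⟨(1, y), .inr rfl⟩).trans (congrArg k₁ (Subtype.ext (by simp [fam.right])))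
  obtain ⟨Φ, hO⟩ := hF V N N S K hN.isClosed hc hc fam mem k kl
  refine ⟨k.comp ⟨fun y => (0, y), by fun_prop⟩, Φ.comp ⟨fun z => (0, z), by fun_prop⟩,
    fun x h => ?_, fun z => ?_, homotopic_of Φ (fun _ => rfl) fun z => ?_⟩
  · exact (congrArg (fun y => k (0, y)) (Subtype.ext (h0 x x.2).symm)).trans (kl 0 x (mem 0 x x.2))
  · rw [← image_congr h0]
    exact hO 0 z
  · refine (hO 1 z).unique (k1 _ ▸ hΦ z) ?_
    rw [image_congr h1]

end Pool.Agent.Lib.NFB
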