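import Pool.Agent.Lib.NFB.Blue2

/-! The cover of the graph of tori is a quotient covering. -/

namespace Pool.Agent.Lib.NFB

open Set Topology

theorem bKCOV (hZ : St_ZCOV) (hD : St_DMCOV) (hP : St_PCOV) : St_KCOV := by
  intro G _ _ _ a b s t h
  obtain ⟨_, z1, z2⟩ := hZ G G Unit (cu G) (gDat h).toAct (.triv Unit) ⟨fun _ => rfl, fun _ => rfl⟩
    (hP.2.2 G).1 (fun γ y => mul_assoc γ y a⁻¹) (fun γ y => mul_assoc γ y b⁻¹)
  have z3 : IsQuotientCoveringMap (zpr (gDat h).toAct) G := z2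
  have s1 := hP.1 G _ _ _ _ _ _ z3 z3
  have s2 := hP.1 G _ _ _ _ _ _ s1 s1
  have e1 : ∀ (γ : G) (z : Z (gDat h).toAct), (gDat h).sh (γ • z) = γ • (gDat h).sh z := by
    intro γ z
    induction z using Z.ind with
    | h x y =>
      obtain ⟨α, β⟩ := x
      rw [z1, Dat.sh_zm, Dat.sh_zm, z1]
      exact congrArg (fun g => zm (gDat h).toAct ((α, α + β), g)) (mul_assoc γ y s)
  have e2 : ∀ (γ : G) (z : Z (gDat h).toAct), (gDat h).db (γ • z) = γ • (gDat h).db z := by
    intro γ z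
    induction z using Z.ind with
    | h x y =>
      obtain ⟨α, β⟩ := x
      rw [z1, Dat.db_zm, Dat.db_zm, z1]
      exact congrArg (fun g => zm (gDat h).toAct ((2 * α, β), g)) (mul_assoc γ y t)
  obtain ⟨_, d1, -, -, d4⟩ := hD G _ _ _ _ _ _
    (se (se (.id (Z (gDat h).toAct)) (.id (Z (gDat h).toAct))) (se (gDat h).sh (gDat h).db))
    (se (.id (Z (gDat h).toAct ⊕ Z (gDat h).toAct)) (.id _))
    (se (se (.id (Z uDat.toAct)) (.id (Z uDat.toAct))) (se uDat.sh uDat.db))
    (se (.id (Z uDat.toAct ⊕ Z uDat.toAct)) (.id _))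
    (zpr _) (sm (sm (zpr _) (zpr _)) (sm (zpr _) (zpr _))) (sm (zpr _) (zpr _))
    (by
      rintro ((z | z) | z | z)
      · rfl
      · rfl
      · induction z using Z.ind with
        | h x y =>
          exact (uDat.sh_zm x.1 x.2 ()).trans (congrArg (zpr _) ((gDat h).sh_zm x.1 x.2 y)).symm
      · induction z using Z.ind with
        | h x y =>
          exact (uDat.db_zm x.1 x.2 ()).trans (congrArg (zpr _) ((gDat h).db_zm x.1 x.2 y)).symm)
    (by rintro ((z | z) | z | z) <;> rfl) z3 s2 s1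
    (by
      rintro γ ((z | z) | z | z)
      exacts [rfl, rfl, e1 γ z, e2 γ z])
    (by rintro γ ((z | z) | z | z) <;> rfl)
  exact ⟨_, d4, fun γ x g => (d1 γ _).trans (congrArg (kv (gDat h)) (z1 γ x g))⟩

end Pool.Agent.Lib.NFB
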