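import Pool.Agent.Lib.NFB.Blue1

/-! NFB row KER: the kernel of the winding number. -/

namespace Pool.Agent.Lib.NFB

open Set Topology unitInterval

namespace KER

theorem alg {G P : Type} [Group G] [Group P] (hG : Group.IsFinitelyPresented G) (hT : TF G)
    (Ξ : P ≃* G × Multiplicative ℤ) (φ : P →* Multiplicative ℤ) (h : ∀ x, φ x = (Ξ x).2⁻¹) :
    Function.Surjective φ ∧ Group.IsFinitelyPresented φ.ker ∧ TF P := by
  refine ⟨fun n => ⟨Ξ.symm (1, n⁻¹), by simp [h]⟩, ?_, fun x hx => ?_⟩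
  · let j : G →* φ.ker := ((Ξ.symm : G × Multiplicative ℤ →* P).comp (MonoidHom.inl _ _)).codRestrict
      φ.ker fun g => by simp [MonoidHom.mem_ker, h]
    have hj : ∀ g, (j g : P) = Ξ.symm (g, 1) := fun _ => rfl
    have hb : Function.Bijective j := by
      refine ⟨fun a b hab => ?_, fun x => ⟨(Ξ x.1).1, Subtype.ext ?_⟩⟩
      · have h1 := congrArg Subtype.val hab
        rw [hj, hj] at h1
        exact congrArg Prod.fst (Ξ.symm.injective h1)
      · have h1 : (Ξ x.1).2 = 1 := by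
          have := MonoidHom.mem_ker.1 x.2
          rwa [h, inv_eq_one] at this
        rw [hj, ← h1]
        exact Ξ.symm_apply_apply x.1
    exact Group.IsFinitelyPresented.equiv (MulEquiv.ofBijective j hb)
  · have h1 : IsOfFinOrder (Ξ x) := (Ξ : P →* G × Multiplicative ℤ).isOfFinOrder hx
    have h2 := hT _ ((MonoidHom.fst G (Multiplicative ℤ)).isOfFinOrder h1)
    obtain ⟨n, hn, h3⟩ := isOfFinOrder_iff_pow_eq_one.1
      ((MonoidHom.snd G (Multiplicative ℤ)).isOfFinOrder h1)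
    have h4 : (Ξ x).2 = 1 := by
      have h5 := congrArg Multiplicative.toAdd h3
      rw [toAdd_pow, toAdd_one, nsmul_eq_mul, mul_eq_zero] at h5
      rcases h5 with h5 | h5
      · exact absurd (by exact_mod_cast h5) hn.ne'
      · exact toAdd_eq_zero.1 h5
    exact Ξ.injective (by rw [map_one]; exact Prod.ext h2 h4)

theorem lift (hMON : St_MON) {Γ X Y : Type} [Group Γ] [TopologicalSpace X] [TopologicalSpace Y]
    [MulAction Γ Y] (p : C(Y, X)) (hp : IsQuotientCoveringMap p Γ) (hY : SimplyConnectedSpace Y)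
    (x₀ : X) : ∃ (e : Y) (μ : FundamentalGroup X x₀ →* Γᵐᵒᵖ), Function.Bijective μ ∧
      ∀ γ : Path x₀ x₀, ∃ (g : Γ) (Λ : Path e (g • e)), (∀ t, γ t = p (Λ t)) ∧
        μ (cls γ) = MulOpposite.op g := by
  obtain ⟨e, rfl⟩ := hp.surjective x₀
  obtain ⟨h1, h2, -, h4⟩ := hMON Γ X Y p hp e
  refine ⟨e, mon hp e, h4 hY, fun γ => ?_⟩
  obtain ⟨g, Λ, h⟩ := h2 γ
  exact ⟨g, Λ, h, h1 g Λ γ h⟩

end KER

theorem bKER (hMON : St_MON) : St_KER := by
  intro G X _ _ θ hG hT hP M _ q m₀ hq φ hφ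
  obtain ⟨Y, _, _, p, L, -, -, -, -, -, -, hp, hY, hL, hs, -⟩ := hP
  obtain ⟨e, μ, hμ, hl⟩ := KER.lift hMON p hp hY (q m₀)
  let Ψ := MulEquiv.ofBijective (μ.comp (FundamentalGroup.map q m₀)) (hμ.comp hq)
  refine KER.alg hG hT (Ψ.trans (MulEquiv.inv' _).symm) φ fun x => ?_
  obtain ⟨γ, rfl⟩ : ∃ γ : Path m₀ m₀, x = cls γ := by
    induction x using Quotient.inductionOn with
    | h γ => exact ⟨γ, rfl⟩
  obtain ⟨g, Λ, h1, h2⟩ := hl (γ.map q.continuous)
  have h3 : Ψ (cls γ) = MulOpposite.op g := h2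
  have h4 := hφ γ (L.comp Λ.toContinuousMap) fun t => by
    rw [ContinuousMap.comp_apply, hL]
    exact congrArg θ (h1 t).symm
  have h5 : (L.comp Λ.toContinuousMap) 1 - (L.comp Λ.toContinuousMap) 0 = (g.2.toAdd : ℤ) := by
    show L (Λ 1) - L (Λ 0) = _
    rw [Λ.source, Λ.target, hs, add_sub_cancel_left]
  have h6 : φ (cls γ) = g.2 := by
    rw [h5] at h4
    exact Multiplicative.toAdd.injective (by exact_mod_cast h4.symm)
  rw [MulEquiv.trans_apply, h3, h6]
  simp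

end Pool.Agent.Lib.NFB
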