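import Pool.Agent.Lib.NFB.Blue2

/-! Row `KREL`: loops in the graph of tori. -/

namespace Pool.Agent.Lib.NFB

open Set Topology unitInterval MulOpposite

noncomputable section

namespace KREL

section sq

variable {X : Type} [TopologicalSpace X] {x x₀ x₁ z : X}

theorem sq (e₀ : x = x₀) (e₁ : x = x₁) {p₀ : Path x₀ x₀} {p₁ : Path x₁ x₁} {v₀ : Path x₀ z}
    {v₁ : Path x₁ z} {q : Path z z} (h₀ : (p₀.trans v₀).Homotopic (v₀.trans q))
    (h₁ : (p₁.trans v₁).Homotopic (v₁.trans q)) {P₀ P₁ : Path x x} (k₀ : ∀ t, P₀ t = p₀ t)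
    (k₁ : ∀ t, P₁ t = p₁ t) : op (cls P₀) * op (cls ((v₀.trans v₁.symm).cast e₀ e₁)) =
      op (cls ((v₀.trans v₁.symm).cast e₀ e₁)) * op (cls P₁) := by
  subst e₀ e₁
  obtain rfl : P₀ = p₀ := Path.ext (funext k₀)
  obtain rfl : P₁ = p₁ := Path.ext (funext k₁)
  refine congrArg op (Path.Homotopic.Quotient.eq.2 ?_)
  show (P₀.trans (v₀.trans v₁.symm)).Homotopic ((v₀.trans v₁.symm).trans P₁)
  have a : (q.trans v₁.symm).Homotopic (v₁.symm.trans P₁) :=
    ((((Path.Homotopic.refl_trans _).symm.trans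
      ((Path.Homotopic.symm_trans v₁).symm.hcomp (.refl _))).trans (.trans_assoc _ _ _)).trans
      ((Path.Homotopic.refl _).hcomp (((Path.Homotopic.trans_assoc _ _ _).symm.trans
        (h₁.symm.hcomp (.refl _))).trans ((Path.Homotopic.trans_assoc _ _ _).trans
          (((Path.Homotopic.refl _).hcomp (.trans_symm v₁)).trans (.trans_refl _))))))
  exact (((Path.Homotopic.trans_assoc _ _ _).symm.trans (h₀.hcomp (.refl _))).trans
    (.trans_assoc _ _ _)).trans (((Path.Homotopic.refl _).hcomp a).trans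
      (Path.Homotopic.trans_assoc _ _ _).symm)

theorem tr {Y : Type} [TopologicalSpace Y] {y y₀ y₁ : Y} (F : Y → X) {a : Path x x₀}
    {b : Path x₀ x₁} {a' : Path y y₀} {b' : Path y₀ y₁} (h : ∀ t, a t = F (a' t))
    (k : ∀ t, b t = F (b' t)) (t : I) : a.trans b t = F (a'.trans b' t) := by
  simp only [Path.trans_apply]
  split_ifs
  exacts [h _, k _]

end sq

theorem nat (hV : St_VNAT) {Y Y' : Type} [TopologicalSpace Y] [TopologicalSpace Y']
    (f₀ f₁ : C(Y', Y)) {y : Y} {e : Y'} (h₀ : f₀ e = y) (h₁ : f₁ e = y) (κ : Path e e)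
    {P₀ P₁ : Path (inA _ _ y : Q f₀ f₁) (inA _ _ y)} (k₀ : ∀ t, P₀ t = inA _ _ (f₀ (κ t)))
    (k₁ : ∀ t, P₁ t = inA _ _ (f₁ (κ t))) :
    op (cls P₀) * op (cls (stab f₀ f₁ h₀ h₁)) = op (cls (stab f₀ f₁ h₀ h₁)) * op (cls P₁) :=
  sq _ _ (hV _ _ _ (se f₀ f₁) (se (.id _) (.id _)) _ _ (κ.map continuous_inl))
    (hV _ _ _ (se f₀ f₁) (se (.id _) (.id _)) _ _ (κ.map continuous_inr)) k₀ k₁

theorem fx : Fix uDat.toAct () := ⟨rfl, rfl⟩

/-- the straight loops -/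
def L (m n : ℤ) : Path (kv uDat (zm _ (0, ()))) (kv uDat (zm _ (0, ()))) :=
  (zl fx m n).map (kv uDat).continuous

variable {Λ : Type} [TopologicalSpace Λ] (d : Dat Λ) (y : Λ)

theorem sh0 : d.sh (zm _ (0, y)) = zm _ (0, d.s y) :=
  (d.sh_zm 0 0 y).trans (by rw [add_zero, Prod.mk_zero_zero])

theorem db0 : d.db (zm _ (0, y)) = zm _ (0, d.t y) :=
  (d.db_zm 0 0 y).trans (by rw [mul_zero, Prod.mk_zero_zero])

/-- the first stable loop -/
def S : Path (kv uDat (zm _ (0, ()))) (kv uDat (zm _ (0, ()))) :=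
  stab (se (.id _) (.id _)) (se uDat.sh uDat.db) (e := .inl (zm _ (0, ()))) rfl (sh0 uDat ())

/-- the second stable loop -/
def T : Path (kv uDat (zm _ (0, ()))) (kv uDat (zm _ (0, ()))) :=
  stab (se (.id _) (.id _)) (se uDat.sh uDat.db) (e := .inr (zm _ (0, ()))) rfl (db0 uDat ())

theorem add (hZ : St_ZPI) (m n m' n' : ℤ) :
    op (cls (L (m + m') (n + n'))) = op (cls (L m n)) * op (cls (L m' n')) := by
  refine congrArg op (Path.Homotopic.Quotient.eq.2 ?_)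
  have := ((hZ _ _ _ fx).1 m n m' n').map (kv uDat)
  rwa [Path.map_trans] at this

theorem relS (hV : St_VNAT) (m n : ℤ) :
    op (cls (L m n)) * op (cls S) = op (cls S) * op (cls (L m (m + n))) :=
  nat hV _ _ _ _ ((zl fx m n).map continuous_inl) (fun _ => rfl) fun t =>
    congrArg (kv uDat) (Eq.trans (by
      show zm _ (((t : ℝ) * m, (t : ℝ) * (m + n : ℤ)), ()) = _
      rw [Int.cast_add, mul_add]) (uDat.sh_zm _ _ ()).symm)

theorem relT (hV : St_VNAT) (m n : ℤ) :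
    op (cls (L m n)) * op (cls T) = op (cls T) * op (cls (L (m + m) n)) :=
  nat hV _ _ _ _ ((zl fx m n).map continuous_inr) (fun _ => rfl) fun t =>
    congrArg (kv uDat) (Eq.trans (by
      show zm _ (((t : ℝ) * (m + m : ℤ), (t : ℝ) * n), ()) = _
      rw [Int.cast_add, mul_add, ← two_mul]) (uDat.db_zm _ _ ()).symm)

theorem lift (m n : ℤ) (y' : Λ) (h : zm d.toAct (((m : ℝ), (n : ℝ)), y') = zm _ (0, y)) :
    ∃ P : Path (kv d (zm _ (0, y'))) (kv d (zm _ (0, y))), ∀ u, L m n u = kpr d (P u) :=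
  ⟨⟨⟨fun u => kv d (zm _ (((u : ℝ) * m, (u : ℝ) * n), y')), by fun_prop⟩,
    by simp [Prod.mk_zero_zero], by simp [h]⟩, fun _ => rfl⟩

/-- the path through the edge space -/
def W (e : Z d.toAct ⊕ Z d.toAct) :
    Path (kv d (se (.id _) (.id _) e)) (kv d (se d.sh d.db e)) :=
  (vert (se (se (.id _) (.id _)) (se d.sh d.db)) (se (.id _) (.id _)) (.inl e)).trans
    (vert (se (se (.id _) (.id _)) (se d.sh d.db)) (se (.id _) (.id _)) (.inr e)).symm

theorem hW (e : Z d.toAct ⊕ Z d.toAct) (u : I) :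
    W uDat (sm (zpr _) (zpr _) e) u = kpr d (W d e u) :=
  tr (kpr d) (fun _ => rfl) (fun _ => rfl) u

end KREL

open KREL in
/-- Row `KREL`. -/
theorem bKREL (hV : St_VNAT) (h1 : St_GEN1) (h2 : St_GEN2) (hZ : St_ZPI) : St_KREL := by
  obtain ⟨z1, z2⟩ := (hZ _ _ _ fx).2 inferInstance
  refine ⟨(h1 _ _ _ _ _).1 fun b => ⟨.inl b, .refl _⟩, L 1 0, L 0 1, S, T,
    ⟨(add hZ 1 0 0 1).symm.trans (add hZ 0 1 1 0), (relS hV 0 1).symm, (relT hV 0 1).symm,
      (relT hV 1 0).trans ?_, (relS hV 1 0).trans ?_⟩, fun R hA hB hS hT => ?_, fun Λ _ d y =>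
    ⟨lift d y 1 0 _ ?_, lift d y 0 1 _ ?_, ?_, ?_⟩⟩
  · rw [mul_assoc, ← add hZ, add_zero]
  · rw [mul_assoc, ← add hZ, zero_add]
    rfl
  · let φ : Multiplicative (ℤ × ℤ) →* _ :=
      MonoidHom.mk' (fun p => op (cls (L p.toAdd.1 p.toAdd.2))) fun p q => add hZ _ _ _ _
    have k : ∀ m n, cls (L m n) ∈ R := fun m n => by
      have e : φ (.ofAdd (m, n)) = φ (.ofAdd (1, 0)) ^ m * φ (.ofAdd (0, 1)) ^ n := by
        rw [← map_zpow φ, ← map_zpow φ, ← map_mul φ, ← ofAdd_zsmul, ← ofAdd_zsmul, ← ofAdd_add]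
        simp
      have : φ (.ofAdd (m, n)) ∈ R.op := e ▸ mul_mem (zpow_mem hA m) (zpow_mem hB n)
      exact this
    refine h2 _ _ _ _ _ {.inl (zm _ (0, ())), .inr (zm _ (0, ()))} (by rintro _ (rfl | rfl) <;> rfl)
      (by rintro _ (rfl | rfl); exacts [sh0 uDat (), db0 uDat ()]) R ?_ (fun δ => ?_) ?_
    · rintro (w | w)
      · exact ⟨_, .inl rfl, ⟨(PathConnectedSpace.somePath _ w).map continuous_inl⟩⟩
      · exact ⟨_, .inr rfl, ⟨(PathConnectedSpace.somePath _ w).map continuous_inr⟩⟩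
    · obtain ⟨m, n, h⟩ := z2 δ
      have e : cls (δ.map (kv uDat).continuous) = cls (L m n) :=
        Path.Homotopic.Quotient.eq.2 (h.map (kv uDat))
      exact e ▸ k m n
    · rintro _ (rfl | rfl)
      exacts [hS, hT]
  · simpa [Prod.mk_zero_zero] using zm_a (ρ := d.toAct) 0 0 y
  · simpa [Prod.mk_zero_zero] using zm_b (ρ := d.toAct) 0 0 y
  · exact ⟨(W d (.inl (zm _ (0, y)))).cast rfl (congrArg (kv d) (sh0 d y).symm),
      hW d (.inl (zm _ (0, y)))⟩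
  · exact ⟨(W d (.inr (zm _ (0, y)))).cast rfl (congrArg (kv d) (db0 d y).symm),
      hW d (.inr (zm _ (0, y)))⟩

end

end Pool.Agent.Lib.NFB
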