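import Pool.Agent.Lib.NFB.Blue2

/-! Row KSC: the cover of the graph of tori is simply connected. -/

namespace Pool.Agent.Lib.NFB

open MulOpposite

namespace KSC

theorem bij {G P : Type} [Group G] [Group P] {a b s t : G} (h : MP_dab48e_gt.Univ a b s t)
    {A B S T : P} (hP : MP_dab48e_gt.Pres (op A) (op B) (op S) (op T))
    (hg : ∀ R : Subgroup P, A ∈ R → B ∈ R → S ∈ R → T ∈ R → R = ⊤) (μ : P →* Gᵐᵒᵖ)
    (ha : μ A = op a) (hb : μ B = op b) (hs : μ S = op s) (ht : μ T = op t) :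
    Function.Bijective μ := by
  obtain ⟨ν, n1, n2, n3, n4⟩ := h.lift hP
  have key : ∀ g, μ (unop (ν g)) = op g := by
    let K : Subgroup G :=
      { carrier := {g | μ (unop (ν g)) = op g}
        one_mem' := by simp
        mul_mem' := fun {x y} hx hy => by
          have hx' : μ (unop (ν x)) = op x := hx
          have hy' : μ (unop (ν y)) = op y := hy
          show μ (unop (ν (x * y))) = op (x * y)
          rw [map_mul, unop_mul, map_mul, hx', hy', op_mul]
        inv_mem' := fun {x} hx => by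
          have hx' : μ (unop (ν x)) = op x := hx
          show μ (unop (ν x⁻¹)) = op x⁻¹
          rw [map_inv, unop_inv, map_inv, hx', op_inv] }
    refine h.gen K ?_ ?_ ?_ ?_
    · show μ (unop (ν a)) = op a
      rw [n1, unop_op, ha]
    · show μ (unop (ν b)) = op b
      rw [n2, unop_op, hb]
    · show μ (unop (ν s)) = op s
      rw [n3, unop_op, hs]
    · show μ (unop (ν t)) = op t
      rw [n4, unop_op, ht]
  have top : ν.range.unop = ⊤ :=
    hg _ ⟨a, n1⟩ ⟨b, n2⟩ ⟨s, n3⟩ ⟨t, n4⟩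
  have onto : ∀ x : P, ∃ g, unop (ν g) = x := fun x => by
    have hx : x ∈ ν.range.unop := top ▸ Subgroup.mem_top x
    obtain ⟨g, e⟩ := (Subgroup.mem_unop.1 hx : op x ∈ ν.range)
    exact ⟨g, congrArg unop e⟩
  refine ⟨fun x y e => ?_, fun g => ⟨_, key (unop g)⟩⟩
  obtain ⟨g, rfl⟩ := onto x
  obtain ⟨g', rfl⟩ := onto y
  rw [key, key] at e
  rw [op_injective e]

end KSC

theorem bKSC (hR : St_KREL) (hM : St_MON) : St_KSC := by
  intro G _ _ _ a b s t h _ hK
  obtain ⟨pc, A, B, S, T, hP, hg, hL⟩ := hR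
  obtain ⟨m1, -, m3, -⟩ := hM G _ _ (kpr (gDat h.rel)) hK.1 (kv (gDat h.rel) (zm _ (0, 1)))
  have lift : ∀ (g y y' : G) (γ : Path (kv uDat (zm _ (0, ()))) (kv uDat (zm _ (0, ())))),
      y = 1 → y' = g →
      (∃ L : Path (kv (gDat h.rel) (zm _ (0, y))) (kv (gDat h.rel) (zm _ (0, y'))),
        ∀ u, γ u = kpr _ (L u)) →
      mon hK.1 (kv (gDat h.rel) (zm _ (0, 1))) (cls γ) = op g := by
    rintro g y y' γ rfl rfl ⟨L, hl⟩
    exact m1 y' (L.cast rfl ((hK.2 y' 0 1).trans (by rw [mul_one]))) γ hl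
  refine m3 pc (KSC.bij h hP hg _ ?_ ?_ ?_ ?_)
  · exact lift a _ _ A (mul_inv_cancel a) rfl (hL G (gDat h.rel) a).1
  · exact lift b _ _ B (mul_inv_cancel b) rfl (hL G (gDat h.rel) b).2.1
  · exact lift s _ _ S rfl (one_mul s) (hL G (gDat h.rel) 1).2.2.1
  · exact lift t _ _ T rfl (one_mul t) (hL G (gDat h.rel) 1).2.2.2

end Pool.Agent.Lib.NFB
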