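import Pool.Agent.Lib.NFB.Blue1

/-! Row `LEFT`: a left inverse up to homotopy of an embedding is homotopic to a left inverse. -/

namespace Pool.Agent.Lib.NFB

open Set Topology Metric unitInterval

theorem bLEFT : St_LEFT := by
  intro N N' _ _ _ _ _ hT j c hj ⟨F⟩
  have he : IsClosedEmbedding j := j.continuous.isClosedEmbedding hj
  let e : N ≃ₜ range j := he.isEmbedding.toHomeomorph
  have e1 : ∀ x, (e x : N') = j x := fun _ => rfl
  obtain ⟨H, h0, h1⟩ := hT N' (range j) he.isClosed_range c
    ⟨fun z => F (z.1, e.symm z.2), by fun_prop⟩ fun a => by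
      refine (F.apply_zero _).trans ?_
      rw [ContinuousMap.comp_apply, ← e1, e.apply_symm_apply]
  refine ⟨⟨fun y => H (1, y), by fun_prop⟩, fun x => ?_, (homotopic_of H h0 fun _ => rfl).symm⟩
  refine (h1 1 (e x)).trans ((F.apply_one _).trans ?_)
  exact e.symm_apply_apply x

end Pool.Agent.Lib.NFB
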