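import Pool.Agent.Lib.NFB.Blue1

/-! Block LEV: level sets with a monotone direction are manifolds. -/

namespace Pool.Agent.Lib.NFB

open Set Topology Metric Module

namespace LEV

theorem split {E : Type} [NormedAddCommGroup E] [NormedSpace ℝ E] [FiniteDimensional ℝ E] {n : ℕ}
    (hn : finrank ℝ E = n + 1) {e : E} (he : e ≠ 0) :
    ∃ (φ : E →L[ℝ] ℝ) (π : E →L[ℝ] EuclideanSpace ℝ (Fin n))
      (σ : EuclideanSpace ℝ (Fin n) →L[ℝ] E), φ e = 1 ∧ π e = 0 ∧ (∀ v, φ (σ v) = 0) ∧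
      (∀ v, π (σ v) = v) ∧ ∀ q, σ (π q) + φ q • e = q := by
  obtain ⟨φ, hφ⟩ := SeparatingDual.exists_eq_one (R := ℝ) he
  have hs : LinearMap.range (φ : E →ₗ[ℝ] ℝ) = ⊤ :=
    LinearMap.range_eq_top.2 fun c => ⟨c • e, by simp [hφ]⟩
  have hk := LinearMap.finrank_range_add_finrank_ker (φ : E →ₗ[ℝ] ℝ)
  rw [hs, finrank_top, finrank_self, hn] at hk
  let A : LinearMap.ker (φ : E →ₗ[ℝ] ℝ) ≃ₗ[ℝ] EuclideanSpace ℝ (Fin n) :=
    LinearEquiv.ofFinrankEq _ _ (by rw [finrank_euclideanSpace_fin]; omega)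
  let P : E →ₗ[ℝ] LinearMap.ker (φ : E →ₗ[ℝ] ℝ) :=
    LinearMap.codRestrict _ (LinearMap.id - (φ : E →ₗ[ℝ] ℝ).smulRight e) fun q => by simp [hφ]
  have hP : ∀ q, (P q : E) = q - φ q • e := fun q => rfl
  refine ⟨φ, LinearMap.toContinuousLinearMap (A.toLinearMap.comp P),
    LinearMap.toContinuousLinearMap ((Submodule.subtype _).comp A.symm.toLinearMap), hφ, ?_,
    fun v => (A.symm v).2, fun v => ?_, fun q => ?_⟩
  · have : P e = 0 := Subtype.ext (by simp [hP, hφ])
    simp [this]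
  · have h0 : φ (A.symm v : E) = 0 := (A.symm v).2
    have : P (A.symm v) = A.symm v := Subtype.ext (by simp [hP, h0])
    simp [this]
  · simp [hP]

end LEV

theorem bLEV (hR : St_ROOT) : St_LEV := by
  intro E _ _ _ F n hF hn h
  have key : ∀ p : {p // F p = 0}, ∃ c : OpenPartialHomeomorph {p // F p = 0}
      (EuclideanSpace ℝ (Fin n)), p ∈ c.source := by
    classical
    intro p
    obtain ⟨e, r, hr, hm⟩ := h p p.2
    have l : -r ∈ Icc (-r) r := ⟨le_rfl, by linarith⟩
    have z : (0 : ℝ) ∈ Icc (-r) r := ⟨by linarith, hr.le⟩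
    have u : r ∈ Icc (-r) r := ⟨by linarith, le_rfl⟩
    have m0 := hm p (by simpa using hr)
    have a1 := m0 l z (by linarith)
    have a2 := m0 z u hr
    simp only [zero_smul, add_zero, p.2] at a1 a2
    have he : e ≠ 0 := by
      rintro rfl
      simp [p.2] at a2
    obtain ⟨φ, π, σ, h1, h2, h3, h4, h5⟩ := LEV.split hn he
    let U : Set (EuclideanSpace ℝ (Fin n)) := {v | ‖σ v‖ < r ∧ 0 < F (p + σ v + (-r) • e) ∧
      F (p + σ v + r • e) < 0}
    have hU : IsOpen U := by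
      refine IsOpen.and ?_ (IsOpen.and ?_ ?_) <;> exact isOpen_lt (by fun_prop) (by fun_prop)
    have mv : ∀ v ∈ U, StrictAntiOn (fun t : ℝ => F (p + σ v + t • e)) (Icc (-r) r) :=
      fun v hv => hm _ (by simpa using hv.1)
    obtain ⟨τ, hτ⟩ := hR U (fun z => F (p + σ z.1 + z.2 • e)) (-r) r (by linarith) (by fun_prop)
      (fun v => mv v v.2) fun v => ⟨v.2.2.1.le, v.2.2.2.le⟩
    let g : U → {p // F p = 0} := fun v => ⟨p + σ v + τ v • e, (hτ v).2⟩
    have hg : Continuous g := Continuous.subtype_mk (by fun_prop) _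
    have gπ : ∀ v, π (g v - p) = v := fun v => by
      simp [g, add_assoc, h2, h4]
    have gφ : ∀ v, φ (g v - p) = τ v := fun v => by
      simp [g, add_assoc, h1, h3]
    refine ⟨{
      toFun := fun q => π (q - p)
      invFun := fun v => if hv : v ∈ U then g ⟨v, hv⟩ else p
      source := {q | π (q - p) ∈ U ∧ φ (q - p) ∈ Ioo (-r) r}
      target := U
      map_source' := fun q hq => hq.1
      map_target' := fun v hv => ?_
      left_inv' := fun q hq => ?_
      right_inv' := fun v hv => ?_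
      open_source := (hU.preimage (by fun_prop)).inter (isOpen_Ioo.preimage (by fun_prop))
      open_target := hU
      continuousOn_toFun := by fun_prop
      continuousOn_invFun := ?_ }, ?_⟩
    · rw [dif_pos hv, mem_ofPred_eq, gπ, gφ]
      obtain ⟨⟨b1, b2⟩, b3⟩ := hτ ⟨v, hv⟩
      refine ⟨hv, lt_of_le_of_ne b1 fun e1 => ?_, lt_of_le_of_ne b2 fun e1 => ?_⟩
      · rw [← e1] at b3
        exact hv.2.1.ne' b3
      · rw [e1] at b3
        exact hv.2.2.ne b3
    · rw [dif_pos hq.1]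
      have e1 : (p : E) + σ (π (q - p)) + φ (q - p) • e = q := by
        rw [add_assoc, h5, add_sub_cancel]
      have e2 : τ ⟨_, hq.1⟩ = φ (q - p) :=
        (mv _ hq.1).injOn (hτ _).1 (Ioo_subset_Icc_self hq.2)
          ((hτ ⟨_, hq.1⟩).2.trans (by simp only [e1, q.2]))
      exact Subtype.ext (by simp only [g, e2, e1])
    · rw [dif_pos hv, gπ]
    · rw [continuousOn_iff_continuous_domRestrict]
      refine hg.congr fun v => ?_
      change g v = if hv : v.1 ∈ U then g ⟨v.1, hv⟩ else p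
      rw [dif_pos v.2]
    · have h0 : (0 : EuclideanSpace ℝ (Fin n)) ∈ U := by
        simpa [U] using ⟨hr, by simpa using a1, a2⟩
      simpa using ⟨h0, hr⟩
  choose c hc using key
  exact ⟨⟨range c, c, hc, fun p => ⟨p, rfl⟩⟩⟩

end Pool.Agent.Lib.NFB
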