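import Pool.Agent.Lib.NFB.Blue1

/-! Row LIN: the linear step. -/

namespace Pool.Agent.Lib.NFB

open Set Topology Metric unitInterval Module

namespace LIN

variable {V : Type} [NormedAddCommGroup V] [NormedSpace ℝ V]

/-- the cyclic linear map -/
def fw (s τ a m : ℝ) (z : V × V × V) : V × V × V :=
  (z.1 + τ • z.2.2, a • z.1 + s • z.2.1, m • z.2.1 + s • z.2.2)

/-- its adjugate -/
def bw (s τ a m : ℝ) (z : V × V × V) : V × V × V :=
  ((s * s) • z.1 + (τ * m) • z.2.1 - (τ * s) • z.2.2,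
    s • z.2.1 + (a * τ) • z.2.2 - (a * s) • z.1, (a * m) • z.1 + s • z.2.2 - m • z.2.1)

lemma bw_fw (s τ a m : ℝ) (z : V × V × V) :
    bw s τ a m (fw s τ a m z) = (s * s + τ * a * m) • z := by
  refine Prod.ext ?_ (Prod.ext ?_ ?_) <;> simp only [bw, fw, Prod.smul_fst, Prod.smul_snd] <;> module

lemma fw_bw (s τ a m c : ℝ) (z : V × V × V) :
    fw s τ a m (c • bw s τ a m z) = (c * (s * s + τ * a * m)) • z := by
  refine Prod.ext ?_ (Prod.ext ?_ ?_) <;> simp only [bw, fw, Prod.smul_fst, Prod.smul_snd] <;> module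

end LIN

open LIN in
theorem bLIN : St_LIN := by
  intro V _ _ W S K l d d' hF hl hd hd' h1 _ hW h3
  have hΔ : ∀ t : I, (1 - (t : ℝ)) / 4 * ((1 - t) / 4) + t * d' * (t * l) * (t * (l * d)) ≠ 0 := by
    intro t
    rcases t.2.1.eq_or_lt with h | h
    · rw [← h]; norm_num
    · have := mul_self_nonneg ((1 - (t : ℝ)) / 4)
      have : 0 < (t : ℝ) * d' * (t * l) * (t * (l * d)) := by positivity
      linarith
  have c1 : Continuous fun z : I × V × V × V =>
      fw ((1 - (z.1 : ℝ)) / 4) (z.1 * d') (z.1 * l) (z.1 * (l * d)) (S (1, z.2.1), z.2.2) := by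
    unfold fw
    fun_prop
  have c2 : Continuous fun z : I × V × V × V =>
      ((1 - (z.1 : ℝ)) / 4 * ((1 - z.1) / 4) + z.1 * d' * (z.1 * l) * (z.1 * (l * d)))⁻¹ •
        bw ((1 - (z.1 : ℝ)) / 4) (z.1 * d') (z.1 * l) (z.1 * (l * d)) z.2 := by
    have c3 : Continuous fun z : I × V × V × V =>
        (1 - (z.1 : ℝ)) / 4 * ((1 - z.1) / 4) + z.1 * d' * (z.1 * l) * (z.1 * (l * d)) := by
      fun_prop
    have c4 : Continuous fun z : I × V × V × V =>
        bw ((1 - (z.1 : ℝ)) / 4) (z.1 * d') (z.1 * l) (z.1 * (l * d)) z.2 := by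
      unfold bw
      fun_prop
    exact (c3.inv₀ fun z => hΔ z.1).smul c4
  refine ⟨⟨_, c1⟩, ⟨_, (K.continuous.comp (continuous_const (y := (1 : I)) |>.prodMk
    c2.fst)).prodMk c2.snd⟩, ⟨fun t x => ?_, fun t y => ?_⟩, fun t x hx => ?_, fun x _ => ?_,
    fun x _ => ?_⟩
  · simp only [ContinuousMap.coe_mk, Function.comp, bw_fw, smul_smul, inv_mul_cancel₀ (hΔ t),
      one_smul, hF.left]
  · simp only [ContinuousMap.coe_mk, Function.comp, hF.right, Prod.mk.eta, fw_bw,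
      inv_mul_cancel₀ (hΔ t), one_smul]
  · obtain ⟨t0, t1⟩ := t.2
    have h4 : ‖x.2‖ ≤ 1 := mem_closedBall_zero_iff.1 hx.2
    have h5 : ‖x.2.1‖ ≤ 1 := (norm_fst_le _).trans h4
    have h6 : ‖x.2.2‖ ≤ 1 := (norm_snd_le _).trans h4
    have h7 := h3 _ (hW _ hx.1 (mem_closedBall_self hd'.le))
    have s0 : 0 ≤ (1 - (t : ℝ)) / 4 := by linarith
    refine ⟨hW _ hx.1 ?_, mem_closedBall_zero_iff.2 (norm_prod_le_iff.2 ⟨?_, ?_⟩)⟩
    · simp only [ContinuousMap.coe_mk, fw, mem_closedBall, dist_self_add_left, norm_smul,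
        Real.norm_of_nonneg (mul_nonneg t0 hd'.le)]
      nlinarith [mul_le_mul t1 h6 (norm_nonneg _) zero_le_one]
    · simp only [ContinuousMap.coe_mk, fw]
      refine (norm_add_le _ _).trans ?_
      rw [norm_smul, norm_smul, Real.norm_of_nonneg (mul_nonneg t0 hl.le), Real.norm_of_nonneg s0]
      nlinarith
    · simp only [ContinuousMap.coe_mk, fw]
      refine (norm_add_le _ _).trans ?_
      rw [norm_smul, norm_smul, Real.norm_of_nonneg (mul_nonneg t0 (mul_pos hl hd).le),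
        Real.norm_of_nonneg s0]
      nlinarith [mul_le_mul h1 h5 (norm_nonneg _) (by norm_num)]
  · simp [fw, Prod.ext_iff]
  · simp [fw]

end Pool.Agent.Lib.NFB
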