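import Pool.Agent.Lib.NFB.Blue1

/-! Approximation by locally Lipschitz maps. -/

namespace Pool.Agent.Lib.NFB

theorem bLIP : St_LIP := by
  intro V V' _ _ _ _ _ _ C hC F ε hε
  have : TietzeExtension.{0} V' := TietzeExtension.of_tvs ℝ
  obtain ⟨g, hg⟩ := F.exists_restrict_eq hC.isClosed
  obtain ⟨f, f1, f2, -⟩ := g.continuous.exists_contDiff_approx 1 (ε := fun _ => ε)
    continuous_const fun _ => hε
  refine ⟨f, ContDiff.locallyLipschitz (𝕂 := ℝ) f1, fun x => ?_⟩
  rw [← hg, ← dist_eq_norm]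
  exact f2 x

end Pool.Agent.Lib.NFB
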