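import Pool.Agent.Lib.NFB.Blue1

/-! Bodies shrink along an inward field. -/

namespace Pool.Agent.Lib.NFB

open Set Topology Metric unitInterval

namespace SHR

variable {V : Type} [NormedAddCommGroup V] [NormedSpace ℝ V]

theorem half {u : V → V} (hu : LipschitzWith (1 / 2) u) (t : I) (x y : V) :
    ‖(t : ℝ) • u x - (t : ℝ) • u y‖ ≤ ‖x - y‖ / 2 := by
  have h := hu.dist_le_mul x y
  rw [dist_eq_norm, dist_eq_norm] at h
  have h2 : ((1 / 2 : NNReal) : ℝ) = 1 / 2 := by norm_num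
  rw [h2] at h
  rw [← smul_sub, norm_smul, Real.norm_eq_abs, abs_of_nonneg t.2.1]
  have := mul_le_mul t.2.2 h (norm_nonneg _) zero_le_one
  linarith

theorem fix [CompleteSpace V] {u : V → V} (hu : LipschitzWith (1 / 2) u) (t : I) (y : V) :
    ∃ x, x + (t : ℝ) • u x = y := by
  have hc : ContractingWith (1 / 2) (fun x => y - (t : ℝ) • u x) := by
    refine ⟨by norm_num, LipschitzWith.of_dist_le_mul fun a b => ?_⟩
    have h2 : ((1 / 2 : NNReal) : ℝ) = 1 / 2 := by norm_num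
    rw [h2, dist_eq_norm, dist_eq_norm]
    have e : y - (t : ℝ) • u a - (y - (t : ℝ) • u b) = (t : ℝ) • u b - (t : ℝ) • u a := by abel
    rw [e]
    have := half hu t b a
    rw [norm_sub_rev b a] at this
    linarith
  refine ⟨hc.fixedPoint _, ?_⟩
  have h := hc.fixedPoint_isFixedPt
  have h' : y - (t : ℝ) • u (hc.fixedPoint _) = hc.fixedPoint _ := h
  exact (eq_sub_iff_add_eq.1 h'.symm)

theorem est {u : V → V} (hu : LipschitzWith (1 / 2) u) {η : ℝ} (hb : ∀ x, ‖u x‖ ≤ η) (s t : I)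
    (a b : V) :
    ‖a - b‖ ≤ 2 * (‖(a + (s : ℝ) • u a) - (b + (t : ℝ) • u b)‖ + |(s : ℝ) - t| * η) := by
  have e : a - b = ((a + (s : ℝ) • u a) - (b + (t : ℝ) • u b)) -
      ((s : ℝ) • u a - (s : ℝ) • u b) - ((s : ℝ) - t) • u b := by
    rw [sub_smul]; abel
  have h1 := half hu s a b
  have h2 : ‖((s : ℝ) - t) • u b‖ ≤ |(s : ℝ) - t| * η := by
    rw [norm_smul, Real.norm_eq_abs]
    exact mul_le_mul_of_nonneg_left (hb b) (abs_nonneg _)
  have h3 := norm_sub_le (((a + (s : ℝ) • u a) - (b + (t : ℝ) • u b)) -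
      ((s : ℝ) • u a - (s : ℝ) • u b)) (((s : ℝ) - t) • u b)
  have h4 := norm_sub_le ((a + (s : ℝ) • u a) - (b + (t : ℝ) • u b))
      ((s : ℝ) • u a - (s : ℝ) • u b)
  rw [← e] at h3
  linarith

theorem fam [CompleteSpace V] {u : V → V} (hu : LipschitzWith (1 / 2) u) {η : ℝ}
    (hb : ∀ x, ‖u x‖ ≤ η) :
    ∃ S K : C(I × V, V), Fam S K ∧ ∀ t x, S (t, x) = x + (t : ℝ) • u x := by
  choose k hk using fix hu
  have hη : 0 ≤ η := (norm_nonneg _).trans (hb 0)
  have huc : Continuous u := hu.continuous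
  have hS : Continuous fun z : I × V => z.2 + (z.1 : ℝ) • u z.2 := by fun_prop
  have hK : Continuous fun z : I × V => k z.1 z.2 := by
    refine (LipschitzWith.of_dist_le' (K := 2 * (1 + η)) fun z w => ?_).continuous
    have h := est hu hb z.1 w.1 (k z.1 z.2) (k w.1 w.2)
    rw [hk, hk] at h
    have h1 : ‖z.2 - w.2‖ ≤ dist z w := by
      rw [← dist_eq_norm, Prod.dist_eq]; exact le_max_right _ _
    have h2 : |(z.1 : ℝ) - w.1| ≤ dist z w := by
      rw [← Real.dist_eq, ← Subtype.dist_eq, Prod.dist_eq]; exact le_max_left _ _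
    have h3 := mul_le_mul_of_nonneg_right h2 hη
    rw [dist_eq_norm]
    nlinarith
  refine ⟨⟨_, hS⟩, ⟨_, hK⟩, ⟨fun t x => ?_, fun t y => hk t y⟩, fun _ _ => rfl⟩
  have h := est hu hb t t (k t (x + (t : ℝ) • u x)) x
  rw [hk] at h
  simp only [sub_self, norm_zero, abs_zero, zero_mul, add_zero, mul_zero] at h
  exact sub_eq_zero.1 (norm_le_zero_iff.1 h)

theorem triv (N : Set V) (h : ∀ x ∈ N, closedBall x 1 ⊆ N) :
    Shr N (ContinuousMap.snd : C(I × V, V)) ContinuousMap.snd :=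
  ⟨⟨fun _ _ => rfl, fun _ _ => rfl⟩, fun _ => rfl, fun _ _ hx => hx, 1, one_pos, h⟩

end SHR

theorem bSHR (hFIELD : St_FIELD) : St_SHR := by
  intro V _ _ _ N hN
  by_cases h1 : N.Nonempty
  swap
  · exact ⟨_, _, SHR.triv N fun x hx => absurd ⟨x, hx⟩ h1⟩
  by_cases h2 : Nᶜ.Nonempty
  swap
  · refine ⟨_, _, SHR.triv N fun x _ y _ => ?_⟩
    by_contra hy
    exact h2 ⟨y, hy⟩
  obtain ⟨u, m, η, c, F⟩ := hFIELD V N hN h1 h2
  haveI : CompleteSpace V := FiniteDimensional.complete ℝ V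
  obtain ⟨S, K, hF, hS⟩ := SHR.fam F.lip F.bd
  have hcl : IsClosed N := hN.1.isClosed
  have hη : 0 ≤ η := F.pos.le.trans F.le
  refine ⟨S, K, hF, fun x => by simp [hS], fun t x hx => ?_, c, F.pos, fun x hx z hz => ?_⟩
  · rw [hS, ← sd_nonpos_iff hcl h1]
    have h := F.push x x (by simpa using hη) t t.2.1 t.2.2
    have h3 := (sd_nonpos_iff hcl h1).2 hx
    have h4 := mul_nonneg t.2.1 (F.nn x)
    linarith
  · rw [hS, mem_closedBall, dist_eq_norm] at hz
    have e : z - (x + ((1 : I) : ℝ) • u x) = (z - u x) - x := by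
      simp only [Icc.coe_one, one_smul]; abel
    rw [e] at hz
    have h := F.push x (z - u x) (hz.trans F.le) 1 zero_le_one le_rfl
    simp only [one_smul, sub_add_cancel, one_mul] at h
    rw [← sd_nonpos_iff hcl h1]
    by_cases hd : |sd N x| ≤ η
    · have h3 := F.big x hd
      have h4 : infDist (z - u x) N ≤ c := by
        refine (infDist_le_dist_of_mem hx).trans ?_
        rwa [dist_eq_norm]
      have h5 : sd N (z - u x) ≤ infDist (z - u x) N := sub_le_self _ infDist_nonneg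
      linarith
    · rw [sd_of_mem hx, abs_neg, abs_of_nonneg (dp_nonneg N x), not_le] at hd
      have h4 : z - u x ∈ N := by
        by_contra hy
        have h5 : infDist x Nᶜ ≤ dist x (z - u x) := infDist_le_dist_of_mem hy
        rw [dist_comm, dist_eq_norm] at h5
        have h6 : dp N x = infDist x Nᶜ := rfl
        have := F.le
        linarith
      have h5 := (sd_nonpos_iff hcl h1).2 h4
      have := F.nn x
      linarith

end Pool.Agent.Lib.NFB
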