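import Pool.Agent.Lib.NFB.Blue3
import Pool.Agent.Lib.NFB.B_SHR

/-! Nearby level sets are homeomorphic. -/

namespace Pool.Agent.Lib.NFB

open Set Topology Metric unitInterval

namespace LVH

variable {E : Type} [NormedAddCommGroup E] [NormedSpace ℝ E] {G : E → ℝ} {w : E → E} {L B η c : ℝ}

theorem lg (d : Dec G w L B η c) (x y : E) : |G x - G y| ≤ |L| * ‖x - y‖ :=
  (d.lg x y).trans (mul_le_mul_of_nonneg_right (le_abs_self L) (norm_nonneg _))

theorem step (d : Dec G w L B η c) {t s : ℝ} (h0 : 0 ≤ t) (h : t ≤ s) (x : E) :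
    ‖x + t • w x - x‖ ≤ s * B := by
  rw [add_sub_cancel_left, norm_smul, Real.norm_eq_abs, abs_of_nonneg h0]
  exact mul_le_mul h (d.bd x) (norm_nonneg _) (h0.trans h)

theorem inj (d : Dec G w L B η c) {s : ℝ} (s1 : s ≤ 1) (hs : |L| * (s * B) < c) {x x' : E}
    (hx : G x = 0) (hx' : G x' = 0) {t t' : ℝ} (h0 : 0 ≤ t) (h : t ≤ t') (h1 : t' ≤ s)
    (e : x + t • w x = x' + t' • w x') : x = x' := by
  have hB : 0 ≤ B := (norm_nonneg _).trans (d.bd x)
  have a1 := SHR.est d.lip d.bd ⟨t, h0, h.trans (h1.trans s1)⟩ ⟨t', h0.trans h, h1.trans s1⟩ x x'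
  simp only [e, sub_self, norm_zero, zero_add] at a1
  rw [abs_sub_comm, abs_of_nonneg (sub_nonneg.2 h)] at a1
  have a2 := d.push x' (by rw [hx', abs_zero]; exact d.eta.le) x' (by simpa using d.eta.le)
    (t' - t) (sub_nonneg.2 h) (by linarith)
  have a3 := (abs_le.1 (lg d x (x' + (t' - t) • w x'))).2
  have a4 : x - (x' + (t' - t) • w x') = t • (w x' - w x) := by
    linear_combination (norm := module) e
  have a5 := d.lip.dist_le_mul x' x
  have a6 : ((1 / 2 : NNReal) : ℝ) = 1 / 2 := by norm_num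
  rw [dist_eq_norm, dist_eq_norm, a6, norm_sub_rev x' x] at a5
  rw [a4, norm_smul, Real.norm_eq_abs, abs_of_nonneg h0] at a3
  have a7 : t * ‖w x' - w x‖ ≤ s * ((t' - t) * B) :=
    mul_le_mul (h.trans h1) (by linarith) (norm_nonneg _) (h0.trans (h.trans h1))
  have a8 := mul_le_mul_of_nonneg_left a7 (abs_nonneg L)
  have a9 : (t' - t) * (c - |L| * (s * B)) ≤ 0 := by
    have : (t' - t) * (c - |L| * (s * B)) = (t' - t) * c - |L| * (s * ((t' - t) * B)) := by ring
    linarith
  have a10 : t' - t = 0 :=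
    le_antisymm (nonpos_of_mul_nonpos_left a9 (sub_pos.2 hs)) (sub_nonneg.2 h)
  rw [a10, zero_mul, mul_zero] at a1
  exact sub_eq_zero.1 (norm_le_zero_iff.1 a1)

theorem small (d : Dec G w L B η c) :
    ∃ s : ℝ, 0 < s ∧ s ≤ 1 ∧ s * B ≤ η / 2 ∧ |L| * (s * B) ≤ η / 2 ∧ |L| * (s * B) < c := by
  have hB : 0 ≤ B := (norm_nonneg _).trans (d.bd 0)
  have hL := abs_nonneg L
  have hm : 0 < min η c := lt_min d.eta d.pos
  have hD : 0 < 2 * ((|L| + 1) * (B + 1)) := by positivity
  have h0 : 0 < min 1 (min η c / (2 * ((|L| + 1) * (B + 1)))) := lt_min one_pos (div_pos hm hD)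
  have h1 := (le_div_iff₀ hD).1 (min_le_right 1 (min η c / (2 * ((|L| + 1) * (B + 1)))))
  refine ⟨_, h0, min_le_left _ _, ?_⟩
  generalize min 1 (min η c / (2 * ((|L| + 1) * (B + 1)))) = s at h0 h1
  have e : s * (2 * ((|L| + 1) * (B + 1))) = 2 * (|L| * (s * B) + s * B + s * |L| + s) := by ring
  have p1 : 0 ≤ |L| * (s * B) := by positivity
  have p2 : 0 ≤ s * B := by positivity
  have p3 : 0 ≤ s * |L| := by positivity
  have := min_le_left η c
  have := min_le_right η c
  exact ⟨by linarith, by linarith, by linarith [d.pos]⟩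

end LVH

theorem bLVH (hR : St_ROOT) : St_LVH := by
  intro E _ _ _ G w L B η c d hc
  have := FiniteDimensional.complete ℝ E
  obtain ⟨s, s0, s1, s2, s3, s4⟩ := LVH.small d
  have sc := mul_pos s0 d.pos
  have e1 := min_le_left (η / 6) (s * c / 4)
  have e2 := min_le_right (η / 6) (s * c / 4)
  have e0 : 0 < min (η / 6) (s * c / 4) := lt_min (by linarith [d.eta]) (by linarith)
  refine ⟨_, e0, by linarith [d.eta], fun F hF f1 f2 => ?_⟩
  generalize min (η / 6) (s * c / 4) = ε at e0 e1 e2 f1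
  have hw := d.lip.continuous
  have hG : Continuous G := (LipschitzWith.of_dist_le' (K := |L|) fun x y => by
    rw [Real.dist_eq, dist_eq_norm]; exact LVH.lg d x y).continuous
  have z : ∀ p : {p // G p = 0}, |G p| ≤ η := fun p => by rw [p.2, abs_zero]; exact d.eta.le
  have anti : ∀ p : {p // G p = 0}, StrictAntiOn (fun t : ℝ => F (p + t • w p)) (Icc 0 s) := by
    intro p t ht t' ht' h
    have h1 := f2 p (z p) (p + t • w p) ((LVH.step d ht.1 ht.2 _).trans s2) (t' - t)
      (sub_nonneg.2 h.le) (by linarith [ht.1, ht'.2])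
    rw [add_assoc, ← add_smul, add_sub_cancel] at h1
    have h2 := mul_pos (sub_pos.2 h) d.pos
    show F (p + t' • w p) < F (p + t • w p)
    linarith
  obtain ⟨τ, hτ⟩ := hR {p // G p = 0} (fun u => F (u.1 + u.2 • w u.1)) 0 s s0.le (by fun_prop) anti
    fun p => by
      have h1 := f1 p
      have h2 := f2 p (z p) p (by simpa using (half_pos d.eta).le) s s0.le s1
      rw [p.2] at h1
      simp only [zero_smul, add_zero]
      exact ⟨by linarith [h1.1], by linarith [h1.2]⟩
  let Φ : {p // G p = 0} → {p // F p = 0} := fun p => ⟨p + τ p • w p, (hτ p).2⟩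
  have hΦ : Continuous Φ := Continuous.subtype_mk (by fun_prop) _
  refine ⟨Continuous.homeoOfEquivCompactToT2 (f := Equiv.ofBijective Φ ⟨fun p p' h => ?_, fun q => ?_⟩)
    hΦ⟩
  · have e : (p : E) + τ p • w p = p' + τ p' • w p' := congrArg Subtype.val h
    rcases le_total (τ p) (τ p') with h1 | h1
    · exact Subtype.ext (LVH.inj d s1 s4 p.2 p'.2 (hτ p).1.1 h1 (hτ p').1.2 e)
    · exact (Subtype.ext (LVH.inj d s1 s4 p'.2 p.2 (hτ p').1.1 h1 (hτ p).1.2 e.symm)).symm
  · obtain ⟨S, K, hS, hK⟩ := SHR.fam d.lip d.bd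
    have k : ∀ t ∈ Icc 0 s, K (projIcc 0 1 zero_le_one t, q) +
        t • w (K (projIcc 0 1 zero_le_one t, q)) = q := fun t ht => by
      have h := hS.right (projIcc 0 1 zero_le_one t) q
      have e : ((projIcc 0 1 zero_le_one t : I) : ℝ) = t :=
        congrArg Subtype.val (projIcc_of_mem zero_le_one ⟨ht.1, ht.2.trans s1⟩)
      rwa [hK, e] at h
    have q1 := f1 q
    rw [q.2] at q1
    have g0 : G (K (projIcc 0 1 zero_le_one 0, q)) ≤ 0 := by
      have h := k 0 ⟨le_rfl, s0.le⟩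
      rw [zero_smul, add_zero] at h
      rw [h]; linarith [q1.1]
    have g1 : 0 ≤ G (K (projIcc 0 1 zero_le_one s, q)) := by
      have h := k s ⟨s0.le, le_rfl⟩
      generalize K (projIcc 0 1 zero_le_one s, q) = x at h
      have h1 := (LVH.lg d (x + s • w x) x).trans
        (mul_le_mul_of_nonneg_left (LVH.step d s0.le le_rfl x) (abs_nonneg L))
      rw [h, abs_le] at h1
      have h2 := d.push x (abs_le.2 ⟨by linarith [h1.2, q1.2], by linarith [h1.1, q1.1]⟩) x
        (by simpa using d.eta.le) s s0.le s1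
      rw [h] at h2
      linarith [q1.2]
    have hg : Continuous fun t : ℝ => G (K (projIcc 0 1 zero_le_one t, q)) :=
      hG.comp (K.continuous.comp (continuous_projIcc.prodMk continuous_const))
    obtain ⟨t, ht, h⟩ := intermediate_value_Icc s0.le hg.continuousOn ⟨g0, g1⟩
    refine ⟨⟨_, h⟩, Subtype.ext ?_⟩
    have h1 : τ ⟨_, h⟩ = t := (anti ⟨_, h⟩).injOn (hτ _).1 ht
      ((hτ _).2.trans (by simp only [k t ht]; exact q.2.symm))
    show _ + τ ⟨_, h⟩ • _ = _
    rw [h1]
    exact k t ht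

end Pool.Agent.Lib.NFB
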