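import Pool.Agent.Lib.NFB.Blue1

/-! From the space to the closed manifold. -/

namespace Pool.Agent.Lib.NFB

open Set Topology Metric unitInterval Module ContinuousMap

namespace MAN

variable {V : Type} [NormedAddCommGroup V] [NormedSpace ℝ V]

theorem compl_ne [Nontrivial V] {N : Set V} (h : IsCompact N) : Nᶜ.Nonempty :=
  nonempty_compl.2 h.ne_univ

omit [NormedSpace ℝ V] in
theorem he_nbp (W : Set V) (F : Type) [NormedAddCommGroup F] [NormedSpace ℝ F] : HE (nbp W F) := by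
  refine ⟨⟨fun x => ⟨(x.1, 0), x.2, by simp⟩, by fun_prop⟩, homotopic_of
    ⟨fun z => ⟨(z.2.1.1, (z.1 : ℝ) • z.2.1.2), z.2.2.1, ?_⟩, by fun_prop⟩ (fun x => ?_)
    fun x => ?_, .refl _⟩
  · have := mem_closedBall_zero_iff.1 z.2.2.2
    rw [mem_closedBall_zero_iff, norm_smul, Real.norm_of_nonneg z.1.2.1]
    exact mul_le_one₀ z.1.2.2 (norm_nonneg _) this
  · ext <;> simp [nbp]
  · ext <;> simp

omit [NormedSpace ℝ V] in
theorem two_nb {W₁ W₂ : Set V} {P : C(V, V)} {θ₁ : C(W₁, Circle)} {θ₂ : C(W₂, Circle)}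
    (h : Two P θ₁ θ₂) (F : Type) [NormedAddCommGroup F] :
    Two (P.prodMap (.id F)) (θ₁.comp (nbp W₁ F)) (θ₂.comp (nbp W₂ F)) where
  op := h.op.prodMap IsOpenMap.id
  pre := by ext z; simp [h.pre]
  sq x hx := h.sq (nbp W₂ F x) hx.1
  inj x x' e e' := Subtype.ext (Prod.ext
    (congrArg Subtype.val (h.inj (nbp W₂ F x) (nbp W₂ F x') (congrArg Prod.fst e) e'))
    (congrArg Prod.snd e :))
  surj y w hw := by
    obtain ⟨x, h1, h2⟩ := h.surj (nbp W₁ F y) w hw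
    exact ⟨⟨(x.1, y.1.2), x.2, y.2.2⟩, Prod.ext h1 rfl, h2⟩

omit [NormedSpace ℝ V] in
theorem sim_two {W₁ W₂ : Set V} {P : C(V, V)} {θ₁ : C(W₁, Circle)} {θ₂ : C(W₂, Circle)}
    (h : Two P θ₁ θ₂) (hc : IsCompact W₂) : Sim θ₂ (om θ₁) := by
  have := isCompact_iff_compactSpace.1 hc
  have hm : ∀ x : W₂, P x ∈ W₁ := fun x => (h.pre.le x.2 :)
  refine Sim.of_eq (q := ⟨fun x => ⟨(⟨P x, hm x⟩, θ₂ x), h.sq x _⟩, by fun_prop⟩)
    (HE.of_bij ⟨fun x x' e => h.inj x x' (congrArg (fun z : Sq θ₁ => z.1.1.1) e)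
      (congrArg (fun z : Sq θ₁ => z.1.2) e), fun z => ?_⟩) fun _ => rfl
  obtain ⟨x, h1, h2⟩ := h.surj z.1.1 z.1.2 z.2
  exact ⟨x, Subtype.ext (Prod.ext (Subtype.ext h1) h2)⟩

theorem map_comp {X Y Z : Type} [TopologicalSpace X] [TopologicalSpace Y] [TopologicalSpace Z]
    (f : C(X, Y)) (g : C(Y, Z)) (x : X) (γ : FundamentalGroup X x) :
    FundamentalGroup.map (g.comp f) x γ = FundamentalGroup.map g (f x) (FundamentalGroup.map f x γ) := by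
  obtain ⟨γ⟩ := γ
  rfl

end MAN

open MAN in
theorem bMAN (hGRA : St_GRA) (hSQS : St_SQS) (hATI : St_ATI) (hELP : St_ELP) (hCHART : St_CHART)
    (hDCOV : St_DCOV) (hBDP : St_BDP) (hPI1D : St_PI1D) (hHEPI : St_HEPI) (hNOFIB : St_NOFIB)
    (hWIND : St_WIND) (hWINH : St_WINH)
    (hKER : St_KER) (hSQC : St_SQC) (hSQW : St_SQW) (hHK : St_HK) : St_MAN := by
  intro G X _ _ θ hG hT hC hP hS
  obtain ⟨V, _, _, _, _, W₁, W₂, P, θ₁, θ₂, e, e1, e2, h2, he, hθ⟩ := hGRA X θ hC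
  have s1 : Sim θ₁ θ := ⟨e, he, hθ⟩
  obtain ⟨f₀, hf₀, hf⟩ := ((s1.trans hS).trans (hSQS _ _ _ _ s1.symm)).trans (sim_two h2 e2.1).symm
  obtain ⟨h, hh, hh'⟩ := hATI V W₁ W₂ e1 e2 f₀ hf₀
  have n1 : EL (NB W₁ (V × V)) := hELP.1 _ _ _ _ e1 (hELP.2.1 _ 1 one_pos)
  have n2 : EL (NB W₂ (V × V)) := hELP.1 _ _ _ _ e2 (hELP.2.1 _ 1 one_pos)
  have c1 := compl_ne n1.1
  have c2 := compl_ne n2.1
  obtain ⟨E, hE⟩ := hDCOV _ _ _ _ _ _ n2.1 c1 c2 (two_nb h2 (V × V))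
  have pX : PathConnectedSpace X := by
    obtain ⟨Y, _, _, p, -, -, -, -, -, -, -, hp, hY, -⟩ := hP
    exact hp.surjective.pathConnectedSpace hp.continuous
  have hq₀ : HE (e.comp (nbp W₁ (V × V))) := he.comp (he_nbp _ _)
  have pN := (hHEPI _ _ _ hq₀).2.1 pX
  have rk : 1 < finrank ℝ (V × V) := by
    have := finrank_pos (R := ℝ) (M := V)
    rw [finrank_prod]; omega
  obtain ⟨pM, hs⟩ := hPI1D _ _ n1 c1 pN (hBDP V (V × V) W₁ rk)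
  obtain ⟨x₀⟩ := pN.nonempty
  obtain ⟨ch⟩ := hCHART _ _ n1 ⟨x₀.1, x₀.2⟩ c1
  have := compact_Db n1.1
  set q : C(Db (NB W₁ (V × V)), X) := (e.comp (nbp W₁ (V × V))).comp (dpr _) with hq
  have hb : Function.Bijective (FundamentalGroup.map q (dup _ x₀)) := by
    have hb := (hHEPI _ _ _ hq₀).1 x₀
    have hc : ∀ γ, FundamentalGroup.map q (dup _ x₀) (FundamentalGroup.map (dup _) x₀ γ) =
        FundamentalGroup.map (e.comp (nbp W₁ (V × V))) x₀ γ := fun γ => (map_comp (dup _) q x₀ γ).symm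
    refine ⟨fun a b hab => ?_, fun y => ?_⟩
    · obtain ⟨a, rfl⟩ := hs x₀ a
      obtain ⟨b, rfl⟩ := hs x₀ b
      rw [hb.1 ((hc a).symm.trans (hab.trans (hc b)))]
    · obtain ⟨a, rfl⟩ := hb.2 y
      exact ⟨_, hc a⟩
  let ϑ : C(Db (NB W₁ (V × V)), Circle) := (θ₁.comp (nbp W₁ (V × V))).comp (dpr _)
  obtain ⟨r, hr⟩ := ex_surj (ϑ (dup _ x₀))
  let e₀ : Sq ϑ := ⟨(dup _ x₀, ex (r / 2)), by rw [sq, ← ex_add, add_halves, hr]⟩
  obtain ⟨φ, hφ⟩ := hWIND _ ϑ (sqp ϑ e₀)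
  have hϑ : (θ.comp q).Homotopic ϑ := hθ.comp (.refl ((nbp W₁ (V × V)).comp (dpr _)))
  obtain ⟨k1, k2, k3⟩ := hKER G X θ hG hT hP _ q _ hb φ (hWINH _ _ _ _ _ hϑ.symm hφ)
  obtain ⟨w1, w2⟩ := hSQW _ ϑ e₀ φ hφ
  have pE := w2 pM k1
  obtain ⟨H, hH⟩ := ((HE.homeo E).comp hh).equiv
  have hom : ((om ϑ).comp H.toFun).Homotopic ϑ := by
    have : (om ϑ).comp H.toFun = θ₂.comp (((nbp W₂ _).comp (dpr _)).comp h) := by
      rw [hH]; exact ContinuousMap.ext fun z => hE (h z)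
    rw [this]
    exact ((Homotopic.refl θ₂).comp hh').trans (hf.comp (.refl ((nbp W₁ (V × V)).comp (dpr _))))
  obtain ⟨j, -, hj⟩ := hq₀
  have lp := ChartedSpace.locallyPathConnectedSpace
    (EuclideanSpace ℝ (Fin (finrank ℝ (V × (V × V))))) (Db (NB W₁ (V × V)))
  exact ⟨_, _, inferInstance, inferInstance, inferInstance, this, inferInstance, ch, Sq ϑ,
    inferInstance, pE, sqp ϑ, e₀, φ, 2, H, PathConnectedSpace.somePath _ _, hSQC _ ϑ, k1, k2, k3,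
    one_lt_two, w1, hHK _ ϑ e₀ φ hφ H _ hom,
    hNOFIB G X θ hP _ q ((dup _).comp j) hj _ hb⟩

end Pool.Agent.Lib.NFB
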