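import Pool.Agent.Lib.NFB.Blue3

/-! Smoothing by convolution keeps the decrease along the field. -/

namespace Pool.Agent.Lib.NFB

open Set Topology Metric MeasureTheory
open scoped ContDiff Convolution

theorem bMOL : St_MOL := by
  intro E _ _ _ G w L B η c d ε hε
  borelize E
  have hη := d.eta
  have hL : 0 < |L| + 1 := by positivity
  have lg : ∀ x y, dist (G x) (G y) ≤ (|L| + 1) * dist x y := fun x y => by
    rw [Real.dist_eq, dist_eq_norm]
    exact (d.lg x y).trans (mul_le_mul_of_nonneg_right (by linarith [le_abs_self L]) (norm_nonneg _))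
  have hG : Continuous G := (LipschitzWith.of_dist_le' lg).continuous
  obtain ⟨r, r0, r1, r2⟩ : ∃ r : ℝ, 0 < r ∧ r ≤ η / 2 ∧ (|L| + 1) * r ≤ ε :=
    ⟨min (η / 2) (ε / (|L| + 1)), by positivity, min_le_left _ _,
      (le_div_iff₀' hL).1 (min_le_right _ _)⟩
  let φ : ContDiffBump (0 : E) := ⟨r / 2, r, half_pos r0, half_lt_self r0⟩
  let μ : Measure E := Measure.addHaar
  have hc : HasCompactSupport (φ.normed μ) := φ.hasCompactSupport_normed
  have hi : ∀ y, Integrable (fun z => φ.normed μ z * G (y - z)) μ := fun y =>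
    (φ.continuous_normed.mul (hG.comp (continuous_const.sub continuous_id))).integrable_of_hasCompactSupport
      hc.mul_right
  refine ⟨φ.normed μ ⋆[ContinuousLinearMap.lsmul ℝ ℝ, μ] G,
    hc.contDiff_convolution_left _ φ.contDiff_normed hG.locallyIntegrable, fun x => ?_,
    fun x hx y hy t t0 t1 => ?_⟩
  · rw [← Real.dist_eq]
    refine φ.dist_normed_convolution_le hG.aestronglyMeasurable fun y hy => (lg y x).trans ?_
    exact (mul_le_mul_of_nonneg_left (mem_ball.1 hy).le hL.le).trans r2
  · have e : ∫ z, φ.normed μ z * (t * c) ∂μ = t * c := by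
      rw [integral_mul_const, φ.integral_normed, one_mul]
    simp only [convolution_lsmul, smul_eq_mul]
    rw [← e, ← integral_sub (hi y) (φ.integrable_normed.mul_const _)]
    refine integral_mono (hi _) ((hi y).sub (φ.integrable_normed.mul_const _)) fun z => ?_
    show φ.normed μ z * G (y + t • w x - z) ≤ φ.normed μ z * G (y - z) - φ.normed μ z * (t * c)
    by_cases hz : φ.normed μ z = 0
    · simp [hz]
    have h1 : z ∈ ball (0 : E) r := φ.support_normed_eq (μ := μ) ▸ Function.mem_support.2 hz
    rw [← mul_sub, add_sub_right_comm]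
    refine mul_le_mul_of_nonneg_left (d.push x hx _ ?_ t t0 t1) (φ.nonneg_normed z)
    rw [sub_right_comm]
    linarith [norm_sub_le (y - x) z, mem_ball_zero_iff.1 h1]

end Pool.Agent.Lib.NFB
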