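import Pool.Agent.Lib.NFB.Blue1

/-! Row MON: monodromy of a quotient covering by lifting. -/

namespace Pool.Agent.Lib.NFB

open Set Topology unitInterval

theorem bMON : St_MON := by
  intro Γ X Y _ _ _ _ p hp e
  have cov := hp.isCoveringMap
  have h1 : ∀ (g : Γ) (Λ : Path e (g • e)) (γ : Path (p e) (p e)), (∀ t, γ t = p (Λ t)) →
      mon hp e (cls γ) = MulOpposite.op g := fun g Λ γ h => by
    refine hp.fundamentalGroupToMulOpposite_apply_eq_Iff.2 ?_
    have a1 : (Λ : C(I, Y)) = cov.liftPath γ e γ.source :=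
      (cov.eq_liftPath_iff' _).2 ⟨funext fun t => (h t).symm, Λ.source⟩
    exact Λ.target.symm.trans (DFunLike.congr_fun a1 1)
  have h2 : ∀ γ : Path (p e) (p e), ∃ Λ : Path e ((mon hp e (cls γ)).unop • e),
      ∀ t, γ t = p (Λ t) := fun γ =>
    ⟨⟨cov.liftPath γ e γ.source, cov.liftPath_zero _ _ _,
      (hp.unop_fundamentalGroupToMulOpposite_smul (e := ⟨e, rfl⟩) (γ := cls γ)).symm⟩,
      fun t => (congrFun (cov.liftPath_lifts γ e γ.source) t).symm⟩
  refine ⟨h1, fun γ => ⟨_, h2 γ⟩, fun hX hb => ?_, fun _ =>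
    ⟨hp.fundamentalGroupToMulOpposite_injective _, hp.fundamentalGroupToMulOpposite_surjective _⟩⟩
  have j1 : ∀ g : Γ, Joined e (g • e) := fun g => by
    obtain ⟨⟨γ⟩, hγ⟩ := hb.2 (MulOpposite.op g)
    obtain ⟨Λ, -⟩ := h2 γ
    have a1 : mon hp e (cls γ) = MulOpposite.op g := hγ
    rw [a1] at Λ
    exact ⟨Λ⟩
  have j2 : ∀ y, Joined e y := fun y => by
    let γ := PathConnectedSpace.somePath (p e) (p y)
    have a1 : p (cov.liftPath γ e γ.source 1) = p y :=
      (congrFun (cov.liftPath_lifts γ e γ.source) 1).trans γ.target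
    obtain ⟨g, hg⟩ := hp.apply_eq_iff_mem_orbit.1 a1.symm
    have a2 : Path e (cov.liftPath γ e γ.source 1) :=
      ⟨cov.liftPath γ e γ.source, cov.liftPath_zero _ _ _, rfl⟩
    refine (j1 g).trans ?_
    rw [← hg]
    exact ⟨a2.map (hp.toContinuousConstSMul.continuous_const_smul g)⟩
  have pc : PathConnectedSpace Y := ⟨⟨e⟩, fun x y => (j2 x).symm.trans (j2 y)⟩
  have s1 : Subsingleton (FundamentalGroup Y e) := by
    refine subsingleton_of_forall_eq 1 ?_
    rintro ⟨Λ⟩
    have a1 := h1 1 (Λ.cast rfl (one_smul _ _)) (Λ.map p.continuous) fun _ => rfl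
    have a2 : cls (Λ.map p.continuous) = 1 := hb.1 (a1.trans (map_one _).symm)
    refine cov.injective_path_homotopic_map e e (a2.trans ?_)
    exact congrArg Path.Homotopic.Quotient.mk (Path.ext rfl)
  refine simply_connected_iff_loops_nullhomotopic.2 ⟨pc, fun x γ => ?_⟩
  have s2 : Subsingleton (FundamentalGroup Y x) :=
    (FundamentalGroup.fundamentalGroupMulEquivOfPathConnected x e).toEquiv.subsingleton
  exact Path.Homotopic.Quotient.eq.1 (s2.elim (cls γ) (cls (Path.refl x)))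

end Pool.Agent.Lib.NFB
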