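import Pool.Agent.Lib.NFB.Blue2

/-! The double suspension of the Moore space as a compact subset of a vector space. -/

namespace Pool.Agent.Lib.NFB.MOORE

open Set Topology unitInterval ContinuousMap

noncomputable section

/-- the angle coordinate -/
def an (p : Q4) : ℂ := (ex (3 * (p.2.1 : ℝ)) : Circle)

/-- a function that vanishes exactly on the collapsed set -/
def mm (p : Q4) : ℝ :=
  ((p.1 0 : ℝ) * (1 - p.1 0)) * ((p.1 1 : ℝ) * (1 - p.1 1)) * (1 - p.2.2) *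
    ((p.2.2 : ℝ) * ((p.2.1 : ℝ) * (1 - p.2.1)) + ‖an p - 1‖)

theorem an_cont : Continuous an := by
  unfold an
  fun_prop

theorem mm_cont : Continuous mm := by
  have := an_cont
  unfold mm
  fun_prop

theorem an_eq {p p' : Q4} : an p = an p' ↔ ∃ n : ℤ, 3 * ((p.2.1 : ℝ) - p'.2.1) = n := by
  rw [an, an, Circle.coe_inj, ex_eq_iff]
  exact exists_congr fun n => ⟨fun h => by linarith, fun h => by linarith⟩

theorem an_one {p : Q4} : ‖an p - 1‖ = 0 ↔ ∃ n : ℤ, 3 * (p.2.1 : ℝ) = n := by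
  rw [norm_eq_zero, sub_eq_zero, an, ← Circle.coe_one, Circle.coe_inj, ← ex_zero, ex_eq_iff]
  simp only [zero_add]

theorem one_sub {t : I} : 1 - (t : ℝ) = 0 ↔ t = 1 := by
  rw [sub_eq_zero, eq_comm, Set.Icc.coe_eq_one]

theorem ends {t : I} : (t : ℝ) * (1 - t) = 0 ↔ t = 0 ∨ t = 1 := by
  rw [mul_eq_zero, one_sub, Set.Icc.coe_eq_zero]

theorem mm_zero {p : Q4} : mm p = 0 ↔ Zr p := by
  have h1 : 0 ≤ (p.2.2 : ℝ) * ((p.2.1 : ℝ) * (1 - p.2.1)) :=
    mul_nonneg p.2.2.2.1 (mul_nonneg p.2.1.2.1 (sub_nonneg.2 p.2.1.2.2))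
  have h0 : p.2.1 = 0 → ∃ n : ℤ, 3 * (p.2.1 : ℝ) = n := fun h => ⟨0, by simp [h]⟩
  have h3 : p.2.1 = 1 → ∃ n : ℤ, 3 * (p.2.1 : ℝ) = n := fun h => ⟨3, by simp [h]⟩
  rw [mm, mul_eq_zero, mul_eq_zero, mul_eq_zero, ends, ends, one_sub,
    add_eq_zero_iff_of_nonneg h1 (norm_nonneg _), mul_eq_zero, ends, an_one,
    Set.Icc.coe_eq_zero, Zr, Cube.boundary, mem_ofPred_eq, Fin.exists_fin_two]
  tauto

/-- the ambient space -/
abbrev W : Type := (ℝ × ℝ × ℝ) × (ℂ × ℝ × ℝ)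

/-- the parametrisation -/
def F (p : Q4) : W :=
  ((mm p, mm p * p.1 0, mm p * p.1 1), (mm p * an p, mm p * p.2.2, mm p * (p.2.2 * p.2.1)))

theorem F_cont : Continuous F := by
  have := an_cont
  have := mm_cont
  unfold F
  fun_prop

theorem F_zero {p : Q4} : F p = 0 ↔ Zr p := by
  refine ⟨fun h => mm_zero.1 (congrArg (fun w : W => w.1.1) h), fun h => ?_⟩
  simp [F, mm_zero.2 h]

theorem F_eq {p p' : Q4} : F p = F p' ↔ p = p' ∨ (Zr p ∧ Zr p') ∨
    (p.1 = p'.1 ∧ p.2.2 = 0 ∧ p'.2.2 = 0 ∧ ∃ n : ℤ, 3 * ((p.2.1 : ℝ) - p'.2.1) = n) := by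
  constructor
  · intro h
    simp only [F, Prod.mk.injEq] at h
    obtain ⟨⟨h1, h2, h3⟩, h4, h5, h6⟩ := h
    by_cases hm : mm p' = 0
    · exact .inr (.inl ⟨mm_zero.1 (h1.trans hm), mm_zero.1 hm⟩)
    rw [h1] at h2 h3 h4 h5 h6
    have e1 : p.1 = p'.1 := funext (Fin.forall_fin_two.2
      ⟨Subtype.ext (mul_left_cancel₀ hm h2), Subtype.ext (mul_left_cancel₀ hm h3)⟩)
    have e2 : p.2.2 = p'.2.2 := Subtype.ext (mul_left_cancel₀ hm h5)
    by_cases hu : p'.2.2 = 0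
    · exact .inr (.inr ⟨e1, e2.trans hu, hu,
        an_eq.1 (mul_left_cancel₀ (Complex.ofReal_ne_zero.2 hm) h4)⟩)
    · have e3 := mul_left_cancel₀ hm h6
      rw [e2] at e3
      exact .inl (Prod.ext e1 (Prod.ext
        (Subtype.ext (mul_left_cancel₀ (unitInterval.coe_ne_zero.2 hu) e3)) e2))
  · rintro (rfl | ⟨h, h'⟩ | ⟨e1, e2, e3, e4⟩)
    · rfl
    · rw [F_zero.2 h, F_zero.2 h']
    · have e5 := an_eq.2 e4
      have e6 : mm p = mm p' := by simp [mm, e1, e2, e3, e5]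
      simp [F, e1, e2, e3, e5, e6]

/-- the ambient involution -/
def sw (w : W) : W := ((w.1.1, w.1.2.1, w.1.1 - w.1.2.2), w.2)

theorem sw_sw (w : W) : sw (sw w) = w := by simp [sw]

theorem sw_F (x : Fin 2 → I) (w : I × I) : sw (F (x, w)) = F (rf x, w) := by
  have e0 : rf x 0 = x 0 := by simp [rf]
  have e1 : (rf x 1 : ℝ) = 1 - x 1 := by simp [rf]
  have ea : an (rf x, w) = an (x, w) := rfl
  have em : mm (rf x, w) = mm (x, w) := by
    simp only [mm, e0, e1, ea]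
    ring
  simp only [sw, F, e0, e1, ea, em, mul_sub, mul_one]

theorem zr0 : Zr ((fun _ => 0, (0, 0)) : Q4) := .inr (.inl rfl)

theorem sw_mem (y : range F) : sw y.1 ∈ range F := by
  obtain ⟨_, ⟨x, w⟩, rfl⟩ := y
  exact ⟨_, (sw_F x w).symm⟩

theorem sw_cont : Continuous sw := by
  unfold sw
  fun_prop

/-- the involution of the image -/
def bb : range F ≃ₜ range F :=
  invo (fun y => ⟨sw y.1, sw_mem y⟩) ((sw_cont.comp continuous_subtype_val).subtype_mk sw_mem)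
    fun _ => Subtype.ext (sw_sw _)

end

end Pool.Agent.Lib.NFB.MOORE

namespace Pool.Agent.Lib.NFB

open Set MOORE

theorem bMOORE : St_MOORE :=
  ⟨range F, inferInstance, isCompact_iff_compactSpace.1 (isCompact_range F_cont), inferInstance,
    ⟨{ Φ := ⟨fun p => ⟨F p, p, rfl⟩, F_cont.subtype_mk _⟩
       t₀ := ⟨0, _, F_zero.2 zr0⟩
       b := bb
       surj := fun ⟨_, p, hp⟩ => ⟨p, Subtype.ext hp⟩
       base := fun _ => Subtype.ext_iff.trans F_zero
       fib := fun _ _ => Subtype.ext_iff.trans F_eq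
       b_Φ := fun x w => Subtype.ext (sw_F x w)
       b_t := Subtype.ext (show sw 0 = 0 by simp [sw])
       bb := fun y => Subtype.ext (sw_sw _) }⟩⟩

end Pool.Agent.Lib.NFB
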