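import Pool.Agent.Lib.NFB.Blue2

/-! Three times the bottom cell is trivial. -/

namespace Pool.Agent.Lib.NFB

open Set Topology unitInterval

namespace N2

variable {Y : Type} [TopologicalSpace Y]

/-- the slices of a map from the square -/
def sl (y₀ : Y) : C((I × WY y₀) × (I × Unit), Y) :=
  ⟨fun q => q.1.2.1 (q.2.1, q.1.1), by fun_prop⟩

/-- the slices as loops -/
def hm (y₀ : Y) : C(I × WY y₀, LP (∅ : Set Unit) y₀) :=
  ⟨fun q => ⟨(sl y₀).curry q, fun _ => q.2.2.1 _, fun _ => q.2.2.2.1 _, fun _ _ h => h.elim⟩,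
    (sl y₀).curry.continuous.subtype_mk _⟩

theorem bot {y₀ : Y} {κ : LP (∅ : Set Unit) y₀ → LP (∅ : Set Unit) y₀} (h : IsCub κ)
    (w : WY y₀) : hm y₀ (0, w) = κ ((rho y₀).1 w) := by
  refine Subtype.ext (ContinuousMap.ext fun z => ?_)
  have h0 := Int.fract_nonneg (3 * (z.1 : ℝ))
  have h1 := Int.fract_lt_one (3 * (z.1 : ℝ))
  have h2 := Int.fract_add_floor (3 * (z.1 : ℝ))
  have e := h ((rho y₀).1 w) z.1 ⟨Int.fract (3 * (z.1 : ℝ)), h0, h1.le⟩ z.2 ⌊3 * (z.1 : ℝ)⌋ h2.symm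
  refine Eq.trans ?_ e.symm
  refine w.2.2.2.2 _ _ ⟨⌊3 * (z.1 : ℝ)⌋, ?_⟩
  change 3 * ((z.1 : ℝ) - Int.fract (3 * (z.1 : ℝ)) / 3) = _
  linarith

end N2

theorem bN2 : St_N2 := by
  intro Y _ y₀ κ hκ x
  let k : Pt (WY.e y₀) (LP.e (∅ : Set Unit) y₀) :=
    ⟨κ.1.comp (rho y₀).1, (congrArg κ.1 (rho y₀).2).trans κ.2⟩
  let k' : Pt (WY.e y₀) (LP.e (∅ : Set Unit) y₀) := ⟨.const _ (LP.e ∅ y₀), rfl⟩
  rw [← hmap_comp (rho y₀) κ k (fun _ => rfl) x, hmap_congr (k' := k') ?_ x]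
  · exact hmap_const k' (fun _ => rfl) x
  · refine ⟨⟨⟨N2.hm y₀, fun w => N2.bot hκ w, fun w => ?_⟩, fun s w hw => ?_⟩⟩
    · exact Subtype.ext (ContinuousMap.ext fun z => w.2.2.2.1 z.1)
    · rw [mem_singleton_iff.1 hw]
      exact (Subtype.ext (ContinuousMap.ext fun _ => rfl)).trans k.2.symm

end Pool.Agent.Lib.NFB
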