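import Pool.Agent.Lib.NFB.Blue2

/-! Exactness in the middle. -/

namespace Pool.Agent.Lib.NFB

open Set Topology unitInterval ContinuousMap
open scoped Topology.Homotopy

noncomputable section

namespace N3

variable {Y : Type} [TopologicalSpace Y] {y₀ : Y}

theorem per {κ : LP (∅ : Set Unit) y₀ → LP (∅ : Set Unit) y₀} (h : IsCub κ)
    (w : LP (∅ : Set Unit) y₀) (z z' : I) (n : ℤ) (e : 3 * ((z : ℝ) - z') = n) :
    (κ w).1 (z, ()) = (κ w).1 (z', ()) := by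
  have hf : Int.fract (3 * (z : ℝ)) ∈ I := ⟨Int.fract_nonneg _, (Int.fract_lt_one _).le⟩
  have e1 := Int.fract_add_floor (3 * (z : ℝ))
  rw [h w z ⟨_, hf⟩ () ⌊3 * (z : ℝ)⌋ e1.symm,
    h w z' ⟨_, hf⟩ () (⌊3 * (z : ℝ)⌋ - n) (by push_cast; linarith)]

theorem bot {κ : LP (∅ : Set Unit) y₀ → LP (∅ : Set Unit) y₀} (h : IsCub κ) (w : WY y₀) (z : I) :
    (κ ((rho y₀).1 w)).1 (z, ()) = w.1 (z, 0) := by
  have hf : Int.fract (3 * (z : ℝ)) ∈ I := ⟨Int.fract_nonneg _, (Int.fract_lt_one _).le⟩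
  have e1 := Int.fract_add_floor (3 * (z : ℝ))
  rw [h _ z ⟨_, hf⟩ () ⌊3 * (z : ℝ)⌋ e1.symm]
  exact w.2.2.2.2 _ z ⟨-⌊3 * (z : ℝ)⌋, by push_cast; linarith⟩

/-- the height -/
def hgt (s u : I) : ℝ := (u : ℝ) * (1 + s) - s

theorem hgt_c : Continuous fun q : I × I => hgt q.1 q.2 := by unfold hgt; fun_prop

/-- the glued family -/
def fam (κ : C(LP (∅ : Set Unit) y₀, LP (∅ : Set Unit) y₀)) (p : C(Fin 2 → I, WY y₀))
    (η : C(I × (Fin 2 → I), LP (∅ : Set Unit) y₀)) (q : (I × (Fin 2 → I)) × (I × I)) : Y :=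
  if 0 ≤ hgt q.1.1 q.2.2 then (p q.1.2).1 (q.2.1, projIcc 0 1 zero_le_one (hgt q.1.1 q.2.2))
  else (κ (η (projIcc 0 1 zero_le_one (-hgt q.1.1 q.2.2), q.1.2))).1 (q.2.1, ())

theorem fam_c {κ : C(LP (∅ : Set Unit) y₀, LP (∅ : Set Unit) y₀)} (h : IsCub κ)
    (p : C(Fin 2 → I, WY y₀)) (η : C(I × (Fin 2 → I), LP (∅ : Set Unit) y₀))
    (h0 : ∀ x, η (0, x) = (rho y₀).1 (p x)) : Continuous (fam κ p η) := by
  have c : Continuous fun q : (I × (Fin 2 → I)) × (I × I) => hgt q.1.1 q.2.2 :=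
    hgt_c.comp (f := fun q : (I × (Fin 2 → I)) × (I × I) => (q.1.1, q.2.2)) (by fun_prop)
  refine Continuous.if_le ?_ ?_ continuous_const c fun q e => ?_
  · exact Continuous.eval
      (continuous_subtype_val.comp (p.continuous.comp (by fun_prop)))
      ((continuous_fst.comp continuous_snd).prodMk (continuous_projIcc.comp c))
  · exact Continuous.eval
      (continuous_subtype_val.comp (κ.continuous.comp (η.continuous.comp
        ((continuous_projIcc.comp c.neg).prodMk (by fun_prop)))))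
      ((continuous_fst.comp continuous_snd).prodMk continuous_const)
  · rw [← e, neg_zero, projIcc_left]
    exact ((congrArg (fun w => (κ w).1 (q.2.1, ())) (h0 q.1.2)).trans (bot h _ _)).symm

end N3

open N3 in
theorem bN3 : St_N3 := by
  intro Y _ y₀ κ hκ x hx
  induction x using Quotient.inductionOn with
  | h p =>
  have hx' : (⟦gmap (rho y₀) p⟧ : P2 (LP.e (∅ : Set Unit) y₀)) = ⟦GenLoop.const⟧ := hx
  obtain ⟨η⟩ : GenLoop.Homotopic (gmap (rho y₀) p) GenLoop.const := Quotient.exact hx'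
  have h0 : ∀ x, η.toContinuousMap (0, x) = (rho y₀).1 (p.1 x) := fun x => η.apply_zero x
  have h1 : ∀ x, η.toContinuousMap (1, x) = LP.e ∅ y₀ := fun x => η.apply_one x
  have hb : ∀ t, ∀ x ∈ Cube.boundary (Fin 2), η.toContinuousMap (t, x) = LP.e ∅ y₀ :=
    fun t x hx => η.eq_snd t hx
  set F : C((I × (Fin 2 → I)) × (I × I), Y) :=
    ⟨fam κ.1 p.1 η.toContinuousMap, fam_c hκ p.1 η.toContinuousMap h0⟩ with hF
  have F0 : ∀ q u, F (q, (0, u)) = y₀ := fun q u => by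
    show fam _ _ _ _ = _
    unfold fam
    split_ifs
    exacts [(p.1 q.2).2.1 _, (κ.1 _).2.1 _]
  have F1 : ∀ q u, F (q, (1, u)) = y₀ := fun q u => by
    show fam _ _ _ _ = _
    unfold fam
    split_ifs
    exacts [(p.1 q.2).2.2.1 _, (κ.1 _).2.2.1 _]
  have F2 : ∀ q z, F (q, (z, 1)) = y₀ := fun q z => by
    show fam _ _ _ _ = _
    have e : hgt q.1 1 = 1 := by simp [hgt]
    unfold fam
    simp only [e, zero_le_one, if_true, projIcc_right]
    exact (p.1 q.2).2.2.2.1 _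
  have F3 : ∀ q (z z' : I), (∃ n : ℤ, 3 * ((z : ℝ) - z') = n) → F (q, (z, 0)) = F (q, (z', 0)) := by
    rintro q z z' ⟨n, hn⟩
    show fam _ _ _ _ = fam _ _ _ _
    unfold fam
    split_ifs with hh
    · have e : hgt q.1 0 ≤ 0 := by simpa [hgt] using q.1.2.1
      rw [projIcc_of_le_left _ e]
      exact (p.1 q.2).2.2.2.2 _ _ ⟨n, hn⟩
    · exact per hκ _ _ _ n hn
  have F4 : ∀ x z, F ((1, x), (z, 0)) = y₀ := fun x z => by
    show fam _ _ _ _ = _
    have e : hgt 1 0 = -1 := by simp [hgt]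
    unfold fam
    simp only [e, neg_neg, projIcc_right]
    rw [if_neg (by norm_num)]
    exact congrArg (fun w : LP (∅ : Set Unit) y₀ => w.1 (z, ()))
      ((congrArg κ.1 (h1 x)).trans κ.2)
  have F5 : ∀ s, ∀ x ∈ Cube.boundary (Fin 2), ∀ v, F ((s, x), v) = y₀ := fun s x hx v => by
    show fam _ _ _ _ = _
    unfold fam
    split_ifs
    · exact congrArg (fun w : WY y₀ => w.1 _) (p.2 x hx)
    · exact congrArg (fun w : LP (∅ : Set Unit) y₀ => w.1 (v.1, ()))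
        ((congrArg κ.1 (hb _ x hx)).trans κ.2)
  have F6 : ∀ x v, F ((0, x), v) = (p.1 x).1 v := fun x v => by
    show fam _ _ _ _ = _
    have e : hgt 0 v.2 = v.2 := by simp [hgt]
    unfold fam
    simp only [e]
    rw [if_pos v.2.2.1, projIcc_val]
  let q : Ω^ (Fin 2) (LP ({0, 1} : Set I) y₀) (LP.e _ y₀) :=
    ⟨⟨fun x => ⟨F.curry (1, x), F0 _, F1 _, by
        rintro z _ (rfl | rfl)
        exacts [F4 x z, F2 _ z]⟩,
      (F.curry.continuous.comp (by fun_prop)).subtype_mk _⟩,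
      fun x hx => Subtype.ext (ContinuousMap.ext (F5 1 x hx))⟩
  refine ⟨⟦q⟧, Quotient.sound ⟨⟨⟨⟨fun v => ⟨F.curry v, F0 v, F1 v, F2 v, F3 v⟩,
    F.curry.continuous.subtype_mk _⟩, fun x => Subtype.ext (ContinuousMap.ext (F6 x)),
    fun x => rfl⟩, fun s x hx => ?_⟩⟩⟩
  exact (Subtype.ext (ContinuousMap.ext (F5 s x hx))).trans (p.2 x hx).symm

end

end Pool.Agent.Lib.NFB
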