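import Pool.Agent.Lib.NFB.Blue2

/-! Three times the top cell is trivial. -/

namespace Pool.Agent.Lib.NFB

open Set Topology unitInterval

namespace N4

variable {Y : Type} [TopologicalSpace Y] {y₀ : Y}

/-- the sliding of the second coordinate to the top -/
def up (s : I) : C(I × I, I × I) := ⟨fun z => (z.1, max z.2 s), by fun_prop⟩

theorem per {κ : LP ({0, 1} : Set I) y₀ → LP {0, 1} y₀} (h : IsCub κ) (w : LP ({0, 1} : Set I) y₀)
    (z z' s : I) (n : ℤ) (e : 3 * ((z : ℝ) - z') = n) : (κ w).1 (z, s) = (κ w).1 (z', s) := by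
  have a : Int.fract (3 * (z : ℝ)) ∈ I := ⟨Int.fract_nonneg _, (Int.fract_lt_one _).le⟩
  have b := Int.fract_add_floor (3 * (z : ℝ))
  rw [h w z ⟨_, a⟩ s ⌊3 * (z : ℝ)⌋ b.symm,
    h w z' ⟨_, a⟩ s (⌊3 * (z : ℝ)⌋ - n) (by push_cast; linarith)]

/-- the null homotopy at time `s` -/
def nul {κ : LP ({0, 1} : Set I) y₀ → LP {0, 1} y₀} (h : IsCub κ) (s : I)
    (w : LP ({0, 1} : Set I) y₀) : WY y₀ :=
  ⟨(κ w).1.comp (up s), fun _ => (κ w).2.1 _, fun _ => (κ w).2.2.1 _,
    fun z => (κ w).2.2.2 z _ (.inr (max_eq_left le_one')),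
    fun z z' ⟨n, e⟩ => per h w z z' _ n e⟩

end N4

open N4 in
theorem bN4 : St_N4 := by
  intro Y _ y₀ κ h x
  have hc : Continuous fun p : I × LP ({0, 1} : Set I) y₀ => nul h p.1 p.2 := by
    refine Continuous.subtype_mk ?_ _
    refine Continuous.compCM (continuous_subtype_val.comp (κ.1.continuous.comp continuous_snd)) ?_
    exact (ContinuousMap.continuous_of_continuous_uncurry up
      (show Continuous fun q : I × (I × I) => (q.2.1, max q.2.2 q.1) by fun_prop)).comp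
      continuous_fst
  have hb : (del y₀).1.comp κ.1 (LP.e _ y₀) = WY.e y₀ := (congrArg (del y₀).1 κ.2).trans (del y₀).2
  refine (hmap_comp κ (del y₀) ⟨(del y₀).1.comp κ.1, hb⟩ (fun _ => rfl) x).symm.trans
    ((hmap_congr (k' := ⟨.const _ (WY.e y₀), rfl⟩) ?_ x).trans (hmap_const _ (fun _ => rfl) x))
  refine ⟨⟨⟨⟨_, hc⟩, fun w => Subtype.ext (ContinuousMap.ext fun z => ?_),
    fun w => Subtype.ext (ContinuousMap.ext fun z => ?_)⟩, ?_⟩⟩
  · exact congrArg (fun u => (κ.1 w).1 (z.1, u)) (max_eq_left nonneg')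
  · exact (κ.1 w).2.2.2 z.1 _ (.inr (max_eq_right le_one'))
  · rintro s _ rfl
    refine Eq.trans (Subtype.ext (ContinuousMap.ext fun z => ?_)) hb.symm
    exact congrArg (fun v : LP ({0, 1} : Set I) y₀ => v.1 (up s z)) κ.2

end Pool.Agent.Lib.NFB
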