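import Pool.Agent.Lib.NFB.Blue1

/-! No map to the circle is locally trivial. -/

namespace Pool.Agent.Lib.NFB

open Set Topology Metric unitInterval ContinuousMap

namespace NOFIB

variable {A B : Type} [TopologicalSpace A] [TopologicalSpace B]

theorem lpc {p : A → B} (hp : IsLocalHomeomorph p) [LocallyPathConnectedSpace B] :
    LocallyPathConnectedSpace A := by
  choose e h1 _ using hp
  let _ : ChartedSpace B A :=
    { atlas := range e
      chartAt := e
      mem_chart_source := h1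
      chart_mem_atlas := fun x => mem_range_self x }
  exact ChartedSpace.locallyPathConnectedSpace B A

theorem iter {Θ : C(A, A)} (h : Θ.Homotopic (.id A)) {g : A → ℝ} {ε : ℝ}
    (hg : ∀ z, g z + ε ≤ g (Θ z)) (n : ℕ) :
    ∃ Ψ : C(A, A), Ψ.Homotopic (.id A) ∧ ∀ z, g z + n * ε ≤ g (Ψ z) := by
  induction n with
  | zero => exact ⟨.id A, .refl _, fun z => by simp⟩
  | succ n ih =>
    obtain ⟨Ψ, h1, h2⟩ := ih
    refine ⟨Θ.comp Ψ, h.comp h1, fun z => ?_⟩
    have h3 := hg (Ψ z)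
    have h4 := h2 z
    rw [comp_apply]
    push_cast
    linarith

theorem hom {Γ : Type} [Group Γ] [MulAction Γ A] [ContinuousConstSMul Γ A] [ConnectedSpace A]
    (g : C(A, ℝ)) (hg : ∀ (γ : Γ) z, ex (g (γ • z)) = ex (g z)) :
    ∃ ψ : Γ →* Multiplicative ℤ, ∀ γ z, g (γ • z) = g z + ((ψ γ).toAdd : ℤ) := by
  obtain ⟨z₀⟩ : Nonempty A := inferInstance
  have h1 : ∀ γ : Γ, ∃ n : ℤ, ∀ z, g (γ • z) = g z + n := fun γ => by
    obtain ⟨n, hn⟩ := ex_eq_iff.1 (hg γ z₀)
    exact ⟨n, congr_fun (ex_cov.eq_of_comp_eq (g₁ := fun z => g (γ • z)) (g₂ := fun z => g z + n)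
      (g.continuous.comp (continuous_const_smul γ)) (g.continuous.add continuous_const)
      (funext fun z => (hg γ z).trans (ex_eq_iff.2 ⟨n, rfl⟩).symm) z₀ hn)⟩
  choose n hn using h1
  refine ⟨MonoidHom.mk' (fun γ => Multiplicative.ofAdd (n γ)) fun a b => ?_, hn⟩
  have h2 := hn (a * b) z₀
  rw [mul_smul, hn, hn] at h2
  have h3 : n (a * b) = n a + n b := by
    have : (n (a * b) : ℝ) = n a + n b := by linarith
    exact_mod_cast this
  rw [h3, ofAdd_add]

end NOFIB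

open NOFIB in
theorem bNOFIB (hROT : St_ROT) (hPB : St_PB) (hFUND : St_FUND) : St_NOFIB := by
  rintro G X _ _ θ ⟨Y, _, _, p, L, T, _, _, t₀, i, r, hp, hY, -, -, hT, hr, hR⟩ M _ _ _ _ _ q j hj
    m₀ hq F _ f hf
  obtain ⟨_, ha, hπ, hs⟩ := hPB _ X Y M p q hp
  have := hs hY inferInstance m₀ hq
  have := hπ.toContinuousConstSMul
  have cov := hπ.isCoveringMap
  have := lpc cov.isLocalHomeomorph
  let π : C(PB q p, M) := ⟨fun z => z.1.1, cov.continuous⟩
  let qt : C(PB q p, Y) := ⟨fun z => z.1.2, by fun_prop⟩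
  obtain ⟨z₀⟩ : Nonempty (PB q p) := inferInstance
  obtain ⟨x₀, hx₀⟩ := ex_surj (f (π z₀))
  obtain ⟨g, ⟨-, hg⟩, -⟩ := ex_cov.existsUnique_continuousMap_lifts (f.comp π) z₀ x₀ hx₀
  have hg' : ∀ z, ex (g z) = f z.1.1 := fun z => congr_fun hg z
  obtain ⟨ψ, hψ⟩ := hom (Γ := G × Multiplicative ℤ) g fun γ z => by rw [hg', hg', ha]
  obtain ⟨C, hC, hC'⟩ := hFUND _ M _ _ hπ
  obtain ⟨R, hR'⟩ := hR ψ (qt '' C) (hC.image qt.continuous)
  obtain ⟨b, hb⟩ := (hC.image g.continuous).bddAbove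
  have far : ∀ z, b + R < g z → r (qt z) = t₀ := fun z hz => by
    by_contra hne
    obtain ⟨γ, c, hc, rfl⟩ := hC' z
    have e : qt (γ • c) = γ • qt c := congrArg Prod.snd (ha γ c)
    have h1 : (((ψ γ).toAdd : ℤ) : ℝ) ≤ R := by
      exact_mod_cast (abs_le.1 (hR' γ _ (mem_image_of_mem _ hc) (e ▸ hne))).2
    have h2 := hb (mem_image_of_mem _ hc)
    rw [hψ] at hz
    linarith
  obtain ⟨ε, P, κ, hε, P0, κ0, hP, hκ⟩ := hROT M F f hf
  let H : C(I × PB q p, M) := P.comp ((ContinuousMap.id I).prodMap π)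
  have H0 : ∀ z, H (0, z) = (fun z : PB q p => z.1.1) (ContinuousMap.id _ z) := fun z => P0 _
  let Pt := cov.liftHomotopy H (.id _) H0
  have Pt0 : ∀ z, Pt (0, z) = z := cov.liftHomotopy_zero H (.id _) H0
  have Pt1 : ∀ t z, (Pt (t, z)).1.1 = P (t, z.1.1) := fun t z =>
    congr_fun (cov.liftHomotopy_lifts H (.id _) H0) (t, z)
  let Θ : C(PB q p, PB q p) := ⟨fun z => Pt (1, z), by fun_prop⟩
  have hΘ : Θ.Homotopic (.id _) := (homotopic_of Pt Pt0 fun _ => rfl).symm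
  have up : ∀ z, g z + ε ≤ g (Θ z) := fun z => by
    have e := congr_fun (ex_cov.eq_of_comp_eq (g₁ := fun t : I => g (Pt (t, z)))
      (g₂ := fun t : I => g z + κ (t, z.1.1)) (by fun_prop) (by fun_prop)
      (funext fun t => by
        simp only [Function.comp_apply]
        rw [hg', Pt1, hP, ex_add, hg']) 0 (by simp only [Pt0, κ0, add_zero])) 1
    have h1 : g (Θ z) = g z + κ (1, z.1.1) := e
    linarith [hκ z.1.1]
  obtain ⟨K⟩ := hj.symm
  let H' : C(I × T, X) := K.toContinuousMap.comp ((ContinuousMap.id I).prodMap (p.comp i))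
  have H0' : ∀ τ, H' (0, τ) = p (i τ) := fun τ => K.apply_zero _
  let J := hp.isCoveringMap.liftHomotopy H' i H0'
  have J1 : ∀ τ, q (j (p (i τ))) = p (J (1, τ)) := fun τ =>
    ((congr_fun (hp.isCoveringMap.liftHomotopy_lifts H' i H0') (1, τ)).trans (K.apply_one _)).symm
  let it : C(T, PB q p) := ⟨fun τ => ⟨(j (p (i τ)), J (1, τ)), J1 τ⟩, by fun_prop⟩
  have hi : i.Homotopic (qt.comp it) :=
    homotopic_of J (hp.isCoveringMap.liftHomotopy_zero H' i H0') fun _ => rfl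
  obtain ⟨a, ha'⟩ := (isCompact_range (g.comp it).continuous).bddBelow
  obtain ⟨n, hn⟩ := exists_nat_gt ((b + R - a) / ε)
  rw [div_lt_iff₀ hε] at hn
  obtain ⟨Ψ, h1, h2⟩ := iter hΘ up n
  refine hT ⟨t₀, ?_⟩
  have e1 : ContinuousMap.id T = r.comp i := ContinuousMap.ext fun τ => (hr τ).symm
  have e2 : ContinuousMap.const T t₀ = (r.comp qt).comp (Ψ.comp it) :=
    ContinuousMap.ext fun τ => by
      have h3 : a ≤ g (it τ) := ha' (mem_range_self τ)
      exact (far (Ψ (it τ)) (by linarith [h2 (it τ)])).symm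
  rw [e1, e2]
  exact ((Homotopic.refl r).comp hi).trans
    ((Homotopic.refl (r.comp qt)).comp (h1.symm.comp (.refl it)))

end Pool.Agent.Lib.NFB
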