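import Pool.Agent.Lib.NFB.Blue2

/-! Pasting of double mapping cylinders. -/

namespace Pool.Agent.Lib.NFB

open Set Topology unitInterval

theorem bPASTE (hCOF : St_COF) (hCOLL : St_COLL) : St_PASTE := by
  intro K B C D _ _ _ _ α α' p sg h
  let jB : C(DM p sg, DM α' sg) := DM.lift ((inA α' sg).comp α) (cy α' sg) (inB α' sg)
    (fun c => by simp [h]) fun c => by simp
  let κ : C(DM α (inA p sg), DM α' sg) := DM.lift (inA α' sg)
    (((inA α' sg).comp α).comp .fst) jB (fun _ => rfl) fun _ => rfl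
  refine ⟨κ, hCOLL K (DM p sg) B (DM α' sg) α (inA p sg) (inA α' sg) jB κ ⟨fun _ => rfl, ?_, ?_⟩
    ((hCOF.1 B D C).1 p sg) (fun _ => rfl) (fun _ => rfl) fun _ => rfl,
    fun _ => rfl, fun _ => rfl, fun _ => rfl, fun _ => rfl, fun _ => rfl⟩
  · intro x
    induction x using DM.ind with
    | hA a => exact .inl ⟨a, rfl⟩
    | hC c t => exact .inr ⟨cy p sg (c, t), rfl⟩
    | hB d => exact .inr ⟨inB p sg d, rfl⟩
  · intro Y _ a b hab
    obtain ⟨G, g1, g2, g3⟩ := DM.lift_prod (f := α') (g := sg) a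
      (b.comp ((ContinuousMap.id I).prodMap (cy p sg)))
      (b.comp ((ContinuousMap.id I).prodMap (inB p sg)))
      (fun s c => by simp [h, hab]) fun s c => by simp
    refine ⟨G, g1, fun s x => ?_⟩
    induction x using DM.ind with
    | hA x => exact (g1 s (α x)).trans (hab s x).symm
    | hC c t => exact g2 s (c, t)
    | hB d => exact g3 s d

end Pool.Agent.Lib.NFB
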