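import Pool.Agent.Lib.NFB.Blue1

/-! Pulling back quotient coverings. -/

namespace Pool.Agent.Lib.NFB

open Set Topology Metric unitInterval Filter

namespace PBK

variable {Γ X Y M : Type} [Group Γ] [TopologicalSpace X] [TopologicalSpace Y] [TopologicalSpace M]
  [MulAction Γ Y]

/-- the action on the pull-back -/
@[reducible] def act {p : C(Y, X)} (q : C(M, X)) (hp : IsQuotientCoveringMap p Γ) :
    MulAction Γ (PB q p) where
  smul γ z := ⟨(z.1.1, γ • z.1.2), z.2.trans (hp.map_smul γ).symm⟩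
  one_smul z := Subtype.ext (Prod.ext rfl (one_smul Γ z.1.2))
  mul_smul a b z := Subtype.ext (Prod.ext rfl (mul_smul a b z.1.2))

theorem open_fst {p : Y → X} {q : M → X} (hq : Continuous q) (hp : IsOpenMap p) :
    IsOpenMap fun z : PB q p => z.1.1 := by
  refine IsOpenMap.of_nhds_le fun z U hU => ?_
  have h1 : (fun z : PB q p => z.1.1) ⁻¹' U ∈ 𝓝 z := hU
  rw [nhds_subtype_eq_comap, mem_comap] at h1
  obtain ⟨W, hW, hWU⟩ := h1
  obtain ⟨A, hA, B, hB, hAB⟩ := mem_nhds_prod_iff.1 hW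
  have h2 : p '' B ∈ 𝓝 (q z.1.1) := z.2 ▸ hp.image_mem_nhds hB
  filter_upwards [hA, hq.continuousAt h2] with m hm hm'
  obtain ⟨y, hy, e⟩ := hm'
  exact hWU (a := ⟨(m, y), e.symm⟩) (hAB ⟨hm, hy⟩)

theorem cov {p : C(Y, X)} (q : C(M, X)) (hp : IsQuotientCoveringMap p Γ) :
    letI := act q hp
    IsQuotientCoveringMap (fun z : PB q p => z.1.1) Γ := by
  let _ := act q hp
  have cs := hp.toContinuousConstSMul
  refine { toIsQuotientMap := ?_, continuous_const_smul := fun γ => ?_,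
           apply_eq_iff_mem_orbit := fun {a b} => ?_, disjoint := fun e => ?_ }
  · refine (open_fst q.continuous hp.isOpenQuotientMap.isOpenMap).isQuotientMap (by fun_prop) fun m => ?_
    obtain ⟨y, hy⟩ := hp.surjective (q m)
    exact ⟨⟨(m, y), hy.symm⟩, rfl⟩
  · have c : Continuous fun z : PB q p => (z.1.1, γ • z.1.2) := by fun_prop
    exact c.subtype_mk _
  · constructor
    · intro h
      have h1 : p a.1.2 = p b.1.2 := by rw [← a.2, ← b.2, h]
      obtain ⟨γ, hγ⟩ := hp.apply_eq_iff_mem_orbit.1 h1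
      exact ⟨γ, Subtype.ext (Prod.ext h.symm hγ)⟩
    · rintro ⟨γ, rfl⟩
      rfl
  · obtain ⟨U, hU, h⟩ := hp.disjoint e.1.2
    have c : Continuous fun z : PB q p => z.1.2 := by fun_prop
    refine ⟨(fun z : PB q p => z.1.2) ⁻¹' U, c.continuousAt hU, fun g hg => h g ?_⟩
    obtain ⟨_, ⟨z, hz, rfl⟩, h2⟩ := hg
    exact ⟨g • z.1.2, ⟨z.1.2, hz, rfl⟩, h2⟩

theorem bij_eq (q : C(M, X)) {m : M} {x : X} (h : q m = x)
    (hb : Function.Bijective (FundamentalGroup.map q m)) :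
    Function.Bijective (FundamentalGroup.mapOfEq q h) :=
  (CategoryTheory.eqToIso (congr_arg FundamentalGroupoid.mk h)).conj.bijective.comp hb

end PBK

open PBK in
theorem bPB (hMON : St_MON) : St_PB := by
  intro Γ X Y M _ _ _ _ _ p q hp
  let _ := act q hp
  refine ⟨act q hp, fun _ _ => rfl, cov q hp, fun hY hM m₀ hb => ?_⟩
  obtain ⟨e₀, he⟩ := hp.surjective (q m₀)
  let P : C(PB q p, M) := ⟨fun z => z.1.1, by fun_prop⟩
  have hP : IsQuotientCoveringMap P Γ := cov q hp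
  let e : PB q p := ⟨(m₀, e₀), he.symm⟩
  obtain ⟨a1, a2, a3, -⟩ := hMON Γ M (PB q p) P hP e
  obtain ⟨b1, -, -, b4⟩ := hMON Γ X Y p hp e₀
  refine a3 hM ?_
  have key : ∀ γ : FundamentalGroup M m₀,
      mon hP e γ = mon hp e₀ (FundamentalGroup.mapOfEq q he.symm γ) := by
    rintro ⟨γ⟩
    obtain ⟨g, Λ, hΛ⟩ := a2 γ
    have c : Continuous fun z : PB q p => z.1.2 := by fun_prop
    have h1 := a1 g Λ γ hΛ
    have h2 := b1 g (Λ.map c) ((Path.map γ q.continuous).cast he he) fun t =>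
      (congrArg q (hΛ t)).trans (Λ t).2
    have h3 := FundamentalGroup.mapOfEq_apply q he.symm (cls γ)
    exact (h1.trans h2.symm).trans (congrArg (mon hp e₀) h3.symm)
  have e1 : (mon hP e : FundamentalGroup M m₀ → Γᵐᵒᵖ) =
      mon hp e₀ ∘ FundamentalGroup.mapOfEq q he.symm := funext key
  exact e1 ▸ (b4 hY).comp (bij_eq q he.symm hb)

end Pool.Agent.Lib.NFB
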