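import Pool.Agent.Lib.NFB.Blue2

/-! Sums, products with the line and trivial coverings are quotient coverings. -/

namespace Pool.Agent.Lib.NFB

open Set Topology

namespace PCOV

theorem sum (Γ A B A' B' : Type) [Group Γ] [TopologicalSpace A] [TopologicalSpace B]
    [TopologicalSpace A'] [TopologicalSpace B'] [MulAction Γ A] [MulAction Γ B] (p : C(A, A'))
    (q : C(B, B')) (hp : IsQuotientCoveringMap p Γ) (hq : IsQuotientCoveringMap q Γ) :
    IsQuotientCoveringMap (sm p q) Γ where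
  toIsQuotientMap := (hp.isOpenQuotientMap.isOpenMap.sumMap
    hq.isOpenQuotientMap.isOpenMap).isQuotientMap (sm p q).continuous
    (hp.surjective.sumMap hq.surjective)
  continuous_const_smul g :=
    (hp.continuous_const_smul g).sumMap (hq.continuous_const_smul g)
  apply_eq_iff_mem_orbit {e₁ e₂} := by
    rcases e₁ with a | b <;> rcases e₂ with a' | b'
    · refine Sum.inl_injective.eq_iff.trans (hp.apply_eq_iff_mem_orbit.trans ?_)
      exact exists_congr fun g => (Sum.inl_injective.eq_iff (β := A ⊕ B)).symm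
    · exact ⟨fun h => (Sum.inl_ne_inr h).elim, fun ⟨g, h⟩ => (Sum.inr_ne_inl h).elim⟩
    · exact ⟨fun h => (Sum.inr_ne_inl h).elim, fun ⟨g, h⟩ => (Sum.inl_ne_inr h).elim⟩
    · refine Sum.inr_injective.eq_iff.trans (hq.apply_eq_iff_mem_orbit.trans ?_)
      exact exists_congr fun g => (Sum.inr_injective.eq_iff (β := A ⊕ B)).symm
  disjoint e := by
    rcases e with a | b
    · obtain ⟨U, hU, h⟩ := hp.disjoint a
      refine ⟨Sum.inl '' U, isOpenMap_inl.image_mem_nhds hU, ?_⟩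
      rintro g ⟨_, ⟨_, ⟨x, hx, rfl⟩, rfl⟩, y, hy, e⟩
      exact h g ⟨y, ⟨x, hx, (Sum.inl_injective e).symm⟩, hy⟩
    · obtain ⟨U, hU, h⟩ := hq.disjoint b
      refine ⟨Sum.inr '' U, isOpenMap_inr.image_mem_nhds hU, ?_⟩
      rintro g ⟨_, ⟨_, ⟨x, hx, rfl⟩, rfl⟩, y, hy, e⟩
      exact h g ⟨y, ⟨x, hx, (Sum.inr_injective e).symm⟩, hy⟩

theorem line (G K K' : Type) [Group G] [TopologicalSpace K] [TopologicalSpace K'] [MulAction G K]
    (p : C(K, K')) (hp : IsQuotientCoveringMap p G) :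
    ∃ _ : MulAction (G × Multiplicative ℤ) (K × ℝ),
      (∀ (γ : G × Multiplicative ℤ) (k : K) (r : ℝ), γ • (k, r) = (γ.1 • k, r + (γ.2.toAdd : ℤ))) ∧
      IsQuotientCoveringMap (p.prodMap ex) (G × Multiplicative ℤ) := by
  let M : MulAction (G × Multiplicative ℤ) (K × ℝ) :=
    { smul := fun γ z => (γ.1 • z.1, z.2 + (γ.2.toAdd : ℤ))
      one_smul := fun z => Prod.ext (one_smul G z.1) (by
        show z.2 + ((0 : ℤ) : ℝ) = z.2
        simp)
      mul_smul := fun γ δ z => Prod.ext (mul_smul γ.1 δ.1 z.1) (by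
        show z.2 + ((γ.2.toAdd + δ.2.toAdd : ℤ) : ℝ) = z.2 + (δ.2.toAdd : ℤ) + (γ.2.toAdd : ℤ)
        push_cast; ring) }
  refine ⟨M, fun _ _ _ => rfl, ?_, ⟨fun γ => ?_⟩, fun {e₁ e₂} => ?_, fun e => ?_⟩
  · exact (hp.isOpenQuotientMap.prodMap
      ⟨ex_surj, ex.continuous, ex_cov.isOpenMap⟩).isQuotientMap
  · exact ((hp.continuous_const_smul γ.1).comp continuous_fst).prodMk
      (continuous_snd.add continuous_const)
  · constructor
    · intro h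
      obtain ⟨g, hg⟩ := hp.apply_eq_iff_mem_orbit.1 (congrArg Prod.fst h)
      obtain ⟨n, hn⟩ := ex_eq_iff.1 (congrArg Prod.snd h)
      exact ⟨(g, Multiplicative.ofAdd n), Prod.ext hg hn.symm⟩
    · rintro ⟨γ, rfl⟩
      exact Prod.ext (hp.map_smul γ.1) (ex_eq_iff.2 ⟨γ.2.toAdd, rfl⟩)
  · obtain ⟨U, hU, h⟩ := hp.disjoint e.1
    refine ⟨U ×ˢ Metric.ball e.2 (1 / 2),
      prod_mem_nhds hU (Metric.ball_mem_nhds _ (by norm_num)), ?_⟩
    rintro γ ⟨_, ⟨x, ⟨h1, h2⟩, rfl⟩, h3, h4⟩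
    refine Prod.ext (h γ.1 ⟨_, ⟨x.1, h1, rfl⟩, h3⟩) ?_
    have h5 : |x.2 + ((γ.2.toAdd : ℤ) : ℝ) - e.2| < 1 / 2 := h4
    have h6 : |x.2 - e.2| < 1 / 2 := h2
    rw [abs_lt] at h5 h6
    have h7 : ((γ.2.toAdd : ℤ) : ℝ) < 1 := by linarith [h5.2, h6.1]
    have h8 : (-1 : ℝ) < ((γ.2.toAdd : ℤ) : ℝ) := by linarith [h5.1, h6.2]
    have h9 : γ.2.toAdd < 1 := by exact_mod_cast h7
    have h10 : -1 < γ.2.toAdd := by exact_mod_cast h8
    exact toAdd_eq_zero.1 (by omega)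

theorem triv (Γ : Type) [Group Γ] [TopologicalSpace Γ] [DiscreteTopology Γ] :
    IsQuotientCoveringMap (cu Γ) Γ where
  toIsQuotientMap := IsOpenMap.isQuotientMap (fun _ _ => isOpen_discrete _) (cu Γ).continuous
    fun _ => ⟨1, rfl⟩
  continuous_const_smul _ := continuous_of_discreteTopology
  apply_eq_iff_mem_orbit {e₁ e₂} := ⟨fun _ => ⟨e₁ * e₂⁻¹, inv_mul_cancel_right e₁ e₂⟩, fun _ => rfl⟩
  disjoint e := ⟨{e}, (isOpen_discrete _).mem_nhds rfl, by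
    rintro g ⟨_, ⟨_, rfl, rfl⟩, h⟩
    exact mul_eq_right.1 h⟩

theorem prod (Γ : Type) [Group Γ] [TopologicalSpace Γ] [DiscreteTopology Γ] (A : Type)
    [TopologicalSpace A] : ∃ _ : MulAction Γ (Γ × A), (∀ (γ δ : Γ) (y : A), γ • (δ, y) = (γ * δ, y)) ∧
      IsQuotientCoveringMap (ContinuousMap.snd : C(Γ × A, A)) Γ := by
  let M : MulAction Γ (Γ × A) :=
    { smul := fun γ z => (γ * z.1, z.2)
      one_smul := fun z => Prod.ext (one_mul z.1) rfl
      mul_smul := fun γ δ z => Prod.ext (mul_assoc γ δ z.1) rfl }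
  refine ⟨M, fun _ _ _ => rfl, ?_, ⟨fun γ => ?_⟩, fun {e₁ e₂} => ?_, fun e => ?_⟩
  · exact isQuotientMap_snd
  · exact ((continuous_of_discreteTopology (f := fun δ : Γ => γ * δ)).comp continuous_fst).prodMk
      continuous_snd
  · exact ⟨fun h => ⟨e₁.1 * e₂.1⁻¹, Prod.ext (inv_mul_cancel_right e₁.1 e₂.1) h.symm⟩,
      fun ⟨γ, h⟩ => h ▸ rfl⟩
  · refine ⟨{e.1} ×ˢ univ, prod_mem_nhds ((isOpen_discrete _).mem_nhds rfl) Filter.univ_mem, ?_⟩
    rintro γ ⟨_, ⟨x, ⟨h1, -⟩, rfl⟩, h3, -⟩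
    have h4 : γ * x.1 = e.1 := h3
    rw [show x.1 = e.1 from h1] at h4
    exact mul_eq_right.1 h4

end PCOV

theorem bPCOV : St_PCOV := ⟨PCOV.sum, PCOV.line, fun Γ _ _ _ => ⟨PCOV.triv Γ, PCOV.prod Γ⟩⟩

end Pool.Agent.Lib.NFB
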