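import Pool.Agent.Lib.NFB.Blue1

/-! The upper sheet of a double carries the fundamental group. -/

namespace Pool.Agent.Lib.NFB

open Set Topology Metric unitInterval Filter

namespace PI1D

variable {V : Type} [NormedAddCommGroup V] {N : Set V}

/-- the lower sheet -/
noncomputable def lo (N : Set V) : C(N, Db N) :=
  ⟨fun x => ⟨(x.1, -dp N x.1), x.2, by rw [abs_neg]; exact abs_of_nonneg (dp_nonneg N _)⟩,
    (continuous_subtype_val.prodMk
      ((continuous_dp N).comp continuous_subtype_val).neg).subtype_mk _⟩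

theorem up_pr {z : Db N} (h : 0 ≤ z.1.2) : dup N (dpr N z) = z :=
  Subtype.ext (Prod.ext rfl (z.2.2.symm.trans (abs_of_nonneg h)))

theorem lo_pr {z : Db N} (h : z.1.2 ≤ 0) : lo N (dpr N z) = z :=
  Subtype.ext (Prod.ext rfl (neg_eq_iff_eq_neg.2 (z.2.2.symm.trans (abs_of_nonpos h))))

/-- homotopic to a path in the upper sheet -/
def Up {a b : Db N} (γ : Path a b) : Prop :=
  ∃ γ' : Path a b, γ.Homotopic γ' ∧ ∀ t, 0 ≤ (γ' t).1.2

theorem Up.trans {a b c : Db N} {γ : Path a b} {δ : Path b c} (h : Up γ) (h' : Up δ) :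
    Up (γ.trans δ) := by
  obtain ⟨γ', h1, h2⟩ := h
  obtain ⟨δ', h3, h4⟩ := h'
  refine ⟨γ'.trans δ', h1.hcomp h3, fun t => ?_⟩
  have : γ'.trans δ' t ∈ range γ' ∪ range δ' := Path.trans_range γ' δ' ▸ mem_range_self t
  rcases this with ⟨s, e⟩ | ⟨s, e⟩
  exacts [e ▸ h2 s, e ▸ h4 s]

theorem Up.cast {a b a' b' : Db N} {γ : Path a b} (h : Up γ) (ha : a' = a) (hb : b' = b) :
    Up (γ.cast ha hb) := by
  subst ha hb
  exact h

theorem Up.mem {x₀ : N} {γ : Path (dup N x₀) (dup N x₀)} (h : Up γ) :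
    cls γ ∈ (FundamentalGroup.map (dup N) x₀).range := by
  obtain ⟨γ', h1, h2⟩ := h
  let p : Path x₀ x₀ := γ'.map (dpr N).continuous
  have e : p.map (dup N).continuous = γ' := Path.ext (funext fun t => up_pr (h2 t))
  refine ⟨cls p, ?_⟩
  show cls (p.map (dup N).continuous) = cls γ
  rw [e]
  exact Quotient.sound h1.symm

theorem low (hN : Nᶜ.Nonempty)
    (H : ∀ (x y : N) (γ : Path x y), x.1 ∉ interior N → y.1 ∉ interior N →
      ∃ γ' : Path x y, γ'.Homotopic γ ∧ ∀ t, (γ' t).1 ∉ interior N)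
    {a b : Db N} (γ : Path a b) (ha : 0 ≤ a.1.2) (hb : 0 ≤ b.1.2) (h : ∀ t, (γ t).1.2 ≤ 0) :
    Up γ := by
  have a0 : a.1.2 ≤ 0 := γ.source ▸ h 0
  have b0 : b.1.2 ≤ 0 := γ.target ▸ h 1
  have fr : ∀ z : Db N, 0 ≤ z.1.2 → z.1.2 ≤ 0 → (dpr N z).1 ∉ interior N := fun z h1 h2 hi => by
    have := (dp_pos_iff hN).2 hi
    rw [show dp N (dpr N z).1 = |z.1.2| from z.2.2.symm, h2.antisymm h1, abs_zero] at this
    exact this.false
  obtain ⟨p, h1, h2⟩ := H _ _ (γ.map (dpr N).continuous) (fr a ha a0) (fr b hb b0)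
  have e : γ = ((γ.map (dpr N).continuous).map (lo N).continuous).cast (lo_pr a0).symm
      (lo_pr b0).symm := Path.ext (funext fun t => (lo_pr (h t)).symm)
  rw [e]
  refine Up.cast ⟨p.map (lo N).continuous, h1.symm.map (lo N), fun t => ?_⟩ _ _
  exact neg_nonneg.2 (not_lt.1 fun h0 => h2 t ((dp_pos_iff hN).1 h0))

/-- the collar, cut off -/
theorem glob {η ε : ℝ} (β : C(I × {x : N // dp N x < η}, N)) (h0 : 0 < ε) (hε : ε ≤ η)
    (b0 : ∀ x, β (0, x) = x.1) (b1 : ∀ x, dp N (β (1, x)) = 0)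
    (b2 : ∀ l x, dp N (β (l, x)) ≤ dp N x.1) (b3 : ∀ l x, dp N x.1 = 0 → β (l, x) = x.1) :
    ∃ B : C(I × N, N), (∀ x, B (0, x) = x) ∧ (∀ l x, dp N (B (l, x)) ≤ dp N x) ∧
      (∀ x : N, dp N x < ε / 3 → dp N (B (1, x)) = 0) ∧
      ∀ l (x : N), dp N x = 0 ∨ ε ≤ dp N x → B (l, x) = x := by
  have cd : Continuous fun x : N => dp N x := (continuous_dp N).comp continuous_subtype_val
  let c : N → I := fun x => projIcc 0 1 zero_le_one (2 - 3 * dp N x / ε)
  have cc : Continuous c := continuous_projIcc.comp (by fun_prop)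
  have c0 : ∀ x : N, 2 * ε / 3 < dp N x → c x = 0 := fun x h =>
    projIcc_of_le_left _ (by rw [sub_nonpos, le_div_iff₀ h0]; linarith)
  have c1 : ∀ x : N, dp N x < ε / 3 → c x = 1 := fun x h =>
    projIcc_of_right_le _ (by rw [le_sub_comm, div_le_iff₀ h0]; linarith)
  let B : I × N → N := fun p => if h : dp N p.2 < η then β (p.1 * c p.2, ⟨p.2, h⟩) else p.2
  have far : ∀ p : I × N, 2 * ε / 3 < dp N p.2 → B p = p.2 := fun p h => by
    simp only [B]
    split_ifs
    · rw [c0 _ h, mul_zero, b0]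
    · rfl
  have cB : Continuous B := continuous_iff_continuousAt.2 fun p => by
    by_cases h : dp N p.2 < η
    · have he : IsOpenEmbedding (Prod.map id Subtype.val : I × {x : N // dp N x < η} → I × N) :=
        IsOpenEmbedding.id.prodMap (isOpen_lt cd continuous_const).isOpenEmbedding_subtypeVal
      have e : B ∘ (Prod.map id Subtype.val : I × {x : N // dp N x < η} → I × N) =
          fun q => β (q.1 * c q.2.1, q.2) := funext fun q => dif_pos q.2.2
      refine (he.continuousAt_iff (x := (p.1, ⟨p.2, h⟩))).1 ?_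
      rw [e]
      exact (β.continuous.comp (by fun_prop)).continuousAt
    · refine continuous_snd.continuousAt.congr ?_
      filter_upwards [(isOpen_lt continuous_const (cd.comp continuous_snd)).mem_nhds
        (show 2 * ε / 3 < dp N p.2 by linarith [not_lt.1 h])] with q hq using (far q hq).symm
  refine ⟨⟨B, cB⟩, fun x => ?_, fun l x => ?_, fun x h => ?_, fun l x h => ?_⟩
  · show (if h : dp N x < η then β (0 * c x, ⟨x, h⟩) else x) = x
    split_ifs
    · rw [zero_mul, b0]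
    · rfl
  · show dp N (if h : dp N x < η then β (l * c x, ⟨x, h⟩) else x : N) ≤ _
    split_ifs
    · exact b2 _ _
    · rfl
  · show dp N (if h : dp N x < η then β (1 * c x, ⟨x, h⟩) else x : N) = 0
    rw [dif_pos (by linarith), c1 x h, mul_one, b1]
  · rcases h with h | h
    · show (if h : dp N x < η then β (l * c x, ⟨x, h⟩) else x) = x
      rw [dif_pos (by linarith), b3 _ _ h]
    · exact far (l, x) (by show _ < dp N x; linarith)

end PI1D

open PI1D in
theorem bPI1D (hC : St_COLLAR) (hS : St_SIGN) (hG : St_GEN0) : St_PI1D := by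
  intro V _ _ _ N hE hN hP H
  have ne : N.Nonempty := let ⟨x⟩ := hP.nonempty; ⟨x.1, x.2⟩
  refine ⟨?_, fun x₀ => ?_⟩
  · obtain ⟨x, hx⟩ := nonempty_frontier_iff.2 ⟨ne, nonempty_compl.1 hN⟩
    have xN : x ∈ N := hE.1.isClosed.frontier_subset hx
    have x0 : dp N x = 0 := (not_lt.1 fun h => hx.2 ((dp_pos_iff hN).1 h)).antisymm (dp_nonneg N _)
    rw [pathConnectedSpace_iff_univ, show (univ : Set (Db N)) = range (dup N) ∪ range (lo N) from
      (eq_univ_of_forall fun z => (le_total 0 z.1.2).imp (fun h => ⟨_, up_pr h⟩)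
        fun h => ⟨_, lo_pr h⟩).symm]
    exact (isPathConnected_range (dup N).continuous).union (isPathConnected_range (lo N).continuous)
      ⟨dup N ⟨x, xN⟩, ⟨_, rfl⟩, _, lo_pr x0.le⟩
  obtain ⟨η, β, η0, b0, b1, b2, b3⟩ := hC V N hE ne hN
  obtain ⟨ε, ε0, εη, εx⟩ : ∃ ε : ℝ, 0 < ε ∧ ε ≤ η ∧ (dp N x₀ = 0 ∨ ε ≤ dp N x₀) := by
    rcases (dp_nonneg N x₀).eq_or_lt with h | h
    · exact ⟨η, η0, le_rfl, .inl h.symm⟩
    · exact ⟨min η (dp N x₀), lt_min η0 h, min_le_left _ _, .inr (min_le_right _ _)⟩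
  obtain ⟨B, B0, B1, B2, B3⟩ := glob β ε0 εη b0 b1 b2 b3
  have cs : Continuous fun z : Db N => z.1.2 := by fun_prop
  obtain ⟨K, hK⟩ := hS V N (I × Db N) (B.comp ((ContinuousMap.id I).prodMap (dpr N)))
    (fun p => 0 ≤ p.2.1.2) hN fun p hp => by
      have h1 : 0 < |p.2.1.2| := p.2.2.2 ▸ ((dp_pos_iff hN).2 hp).trans_le (B1 p.1 (dpr N p.2))
      rcases (abs_pos.1 h1).lt_or_gt with h | h
      · filter_upwards [(isOpen_lt (cs.comp continuous_snd) continuous_const).mem_nhds h] with q hq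
        exact iff_of_false (not_le.2 hq) (not_le.2 h)
      · filter_upwards [(isOpen_lt continuous_const (cs.comp continuous_snd)).mem_nhds h] with q hq
        exact iff_of_true (le_of_lt hq) h.le
  have Kp : ∀ l z, 0 ≤ z.1.2 → (K (l, z)).1.2 = dp N (B (l, dpr N z)) := fun l z h =>
    (hK (l, z)).2.trans (by rw [if_pos h, one_mul]; rfl)
  have Kn : ∀ l z, ¬ 0 ≤ z.1.2 → (K (l, z)).1.2 = -dp N (B (l, dpr N z)) := fun l z h =>
    (hK (l, z)).2.trans (by rw [if_neg h, neg_one_mul]; rfl)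
  have dz : ∀ z : Db N, dp N (dpr N z) = |z.1.2| := fun z => z.2.2.symm
  have fix : ∀ l z, B (l, dpr N z) = dpr N z → K (l, z) = z := fun l z h => by
    refine Subtype.ext (Prod.ext ((hK (l, z)).1.trans (congrArg Subtype.val h)) ?_)
    by_cases h0 : 0 ≤ z.1.2
    · rw [Kp l z h0, h, dz, abs_of_nonneg h0]
    · rw [Kn l z h0, h, dz, abs_of_neg (not_le.1 h0), neg_neg]
  have K0 : ∀ z, K (0, z) = z := fun z => fix 0 z (B0 _)
  have Kd : ∀ l, K (l, dup N x₀) = dup N x₀ := fun l => fix l _ (B3 l x₀ εx)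
  let k : C(Db N, Db N) := ⟨fun z => K (1, z), by fun_prop⟩
  have kU : ∀ z : Db N, -(ε / 3) < z.1.2 → 0 ≤ (k z).1.2 := fun z h => by
    by_cases h0 : 0 ≤ z.1.2
    · exact (Kp 1 z h0).symm ▸ dp_nonneg N _
    · refine ((Kn 1 z h0).trans ?_).ge
      rw [B2 _ (by rw [dz, abs_of_neg (not_le.1 h0)]; linarith), neg_zero]
  have kV : ∀ z : Db N, z.1.2 < ε / 3 → (k z).1.2 ≤ 0 := fun z h => by
    by_cases h0 : 0 ≤ z.1.2
    · exact ((Kp 1 z h0).trans (B2 _ (by rwa [dz, abs_of_nonneg h0]))).le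
    · exact (Kn 1 z h0).trans_le (neg_nonpos.2 (dp_nonneg N _))
  have key : ∀ γ : Path (dup N x₀) (dup N x₀), Up (γ.map k.continuous) →
      cls γ ∈ (FundamentalGroup.map (dup N) x₀).range := fun γ h => by
    obtain ⟨γ', h1, h2⟩ := h.cast (Kd 1).symm (Kd 1).symm
    refine Up.mem ⟨γ', .trans ⟨⟨⟨⟨fun p => K (p.1, γ p.2), by fun_prop⟩, fun t => K0 _,
      fun t => rfl⟩, fun l t ht => ?_⟩⟩ h1, h2⟩
    have e : γ t = dup N x₀ := by
      rcases ht with rfl | rfl
      exacts [γ.source, γ.target]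
    show K (l, γ t) = γ t
    rw [e, Kd]
  have upU : ∀ {a b : Db N} (δ : Path a b), range δ ⊆ {z | -(ε / 3) < z.1.2} →
      Up (δ.map k.continuous) := fun δ h => ⟨_, .refl _, fun t => kU _ (h ⟨t, rfl⟩)⟩
  have inU : ∀ x, dup N x ∈ {z : Db N | -(ε / 3) < z.1.2} := fun x =>
    (show -(ε / 3) < 0 by linarith).trans_le (dp_nonneg N _)
  refine MonoidHom.range_eq_top.1 (hG (Db N) {z | -(ε / 3) < z.1.2} {z | z.1.2 < ε / 3} _ _
    (isOpen_lt continuous_const cs) (isOpen_lt cs continuous_const)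
    (eq_univ_of_forall fun z => ?_) (fun y hy => ?_) (inU x₀) (fun δ h => key δ (upU δ h))
    fun y y' δ δ' δ'' h h' h'' => key _ ?_)
  · rcases le_total 0 z.1.2 with h | h
    · exact .inl (show -(ε / 3) < z.1.2 by linarith)
    · exact .inr (show z.1.2 < ε / 3 by linarith)
  · have j1 : JoinedIn {z : Db N | -(ε / 3) < z.1.2} y (k y) := by
      refine ⟨⟨⟨fun l => K (l, y), by fun_prop⟩, K0 y, rfl⟩, fun l => ?_⟩
      show -(ε / 3) < (K (l, y)).1.2
      by_cases h0 : 0 ≤ y.1.2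
      · rw [Kp l y h0]
        exact inU _
      · have := B1 l (dpr N y)
        rw [dz, abs_of_neg (not_le.1 h0)] at this
        rw [Kn l y h0]
        linarith [show -(ε / 3) < y.1.2 from hy]
    have j2 : JoinedIn {z : Db N | -(ε / 3) < z.1.2} (dup N x₀) (dup N (dpr N (k y))) :=
      ⟨(PathConnectedSpace.somePath _ _).map (dup N).continuous, fun l => inU _⟩
    rw [up_pr (kU y hy)] at j2
    exact j2.trans j1.symm
  · rw [Path.map_trans, Path.map_trans]
    refine (upU δ h).trans ((low hN H _ (kU y (h ⟨1, δ.target⟩)) (kU y' (h'' ⟨1, δ''.target⟩))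
      fun t => kV _ (h' ⟨t, rfl⟩)).trans (upU _ ?_))
    rwa [Path.symm_range]

end Pool.Agent.Lib.NFB
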