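import Pool.Agent.Lib.NFB.Blue1

/-! The signed distance decreases along an inward direction. -/

namespace Pool.Agent.Lib.NFB

open Set Topology Metric

namespace PUSH

variable {V : Type} [NormedAddCommGroup V] [NormedSpace ℝ V] {N : Set V} {x₀ e : V} {r : ℝ}

theorem inside (hx : x₀ ∈ closure Nᶜ) (hr : 0 < r) (h : ELat N x₀ e r) {y : V} (hy : y ∈ N)
    (hn : ‖y - x₀‖ < r / 2) {t : ℝ} (t0 : 0 ≤ t) (tr : t ≤ r) :
    sd N (y + t • e) ≤ sd N y - t * r := by
  rcases t0.eq_or_lt with rfl | t0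
  · simp
  have hne : Nᶜ.Nonempty := closure_nonempty_iff.1 ⟨_, hx⟩
  have hm : y + t • e ∈ N := h y hy (by linarith) e (by simpa using hr) t t0.le tr
  rw [sd_of_mem hm, sd_of_mem hy, dp, dp]
  have d0 : 0 ≤ infDist y Nᶜ := infDist_nonneg
  have d1 : infDist y Nᶜ ≤ ‖y - x₀‖ := by
    rw [← infDist_closure, ← dist_eq_norm]
    exact infDist_le_dist_of_mem hx
  have d2 : ∀ z, dist y z < infDist y Nᶜ → z ∈ N := fun z hz =>
    not_not.1 (notMem_of_dist_lt_infDist hz)
  generalize infDist y Nᶜ = d at d0 d1 d2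
  have s0 : 0 < d + t * r := by positivity
  suffices k : d + t * r ≤ infDist (y + t • e) Nᶜ by linarith
  refine (le_infDist hne).2 fun z hz => not_lt.1 fun k => hz ?_
  rw [dist_comm, dist_eq_norm] at k
  obtain ⟨δ, rfl⟩ : ∃ δ, z = y + t • e + δ := ⟨z - (y + t • e), by abel⟩
  rw [add_sub_cancel_left] at k
  have q : ‖δ‖ / (d + t * r) < 1 := (div_lt_one s0).2 k
  have n1 : ∀ c : ℝ, 0 ≤ c → ‖(c / (d + t * r)) • δ‖ = c * (‖δ‖ / (d + t * r)) := fun c hc => by
    rw [norm_smul, Real.norm_of_nonneg (div_nonneg hc s0.le)]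
    ring
  have m1 : y + (d / (d + t * r)) • δ ∈ N := by
    rcases d0.eq_or_lt with rfl | d0
    · simpa using hy
    · refine d2 _ ?_
      rw [dist_self_add_right, n1 d d0.le]
      exact mul_lt_of_lt_one_right d0 q
  have m2 := h _ m1 (by
    have a := norm_add_le (y - x₀) ((d / (d + t * r)) • δ)
    rw [n1 d d0, ← add_sub_right_comm] at a
    linarith [mul_le_of_le_one_right d0 q.le]) (e + (r / (d + t * r)) • δ)
    (by rw [add_sub_cancel_left, n1 r hr.le]; exact mul_lt_of_lt_one_right hr q) t t0.le tr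
  have e1 : d / (d + t * r) + t * (r / (d + t * r)) = 1 := by field_simp
  have e2 : y + (d / (d + t * r)) • δ + t • (e + (r / (d + t * r)) • δ) =
      y + t • e + (d / (d + t * r) + t * (r / (d + t * r))) • δ := by module
  rwa [e2, e1, one_smul] at m2

end PUSH

theorem bPUSH : St_PUSH := by
  intro V _ _ N x₀ e r hN hx hr h
  have hc : x₀ ∈ closure Nᶜ := by
    rw [closure_compl]
    exact hx.2
  have h0 : x₀ ∈ N := hN.isClosed.frontier_subset hx
  have e0 := norm_nonneg e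
  obtain ⟨s, s0, s1⟩ : ∃ s : ℝ, 0 < s ∧ s * (1 + ‖e‖) = r / 4 :=
    ⟨r / 4 / (1 + ‖e‖), by positivity, by field_simp⟩
  have s2 : s ≤ r / 4 := by nlinarith
  refine ⟨s, s0, fun y hy t t0 ts => ?_⟩
  have tr : 0 ≤ t * r := by positivity
  by_cases hm : y ∈ N
  · linarith [PUSH.inside hc hr h hm (by linarith) t0 (by linarith)]
  obtain ⟨p, hp, hD⟩ := hN.exists_infDist_eq_dist ⟨_, h0⟩ y
  have D1 : dist y p ≤ ‖y - x₀‖ := by
    rw [← hD, ← dist_eq_norm]
    exact infDist_le_dist_of_mem h0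
  have es : sd N y = ‖y - p‖ := by
    rw [sd, infDist_zero_of_mem (s := Nᶜ) hm, sub_zero, hD, dist_eq_norm]
  rw [dist_eq_norm] at D1
  have D0 : 0 < ‖y - p‖ := norm_pos_iff.2 (sub_ne_zero.2 fun k => hm (k ▸ hp))
  have key : ∀ u : ℝ, 0 ≤ u → u ≤ r → p + u • (e + (r / 2 / ‖y - p‖) • (y - p)) ∈ N := fun u =>
    h p hp (by
      have a := norm_sub_le (y - x₀) (y - p)
      rw [sub_sub_sub_cancel_left] at a
      linarith) _ (by
      rw [add_sub_cancel_left, norm_smul, Real.norm_of_nonneg (by positivity),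
        div_mul_cancel₀ _ D0.ne']
      linarith) u
  rw [es]
  rcases le_total (t * (r / 2)) ‖y - p‖ with k | k
  · have a := infDist_le_dist_of_mem (x := y + t • e) (key t t0 (by linarith))
    have b : y + t • e - (p + t • (e + (r / 2 / ‖y - p‖) • (y - p))) =
        (1 - t * (r / 2 / ‖y - p‖)) • (y - p) := by module
    have c : (1 - t * (r / 2 / ‖y - p‖)) * ‖y - p‖ = ‖y - p‖ - t * (r / 2) := by field_simp
    have c0 : 0 ≤ 1 - t * (r / 2 / ‖y - p‖) :=
      (mul_nonneg_iff_of_pos_right D0).1 (by rw [c]; linarith)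
    rw [dist_eq_norm, b, norm_smul, Real.norm_of_nonneg c0, c] at a
    rw [sd]
    linarith [infDist_nonneg (x := y + t • e) (s := Nᶜ)]
  · obtain ⟨u, u0, hu⟩ : ∃ u : ℝ, 0 ≤ u ∧ u * (r / 2) = ‖y - p‖ :=
      ⟨‖y - p‖ / (r / 2), by positivity, by field_simp⟩
    have ut : u ≤ t := le_of_mul_le_mul_right (hu.le.trans k) (by positivity)
    have c : u * (r / 2 / ‖y - p‖) = 1 := by rw [← mul_div_assoc, hu, div_self D0.ne']
    have b : p + u • (e + (r / 2 / ‖y - p‖) • (y - p)) =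
        p + u • e + (u * (r / 2 / ‖y - p‖)) • (y - p) := by module
    have m := key u u0 (by linarith)
    rw [b, c, one_smul, add_right_comm, add_sub_cancel] at m
    have a := PUSH.inside hc hr h m (by
      have a := norm_add_le (y - x₀) (u • e)
      rw [norm_smul, Real.norm_of_nonneg u0, ← add_sub_right_comm] at a
      nlinarith) (sub_nonneg.2 ut) (by linarith)
    have z : sd N (y + u • e) ≤ 0 := (sd_nonpos_iff hN.isClosed ⟨_, h0⟩).2 m
    rw [add_assoc, ← add_smul, add_sub_cancel] at a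
    nlinarith [mul_nonneg (sub_nonneg.2 ut) hr.le]

end Pool.Agent.Lib.NFB
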