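import Pool.Agent.Lib.NFB.Blue2

/-! Row RET: the retraction onto one copy of the fibre. -/

namespace Pool.Agent.Lib.NFB

open Set Topology unitInterval ContinuousMap

noncomputable section

namespace RET

variable {G : Type} [Group G] {a b s t : G} {T : Type} [TopologicalSpace T]

/-- membership in the torus group -/
def Tg (a b : G) (δ : G × Multiplicative ℤ) : Prop := ∃ p : ℤ × ℤ, δ = (a ^ p.1 * b ^ p.2, 1)

open Classical in
/-- the identification of the fibres -/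
def ph (a b : G) (D : Mo T) (δ : G × Multiplicative ℤ) (y : T) : T :=
  if h : Tg a b δ then (D.b ^ h.choose.2) y else D.t₀

theorem ph_eq (h : MP_dab48e_gt.Univ a b s t) (D : Mo T) (m n : ℤ) (y : T) :
    ph a b D (a ^ m * b ^ n, 1) y = (D.b ^ n) y := by
  have e : Tg a b (a ^ m * b ^ n, 1) := ⟨(m, n), rfl⟩
  rw [ph, dif_pos e]
  have e1 : a ^ m * b ^ n = a ^ e.choose.1 * b ^ e.choose.2 := congrArg Prod.fst e.choose_spec
  generalize e.choose = p at e1
  have c : Commute a b := h.rel.ab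
  have e2 : a ^ (m - p.1) * b ^ (n - p.2) = 1 := by
    calc _ = (a ^ p.1)⁻¹ * (a ^ m * b ^ n) * (b ^ p.2)⁻¹ := by group
      _ = 1 := by rw [e1]; group
  rw [(c.zpow_zpow _ _).eq] at e2
  rw [← sub_eq_zero.1 (h.two.ind _ _ e2).1]

theorem st_a (h : MP_dab48e_gt.Pres a b s t) (m n k : ℤ) :
    a ^ m * b ^ n * a ^ k = a ^ (m + k) * b ^ n := by
  have c : Commute a b := h.ab
  rw [mul_assoc, ← (c.zpow_zpow k n).eq, ← mul_assoc, zpow_add]

theorem ph_a (h : MP_dab48e_gt.Univ a b s t) (D : Mo T) (δ : G × Multiplicative ℤ) (y : T) :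
    ph a b D (δ.1 * a⁻¹, δ.2) y = ph a b D δ y := by
  by_cases e : Tg a b δ
  · obtain ⟨⟨m, n⟩, rfl⟩ := e
    simp only
    rw [← zpow_neg_one, st_a h.rel, ph_eq h, ph_eq h]
  · rw [ph, ph, dif_neg e, dif_neg]
    rintro ⟨⟨m, n⟩, e'⟩
    refine e ⟨(m + 1, n), Prod.ext ?_ (congrArg Prod.snd e' :)⟩
    rw [← st_a h.rel, zpow_one]
    exact eq_mul_of_mul_inv_eq (congrArg Prod.fst e')

theorem ph_b (h : MP_dab48e_gt.Univ a b s t) (D : Mo T) (δ : G × Multiplicative ℤ) (y : T) :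
    ph a b D (δ.1 * b⁻¹, δ.2) (D.b y) = ph a b D δ y := by
  by_cases e : Tg a b δ
  · obtain ⟨⟨m, n⟩, rfl⟩ := e
    simp only
    rw [mul_assoc, ← zpow_sub_one, ph_eq h, ph_eq h]
    conv_rhs => rw [← sub_add_cancel n 1, zpow_add_apply, zpow_one]
  · rw [ph, ph, dif_neg e, dif_neg]
    rintro ⟨⟨m, n⟩, e'⟩
    refine e ⟨(m, n + 1), Prod.ext ?_ (congrArg Prod.snd e' :)⟩
    rw [zpow_add_one, ← mul_assoc]
    exact eq_mul_of_mul_inv_eq (congrArg Prod.fst e')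

theorem ph_t (D : Mo T) (δ : G × Multiplicative ℤ) : ph a b D δ D.t₀ = D.t₀ := by
  unfold ph
  split_ifs
  · exact (semi_zpow (φ := .refl Unit) (F := fun _ => D.t₀) (fun _ => D.b_t.symm) _ ()).symm
  · rfl

theorem ph_c (D : Mo T) (δ : G × Multiplicative ℤ) : Continuous (ph a b D δ) := by
  unfold ph
  split_ifs
  · exact map_continuous _
  · exact continuous_const

theorem ps (h : MP_dab48e_gt.Pres a b s t) (ψ : G × Multiplicative ℤ →* Multiplicative ℤ) :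
    ψ (a, 1) = 1 ∧ ψ (b, 1) = 1 := by
  have e1 := congrArg (ψ.comp (MonoidHom.inl _ _)) h.ta
  have e2 := congrArg (ψ.comp (MonoidHom.inl _ _)) h.sa
  simp only [map_mul, MonoidHom.comp_apply, MonoidHom.inl_apply] at e1 e2
  rw [mul_comm (ψ (a, 1))] at e1 e2
  exact ⟨left_eq_mul.1 e1, left_eq_mul.1 e2⟩

theorem ps' {c : G} {ψ : G × Multiplicative ℤ →* Multiplicative ℤ} (h : ψ (c, 1) = 1)
    (δ : G × Multiplicative ℤ) (n : ℤ) : ψ (δ.1 * c ^ n, δ.2) = ψ δ := by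
  have e : (δ.1 * c ^ n, δ.2) = δ * (c, 1) ^ n := by simp [Prod.ext_iff]
  rw [e, map_mul, map_zpow, h, one_zpow, mul_one]

variable [TopologicalSpace G] [DiscreteTopology G]

/-- the homomorphism on the bundle -/
def pz (h : MP_dab48e_gt.Pres a b s t) (ψ : G × Multiplicative ℤ →* Multiplicative ℤ)
    (ρ : Act T) : C(Z (pAct h ρ), ℝ) :=
  Z.lift ⟨fun z => ((ψ z.2.1).toAdd : ℤ), Continuous.comp
      (f := fun z : (ℝ × ℝ) × ((G × Multiplicative ℤ) × T) => z.2.1)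
      (g := fun δ : G × Multiplicative ℤ => (((ψ δ).toAdd : ℤ) : ℝ))
      continuous_of_discreteTopology (by fun_prop)⟩
    (fun _ _ y => congrArg (fun u : Multiplicative ℤ => ((u.toAdd : ℤ) : ℝ))
      (zpow_neg_one a ▸ ps' (ps h ψ).1 y.1 (-1) : ψ (y.1.1 * a⁻¹, y.1.2) = ψ y.1))
    fun _ _ y => congrArg (fun u : Multiplicative ℤ => ((u.toAdd : ℤ) : ℝ))
      (zpow_neg_one b ▸ ps' (ps h ψ).2 y.1 (-1) : ψ (y.1.1 * b⁻¹, y.1.2) = ψ y.1)

/-- the retraction of the bundle -/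
def rz (h : MP_dab48e_gt.Univ a b s t) (D : Mo T) : C(Z (pAct h.rel D.act), T) :=
  Z.lift ⟨fun z => ph a b D z.2.1 z.2.2, Continuous.comp
      (g := fun w : (G × Multiplicative ℤ) × T => ph a b D w.1 w.2)
      (continuous_prod_of_discrete_left.2 fun δ => ph_c D δ) continuous_snd⟩
    (fun _ _ y => ph_a h D y.1 y.2) fun _ _ y => ph_b h D y.1 y.2

theorem rz_zm (h : MP_dab48e_gt.Univ a b s t) (D : Mo T) (x : ℝ × ℝ) (δ : G × Multiplicative ℤ)
    (y : T) : rz h D (zm _ (x, (δ, y))) = ph a b D δ y := Z.lift_zm ..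

theorem pz_zm (h : MP_dab48e_gt.Pres a b s t) (ψ : G × Multiplicative ℤ →* Multiplicative ℤ)
    (ρ : Act T) (x : ℝ × ℝ) (δ : (G × Multiplicative ℤ) × T) :
    pz h ψ ρ (zm _ (x, δ)) = ((ψ δ.1).toAdd : ℤ) := Z.lift_zm ..

end RET

open RET in
theorem bRET : St_RET := by
  intro G _ _ _ a b s t h _ T _ D _ hx
  let r : C(Xt h.rel D, T) := DM.lift (.const _ D.t₀) (.const _ D.t₀) (rz h D) (fun _ => rfl)
    (Z.ind fun x y => ((rz_zm h D x y.1 D.t₀).trans (ph_t D y.1)).symm)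
  have rB : ∀ x δ y, r (inB _ _ (zm _ (x, (δ, y)))) = ph a b D δ y := rz_zm h D
  refine ⟨(inB _ _).comp ((zm _).comp ⟨fun y => (0, (1, y)), by fun_prop⟩), r, fun y => ?_,
    fun ψ C hC => ?_⟩
  · refine (rB 0 (1, 1) y).trans ?_
    simpa using ph_eq h D 0 0 y
  let Ψ : C(Xt h.rel D, ℝ) := DM.lift (.const _ 0)
    ⟨fun z => (z.2 : ℝ) * pz h.rel ψ _ z.1, by fun_prop⟩ (pz h.rel ψ _) (fun _ => by simp)
    (Z.ind fun x y => by
      simp only [coe_mk, Icc.coe_one, one_mul]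
      exact (pz_zm h.rel ψ _ x y).trans (pz_zm h.rel ψ D.act x (y.1, D.t₀)).symm)
  obtain ⟨R, hR⟩ := hC.exists_bound_of_continuousOn Ψ.continuous.continuousOn
  refine ⟨⌈R⌉, fun γ y hy hr => ?_⟩
  induction y using DM.ind with
  | hA k => exact absurd (congrArg r (hx.onA γ k.1 k.2)) hr
  | hC c u =>
    induction c using Z.ind with
    | h x δ => exact absurd (congrArg r (hx.onC γ x δ.1 u)) hr
  | hB c =>
    induction c using Z.ind with
    | h x δ =>
      rw [show δ = (δ.1, δ.2) from rfl, hx.onB, rB] at hr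
      obtain ⟨⟨m, n⟩, e⟩ : Tg a b (γ * δ.1) := by
        by_contra e
        exact hr (dif_neg e)
      have e1 : ψ γ * ψ δ.1 = 1 := by
        rw [← map_mul, e, ps' (ps h.rel ψ).2 (a ^ m, 1) n]
        simpa using ps' (ps h.rel ψ).1 1 m
      have e2 : Ψ (inB _ _ (zm _ (x, δ))) = ((ψ δ.1).toAdd : ℤ) := pz_zm h.rel ψ _ x δ
      have e3 := hR _ hy
      rw [e2, Real.norm_eq_abs] at e3
      rw [eq_inv_of_mul_eq_one_left e1, toAdd_inv, abs_neg]
      exact_mod_cast e3.trans (Int.le_ceil R)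

end

end Pool.Agent.Lib.NFB
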