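import Pool.Agent.Lib.NFB.Blue2

/-! The lift of the map to the circle. -/

namespace Pool.Agent.Lib.NFB

open Set Topology unitInterval ContinuousMap

noncomputable section

namespace RETL

variable {G A : Type} [Group G] [TopologicalSpace G] [DiscreteTopology G] {a b s t : G}
  [TopologicalSpace A]

/-- the level of a sheet -/
def lev (h : MP_dab48e_gt.Pres a b s t) (ρ : Act A) : C(Z (pAct h ρ), ℝ) :=
  Z.lift ⟨fun z => (z.2.1.2.toAdd : ℤ),
      Continuous.comp (f := fun z : (ℝ × ℝ) × ((G × Multiplicative ℤ) × A) => z.2.1.2)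
        (g := fun n : Multiplicative ℤ => ((n.toAdd : ℤ) : ℝ)) continuous_of_discreteTopology
        (by fun_prop)⟩
    (fun _ _ _ => rfl) fun _ _ _ => rfl

theorem lev_zm (h : MP_dab48e_gt.Pres a b s t) (ρ : Act A) (x : ℝ × ℝ)
    (δ : G × Multiplicative ℤ) (y : A) : lev h ρ (zm _ (x, (δ, y))) = (δ.2.toAdd : ℤ) :=
  Z.lift_zm ..

end RETL

open RETL in
theorem bRETL : St_RETL := by
  intro G _ _ _ a b s t h _ T _ D _ hx
  refine ⟨DM.lift .snd ((lev h (.triv Unit)).comp .fst) (lev h D.act)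
    (Z.ind fun x y => ?_) (Z.ind fun x y => ?_), DM.ind (fun k => rfl) (fun c u => ?_) fun c => ?_,
    fun γ => DM.ind (fun k => ?_) (fun c u => ?_) fun c => ?_⟩
  · rw [iot, Z.lift_zm]
    exact lev_zm h _ x y.1 y.2
  · exact (lev_zm h _ x y.1 y.2).trans (lev_zm h D.act x y.1 D.t₀).symm
  · induction c using Z.ind with
    | h x y => exact (congrArg ex (lev_zm h _ x y.1 y.2)).trans (ex_int _)
  · induction c using Z.ind with
    | h x y => exact (congrArg ex (lev_zm h _ x y.1 y.2)).trans (ex_int _)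
  · rw [show γ • (inA _ _ k : Xt h D) = _ from hx.onA γ k.1 k.2]
    rfl
  · induction c using Z.ind with
    | h x y =>
      rw [show γ • (cy _ _ (zm _ (x, y), u) : Xt h D) = _ from hx.onC γ x y.1 u]
      refine (lev_zm h _ x (γ * y.1) ()).trans ?_
      refine Eq.trans ?_ (congrArg (· + ((γ.2.toAdd : ℤ) : ℝ)) (lev_zm h _ x y.1 y.2)).symm
      simp [add_comm]
  · induction c using Z.ind with
    | h x y =>
      rw [show γ • (inB _ _ (zm _ (x, y)) : Xt h D) = _ from hx.onB γ x y.1 y.2]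
      refine (lev_zm h _ x (γ * y.1) y.2).trans ?_
      refine Eq.trans ?_ (congrArg (· + ((γ.2.toAdd : ℤ) : ℝ)) (lev_zm h _ x y.1 y.2)).symm
      simp [add_comm]

end

end Pool.Agent.Lib.NFB
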