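import Pool.Agent.Lib.NFB.Blue1

/-! Continuous roots of monotone families. -/

namespace Pool.Agent.Lib.NFB

open Set

theorem bROOT : St_ROOT := by
  intro P _ F a b hab hF hm h0
  have h1 : ∀ p, ∃ t ∈ Icc a b, F (p, t) = 0 := fun p =>
    intermediate_value_Icc' hab (f := fun t => F (p, t))
      (hF.comp (Continuous.prodMk_right p)).continuousOn ⟨(h0 p).2, (h0 p).1⟩
  choose τ h2 h3 using h1
  have hc : ∀ c, Continuous fun p => F (p, c) := fun c => hF.comp (Continuous.prodMk_left c)
  refine ⟨⟨τ, OrderTopology.continuous_iff.2 fun c => ⟨?_, ?_⟩⟩, fun p => ⟨h2 p, h3 p⟩⟩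
  · rcases lt_or_ge c a with h | h
    · have e : τ ⁻¹' Ioi c = univ := eq_univ_of_forall fun p => h.trans_le (h2 p).1
      rw [e]
      exact isOpen_univ
    rcases le_or_gt c b with h' | h'
    · have e : τ ⁻¹' Ioi c = {p | 0 < F (p, c)} := by
        ext p
        rw [mem_ofPred_eq, ← h3 p]
        exact ((hm p).lt_iff_gt (h2 p) ⟨h, h'⟩).symm
      rw [e]
      exact isOpen_lt continuous_const (hc c)
    · have e : τ ⁻¹' Ioi c = ∅ :=
        eq_empty_of_forall_notMem fun p hp => lt_asymm h' ((show c < τ p from hp).trans_le (h2 p).2)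
      rw [e]
      exact isOpen_empty
  · rcases lt_or_ge b c with h | h
    · have e : τ ⁻¹' Iio c = univ := eq_univ_of_forall fun p => (h2 p).2.trans_lt h
      rw [e]
      exact isOpen_univ
    rcases le_or_gt a c with h' | h'
    · have e : τ ⁻¹' Iio c = {p | F (p, c) < 0} := by
        ext p
        rw [mem_ofPred_eq, ← h3 p]
        exact ((hm p).lt_iff_gt ⟨h', h⟩ (h2 p)).symm
      rw [e]
      exact isOpen_lt (hc c) continuous_const
    · have e : τ ⁻¹' Iio c = ∅ :=
        eq_empty_of_forall_notMem fun p hp => lt_asymm h' ((h2 p).1.trans_lt (show τ p < c from hp))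
      rw [e]
      exact isOpen_empty

end Pool.Agent.Lib.NFB
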