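import Pool.Agent.Lib.NFB.Blue1

/-! A bundle over the circle can be rotated. -/

namespace Pool.Agent.Lib.NFB

open Set Topology Metric unitInterval Filter

namespace ROT

variable {M F : Type} [TopologicalSpace M] [TopologicalSpace F]

/-- a deformation that rotates forward, strictly over `U` -/
def Rt (f : C(M, Circle)) (U : Set Circle) : Prop :=
  ∃ (P : C(I × M, M)) (κ : C(I × M, ℝ)), (∀ m, P (0, m) = m) ∧ (∀ m, κ (0, m) = 0) ∧
    (∀ t m, f (P (t, m)) = f m * ex (κ (t, m))) ∧ (∀ m, 0 ≤ κ (1, m)) ∧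
    ∀ m, f m ∈ U → 0 < κ (1, m)

theorem empty (f : C(M, Circle)) : Rt f ∅ :=
  ⟨ContinuousMap.snd, 0, fun _ => rfl, fun _ => rfl, fun _ _ => by simp [ex_zero], fun _ => le_rfl,
    fun _ h => h.elim⟩

theorem union {f : C(M, Circle)} {U U' : Set Circle} (h : Rt f U) (h' : Rt f U') : Rt f (U ∪ U') := by
  obtain ⟨P, κ, a0, a1, a2, a3, a4⟩ := h
  obtain ⟨P', κ', b0, b1, b2, b3, b4⟩ := h'
  refine ⟨⟨fun z => P' (z.1, P z), by fun_prop⟩, ⟨fun z => κ z + κ' (z.1, P z), by fun_prop⟩,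
    fun m => ?_, fun m => ?_, fun t m => ?_, fun m => add_nonneg (a3 m) (b3 _), fun m hm => ?_⟩
  · change P' (0, P (0, m)) = m
    rw [b0, a0]
  · change κ (0, m) + κ' (0, P (0, m)) = 0
    rw [a1, b1, add_zero]
  · change f (P' (t, P (t, m))) = f m * ex (κ (t, m) + κ' (t, P (t, m)))
    rw [b2, a2, ex_add, mul_assoc]
  · change 0 < κ (1, m) + κ' (1, P (1, m))
    rcases (a3 m).lt_or_eq with h | h
    · exact add_pos_of_pos_of_nonneg h (b3 _)
    · rcases hm with hm | hm
      · exact add_pos_of_pos_of_nonneg (a4 m hm) (b3 _)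
      · refine add_pos_of_nonneg_of_pos (a3 m) (b4 _ ?_)
        rw [a2, ← h, ex_zero, mul_one]
        exact hm

theorem loc {f : C(M, Circle)} (e : Bundle.Trivialization F f) {z : Circle} (hz : z ∈ e.baseSet) :
    ∃ δ : ℝ, 0 < δ ∧ Rt f (ball z δ) := by
  classical
  have hc : Continuous fun y : Circle × ℝ => y.1 * ex y.2 := by fun_prop
  have hn : (fun y : Circle × ℝ => y.1 * ex y.2) ⁻¹' e.baseSet ∈ 𝓝 (z, (0 : ℝ)) :=
    hc.continuousAt.preimage_mem_nhds (e.open_baseSet.mem_nhds (by simpa [ex_zero] using hz))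
  obtain ⟨r, hr, hb⟩ := Metric.mem_nhds_iff.1 hn
  have hB : ∀ w ∈ ball z r, ∀ s : ℝ, 0 ≤ s → s < r → w * ex s ∈ e.baseSet := fun w hw s h0 h1 => by
    have h2 : (w, s) ∈ ball (z, (0 : ℝ)) r := by
      rw [← ball_prod_same]
      exact ⟨hw, by rwa [mem_ball_zero_iff, Real.norm_eq_abs, abs_of_nonneg h0]⟩
    exact hb h2
  have hB0 : ∀ w ∈ ball z r, w ∈ e.baseSet := fun w hw => by
    simpa [ex_zero] using hB w hw 0 le_rfl hr
  let κ : C(I × M, ℝ) := ⟨fun y => (y.1 : ℝ) * max 0 (r / 2 - dist (f y.2) z), by fun_prop⟩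
  have hκ : ∀ y : I × M, κ y = (y.1 : ℝ) * max 0 (r / 2 - dist (f y.2) z) := fun _ => rfl
  have k0 : ∀ y, 0 ≤ κ y := fun y => mul_nonneg y.1.2.1 (le_max_left _ _)
  have k1 : ∀ y, κ y < r := fun y => by
    have h1 : max 0 (r / 2 - dist (f y.2) z) ≤ r / 2 :=
      max_le (by linarith) (by linarith [dist_nonneg (x := f y.2) (y := z)])
    have h2 := mul_le_of_le_one_left (le_max_left 0 (r / 2 - dist (f y.2) z)) y.1.2.2
    rw [hκ]
    linarith
  have k2 : ∀ y : I × M, r / 2 ≤ dist (f y.2) z → κ y = 0 := fun y h => by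
    rw [hκ, max_eq_left (by linarith), mul_zero]
  let g : I × M → M := fun y => e.toOpenPartialHomeomorph.symm (f y.2 * ex (κ y), (e y.2).2)
  have g0 : ∀ y : I × M, f y.2 ∈ ball z r → κ y = 0 → g y = y.2 := fun y hy h => by
    change e.toOpenPartialHomeomorph.symm (f y.2 * ex (κ y), (e y.2).2) = y.2
    rw [h, ex_zero, mul_one]
    exact e.symm_apply_mk_proj (e.mem_source.2 (hB0 _ hy))
  let P : I × M → M := fun y => if f y.2 ∈ ball z r then g y else y.2
  have P0 : ∀ y : I × M, κ y = 0 → P y = y.2 := fun y h => by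
    by_cases hy : f y.2 ∈ ball z r
    · exact (if_pos hy).trans (g0 y hy h)
    · exact if_neg hy
  have hd : Continuous fun y : I × M => dist (f y.2) z := by fun_prop
  have hP : Continuous P := by
    refine continuous_iff_continuousAt.2 fun y => ?_
    by_cases hy : f y.2 ∈ ball z r
    · have h1 : ContinuousAt (fun y : I × M => e y.2) y :=
        (e.continuousAt (e.mem_source.2 (hB0 _ hy))).comp continuousAt_snd
      have h2 : ContinuousAt (fun y : I × M => (f y.2 * ex (κ y), (e y.2).2)) y :=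
        ContinuousAt.prodMk (by fun_prop) (continuousAt_snd.comp h1)
      have h3 : ContinuousAt g y :=
        ContinuousAt.comp (f := fun y : I × M => (f y.2 * ex (κ y), (e y.2).2))
          (e.toOpenPartialHomeomorph.continuousAt_symm
            (e.mem_target.2 (hB _ hy _ (k0 y) (k1 y)))) h2
      refine h3.congr ?_
      filter_upwards [(isOpen_lt hd continuous_const).mem_nhds (mem_ball.1 hy)] with y' hy'
      exact (if_pos (mem_ball.2 hy')).symm
    · refine continuousAt_snd.congr ?_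
      have h4 : r / 2 < dist (f y.2) z := by linarith [not_lt.1 (mt mem_ball.2 hy)]
      filter_upwards [(isOpen_lt continuous_const hd).mem_nhds h4] with y' hy'
      exact (P0 y' (k2 y' (le_of_lt hy'))).symm
  refine ⟨r / 2, by linarith, ⟨P, hP⟩, κ, fun m => P0 _ (by simp [hκ]), fun m => by simp [hκ],
    fun t m => ?_, fun m => k0 _, fun m hm => ?_⟩
  · change f (P (t, m)) = _
    by_cases hy : f m ∈ ball z r
    · rw [show P (t, m) = g (t, m) from if_pos hy]
      exact e.proj_symm_apply' (hB _ hy _ (k0 _) (k1 _))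
    · have h4 : κ (t, m) = 0 := k2 _ (by linarith [not_lt.1 (mt mem_ball.2 hy)])
      rw [P0 _ h4, h4, ex_zero, mul_one]
  · rw [hκ]
    change 0 < (1 : ℝ) * max 0 (r / 2 - dist (f m) z)
    rw [one_mul]
    exact lt_max_of_lt_right (by linarith [mem_ball.1 hm])

end ROT

theorem bROT : St_ROT := by
  intro M F _ _ _ f hf
  have h : ROT.Rt f univ := by
    refine IsCompact.induction_on isCompact_univ (ROT.empty f) ?_ (fun _ _ => ROT.union) ?_
    · rintro s t hst ⟨P, κ, a0, a1, a2, a3, a4⟩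
      exact ⟨P, κ, a0, a1, a2, a3, fun m hm => a4 m (hst hm)⟩
    · intro z _
      obtain ⟨e, hz⟩ := hf z
      obtain ⟨δ, hδ, h⟩ := ROT.loc e hz
      exact ⟨ball z δ, mem_nhdsWithin_of_mem_nhds (ball_mem_nhds z hδ), h⟩
  obtain ⟨P, κ, a0, a1, a2, -, a4⟩ := h
  have hc : Continuous fun m : M => κ (1, m) := by fun_prop
  obtain ⟨ε, hε, hle⟩ := isCompact_univ.exists_forall_le' hc.continuousOn
    (a := 0) fun m _ => a4 m (mem_univ _)
  exact ⟨ε, P, κ, hε, a0, a1, a2, fun m => hle m (mem_univ _)⟩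

end Pool.Agent.Lib.NFB
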