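import Pool.Agent.Lib.NFB.Blue1

/-! Shrinking a product: the base by the isotopy, the ball by a homothety. -/

namespace Pool.Agent.Lib.NFB

open Set Topology Metric unitInterval

namespace SC3

theorem pos (t : I) : (0 : ℝ) < 1 - 3 / 4 * (t : ℝ) := by
  have := t.2.2
  linarith

theorem le_one (t : I) : 1 - 3 / 4 * (t : ℝ) ≤ 1 := by
  have := t.2.1
  linarith

end SC3

theorem bSC3 : St_SC3 := by
  intro V F _ _ _ W S K h
  have hc : Continuous fun p : I × (V × F) => 1 - 3 / 4 * (p.1 : ℝ) := by fun_prop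
  have hS : Continuous fun p : I × (V × F) => S (p.1, p.2.1) := by fun_prop
  have hK : Continuous fun p : I × (V × F) => K (p.1, p.2.1) := by fun_prop
  have h2 : Continuous fun p : I × (V × F) => p.2.2 := by fun_prop
  refine ⟨⟨fun p => (S (p.1, p.2.1), (1 - 3 / 4 * (p.1 : ℝ)) • p.2.2), hS.prodMk (hc.smul h2)⟩,
    ⟨fun p => (K (p.1, p.2.1), (1 - 3 / 4 * (p.1 : ℝ))⁻¹ • p.2.2),
      hK.prodMk ((hc.inv₀ fun p => (SC3.pos p.1).ne').smul h2)⟩, ⟨fun t x => ?_, fun t y => ?_⟩,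
    fun t x hx => ?_, fun x _ => ?_, fun x _ => ?_⟩
  · exact Prod.ext (h.fam.left t x.1) (inv_smul_smul₀ (SC3.pos t).ne' x.2)
  · exact Prod.ext (h.fam.right t y.1) (smul_inv_smul₀ (SC3.pos t).ne' y.2)
  · refine ⟨h.mem t x.1 hx.1, ?_⟩
    have h1 : ‖x.2‖ ≤ 1 := mem_closedBall_zero_iff.1 hx.2
    refine mem_closedBall_zero_iff.2 ?_
    show ‖(1 - 3 / 4 * (t : ℝ)) • x.2‖ ≤ 1
    rw [norm_smul, Real.norm_of_nonneg (SC3.pos t).le]
    exact mul_le_one₀ (SC3.le_one t) (norm_nonneg _) h1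
  · refine Prod.ext (h.zero x.1) ?_
    show (1 - 3 / 4 * ((0 : I) : ℝ)) • x.2 = x.2
    simp
  · refine Prod.ext rfl ?_
    show (1 - 3 / 4 * ((1 : I) : ℝ)) • x.2 = (1 / 4 : ℝ) • x.2
    norm_num

end Pool.Agent.Lib.NFB
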