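import Pool.Agent.Lib.NFB.Blue1

/-! Maps to a double. -/

namespace Pool.Agent.Lib.NFB

open Set Topology Metric unitInterval Filter

open Classical in
theorem bSIGN : St_SIGN := by
  intro V _ N Y _ a P hN h
  have cd : Continuous fun y => dp N (a y) :=
    (continuous_dp N).comp (continuous_subtype_val.comp a.continuous)
  have ab : ∀ y, |(if P y then 1 else -1 : ℝ) * dp N (a y)| = dp N (a y) := fun y => by
    split_ifs <;> simp [abs_of_nonneg (dp_nonneg N _)]
  have cs : Continuous fun y => (if P y then 1 else -1 : ℝ) * dp N (a y) := by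
    refine continuous_iff_continuousAt.2 fun y => ?_
    by_cases hy : (a y : V) ∈ interior N
    · refine (continuousAt_const (y := (if P y then 1 else -1 : ℝ)).mul
        cd.continuousAt).congr ((h y hy).mono fun y' e => ?_)
      simp only [Pi.mul_apply, e]
    · have h0 : dp N (a y) = 0 :=
        (not_lt.1 fun h0 => hy ((dp_pos_iff hN).1 h0)).antisymm (dp_nonneg N _)
      have t : Tendsto (fun y => dp N (a y)) (𝓝 y) (𝓝 0) := h0 ▸ cd.continuousAt.tendsto
      rw [ContinuousAt, h0, mul_zero]
      exact squeeze_zero_norm (fun y' => (ab y').le) t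
  exact ⟨⟨fun y => ⟨(a y, (if P y then 1 else -1 : ℝ) * dp N (a y)), (a y).2, ab y⟩,
    ((continuous_subtype_val.comp a.continuous).prodMk cs).subtype_mk _⟩, fun y => ⟨rfl, rfl⟩⟩

end Pool.Agent.Lib.NFB
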