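import Pool.Agent.Lib.NFB.Blue2

/-! Row SL1: sliding at level one, and the tracks in the graph of tori. -/

namespace Pool.Agent.Lib.NFB

open Set Topology unitInterval ContinuousMap

namespace SL1

variable {A B C Y : Type} [TopologicalSpace A] [TopologicalSpace B] [TopologicalSpace C]
  [TopologicalSpace Y]

/-- the track through the cylinder -/
theorem trk (f : C(C, A)) (g : C(C, B)) :
    ((inA f g).comp f).Homotopic ((inB f g).comp g) :=
  homotopic_of ((cy f g).comp ⟨fun z => (z.2, z.1), by fun_prop⟩) (fun c => cy_zero f g c)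
    fun c => cy_one f g c

/-- the two maps become homotopic in the homotopy coequaliser -/
theorem coeq (f₀ f₁ : C(C, A)) :
    ((inA _ _ : C(A, Q f₀ f₁)).comp f₀).Homotopic ((inA _ _ : C(A, Q f₀ f₁)).comp f₁) :=
  ((trk (se f₀ f₁) (se (.id C) (.id C))).comp (.refl ⟨Sum.inl, continuous_inl⟩)).trans
    ((trk (se f₀ f₁) (se (.id C) (.id C))).comp (.refl ⟨Sum.inr, continuous_inr⟩)).symm

/-- homotopies out of a sum -/
theorem hse {u u' : C(A, Y)} {v v' : C(B, Y)} (hu : u.Homotopic u') (hv : v.Homotopic v') :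
    (se u v).Homotopic (se u' v') := by
  obtain ⟨H⟩ := hu
  obtain ⟨H'⟩ := hv
  refine homotopic_of ⟨fun z => Sum.elim (fun a => H (z.1, a)) (fun b => H' (z.1, b)) z.2, ?_⟩
    ?_ ?_
  · rw [← (Homeomorph.prodSumDistrib.symm).comp_continuous_iff', continuous_sum_dom]
    exact ⟨H.continuous, H'.continuous⟩
  · rintro (a | b)
    exacts [H.apply_zero a, H'.apply_zero b]
  · rintro (a | b)
    exacts [H.apply_one a, H'.apply_one b]

end SL1

theorem bSL1 (hS : St_SLIDE) (hG : St_GLUE) : St_SL1 := by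
  refine ⟨fun K C D _ _ _ β₀ β₁ sg h => ?_,
    fun K C D C' D' _ _ _ _ _ β sg β' sg' γ ζ hγ hζ h0 h1 => ?_, ?_, ?_⟩
  · obtain ⟨H⟩ := h
    exact hS (K × Circle) C D .snd ⟨fun z => (H (z.2, z.1), 1), by fun_prop⟩ sg (.const _ 1)
      (β₀.prodMk (.const C 1)) (β₁.prodMk (.const C 1)) (.const _ 1) (.const _ 1) (fun _ => rfl)
      (fun _ => rfl) (fun _ _ => rfl) (fun c => Prod.ext (H.apply_zero c) rfl)
      (fun c => Prod.ext (H.apply_one c) rfl) (fun _ => rfl) fun _ => rfl
  · refine Sim.of_eq (hG _ _ _ _ _ _ (β.prodMk (.const C (1 : Circle))) sg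
      (β'.prodMk (.const C' (1 : Circle))) sg' (.id _) γ ζ (fun c => Prod.ext (h0 c) rfl) h1
      HE.id hγ hζ) ?_
    exact DM.ind (fun _ => rfl) (fun _ _ => rfl) fun _ => rfl
  · exact (SL1.coeq (se (.id _) (.id _)) (se uDat.sh uDat.db)).comp
      (.refl ⟨Sum.inr, continuous_inr⟩)
  · exact SL1.hse (.refl _) ((SL1.coeq (se (.id _) (.id _)) (se uDat.sh uDat.db)).comp
      (.refl ⟨Sum.inl, continuous_inl⟩)).symm

end Pool.Agent.Lib.NFB
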