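import Pool.Agent.Lib.NFB.Blue3
import Pool.Agent.Lib.NFB.B_LEV

/-! Regular level sets are smooth manifolds. -/

namespace Pool.Agent.Lib.NFB

open Set Topology Metric Module
open scoped Manifold ContDiff

namespace SLEV

/-- a smooth local coordinate system whose last coordinate is `F` -/
theorem loc {E : Type} [NormedAddCommGroup E] [NormedSpace ℝ E] [FiniteDimensional ℝ E]
    {F : E → ℝ} {n : ℕ} (hF : ContDiff ℝ ∞ F) (hn : finrank ℝ E = n + 1) {p : E}
    (hp : fderiv ℝ F p ≠ 0) : ∃ (π : E →L[ℝ] EuclideanSpace ℝ (Fin n))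
      (Φ : OpenPartialHomeomorph E (EuclideanSpace ℝ (Fin n) × ℝ)), p ∈ Φ.source ∧
      (∀ q, Φ q = (π q, F q)) ∧ ContDiffOn ℝ ∞ Φ.symm Φ.target := by
  have := FiniteDimensional.complete ℝ E
  obtain ⟨e, he⟩ : ∃ e, fderiv ℝ F p e ≠ 0 := by
    by_contra h
    exact hp (ContinuousLinearMap.ext fun e => by_contra fun h' => h ⟨e, h'⟩)
  obtain ⟨φ, π, σ, -, -, -, -, h5⟩ := LEV.split hn (e := e) (by rintro rfl; simp at he)
  have hΨ : ContDiff ℝ ∞ fun q => (π q, F q) := π.contDiff.prodMk hF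
  have hd : ∀ q, fderiv ℝ F q e ≠ 0 → ∃ A : E ≃L[ℝ] EuclideanSpace ℝ (Fin n) × ℝ,
      HasFDerivAt (fun q => (π q, F q)) (A : E →L[ℝ] EuclideanSpace ℝ (Fin n) × ℝ) q := by
    intro q hq
    have hi : Function.Injective (π.prod (fderiv ℝ F q)).toLinearMap := by
      refine (injective_iff_map_eq_zero _).2 fun v hv => ?_
      have a1 : π v = 0 := congrArg Prod.fst hv
      have a2 : fderiv ℝ F q v = 0 := congrArg Prod.snd hv
      have a3 := h5 v
      rw [a1, map_zero, zero_add] at a3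
      rw [← a3, map_smul, smul_eq_mul] at a2
      rw [← a3, (mul_eq_zero.1 a2).resolve_right hq, zero_smul]
    refine ⟨(LinearMap.linearEquivOfInjective _ hi (by
      rw [hn, finrank_prod, finrank_euclideanSpace_fin, finrank_self])).toContinuousLinearEquiv, ?_⟩
    exact (π.hasFDerivAt.prodMk (hF.differentiable (by simp) q).hasFDerivAt).congr_fderiv
      (ContinuousLinearMap.ext fun _ => rfl)
  have hO : IsOpen {q | fderiv ℝ F q e ≠ 0} :=
    isOpen_ne_fun ((hF.continuous_fderiv (by simp)).clm_apply continuous_const) continuous_const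
  obtain ⟨A, hA⟩ := hd p he
  refine ⟨π, (hΨ.contDiffAt.toOpenPartialHomeomorph _ hA (by simp)).restrOpen _ hO,
    ⟨hΨ.contDiffAt.mem_toOpenPartialHomeomorph_source hA (by simp), he⟩, fun _ => rfl,
    fun a ha => ?_⟩
  obtain ⟨A', hA'⟩ := hd _ ha.2
  exact (OpenPartialHomeomorph.contDiffAt_symm _ ha hA' hΨ.contDiffAt).contDiffWithinAt

end SLEV

theorem bSLEV : St_SLEV := by
  intro E _ _ _ F n hF hn h M _ ⟨e⟩
  have key : ∀ m : M, ∃ c : OpenPartialHomeomorph M (EuclideanSpace ℝ (Fin n)), m ∈ c.source ∧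
      (∃ π : E →L[ℝ] EuclideanSpace ℝ (Fin n), ∀ x, c x = π (e x)) ∧
      ContDiffOn ℝ ∞ (fun v => (e (c.symm v) : E)) c.target := by
    classical
    intro m
    obtain ⟨π, Φ, h1, h2, h3⟩ := SLEV.loc hF hn (h _ (e m).2)
    have z : ∀ v, (v, 0) ∈ Φ.target → F (Φ.symm (v, 0)) = 0 := fun v hv =>
      congrArg Prod.snd ((h2 _).symm.trans (Φ.right_inv hv))
    have z' : ∀ x : M, Φ (e x) = (π (e x), 0) := fun x => by rw [h2, (e x).2]
    let g : EuclideanSpace ℝ (Fin n) → M := fun v =>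
      if hv : (v, 0) ∈ Φ.target then e.symm ⟨Φ.symm (v, 0), z v hv⟩ else m
    have hg : ∀ v, (v, 0) ∈ Φ.target → (e (g v) : E) = Φ.symm (v, 0) := fun v hv => by
      simp only [g, dif_pos hv, Homeomorph.apply_symm_apply]
    have hs : ContDiffOn ℝ ∞ (fun v => (e (g v) : E)) {v | (v, 0) ∈ Φ.target} :=
      (h3.comp (contDiff_id.prodMk contDiff_const).contDiffOn fun v hv => hv).congr hg
    refine ⟨{
      toFun := fun x => π (e x)
      invFun := g
      source := {x | (e x : E) ∈ Φ.source}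
      target := {v | (v, 0) ∈ Φ.target}
      map_source' := fun x hx => ?_
      map_target' := fun v hv => ?_
      left_inv' := fun x hx => ?_
      right_inv' := fun v hv => ?_
      open_source := Φ.open_source.preimage (by fun_prop)
      open_target := Φ.open_target.preimage (by fun_prop)
      continuousOn_toFun := by fun_prop
      continuousOn_invFun := ?_ }, h1, ⟨π, fun _ => rfl⟩, hs⟩
    · rw [mem_ofPred_eq, ← z']
      exact Φ.map_source hx
    · rw [mem_ofPred_eq, hg v hv]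
      exact Φ.map_target hv
    · refine e.injective (Subtype.ext ?_)
      rw [hg _ (z' x ▸ Φ.map_source hx), ← z', Φ.left_inv hx]
    · rw [hg v hv]
      exact congrArg Prod.fst ((h2 _).symm.trans (Φ.right_inv hv))
    · exact (e.isEmbedding.continuousOn_iff).2
        (IsEmbedding.subtypeVal.continuousOn_iff.2 hs.continuousOn)
  choose c c1 c2 c3 using key
  let _ : ChartedSpace (EuclideanSpace ℝ (Fin n)) M := ⟨range c, c, c1, fun p => ⟨p, rfl⟩⟩
  refine ⟨inferInstance, isManifold_of_contDiffOn _ _ _ ?_⟩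
  rintro _ _ ⟨m, rfl⟩ ⟨m', rfl⟩
  obtain ⟨π, hπ⟩ := c2 m'
  exact ((π.contDiff.comp_contDiffOn (c3 m)).mono fun v hv => hv.1.1).congr fun v _ => hπ _

end Pool.Agent.Lib.NFB
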