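import Pool.Agent.Lib.NFB.Blue2

/-! Sliding an attaching map along a homotopy. -/

namespace Pool.Agent.Lib.NFB

open Set Topology unitInterval ContinuousMap

theorem bSLIDE (hGLUE : St_GLUE) : St_SLIDE := by
  intro K C D _ _ _ θ β sg ϑ β₀ β₁ ϑ₀ ϑ₁ h₀ h₁ h b0 b1 t0 t1
  have key : ∀ (u : I) (β' : C(C, K)) (ϑ' : C(D, Circle)) (h' : ∀ c, ϑ' (sg c) = θ (β' c)),
      (∀ c, β (c, u) = β' c) → (∀ z, ϑ (z, u) = ϑ' z) →
      Sim (th θ ϑ' h') (th (β := β) (sg := sg.prodMap (.id I)) θ ϑ fun z => h z.1 z.2) := by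
    intro u β' ϑ' h' hb ht
    refine Sim.of_eq (hGLUE K D C K (D × I) (C × I) β' sg β (sg.prodMap (.id I)) (.id K)
      ⟨fun x => (x, u), by fun_prop⟩ ⟨fun x => (x, u), by fun_prop⟩ hb (fun _ => rfl) HE.id
      (HE.slice u) (HE.slice u)) fun x => ?_
    induction x using DM.ind with
    | hA a => rfl
    | hC c t => exact ht (sg c)
    | hB z => exact ht z
  exact (key 0 β₀ ϑ₀ h₀ b0 t0).trans (key 1 β₁ ϑ₁ h₁ b1 t1).symm

end Pool.Agent.Lib.NFB
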