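import Pool.Agent.Lib.NFB.Blue1

/-! The square root cover is a covering. -/

namespace Pool.Agent.Lib.NFB

open Set Topology

namespace SQC

variable {X E B : Type} [TopologicalSpace X] [TopologicalSpace E] [TopologicalSpace B]

theorem pull {p : E → B} (hp : IsCoveringMap p) (θ : C(X, B)) :
    IsCoveringMap fun z : {z : X × E // p z.2 = θ z.1} => z.1.1 := fun x => by
  obtain ⟨hI, U, hx, hU, -, H, hH⟩ := hp (θ x)
  have hs : ∀ y, p (H.symm y) = y.1 := fun y => by rw [← hH, H.apply_symm_apply]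
  have hc : Continuous fun z : {z : X × E // p z.2 = θ z.1} => z.1.1 := by fun_prop
  refine IsEvenlyCovered.to_isEvenlyCovered_preimage (I := p ⁻¹' {θ x})
    ⟨hI, θ ⁻¹' U, hx, hU.preimage θ.continuous, (hU.preimage θ.continuous).preimage hc,
      { toFun := fun z => (⟨z.1.1.1, z.2⟩,
          (H ⟨z.1.1.2, show p z.1.1.2 ∈ U from z.1.2 ▸ z.2⟩).2)
        invFun := fun y => ⟨⟨(y.1.1, (H.symm (⟨θ y.1.1, y.1.2⟩, y.2)).1), hs _⟩, y.1.2⟩
        left_inv := fun z => ?_
        right_inv := fun y => ?_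
        continuous_toFun := by fun_prop
        continuous_invFun := by fun_prop }, fun _ => rfl⟩
  · have k : z.1.1.2 ∈ p ⁻¹' U := show p z.1.1.2 ∈ U from z.1.2 ▸ z.2
    have e : H.symm (⟨θ z.1.1.1, z.2⟩, (H ⟨z.1.1.2, k⟩).2) = ⟨z.1.1.2, k⟩ :=
      H.symm_apply_eq.2 (Prod.ext (Subtype.ext (z.1.2.symm.trans (hH ⟨_, k⟩).symm)) rfl)
    exact Subtype.ext (Subtype.ext (Prod.ext rfl (congrArg Subtype.val e)))
  · have e := congrArg Prod.snd (H.apply_symm_apply (⟨θ y.1.1, y.1.2⟩, y.2))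
    exact Prod.ext rfl e

end SQC

theorem bSQC : St_SQC := fun _ _ θ =>
  SQC.pull (Circle.isQuotientCoveringMap_npow 2).isCoveringMap θ

end Pool.Agent.Lib.NFB
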