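import Pool.Agent.Lib.NFB.Blue1

/-! Square root covers respect equivalences. -/

namespace Pool.Agent.Lib.NFB

open Set Topology Metric unitInterval ContinuousMap

namespace SQS

variable {X Y : Type} [TopologicalSpace X] [TopologicalSpace Y]

/-- the logarithm of a homotopy -/
theorem ex_log (K : C(I × X, Circle)) : ∃ L : C(I × X, ℝ), (∀ x, L (0, x) = 0) ∧
    ∀ t x, K (t, x) = K (0, x) * ex (L (t, x)) := by
  let K' : C(I × X, Circle) := ⟨fun z => (K (0, z.2))⁻¹ * K z, by fun_prop⟩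
  have h0 : ∀ x, K' (0, x) = ex ((ContinuousMap.const X (0 : ℝ)) x) := fun x => by
    simp [K', ex_zero]
  refine ⟨ex_cov.liftHomotopy K' (.const X 0) h0, fun x => ex_cov.liftHomotopy_zero _ _ h0 x,
    fun t x => ?_⟩
  have h := congrFun (ex_cov.liftHomotopy_lifts K' (.const X 0) h0) (t, x)
  rw [Function.comp_apply] at h
  rw [h]
  simp [K']

theorem ex_sq (x : ℝ) : ex (x / 2) ^ 2 = ex x := by
  rw [sq, ← ex_add, add_halves]

/-- the lift of a map to the double covers -/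
noncomputable def lf {θ : C(X, Circle)} {θ' : C(Y, Circle)} (q : C(X, Y)) (u : C(X, Circle))
    (h : ∀ x, θ' (q x) = θ x * u x ^ 2) : C(Sq θ, Sq θ') :=
  ⟨fun z => ⟨(q z.1.1, z.1.2 * u z.1.1), by rw [mul_pow, z.2, h]⟩, by fun_prop⟩

theorem lf_he {θ : C(X, Circle)} {q : C(X, X)} (hq : q.Homotopic (.id X)) (u : C(X, Circle))
    (h : ∀ x, θ (q x) = θ x * u x ^ 2) : HE (lf q u h) := by
  obtain ⟨H⟩ := hq
  obtain ⟨L, l0, l1⟩ := ex_log (θ.comp H.toContinuousMap)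
  have l2 : ∀ t x, θ (H (t, x)) = θ x * (u x * ex (L (t, x) / 2)) ^ 2 := fun t x => by
    have e : θ (H (t, x)) = θ (H (0, x)) * ex (L (t, x)) := l1 t x
    rw [e, H.apply_zero, h, mul_pow, ex_sq, mul_assoc]
  let v : C(X, Circle) := ⟨fun x => u x * ex (L (1, x) / 2), by fun_prop⟩
  have v1 : ∀ x, θ (ContinuousMap.id X x) = θ x * v x ^ 2 := fun x => by
    have e := l2 1 x
    rwa [H.apply_one] at e
  have v2 : ∀ x, v x * v x = 1 := fun x => by
    have e : θ x = θ x * v x ^ 2 := v1 x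
    rw [← sq]
    exact (mul_eq_left.1 e.symm)
  have inv : ∀ z, lf (.id X) v v1 (lf (.id X) v v1 z) = z := fun z =>
    Subtype.ext (Prod.ext rfl (by
      change z.1.2 * v z.1.1 * v z.1.1 = z.1.2
      rw [mul_assoc, v2, mul_one]))
  refine (HE.of_inv _ inv inv).congr (Homotopic.symm (homotopic_of
    ⟨fun z => ⟨(H (z.1, z.2.1.1), z.2.1.2 * (u z.2.1.1 * ex (L (z.1, z.2.1.1) / 2))), by
      rw [mul_pow, z.2.2, l2]⟩, by fun_prop⟩ (fun z => ?_) fun z => ?_))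
  · refine Subtype.ext (Prod.ext (H.apply_zero _) ?_)
    change z.1.2 * (u z.1.1 * ex (L (0, z.1.1) / 2)) = z.1.2 * u z.1.1
    rw [l0, zero_div, ex_zero, mul_one]
  · exact Subtype.ext (Prod.ext (H.apply_one _) rfl)

theorem ex_lf {θ : C(X, Circle)} {θ' : C(Y, Circle)} {q : C(X, Y)}
    (h : (θ'.comp q).Homotopic θ) : ∃ (u : C(X, Circle)) (hu : ∀ x, θ' (q x) = θ x * u x ^ 2),
      ((om θ').comp (lf q u hu)).Homotopic (om θ) := by
  obtain ⟨H⟩ := h.symm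
  obtain ⟨L, l0, l1⟩ := ex_log H.toContinuousMap
  refine ⟨⟨fun x => ex (L (1, x) / 2), by fun_prop⟩, fun x => ?_, Homotopic.symm (homotopic_of
    ⟨fun z => z.2.1.2 * ex (L (z.1, z.2.1.1) / 2), by fun_prop⟩ (fun z => ?_) fun z => rfl)⟩
  · have e : H (1, x) = H (0, x) * ex (L (1, x)) := l1 1 x
    rw [H.apply_zero, H.apply_one] at e
    exact e.trans (congrArg _ (ex_sq _).symm)
  · change z.1.2 * ex (L (0, z.1.1) / 2) = z.1.2
    rw [l0, zero_div, ex_zero, mul_one]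

theorem lf_comp {θ : C(X, Circle)} {θ' : C(Y, Circle)} {q : C(X, Y)} {g : C(Y, X)}
    {u : C(X, Circle)} {u' : C(Y, Circle)} (h : ∀ x, θ' (q x) = θ x * u x ^ 2)
    (h' : ∀ y, θ (g y) = θ' y * u' y ^ 2) (e : (g.comp q).Homotopic (.id X)) :
    HE ((lf g u' h').comp (lf q u h)) := by
  have h2 : ∀ x, θ (g.comp q x) = θ x * (u * u'.comp q) x ^ 2 := fun x => by
    change θ (g (q x)) = θ x * (u x * u' (q x)) ^ 2
    rw [h', h, mul_pow, mul_assoc]
  have e2 : (lf g u' h').comp (lf q u h) = lf (g.comp q) (u * u'.comp q) h2 :=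
    ContinuousMap.ext fun z => Subtype.ext (Prod.ext rfl (mul_assoc _ _ _))
  rw [e2]
  exact lf_he e _ _

end SQS

theorem bSQS : St_SQS := by
  rintro X Y _ _ θ θ' ⟨q, ⟨g, a1, a2⟩, h⟩
  obtain ⟨u, hu, b⟩ := SQS.ex_lf h
  obtain ⟨u', hu', -⟩ := SQS.ex_lf (θ := θ') (θ' := θ) (q := g)
    ((h.symm.comp (.refl g)).trans ((Homotopic.refl θ').comp a2))
  exact ⟨SQS.lf q u hu, (HE.six (SQS.lf_comp hu hu' a1) (SQS.lf_comp hu' hu a2)).1, b⟩

end Pool.Agent.Lib.NFB
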