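import Pool.Agent.Lib.NFB.Blue1

/-! Row SQW: the subgroup of the square root cover. -/

namespace Pool.Agent.Lib.NFB

open Set Topology unitInterval

namespace SQW

variable {X : Type} [TopologicalSpace X]

theorem lift (c : C(I, Circle)) : ∃ L : C(I, ℝ), ∀ t, ex (L t) = c t := by
  obtain ⟨a, ha⟩ := ex_surj (c 0)
  obtain ⟨L, hL, -⟩ := ex_cov.exists_path_lifts c a ha.symm
  exact ⟨L, congrFun hL⟩

theorem liftP (θ : C(X, Circle)) {x y : X} (γ : Path x y) :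
    ∃ L : C(I, ℝ), ∀ t, ex (L t) = θ (γ t) := lift (θ.comp γ.toContinuousMap)

theorem up (θ : C(X, Circle)) (e e' : Sq θ) (γ : Path (sqp θ e) (sqp θ e')) (L : C(I, ℝ))
    (hL : ∀ t, ex (L t) = θ (γ t)) (h : e'.1.2 = e.1.2 * ex ((L 1 - L 0) / 2)) :
    ∃ δ : Path e e', δ.map (sqp θ).continuous = γ := by
  have h0 : e.1.2 ^ 2 = ex (L 0) := by
    rw [hL, γ.source]
    exact e.2
  refine ⟨⟨⟨fun t => ⟨(γ t, e.1.2 * ex ((L t - L 0) / 2)), ?_⟩, ?_⟩, ?_, ?_⟩, ?_⟩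
  · show (e.1.2 * ex ((L t - L 0) / 2)) ^ 2 = θ (γ t)
    rw [mul_pow, h0, sq, ← ex_add, ← ex_add, ← hL]
    exact congrArg ex (by ring)
  · exact Continuous.subtype_mk (by fun_prop) _
  · refine Subtype.ext (Prod.ext γ.source ?_)
    show e.1.2 * ex ((L 0 - L 0) / 2) = e.1.2
    rw [sub_self, zero_div, ex_zero, mul_one]
  · exact Subtype.ext (Prod.ext γ.target h.symm)
  · exact Path.ext rfl

theorem up' (θ : C(X, Circle)) (e : Sq θ) {y : X} (γ : Path (sqp θ e) y) :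
    ∃ e' : Sq θ, e'.1.1 = y ∧ Joined e e' := by
  obtain ⟨L, hL⟩ := liftP θ γ
  have h0 : e.1.2 ^ 2 = ex (L 0) := by
    rw [hL, γ.source]
    exact e.2
  have h1 : (e.1.2 * ex ((L 1 - L 0) / 2)) ^ 2 = θ y := by
    rw [mul_pow, h0, sq, ← ex_add, ← ex_add, ← γ.target, ← hL]
    exact congrArg ex (by ring)
  obtain ⟨δ, -⟩ := up θ e ⟨(y, e.1.2 * ex ((L 1 - L 0) / 2)), h1⟩ γ L hL rfl
  exact ⟨_, rfl, ⟨δ⟩⟩

end SQW

open SQW in
theorem bSQW : St_SQW := by
  intro X _ θ e₀ φ hφ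
  refine ⟨Subgroup.ext fun g => ?_, fun hX hs => ⟨⟨e₀⟩, ?_⟩⟩
  · rw [Subgroup.mem_comap, Subgroup.mem_zpowers_iff]
    constructor
    · rintro ⟨d, rfl⟩
      obtain ⟨δ, rfl⟩ : ∃ δ : Path e₀ e₀, cls δ = d := Quotient.exists_rep (FundamentalGroup.toPath d)
      obtain ⟨L, hL⟩ := liftP (om θ) δ
      obtain ⟨n, hn⟩ := ex_eq_iff.1 (show ex (L 1) = ex (L 0) by rw [hL, hL, δ.source, δ.target])
      have h1 := hφ (δ.map (sqp θ).continuous) (L + L) fun t => by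
        rw [ContinuousMap.add_apply, ex_add, hL, ← sq]
        exact (δ t).2
      rw [ContinuousMap.add_apply, ContinuousMap.add_apply, hn] at h1
      refine ⟨n, Multiplicative.toAdd.injective ?_⟩
      have h2 : ((φ (cls (δ.map (sqp θ).continuous))).toAdd : ℤ) = n * 2 := by
        have h3 : (((φ (cls (δ.map (sqp θ).continuous))).toAdd : ℤ) : ℝ) = (n * 2 : ℤ) := by
          rw [← h1]
          push_cast
          ring
        exact_mod_cast h3
      rw [toAdd_zpow, toAdd_ofAdd, smul_eq_mul]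
      exact h2.symm
    · rintro ⟨n, hn⟩
      obtain ⟨γ, rfl⟩ : ∃ γ : Path (sqp θ e₀) (sqp θ e₀), cls γ = g :=
        Quotient.exists_rep (FundamentalGroup.toPath g)
      obtain ⟨L, hL⟩ := liftP θ γ
      have h1 := hφ γ L hL
      rw [← hn, toAdd_zpow, toAdd_ofAdd, smul_eq_mul] at h1
      obtain ⟨δ, hδ⟩ := up θ e₀ e₀ γ L hL (by
        have h2 : (L 1 - L 0) / 2 = (n : ℝ) := by
          rw [h1]
          push_cast
          ring
        rw [h2, ex_int, mul_one])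
      exact ⟨cls δ, hδ ▸ rfl⟩
  · have key : ∀ e : Sq θ, Joined e e₀ := by
      intro e
      obtain ⟨e', h1, h2⟩ := up' θ e (PathConnectedSpace.somePath (sqp θ e) e₀.1.1)
      have h3 : (e'.1.2 : ℂ) ^ 2 = (e₀.1.2 : ℂ) ^ 2 := by
        have h4 : e'.1.2 ^ 2 = e₀.1.2 ^ 2 := by rw [e'.2, e₀.2, h1]
        rw [← Circle.coe_pow, ← Circle.coe_pow, h4]
      rcases sq_eq_sq_iff_eq_or_eq_neg.1 h3 with h4 | h4
      · have h5 : e' = e₀ := Subtype.ext (Prod.ext h1 (Circle.ext h4))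
        exact h5 ▸ h2
      · obtain ⟨g, hg⟩ := hs (Multiplicative.ofAdd 1)
        obtain ⟨γ, rfl⟩ : ∃ γ : Path (sqp θ e₀) (sqp θ e₀), cls γ = g :=
          Quotient.exists_rep (FundamentalGroup.toPath g)
        obtain ⟨L, hL⟩ := liftP θ γ
        have h5 := hφ γ L hL
        rw [hg, toAdd_ofAdd, Int.cast_one] at h5
        obtain ⟨δ, -⟩ := up θ e₀ e' (γ.cast rfl h1) L hL (by
          rw [h5, ex_half, mul_neg_one]
          exact Circle.ext h4)
        exact h2.trans ⟨δ.symm⟩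
    exact fun e e' => (key e).trans (key e').symm

end Pool.Agent.Lib.NFB
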