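import Pool.Agent.Lib.NFB.Blue2

/-! The double cover has two copies of the attached space. -/

namespace Pool.Agent.Lib.NFB

open Set Topology unitInterval ContinuousMap

noncomputable section

namespace SQX

/-- the level of the two copies -/
def lv (X : Type) [TopologicalSpace X] : C(X ⊕ X, ℝ) := se (.const _ 0) (.const _ (1 / 2))

variable {X : Type} [TopologicalSpace X]

theorem lv_l (x : X) : ex (lv X (.inl x)) = 1 := ex_zero

theorem lv_r (x : X) : ex (lv X (.inr x)) = -1 := ex_half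

theorem lv_sq (x : X ⊕ X) : ex (lv X x) ^ 2 = 1 := by
  cases x
  · rw [lv_l, one_pow]
  · rw [lv_r, neg_one_sq]

theorem lv_surj {w : Circle} (h : w ^ 2 = 1) :
    (∀ (X : Type) [TopologicalSpace X] (x : X), ex (lv X (.inl x)) = w) ∨
      ∀ (X : Type) [TopologicalSpace X] (x : X), ex (lv X (.inr x)) = w := by
  have e : (w : ℂ) ^ 2 = 1 := by rw [← Circle.coe_pow, h, Circle.coe_one]
  refine (sq_eq_one_iff.1 e).imp (fun q X _ x => ?_) fun q X _ x => ?_
  · rw [lv_l]; exact Circle.ext q.symm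
  · rw [lv_r]; exact Circle.ext q.symm

theorem lv_inj {Y : Type} [TopologicalSpace Y] (s : C(X, Y)) {x y : X ⊕ X}
    (h : se (.id X) (.id X) x = se (.id X) (.id X) y)
    (e : ex (lv Y (sm s s x)) = ex (lv Y (sm s s y))) : x = y := by
  have n : (1 : Circle) ≠ -1 := fun q => by
    have : (1 : ℂ) = -1 := congrArg (fun w : Circle => (w : ℂ)) q
    norm_num at this
  rcases x with x | x <;> rcases y with y | y
  · exact congrArg _ h
  · exact (n ((lv_l (s x)).symm.trans (e.trans (lv_r (s y))))).elim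
  · exact (n ((lv_l (s y)).symm.trans (e.symm.trans (lv_r (s x))))).elim
  · exact congrArg _ h

end SQX

open SQX in
theorem bSQX (hS : St_SLIDE) : St_SQX := by
  intro K C D _ _ _ _ _ _ _ _ _ β sg
  have h₁ (c : C ⊕ C) : (ex.comp (lv D)) (sm sg sg c) =
      (ContinuousMap.snd : C(K × Circle, Circle)) ((se β β).prodMk (ex.comp (lv C)) c) := by
    cases c <;> rfl
  refine (hS _ _ _ .snd ⟨fun z => (se β β z.1, ex (z.2 * lv C z.1)), by fun_prop⟩ (sm sg sg)
    ⟨fun z => ex (z.2 * lv D z.1), by fun_prop⟩ _ _ (.const _ 1) _ (fun _ => rfl) h₁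
    (fun c u => by cases c <;> rfl) (fun c => by simp [ex_zero]) (fun c => by simp)
    (fun c => by simp [ex_zero]) fun c => by simp).trans ?_
  let p : C(DM ((se β β).prodMk (ex.comp (lv C))) (sm sg sg),
      DM (β.prodMk (.const C (1 : Circle))) sg) :=
    DM.map ⟨fun z => (z.1, z.2 ^ 2), by fun_prop⟩ (se (.id C) (.id C)) (se (.id D) (.id D))
      (fun c => Prod.ext (by cases c <;> rfl) (lv_sq c).symm) fun c => by cases c <;> rfl
  have hp (x) : th .snd _ h₁ x ^ 2 = th₁ β sg (p x) := by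
    induction x using DM.ind with
    | hA a => rfl
    | hC c t => exact lv_sq _
    | hB b => exact lv_sq _
  have hh (x) : ht _ _ (p x) = ht _ _ x := by induction x using DM.ind <;> rfl
  refine .of_eq (q := ⟨fun x => ⟨(p x, th .snd _ h₁ x), hp x⟩, by fun_prop⟩)
    (.of_bij ⟨fun x y e => ?_, fun ⟨⟨x, w⟩, h⟩ => ?_⟩) fun _ => rfl
  · have e1 : p x = p y := congrArg (·.1.1) e
    have e2 : th .snd _ h₁ x = th .snd _ h₁ y := congrArg (·.1.2) e
    have e3 : ht _ _ x = ht _ _ y := (hh x).symm.trans ((congrArg _ e1).trans (hh y))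
    rcases x.cases with ⟨a, rfl⟩ | ⟨c, t, h0, h1, rfl⟩ | ⟨b, rfl⟩ <;>
      rcases y.cases with ⟨a', rfl⟩ | ⟨c', t', h0', h1', rfl⟩ | ⟨b', rfl⟩
    · exact congrArg _ (Prod.ext (congrArg (·.1) (inA_inj e1)) e2)
    · exact absurd e3.symm h0'
    · exact absurd e3 zero_ne_one
    · exact absurd e3 h0
    · exact congrArg _ (Prod.ext (lv_inj sg (cy_inj h0 h1 e1).1 e2) e3)
    · exact absurd e3 h1
    · exact absurd e3 one_ne_zero
    · exact absurd e3.symm h1'
    · refine congrArg _ (lv_inj (.id D) (inB_inj e1) ?_)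
      cases b <;> cases b' <;> exact e2
  · induction x using DM.ind with
    | hA a =>
      exact ⟨inA _ _ (a.1, w), Subtype.ext (Prod.ext (congrArg (inA _ _) (Prod.ext rfl h)) rfl)⟩
    | hC c t =>
      rcases lv_surj h with q | q
      · exact ⟨cy _ _ (.inl c, t), Subtype.ext (Prod.ext rfl (q D (sg c)))⟩
      · exact ⟨cy _ _ (.inr c, t), Subtype.ext (Prod.ext rfl (q D (sg c)))⟩
    | hB b =>
      rcases lv_surj h with q | q
      · exact ⟨inB _ _ (.inl b), Subtype.ext (Prod.ext rfl (q D b))⟩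
      · exact ⟨inB _ _ (.inr b), Subtype.ext (Prod.ext rfl (q D b))⟩

end

end Pool.Agent.Lib.NFB
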