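import Pool.Agent.Lib.NFB.Blue2

/-! Row TC3: the bottom cell of the fibre. -/

namespace Pool.Agent.Lib.NFB

open Set Topology Metric unitInterval

noncomputable section

namespace TC3

theorem b1 (v : closedBall (0 : (Fin 2 → ℝ) × ℝ) 1) (j : Fin 2) : |v.1.1 j| ≤ 1 :=
  ((norm_le_pi_norm v.1.1 j).trans (norm_fst_le v.1)).trans (mem_closedBall_zero_iff.1 v.2)

theorem b2 (v : closedBall (0 : (Fin 2 → ℝ) × ℝ) 1) : |v.1.2| ≤ 1 :=
  (norm_snd_le v.1).trans (mem_closedBall_zero_iff.1 v.2)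

/-- the parametrisation of the cell -/
def pa : C(closedBall (0 : (Fin 2 → ℝ) × ℝ) 1, Q4) :=
  ⟨fun v => (fun j => ⟨(1 + v.1.1 j) / 2, by
      have := abs_le.1 (b1 v j); constructor <;> linarith⟩,
    (⟨(1 + v.1.2) / 6, by have := abs_le.1 (b2 v); constructor <;> linarith⟩, 0)), by fun_prop⟩

theorem pa1 (v) (j : Fin 2) : ((pa v).1 j : ℝ) = (1 + v.1.1 j) / 2 := rfl

theorem pa2 (v) : ((pa v).2.1 : ℝ) = (1 + v.1.2) / 6 := rfl

theorem lt2 {v : (Fin 2 → ℝ) × ℝ} (h : ‖v‖ < 1) : -1 < v.2 ∧ v.2 < 1 :=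
  abs_lt.1 ((norm_snd_le v).trans_lt h)

theorem nz {v} (h : ‖v.1‖ < 1) : ¬ Zr (pa v) := by
  have h2 := lt2 h
  rintro (⟨j, hj⟩ | e | e | e | ⟨-, n, e⟩)
  · have h1 := abs_lt.1 (((norm_le_pi_norm v.1.1 j).trans (norm_fst_le v.1)).trans_lt h)
    rcases hj with e | e <;> have := congrArg Subtype.val e <;> rw [pa1] at this <;>
      simp only [Icc.coe_zero, Icc.coe_one] at this <;> linarith
  · have := congrArg Subtype.val e
    rw [pa2, Icc.coe_zero] at this
    linarith
  · have := congrArg Subtype.val e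
    rw [pa2, Icc.coe_one] at this
    linarith
  · exact zero_ne_one e
  · rw [pa2] at e
    have a : (0 : ℤ) < n := by exact_mod_cast (show (0 : ℝ) < n by linarith)
    have b : n < (1 : ℤ) := by exact_mod_cast (show (n : ℝ) < 1 by linarith)
    omega

theorem zr {v} (h : ‖v.1‖ = 1) : Zr (pa v) := by
  by_contra hn
  simp only [Zr, Cube.boundary, mem_setOf_eq, not_or, not_exists, not_and] at hn
  obtain ⟨h1, -, -, -, h2⟩ := hn
  refine h.not_lt (max_lt ((pi_norm_lt_iff one_pos).2 fun j => (b1 v j).lt_of_ne fun e => ?_)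
    ((b2 v).lt_of_ne fun e => ?_))
  · rcases abs_eq zero_le_one |>.1 e with e | e
    · exact (h1 j).2 (Subtype.ext (by rw [pa1, e]; norm_num))
    · exact (h1 j).1 (Subtype.ext (by rw [pa1, e]; norm_num))
  · rcases abs_eq zero_le_one |>.1 e with e | e
    · exact h2 rfl 1 (by rw [pa2, e]; norm_num)
    · exact h2 rfl 0 (by rw [pa2, e]; norm_num)

theorem inj {v v'} (h1 : (pa v).1 = (pa v').1) (h2 : v.1.2 = v'.1.2) : v = v' := by
  refine Subtype.ext (Prod.ext (funext fun j => ?_) h2)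
  have := congrArg Subtype.val (congrFun h1 j)
  rw [pa1, pa1] at this
  linarith

end TC3

open TC3 in
theorem bTC3 (hCELL : St_CELL) : St_TC3 := by
  intro T _ _ D
  have h0 : D.t₀ ∈ D.S := ⟨0, 0, ((D.base _).2 (.inr (.inl rfl))).symm⟩
  obtain ⟨e, he⟩ := hCELL ((Fin 2 → ℝ) × ℝ) Unit D.S (.const _ ⟨_, h0⟩)
    ⟨fun v => ⟨D.Φ (pa v), _, _, rfl⟩, by fun_prop⟩ (cu _) (fun _ _ _ => rfl)
    (fun ω => Subtype.ext ((D.base _).2 (zr (mem_sphere_zero_iff_norm.1 ω.2))))
    (fun v v' h h' e => by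
      rcases (D.fib _ _).1 (congrArg Subtype.val e) with e | e | ⟨e1, -, -, n, e⟩
      · have := congrArg (fun p : Q4 => (p.2.1 : ℝ)) e
        simp only [pa2] at this
        exact inj (congrArg Prod.fst e) (by linarith)
      · exact absurd e.1 (nz h)
      · rw [pa2, pa2] at e
        have a1 := lt2 h
        have a2 := lt2 h'
        have a : (-1 : ℤ) < n := by exact_mod_cast (show (-1 : ℝ) < n by linarith)
        have b : n < (1 : ℤ) := by exact_mod_cast (show (n : ℝ) < 1 by linarith)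
        obtain rfl : n = 0 := by omega
        exact inj e1 (by rw [Int.cast_zero] at e; linarith))
    (fun v _ h e => nz h ((D.base _).1 (congrArg Subtype.val e)))
    (by
      rintro ⟨_, x, z, rfl⟩
      have a := Int.floor_le (3 * (z : ℝ))
      have b := Int.lt_floor_add_one (3 * (z : ℝ))
      refine .inr ⟨⟨(fun j => 2 * x j - 1, 2 * (3 * z - ⌊3 * (z : ℝ)⌋) - 1),
        mem_closedBall_zero_iff.2 (max_le ((pi_norm_le_iff_of_nonneg zero_le_one).2 fun j => ?_)
          (abs_le.2 ⟨by linarith, by linarith⟩))⟩, Subtype.ext ((D.fib _ _).2 (.inr (.inr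
            ⟨funext fun j => Subtype.ext ?_, rfl, rfl, ⌊3 * (z : ℝ)⌋, ?_⟩)))⟩
      · exact abs_le.2 ⟨by linarith [(x j).2.1], by linarith [(x j).2.2]⟩
      · rw [pa1]
        ring
      · rw [pa2]
        ring)
  exact ⟨e, congrArg Subtype.val (he ())⟩

end

end Pool.Agent.Lib.NFB
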