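import Pool.Agent.Lib.NFB.Blue2

/-! Row TC4: the top cell of the fibre. -/

namespace Pool.Agent.Lib.NFB

open Set Topology Metric unitInterval

noncomputable section

namespace TC4

/-- the affine map from the symmetric interval to the unit interval -/
def hh90 (r : ℝ) : I := projIcc 0 1 zero_le_one ((r + 1) / 2)

theorem hh_cont90 : Continuous hh90 := continuous_projIcc.comp (by fun_prop)

theorem hh_val90 {r : ℝ} (h : |r| ≤ 1) : (hh90 r : ℝ) = (r + 1) / 2 := by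
  have h1 := abs_le.1 h
  rw [hh90, projIcc_of_mem _ ⟨by linarith, by linarith⟩]

theorem hh_inv90 (t : I) : |2 * (t : ℝ) - 1| ≤ 1 ∧ hh90 (2 * t - 1) = t := by
  have h : |2 * (t : ℝ) - 1| ≤ 1 := abs_le.2 ⟨by linarith [t.2.1], by linarith [t.2.2]⟩
  exact ⟨h, Subtype.ext (by rw [hh_val90 h]; ring)⟩

theorem hh_ne90 {r : ℝ} (h : |r| < 1) : hh90 r ≠ 0 ∧ hh90 r ≠ 1 := by
  have h1 := abs_lt.1 h
  have h2 := hh_val90 h.le
  constructor <;> intro e <;> rw [e] at h2 <;> norm_num at h2 <;> linarith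

theorem hh_bd90 {r : ℝ} (h : |r| ≤ 1) (h' : ¬ |r| < 1) : hh90 r = 0 ∨ hh90 r = 1 := by
  have h2 := hh_val90 h
  rcases (abs_eq zero_le_one).1 (le_antisymm h (not_lt.1 h')) with e | e
  · exact Or.inr (Subtype.ext (by rw [h2, e]; norm_num))
  · exact Or.inl (Subtype.ext (by rw [h2, e]; norm_num))

theorem hh_inj90 {r s : ℝ} (h : |r| ≤ 1) (h' : |s| ≤ 1) (e : hh90 r = hh90 s) : r = s := by
  have h2 := hh_val90 h
  rw [e, hh_val90 h'] at h2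
  linarith

/-- the map from the ball to the cube -/
def ps90 (v : (Fin 2 → ℝ) × (ℝ × ℝ)) : Q4 := (fun j => hh90 (v.1 j), (hh90 v.2.1, hh90 v.2.2))

theorem ps_cont90 : Continuous ps90 :=
  (continuous_pi fun j => hh_cont90.comp (by fun_prop)).prodMk
    ((hh_cont90.comp (by fun_prop)).prodMk (hh_cont90.comp (by fun_prop)))

theorem le_iff90 {v : (Fin 2 → ℝ) × (ℝ × ℝ)} :
    ‖v‖ ≤ 1 ↔ (∀ j, |v.1 j| ≤ 1) ∧ |v.2.1| ≤ 1 ∧ |v.2.2| ≤ 1 := by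
  rw [norm_prod_le_iff, norm_prod_le_iff, pi_norm_le_iff_of_nonneg zero_le_one]
  simp only [Real.norm_eq_abs]

theorem lt_iff90 {v : (Fin 2 → ℝ) × (ℝ × ℝ)} :
    ‖v‖ < 1 ↔ (∀ j, |v.1 j| < 1) ∧ |v.2.1| < 1 ∧ |v.2.2| < 1 := by
  rw [Prod.norm_def, Prod.norm_def, max_lt_iff, max_lt_iff, pi_norm_lt_iff zero_lt_one]
  simp only [Real.norm_eq_abs]

theorem inner90 {v : (Fin 2 → ℝ) × (ℝ × ℝ)} (h : ‖v‖ < 1) : ¬ Zr (ps90 v) ∧ (ps90 v).2.2 ≠ 0 := by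
  obtain ⟨h1, h2, h3⟩ := lt_iff90.1 h
  refine ⟨?_, (hh_ne90 h3).1⟩
  rintro (⟨j, e | e⟩ | e | e | e | ⟨e, -⟩)
  exacts [(hh_ne90 (h1 j)).1 e, (hh_ne90 (h1 j)).2 e, (hh_ne90 h2).1 e, (hh_ne90 h2).2 e,
    (hh_ne90 h3).2 e, (hh_ne90 h3).1 e]

theorem outer90 {v : (Fin 2 → ℝ) × (ℝ × ℝ)} (h : ‖v‖ = 1) : Zr (ps90 v) ∨ (ps90 v).2.2 = 0 := by
  obtain ⟨h1, h2, h3⟩ := le_iff90.1 h.le
  by_cases a : ∀ j, |v.1 j| < 1
  · by_cases b : |v.2.1| < 1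
    · have c : ¬ |v.2.2| < 1 := fun c => (lt_iff90.2 ⟨a, b, c⟩).ne h
      exact (hh_bd90 h3 c).elim Or.inr fun e => Or.inl (Or.inr (Or.inr (Or.inr (Or.inl e))))
    · exact Or.inl (Or.inr ((hh_bd90 h2 b).elim Or.inl fun e => Or.inr (Or.inl e)))
  · obtain ⟨j, hj⟩ := not_forall.1 a
    exact Or.inl (Or.inl ⟨j, hh_bd90 (h1 j) hj⟩)

end TC4

open TC4 in
theorem bTC4 (hCELL : St_CELL) : St_TC4 := by
  intro T _ _ D
  have hS : IsCompact D.S := by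
    have e : D.S = range fun w : (Fin 2 → I) × I => D.Φ (w.1, (w.2, 0)) := by
      ext y
      exact ⟨fun ⟨x, z, h⟩ => ⟨(x, z), h.symm⟩, fun ⟨w, h⟩ => ⟨w.1, w.2, h.symm⟩⟩
    rw [e]
    exact isCompact_range (by fun_prop)
  have : CompactSpace D.S := isCompact_iff_compactSpace.1 hS
  have hm : ∀ ω : sphere (0 : (Fin 2 → ℝ) × (ℝ × ℝ)) 1, D.Φ (ps90 ω.1) ∈ D.S := fun ω => by
    rcases outer90 (mem_sphere_zero_iff_norm.1 ω.2) with h | h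
    · exact ⟨0, 0, ((D.base _).2 h).trans ((D.base _).2 (Or.inr (Or.inl rfl))).symm⟩
    · exact ⟨(ps90 ω.1).1, (ps90 ω.1).2.1, congrArg D.Φ (Prod.ext rfl (Prod.ext rfl h))⟩
  refine ⟨⟨fun ω => ⟨_, hm ω⟩,
    (D.Φ.continuous.comp (ps_cont90.comp continuous_subtype_val)).subtype_mk _⟩, ?_⟩
  refine hCELL _ D.S T ⟨Subtype.val, continuous_subtype_val⟩
    ⟨fun v => D.Φ (ps90 v.1), D.Φ.continuous.comp (ps_cont90.comp continuous_subtype_val)⟩ _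
    Subtype.val_injective (fun _ => rfl) (fun x x' hx hx' e => ?_) (fun x a hx e => ?_) fun p => ?_
  · rcases (D.fib _ _).1 e with h | ⟨h, -⟩ | ⟨-, h, -⟩
    · obtain ⟨a1, a2, a3⟩ := le_iff90.1 hx.le
      obtain ⟨b1, b2, b3⟩ := le_iff90.1 hx'.le
      exact Subtype.ext (Prod.ext (funext fun j => hh_inj90 (a1 j) (b1 j)
        (congrFun (congrArg Prod.fst h) j)) (Prod.ext
        (hh_inj90 a2 b2 (congrArg (fun q : Q4 => q.2.1) h))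
        (hh_inj90 a3 b3 (congrArg (fun q : Q4 => q.2.2) h))))
    · exact absurd h (inner90 hx).1
    · exact absurd h (inner90 hx).2
  · obtain ⟨y, z, h0⟩ := a.2
    rcases (D.fib _ _).1 (e.trans h0) with h | ⟨h, -⟩ | ⟨-, h, -⟩
    · exact (inner90 hx).2 (congrArg (fun q : Q4 => q.2.2) h)
    · exact (inner90 hx).1 h
    · exact (inner90 hx).2 h
  · obtain ⟨q, rfl⟩ := D.surj p
    refine Or.inr ⟨⟨(fun j => 2 * q.1 j - 1, (2 * q.2.1 - 1, 2 * q.2.2 - 1)),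
      mem_closedBall_zero_iff.2 (le_iff90.2 ⟨fun j => (hh_inv90 _).1, (hh_inv90 _).1,
        (hh_inv90 _).1⟩)⟩, congrArg D.Φ ?_⟩
    exact (Prod.ext (funext fun j => (hh_inv90 _).2)
      (Prod.ext (hh_inv90 _).2 (hh_inv90 _).2)).symm

end

end Pool.Agent.Lib.NFB
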