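import Pool.Agent.Lib.NFB.Blue1

/-! Extensions of torsion free groups by a stable letter are torsion free. -/

namespace Pool.Agent.Lib.NFB

namespace TF1

open HNNExtension HNNExtension.NormalWord

theorem swap {H : Type} [Group H] {x y : H} (h : IsOfFinOrder (y * x) → y * x = 1)
    (h' : IsOfFinOrder (x * y)) : x * y = 1 := by
  have h1 := (MulAut.conj x⁻¹).toMonoidHom.isOfFinOrder h'
  exact mul_eq_one_comm.1 (h (by simpa [mul_assoc] using h1))

variable {G : Type} [Group G] {A B : Subgroup G} (φ : A ≃* B)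

/-- the product of a word -/
def pr (l : List (ℤˣ × G)) : HNNExtension G A B φ := (l.map fun x => t ^ (x.1 : ℤ) * of x.2).prod

theorem pr_append (l l' : List (ℤˣ × G)) : pr φ (l ++ l') = pr φ l * pr φ l' := by simp [pr]

theorem pr_cons (a : ℤˣ × G) (l : List (ℤˣ × G)) :
    pr φ (a :: l) = t ^ (a.1 : ℤ) * of a.2 * pr φ l := by simp [pr]

theorem pinch {a b : ℤˣ × G} (h : ¬ (a.2 ∈ toSubgroup A B a.1 → a.1 = b.1)) (l : List (ℤˣ × G)) :
    ∃ c : G, pr φ (a :: b :: l) = of c * pr φ l := by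
  obtain ⟨u, g⟩ := a
  obtain ⟨v, g'⟩ := b
  rw [Classical.not_imp] at h
  obtain ⟨h1, h2⟩ := h
  rcases Int.units_eq_one_or u with rfl | rfl <;> rcases Int.units_eq_one_or v with rfl | rfl
  · exact absurd rfl h2
  · exact ⟨φ ⟨g, h1⟩ * g', by simp [pr_cons, equiv_eq_conj, mul_assoc]⟩
  · exact ⟨φ.symm ⟨g, h1⟩ * g', by simp [pr_cons, equiv_symm_eq_conj, mul_assoc]⟩
  · exact absurd rfl h2

theorem cyc {m : List (ℤˣ × G)} (h0 : m ≠ [])
    (h : ∀ m₁ m₂ a b l, m = m₁ ++ m₂ → m₂ ++ m₁ = a :: b :: l → a.2 ∈ toSubgroup A B a.1 → a.1 = b.1) :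
    ¬ IsOfFinOrder (pr φ m) := by
  have c1 : m.IsChain fun a b => a.2 ∈ toSubgroup A B a.1 → a.1 = b.1 :=
    List.isChain_iff_forall_rel_of_append_cons_cons.2 fun a b l₁ l₂ e =>
      h l₁ (a :: b :: l₂) a b (l₂ ++ l₁) e rfl
  have c2 : ∀ x ∈ m.getLast?, ∀ y ∈ m.head?, x.2 ∈ toSubgroup A B x.1 → x.1 = y.1 := by
    intro x hx y hy
    obtain ⟨l, rfl⟩ := List.getLast?_eq_some_iff.1 hx
    cases l with
    | nil =>
      obtain rfl : x = y := by simpa using hy
      exact fun _ => rfl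
    | cons b l =>
      obtain rfl : b = y := by simpa using hy
      exact h (b :: l) [x] x b l rfl rfl
  have key : ∀ k : ℕ, ∃ l, (m ++ l).IsChain (fun a b => a.2 ∈ toSubgroup A B a.1 → a.1 = b.1) ∧
      pr φ (m ++ l) = pr φ m ^ (k + 1) := fun k => by
    induction k with
    | zero => exact ⟨[], by simpa using c1, by simp⟩
    | succ k ih =>
      obtain ⟨l, h1, h2⟩ := ih
      refine ⟨m ++ l, List.isChain_append.2 ⟨c1, h1, fun x hx y hy => c2 x hx y ?_⟩, ?_⟩
      · cases m with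
        | nil => exact absurd rfl h0
        | cons b m => exact hy
      · rw [pr_append, h2, ← pow_succ']
  intro hf
  obtain ⟨n, hn, e⟩ := isOfFinOrder_iff_pow_eq_one.1 hf
  obtain ⟨k, rfl⟩ := Nat.exists_eq_succ_of_ne_zero hn.ne'
  obtain ⟨l, h1, h2⟩ := key k
  have := ReducedWord.toList_eq_nil_of_mem_of_range φ ⟨1, m ++ l, h1⟩
    ⟨1, ((congrArg (of 1 * ·) (h2.trans e)).trans (mul_one _)).symm⟩
  exact h0 (List.append_eq_nil_iff.1 this).1

theorem main (hG : TF G) (n : ℕ) : ∀ l : List (ℤˣ × G), l.length ≤ n → ∀ g : G,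
    IsOfFinOrder (of g * pr φ l) → of g * pr φ l = 1 := by
  have base : ∀ g : G, IsOfFinOrder (of g * pr φ []) → of g * pr φ [] = 1 := fun g h => by
    rw [show pr φ [] = 1 from rfl, mul_one] at h ⊢
    rw [hG g ((of_injective φ).isOfFinOrder_iff.1 h), map_one]
  induction n with
  | zero =>
    intro l hl
    obtain rfl := List.length_eq_zero_iff.1 (Nat.le_zero.1 hl)
    exact base
  | succ n ih =>
    intro l hl g
    rcases List.eq_nil_or_concat' l with rfl | ⟨l₀, c, rfl⟩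
    · exact base g
    refine swap fun hf => ?_
    have e : pr φ (l₀ ++ [c]) * of g = pr φ (l₀ ++ [(c.1, c.2 * g)]) := by simp [pr, mul_assoc]
    rw [e] at hf ⊢
    by_contra h1
    refine cyc φ (by simp) (fun m₁ m₂ a b l e₁ e₂ => ?_) hf
    by_contra h2
    obtain ⟨c', e₃⟩ := pinch φ h2 l
    rw [e₁, pr_append] at hf h1
    refine h1 (swap (fun h3 => ?_) hf)
    rw [← pr_append, e₂, e₃] at h3 ⊢
    refine ih l ?_ c' h3
    have a1 := congrArg List.length e₁
    have a2 := congrArg List.length e₂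
    simp only [List.length_append, List.length_cons, List.length_nil] at a1 a2 hl
    omega

end TF1

theorem bTF1 : St_TF1 := by
  intro G _ A B φ hG x
  obtain ⟨d⟩ := HNNExtension.NormalWord.TransversalPair.nonempty G A B
  obtain ⟨w, rfl⟩ := (HNNExtension.NormalWord.equiv φ d).symm.surjective x
  exact TF1.main φ hG _ w.toList le_rfl w.head

end Pool.Agent.Lib.NFB
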