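import Pool.Agent.Lib.NFB.Blue1

/-! The group is torsion free. -/

namespace Pool.Agent.Lib.NFB

namespace TF2

open Multiplicative Function

/-- the homomorphism from the free abelian group of rank two -/
def e2 {H : Type} [Group H] {x y : H} (h : Commute x y) : Multiplicative (ℤ × ℤ) →* H where
  toFun p := x ^ p.toAdd.1 * y ^ p.toAdd.2
  map_one' := by simp
  map_mul' p q := by
    simp only [toAdd_mul, Prod.fst_add, Prod.snd_add, zpow_add]
    exact (h.zpow_zpow _ _).mul_mul_mul_comm _ _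

theorem e2_inj {H : Type} [Group H] {x y : H} (h : Commute x y)
    (hi : ∀ n m : ℤ, x ^ n * y ^ m = 1 → n = 0 ∧ m = 0) : Injective (e2 h) :=
  (injective_iff_map_eq_one _).2 fun _ hp => toAdd.injective (Prod.ext (hi _ _ hp).1 (hi _ _ hp).2)

theorem ext (h1 : St_TF1) {H : Type} [Group H] (hH : TF H) {x y x' y' : H} (c : Commute x y)
    (c' : Commute x' y') (hi : ∀ n m : ℤ, x ^ n * y ^ m = 1 → n = 0 ∧ m = 0)
    (hi' : ∀ n m : ℤ, x' ^ n * y' ^ m = 1 → n = 0 ∧ m = 0) :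
    ∃ (H' : Type) (_ : Group H') (ι : H →* H') (τ : H'), TF H' ∧ Injective ι ∧
      τ * ι x = ι x' * τ ∧ τ * ι y = ι y' * τ ∧ ∀ (G : Type) [Group G] (f : H →* G) (z : G),
        z * f x = f x' * z → z * f y = f y' * z → ∃ F : H' →* G, (∀ h, F (ι h) = f h) ∧ F τ = z := by
  let φ : (e2 c).range ≃* (e2 c').range :=
    (MonoidHom.ofInjective (e2_inj c hi)).symm.trans (MonoidHom.ofInjective (e2_inj c' hi'))
  have hφ : ∀ p, (φ ⟨e2 c p, p, rfl⟩ : H) = e2 c' p := fun p => by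
    have : (MonoidHom.ofInjective (e2_inj c hi)).symm ⟨e2 c p, p, rfl⟩ = p :=
      (MulEquiv.symm_apply_eq _).2 rfl
    simp only [φ, MulEquiv.trans_apply, this, MonoidHom.ofInjective_apply]
  have key : ∀ p, HNNExtension.t * (HNNExtension.of (e2 c p) : HNNExtension H _ _ φ) =
      HNNExtension.of (e2 c' p) * HNNExtension.t := fun p =>
    hφ p ▸ HNNExtension.t_mul_of (φ := φ) ⟨e2 c p, p, rfl⟩
  refine ⟨HNNExtension H _ _ φ, inferInstance, HNNExtension.of, HNNExtension.t, h1 H _ _ φ hH,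
    HNNExtension.of_injective φ, by simpa [e2] using key (ofAdd (1, 0)),
    by simpa [e2] using key (ofAdd (0, 1)), fun G _ f z a b => ?_⟩
  refine ⟨HNNExtension.lift f z ?_, fun h => HNNExtension.lift_of _ _ _ h, HNNExtension.lift_t _ _ _⟩
  rintro ⟨_, p, rfl⟩
  rw [hφ]
  simpa [e2] using ((SemiconjBy.zpow_right a p.toAdd.1).mul_right
    (SemiconjBy.zpow_right b p.toAdd.2)).eq

end TF2

open Multiplicative in
theorem bTF2 (h1 : St_TF1) : St_TF2 := by
  intro G _ a b s t hU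
  have h0 : TF (Multiplicative (ℤ × ℤ)) := fun g hg => hg.eq_one'
  obtain ⟨H₁, _, ι, S, t1, i1, a1, b1, l1⟩ := TF2.ext h1 h0
    (x := ofAdd (1, 0) * ofAdd (0, 1)) (y := ofAdd (0, 1)) (x' := ofAdd (1, 0)) (y' := ofAdd (0, 1))
    (Commute.all _ _) (Commute.all _ _)
    (fun n m h => by
      have := congrArg toAdd h
      simp [Prod.ext_iff] at this
      omega)
    (fun n m h => by simpa [Prod.ext_iff] using congrArg toAdd h)
  have c : Commute (ι (ofAdd (1, 0))) (ι (ofAdd (0, 1))) := (Commute.all _ _).map ι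
  have ind : ∀ n m : ℤ, ι (ofAdd (1, 0)) ^ n * ι (ofAdd (0, 1)) ^ m = 1 → n = 0 ∧ m = 0 := fun n m h => by
    rw [← map_zpow ι, ← map_zpow ι, ← map_mul ι, map_eq_one_iff _ i1] at h
    simpa [Prod.ext_iff] using congrArg toAdd h
  obtain ⟨H₂, _, κ, T, t2, -, a2, b2, l2⟩ := TF2.ext h1 t1 (c.mul_left c) c
    (fun n m h => by
      rw [← zpow_two, ← zpow_mul] at h
      have := ind _ _ h
      omega) ind
  obtain ⟨θ, ha, hb, hs, ht⟩ := hU.lift (A := κ (ι (ofAdd (1, 0)))) (B := κ (ι (ofAdd (0, 1))))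
    (S := κ S) (T := T) ⟨(c.map κ).eq, by rw [← map_mul, b1, map_mul], b2,
      by rw [← a2, map_mul, mul_assoc], by rw [← map_mul, ← a1, map_mul ι, map_mul, map_mul, mul_assoc]⟩
  obtain ⟨F₁, f1, g1⟩ := l1 G (TF2.e2 (x := a) (y := b) hU.rel.ab) s
    (by simp [TF2.e2, hU.rel.sa, mul_assoc]) (by simp [TF2.e2, hU.rel.sb])
  have fa : F₁ (ι (ofAdd (1, 0))) = a := by simp [f1, TF2.e2]
  have fb : F₁ (ι (ofAdd (0, 1))) = b := by simp [f1, TF2.e2]
  obtain ⟨F₂, f2, g2⟩ := l2 G F₁ t (by rw [map_mul, fa, hU.rel.ta, mul_assoc]) (by rw [fb, hU.rel.tb])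
  have key : ∀ g, F₂ (θ g) = g := hU.gen ((F₂.comp θ).eqLocus (MonoidHom.id G))
    (show F₂ (θ a) = a by rw [ha, f2, fa]) (show F₂ (θ b) = b by rw [hb, f2, fb])
    (show F₂ (θ s) = s by rw [hs, f2, g1]) (show F₂ (θ t) = t by rw [ht, g2])
  intro g hg
  rw [← key g, t2 _ (θ.isOfFinOrder hg), map_one]

end Pool.Agent.Lib.NFB
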