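import Pool.Agent.Lib.NFB.Blue2

/-! Recognising a mapping torus. -/

namespace Pool.Agent.Lib.NFB

open Set Topology Metric unitInterval

theorem bTORUS : St_TORUS := by
  intro A Y _ _ _ _ φ π hs hπ
  let H : C((A ⊕ A) × I, Y) := π.comp ⟨fun z => (se (.const A (0 : ℝ)) (.const A 1) z.1 +
    se (.const A (1 : ℝ)) (.const A (-1)) z.1 * (z.2 / 2), se (.id A) (.id A) z.1), by fun_prop⟩
  have Hl : ∀ y (u : I), H (.inl y, u) = π (u / 2, y) := fun y u =>
    congrArg π (Prod.ext ((zero_add _).trans (one_mul _)) rfl)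
  have Hr : ∀ y (u : I), H (.inr y, u) = π (1 - u / 2, y) := fun y u =>
    congrArg π (Prod.ext (show (1 : ℝ) + -1 * (u / 2) = 1 - u / 2 by ring) rfl)
  let F : C(Q (.id A) (φ.symm : C(A, A)), Y) := DM.lift (π.comp ⟨fun y => (0, y), by fun_prop⟩) H
    (π.comp ⟨fun y => (1 / 2, y), by fun_prop⟩)
    (by
      rintro (y | y)
      · rw [Hl, Icc.coe_zero, zero_div]; rfl
      · rw [Hr]
        exact ((hπ (0, φ.symm y) _).2 ⟨1, by simp, (φ.apply_symm_apply y).symm⟩).symm)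
    (by
      rintro (y | y)
      · rw [Hl, Icc.coe_one]; rfl
      · rw [Hr, Icc.coe_one, sub_half]; rfl)
  let G : ℝ → A → Q (.id A) (φ.symm : C(A, A)) := fun r y =>
    if r ≤ 1 / 2 then cy _ _ (.inl y, projIcc 0 1 zero_le_one (2 * r))
    else cy _ _ (.inr y, projIcc 0 1 zero_le_one (2 - 2 * r))
  have FG : ∀ r ∈ Ico (0 : ℝ) 1, ∀ y, F (G r y) = π (r, y) := fun r hr y => by
    simp only [G]
    split_ifs with h
    · refine (Hl _ _).trans ?_
      rw [projIcc_of_mem _ ⟨by linarith [hr.1], by linarith⟩, mul_div_cancel_left₀ _ two_ne_zero]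
    · refine (Hr _ _).trans ?_
      rw [projIcc_of_mem _ ⟨by linarith [hr.2], by linarith⟩,
        show 1 - (2 - 2 * r) / 2 = r by ring]
  have Gl : ∀ y (u : I), G (u / 2) y = cy _ _ (.inl y, u) := fun y u => by
    simp only [G]
    rw [if_pos (by linarith [u.2.2]), mul_div_cancel₀ _ two_ne_zero, projIcc_val]
  have nf : ∀ x, ∃ r ∈ Ico (0 : ℝ) 1, ∃ y, G r y = x := fun x => by
    have l : ∀ u : I, (u : ℝ) / 2 ∈ Ico (0 : ℝ) 1 := fun u =>
      ⟨by linarith [u.2.1], by linarith [u.2.2]⟩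
    rcases x.cases with ⟨a, rfl⟩ | ⟨y | y, t, h0, h1, rfl⟩ | ⟨b, rfl⟩
    · exact ⟨_, l 0, a, (Gl a 0).trans (cy_zero _ _ _)⟩
    · exact ⟨_, l t, y, Gl y t⟩
    · have a0 : (0 : ℝ) < t := t.2.1.lt_of_ne fun e => h0 (Subtype.ext e.symm)
      have a1 : (t : ℝ) < 1 := t.2.2.lt_of_ne fun e => h1 (Subtype.ext e)
      refine ⟨1 - t / 2, ⟨by linarith, by linarith⟩, y, ?_⟩
      simp only [G]
      rw [if_neg (by linarith), show 2 - 2 * (1 - (t : ℝ) / 2) = t by ring, projIcc_val]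
    · exact ⟨_, l 1, b, (Gl b 1).trans (cy_one _ _ _)⟩
  have hb : Function.Bijective F := by
    refine ⟨fun x x' e => ?_, fun p => ?_⟩
    · obtain ⟨r, hr, y, rfl⟩ := nf x
      obtain ⟨r', hr', y', rfl⟩ := nf x'
      rw [FG r hr, FG r' hr'] at e
      obtain ⟨n, h1, h2⟩ := (hπ _ _).1 e
      have h3 : (n : ℝ) < 1 := by linarith [hr.1, hr'.2]
      have h4 : (-1 : ℝ) < n := by linarith [hr.2, hr'.1]
      obtain rfl : n = 0 := by
        have : n < 1 := by exact_mod_cast h3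
        have : -1 < n := by exact_mod_cast h4
        omega
      rw [show r' = r by simpa using h1, show y' = y by simpa using h2]
    · obtain ⟨⟨r, y⟩, rfl⟩ := hs p
      exact ⟨_, (FG _ ⟨Int.fract_nonneg r, Int.fract_lt_one r⟩ ((φ ^ (-⌊r⌋)) y)).trans
        ((hπ _ _).2 ⟨-⌊r⌋, by simp [Int.fract, sub_eq_add_neg], rfl⟩).symm⟩
  exact ⟨Continuous.homeoOfEquivCompactToT2 (f := Equiv.ofBijective F hb) F.continuous,
    fun _ => rfl, Hl, Hr, fun _ => rfl⟩

end Pool.Agent.Lib.NFB
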