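import Pool.Agent.Lib.NFB.Blue2

/-! The fibre is in the class, simply connected and well pointed. -/

namespace Pool.Agent.Lib.NFB

open Set Topology Metric unitInterval ContinuousMap Module

namespace TP

/-- trivial fundamental group at one point is enough -/
theorem sc_of {X : Type} [TopologicalSpace X] [PathConnectedSpace X] (x₀ : X)
    (h : Subsingleton (FundamentalGroup X x₀)) : SimplyConnectedSpace X := by
  refine simply_connected_iff_loops_nullhomotopic.2 ⟨inferInstance, fun x γ => ?_⟩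
  have e := FundamentalGroup.fundamentalGroupMulEquivOfPath (PathConnectedSpace.somePath x₀ x)
  have : Subsingleton (FundamentalGroup X x) := e.symm.injective.subsingleton
  exact Quotient.exact (Subsingleton.elim (cls γ) (cls (Path.refl x)))

/-- a cone on a connected space keeps simple connectivity -/
theorem cone (hG : St_GEN1) {A C : Type} [TopologicalSpace A] [TopologicalSpace C]
    [SimplyConnectedSpace A] (hC : PathConnectedSpace C) (φ : C(C, A)) :
    SimplyConnectedSpace (DM φ (cu C)) := by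
  obtain ⟨c₀⟩ := hC.nonempty
  obtain ⟨g1, g2⟩ := hG A Unit C φ (cu C)
  have := g1 fun _ => ⟨c₀, Joined.refl _⟩
  have hs := g2 hC c₀ fun b => ⟨1, Subsingleton.elim _ _⟩
  exact sc_of _ hs.subsingleton

theorem sph {V : Type} [NormedAddCommGroup V] [NormedSpace ℝ V] [FiniteDimensional ℝ V]
    (h : 1 < finrank ℝ V) : PathConnectedSpace (sphere (0 : V) 1) :=
  isPathConnected_iff_pathConnectedSpace.1 (isPathConnected_sphere
    (by rw [← finrank_eq_rank]; exact_mod_cast h) 0 zero_le_one)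

end TP

theorem bTP (h3 : St_TC3) (h4 : St_TC4) (hC : St_CLS) (hB : St_CBAS) (hG : St_GEN1)
    (hF : St_COF) : St_TP := by
  intro T _ _ D
  obtain ⟨e3, a3⟩ := h3 T D
  obtain ⟨φ, e4, a4⟩ := h4 T D
  refine ⟨?_, ?_, ?_⟩
  · have c3 : CC D.S := (CC.of_HE (HE.homeo e3)).1 (hC _ _ _ _ _ hB.1 hB.1 (hB.2.2 _))
    exact (CC.of_HE (HE.homeo e4)).1 (hC _ _ _ _ _ c3 hB.1 (hB.2.2 _))
  · have s3 := TP.cone hG (TP.sph (V := (Fin 2 → ℝ) × ℝ) (by simp)) (cu _)
    have : SimplyConnectedSpace D.S := e3.symm.toHomotopyEquiv.simplyConnectedSpace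
    have s4 := TP.cone hG (TP.sph (V := (Fin 2 → ℝ) × (ℝ × ℝ)) (by simp)) φ
    exact e4.symm.toHomotopyEquiv.simplyConnectedSpace
  · have c3 := (hF.1 _ _ _).2.2 _ e3 ((hF.1 _ _ _).1 _ _)
    have c4 := (hF.1 _ _ _).2.2 _ e4 ((hF.1 _ _ _).1 φ (cu _))
    have c := (hF.1 _ _ _).2.1 _ _ c3 c4
    exact (congrArg Cof (ContinuousMap.ext fun _ => (a4 _).trans a3)).mp c

end Pool.Agent.Lib.NFB
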