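import Pool.Agent.Lib.NFB.Blue2

/-! A slice of a family of double mapping cylinders is an equivalence. -/

namespace Pool.Agent.Lib.NFB

open Set Topology unitInterval ContinuousMap

namespace TR

/-- the segment from `x` to `y` -/
noncomputable def ln (x y s : I) : I := ⟨(1 - s) * x + s * y,
  add_nonneg (mul_nonneg (one_minus_nonneg s) x.2.1) (mul_nonneg s.2.1 y.2.1), by
    nlinarith [mul_nonneg (one_minus_nonneg s) (one_minus_nonneg x),
      mul_nonneg s.2.1 (one_minus_nonneg y)]⟩

@[fun_prop] theorem cln {X : Type} [TopologicalSpace X] {x y s : X → I} (hx : Continuous x)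
    (hy : Continuous y) (hs : Continuous s) : Continuous fun p => ln (x p) (y p) (s p) :=
  Continuous.subtype_mk (by fun_prop) _

@[simp] theorem ln0 (x y : I) : ln x y 0 = x := Subtype.ext (by simp [ln])

@[simp] theorem ln1 (x y : I) : ln x y 1 = y := Subtype.ext (by simp [ln])

@[simp] theorem lns (x s : I) : ln x x s = x := Subtype.ext (by simp only [ln]; ring)

/-- the middle third, stretched -/
noncomputable def k : C(I, I) :=
  ⟨fun u => projIcc 0 1 zero_le_one (3 * u - 1), continuous_projIcc.comp (by fun_prop)⟩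

/-- one on the middle third, zero at the ends -/
noncomputable def m : C(I, I) :=
  ⟨fun u => projIcc 0 1 zero_le_one (3 * min (u : ℝ) (1 - u)), continuous_projIcc.comp (by fun_prop)⟩

theorem k0 {u : I} (h : (u : ℝ) ≤ 1 / 3) : k u = 0 :=
  projIcc_of_le_left zero_le_one (by linarith)

theorem k1 {u : I} (h : 2 / 3 ≤ (u : ℝ)) : k u = 1 :=
  projIcc_of_right_le zero_le_one (by linarith)

theorem m1 {u : I} (h : 1 / 3 ≤ (u : ℝ)) (h' : (u : ℝ) ≤ 2 / 3) : m u = 1 :=
  projIcc_of_right_le zero_le_one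
    (by linarith [le_min h (show 1 / 3 ≤ 1 - (u : ℝ) by linarith)])

@[simp] theorem m_zero : m 0 = 0 := projIcc_of_le_left zero_le_one (by simp)

@[simp] theorem m_one : m 1 = 0 := projIcc_of_le_left zero_le_one (by simp)

@[simp] theorem k_zero : k 0 = 0 := k0 (by norm_num)

@[simp] theorem k_one : k 1 = 1 := k1 (by norm_num)

end TR

open TR in
theorem bTR : St_TR := by
  intro A B C _ _ _ F G t f g h0 h1
  have e0 : ∀ c, F (c, t) = f c := h0
  have e1 : ∀ c, G (c, t) = g c := h1
  let R : (C × I) × I → DM f g := fun z =>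
    if (z.2 : ℝ) ≤ 1 / 3 then inA f g (F (z.1.1, ln z.1.2 t (m z.2))) else
      if (z.2 : ℝ) ≤ 2 / 3 then cy f g (z.1.1, k z.2) else inB f g (G (z.1.1, ln z.1.2 t (m z.2)))
  have cR : Continuous R := by
    refine Continuous.if_le (by fun_prop) (Continuous.if_le (by fun_prop) (by fun_prop)
      (by fun_prop) continuous_const fun z h => ?_) (by fun_prop) continuous_const fun z h => ?_
    · rw [k1 h.ge, m1 (by linarith) h.le, ln1, e1, cy_one]
    · rw [if_pos (by linarith), k0 h.le, m1 h.ge (by linarith), ln1, e0, cy_zero]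
  let r : C(DM F G, DM f g) := DM.lift (inA f g) ⟨R, cR⟩ (inB f g)
    (fun c => by simp [R]) fun c => by norm_num [R]
  refine ⟨r, ?_, ?_⟩
  · obtain ⟨H, a, b, c⟩ := DM.lift_prod (f := f) (g := g) (P := I) ((inA f g).comp .snd)
      ⟨fun z => cy f g (z.2.1, ln (k z.2.2) z.2.2 z.1), by fun_prop⟩ ((inB f g).comp .snd)
      (fun s c => by simp) fun s c => by simp
    refine homotopic_of H (DM.ind (fun x => a 0 x) (fun x u => (b 0 _).trans ?_) fun x => c 0 x)
      (DM.ind (fun x => a 1 x) (fun x u => (b 1 _).trans (by simp)) fun x => c 1 x)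
    show cy f g (x, ln (k u) u 0) = R ((x, t), u)
    simp only [R, ln0, lns, e0, e1]
    split_ifs with h h'
    · rw [k0 h, cy_zero]
    · rfl
    · rw [k1 (not_le.1 h').le, cy_one]
  · obtain ⟨H, a, b, c⟩ := DM.lift_prod (f := F) (g := G) (P := I) ((inA F G).comp .snd)
      ⟨fun z => cy F G ((z.2.1.1, ln (ln z.2.1.2 t (m z.2.2)) z.2.1.2 z.1),
        ln (k z.2.2) z.2.2 z.1), by fun_prop⟩ ((inB F G).comp .snd)
      (fun s c => by simp) fun s c => by simp
    refine homotopic_of H (DM.ind (fun x => a 0 x) (fun x u => (b 0 _).trans ?_) fun x => c 0 x)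
      (DM.ind (fun x => a 1 x) (fun x u => (b 1 _).trans (by simp)) fun x => c 1 x)
    show cy F G ((x.1, ln (ln x.2 t (m u)) x.2 0), ln (k u) u 0) =
      DM.map (.id A) (sl C t) (.id B) h0 h1 (R (x, u))
    simp only [R, ln0]
    split_ifs with h h'
    · rw [k0 h, cy_zero]
      rfl
    · rw [m1 (not_le.1 h).le h', ln1]
      rfl
    · rw [k1 (not_le.1 h').le, cy_one]
      rfl

end Pool.Agent.Lib.NFB
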