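import Pool.Agent.Lib.NFB.Blue1

/-! The triangular isotopy. -/

namespace Pool.Agent.Lib.NFB

open Set Topology Metric unitInterval Module

theorem bTRI : St_TRI := by
  intro V _ _ _ W S K f g l d d' hW hS hl hd hd' hld hb hx hf H H0 H1
  have := TietzeExtension.of_tvs ℝ (E := V)
  have hc : CompactSpace W := isCompact_iff_compactSpace.1 hW
  have he : IsClosedEmbedding fun p : I × (W × closedBall (0 : V) 1) =>
      ((p.1, (p.2.1 : V), (p.2.2 : V)) : I × V × V) :=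
    Continuous.isClosedEmbedding (by fun_prop) fun p q h => by
      simp only [Prod.mk.injEq] at h
      exact Prod.ext h.1 (Prod.ext (Subtype.ext h.2.1) (Subtype.ext h.2.2))
  obtain ⟨E, hE⟩ := ContinuousMap.exists_extension he ⟨fun p => S (1, H p), by fun_prop⟩
  have hE' : ∀ s x (hx : x ∈ W) v (hv : v ∈ closedBall (0 : V) 1),
      E (s, x, v) = S (1, H (s, ⟨x, hx⟩, ⟨v, hv⟩)) :=
    fun s x hx v hv => by
      have h := DFunLike.congr_fun hE (s, (⟨x, hx⟩ : W), (⟨v, hv⟩ : closedBall (0 : V) 1))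
      exact h
  have hm : ∀ z ∈ NB W (V × V), z.1 ∈ W ∧ z.2.1 ∈ closedBall (0 : V) 1 ∧ ‖z.2.2‖ ≤ 1 := fun z hz => by
    have h := mem_closedBall_zero_iff.1 hz.2
    exact ⟨hz.1, mem_closedBall_zero_iff.2 ((norm_fst_le _).trans h), (norm_snd_le _).trans h⟩
  refine ⟨⟨fun p => (E (σ p.1, p.2.1, p.2.2.1) + d' • p.2.2.2, l • S (σ p.1, p.2.1),
      l • ((p.1 : ℝ) • f p.2.1 + d • p.2.2.1)), by fun_prop⟩,
    ⟨fun p => (K (σ p.1, l⁻¹ • p.2.2.1),
      d⁻¹ • (l⁻¹ • p.2.2.2 - (p.1 : ℝ) • f (K (σ p.1, l⁻¹ • p.2.2.1))),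
      d'⁻¹ • (p.2.1 - E (σ p.1, K (σ p.1, l⁻¹ • p.2.2.1),
        d⁻¹ • (l⁻¹ • p.2.2.2 - (p.1 : ℝ) • f (K (σ p.1, l⁻¹ • p.2.2.1)))))), by fun_prop⟩,
    ⟨fun t z => ?_, fun t z => ?_⟩, fun t z hz => ?_, fun z hz => ?_, fun z hz => ?_⟩
  · simp only [ContinuousMap.coe_mk, inv_smul_smul₀ hl.ne', hS.fam.left, add_sub_cancel_left,
      inv_smul_smul₀ hd.ne', inv_smul_smul₀ hd'.ne']
  · simp only [ContinuousMap.coe_mk, smul_inv_smul₀ hl.ne', hS.fam.right, add_sub_cancel,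
      smul_inv_smul₀ hd.ne', smul_inv_smul₀ hd'.ne']
  · obtain ⟨h1, h2, h3⟩ := hm z hz
    refine ⟨?_, mem_closedBall_zero_iff.2 (max_le ?_ ?_)⟩
    · simp only [ContinuousMap.coe_mk]
      rw [hE' _ _ h1 _ h2]
      refine hb _ (H (σ t, ⟨_, h1⟩, ⟨_, h2⟩)).2 ?_
      rw [mem_closedBall, dist_eq_norm, add_sub_cancel_left, norm_smul, Real.norm_eq_abs,
        abs_of_pos hd']
      exact mul_le_of_le_one_right hd'.le h3
    · simp only [ContinuousMap.coe_mk]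
      rw [norm_smul, Real.norm_eq_abs, abs_of_pos hl]
      linarith [hx _ (hS.mem (σ t) _ h1)]
    · simp only [ContinuousMap.coe_mk]
      rw [norm_smul, Real.norm_eq_abs, abs_of_pos hl]
      have a1 : ‖(t : ℝ) • f z.1‖ ≤ ‖f z.1‖ := by
        rw [norm_smul, Real.norm_eq_abs, abs_of_nonneg t.2.1]
        exact mul_le_of_le_one_left (norm_nonneg _) t.2.2
      have a2 : ‖d • z.2.1‖ ≤ d := by
        rw [norm_smul, Real.norm_eq_abs, abs_of_pos hd]
        exact mul_le_of_le_one_right hd.le (mem_closedBall_zero_iff.1 h2)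
      have a3 := mul_le_mul_of_nonneg_left
        ((norm_add_le ((t : ℝ) • f z.1) (d • z.2.1)).trans (add_le_add a1 a2)) hl.le
      linarith [hf _ h1]
  · obtain ⟨h1, h2, -⟩ := hm z hz
    simp only [ContinuousMap.coe_mk, symm_zero, Icc.coe_zero, zero_smul, zero_add, smul_smul]
    rw [hE' _ _ h1 _ h2, H1]
  · obtain ⟨h1, h2, -⟩ := hm z hz
    simp only [ContinuousMap.coe_mk, symm_one, Icc.coe_one, one_smul, hS.zero]
    rw [hE' _ _ h1 _ h2, H0]

end Pool.Agent.Lib.NFB
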