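import Pool.Agent.Lib.NFB.Blue2

/-! The twisted pair is a sum of two copies. -/

namespace Pool.Agent.Lib.NFB

open Set Topology unitInterval ContinuousMap

namespace TWO

variable {A A' : Type} [TopologicalSpace A] [TopologicalSpace A']

theorem two (ρ : Act A) (ρ' : Act A') (i : Bool → C(A, A')) (π : C(A', Bool)) (p : C(A', A))
    (h1 : ∀ ε y, π (i ε y) = ε) (h2 : ∀ ε y, p (i ε y) = y) (h3 : ∀ x, ∃ ε y, x = i ε y)
    (ha : ∀ y, ρ.a y = y) (a0 : ∀ y, ρ'.a (i false y) = i false y)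
    (a1 : ∀ y, ρ'.a (i true (ρ.b y)) = i true y) (hb : ∀ ε y, ρ'.b (i ε y) = i ε (ρ.b y)) :
    ∃ ζ : C(Z ρ ⊕ Z ρ, Z ρ'), HE ζ ∧
      (∀ x y, ζ (.inl (zm ρ (x, y))) = zm ρ' (x, i false y)) ∧
      ∀ α β y, ζ (.inr (zm ρ ((α, β), y))) = zm ρ' ((α, α + β), i true y) := by
  have za : ∀ α β y, zm ρ ((α + 1, β), y) = zm ρ ((α, β), y) := fun α β y => by
    have := zm_a (ρ := ρ) α β y
    rwa [ha] at this
  let u : C(Z ρ, Z ρ') := Z.map (i false) ⟨fun y => by rw [ha, a0], fun y => (hb _ y).symm⟩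
  let v : C(Z ρ, Z ρ') :=
    Z.lift ((zm ρ').comp ⟨fun z => ((z.1.1, z.1.1 + z.1.2), i true z.2), by fun_prop⟩)
      (fun α β y => by
        simp only [comp_apply, coe_mk, ha]
        rw [← zm_b (ρ := ρ') α (α + β), ← zm_a (ρ := ρ') α, hb, a1, add_right_comm])
      fun α β y => by
        simp only [comp_apply, coe_mk]
        rw [← hb, ← add_assoc, zm_b]
  have hv : ∀ α β y, v (zm ρ ((α, β), y)) = zm ρ' ((α, α + β), i true y) :=
    fun α β y => Z.lift_zm ..
  let F : C((ℝ × ℝ) × A', Z ρ ⊕ Z ρ) :=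
    ⟨fun z => cond (π z.2) (.inr (zm ρ ((z.1.1, z.1.2 - z.1.1), p z.2))) (.inl (zm ρ (z.1, p z.2))),
      Continuous.comp (f := fun z : (ℝ × ℝ) × A' => (π z.2, z))
        (g := fun w : Bool × ((ℝ × ℝ) × A') => (cond w.1
          (.inr (zm ρ ((w.2.1.1, w.2.1.2 - w.2.1.1), p w.2.2))) (.inl (zm ρ (w.2.1, p w.2.2))) :
            Z ρ ⊕ Z ρ))
        (continuous_prod_of_discrete_left.2 fun ε => by
          cases ε <;> simp only [cond_true, cond_false] <;> fun_prop) (by fun_prop)⟩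
  have F0 : ∀ x y, F (x, i false y) = .inl (zm ρ (x, y)) := fun x y => by
    simp only [F, coe_mk, h1, h2, cond_false]
  have F1 : ∀ α β y, F ((α, β), i true y) = .inr (zm ρ ((α, β - α), y)) := fun α β y => by
    simp only [F, coe_mk, h1, h2, cond_true]
  let w : C(Z ρ', Z ρ ⊕ Z ρ) := Z.lift F
    (fun α β x => by
      obtain ⟨_ | _, y, rfl⟩ := h3 x
      · rw [a0, F0, F0, za]
      · obtain ⟨y, rfl⟩ := ρ.b.surjective y
        rw [a1, F1, F1, za, show β - α = β - (α + 1) + 1 by ring, zm_b])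
    fun α β x => by
      obtain ⟨_ | _, y, rfl⟩ := h3 x
      · rw [hb, F0, F0, zm_b]
      · rw [hb, F1, F1, add_sub_right_comm, zm_b]
  have hw : ∀ z, w (zm ρ' z) = F z := fun z => Z.lift_zm ..
  refine ⟨se u v, HE.of_inv w ?_ ?_, fun _ _ => rfl, hv⟩
  · rintro (z | z)
    · induction z using Z.ind with
      | h x y => exact (hw (x, i false y)).trans (F0 x y)
    · induction z using Z.ind with
      | h x y =>
        obtain ⟨α, β⟩ := x
        refine (congrArg w (hv α β y)).trans ?_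
        rw [hw, F1, add_sub_cancel_left]
  · refine Z.ind fun ⟨α, β⟩ x => ?_
    obtain ⟨_ | _, y, rfl⟩ := h3 x
    · rw [hw, F0]; rfl
    · rw [hw, F1]
      refine (hv α _ y).trans ?_
      rw [add_sub_cancel]

end TWO

theorem bTWO : St_TWO := by
  intro T _ D
  obtain ⟨γ, g1, g2, g3⟩ := TWO.two (.triv Unit) (.triv Bool) (fun ε => .const _ ε) (.id _) (cu _)
    (fun _ _ => rfl) (fun _ _ => rfl) (fun x => ⟨x, (), rfl⟩) (fun _ => rfl) (fun _ => rfl)
    (fun _ => rfl) fun _ _ => rfl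
  obtain ⟨ζ, z1, z2, z3⟩ := TWO.two D.act D.ptw (fun ε => ⟨fun y => (ε, y), by fun_prop⟩) .fst .snd
    (fun _ _ => rfl) (fun _ _ => rfl) (fun x => ⟨x.1, x.2, rfl⟩) (fun _ => rfl) (fun _ => rfl)
    (fun y => Prod.ext rfl (D.bb y)) fun _ _ => rfl
  refine ⟨γ, ζ, g1, z1, ?_, ?_⟩
  · rintro (z | z)
    · induction z using Z.ind with
      | h x y => exact congrArg (zpr _) (g2 x y)
    · induction z using Z.ind with
      | h x y => exact (congrArg (zpr _) (g3 x.1 x.2 y)).trans (uDat.sh_zm x.1 x.2 y).symm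
  · rintro (z | z)
    · induction z using Z.ind with
      | h x y => exact (congrArg (Z.map _ _) (g2 x y)).trans (z2 x D.t₀).symm
    · induction z using Z.ind with
      | h x y => exact (congrArg (Z.map _ _) (g3 x.1 x.2 y)).trans (z3 x.1 x.2 D.t₀).symm

end Pool.Agent.Lib.NFB
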