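import Pool.Agent.Lib.NFB.Blue2

/-! The segments of a double mapping cylinder are natural. -/

namespace Pool.Agent.Lib.NFB

open Set Topology unitInterval

noncomputable section

theorem bVNAT : St_VNAT := by
  intro A B C _ _ _ f g c c' κ
  haveI : ContractibleSpace I := (convex_Icc (0 : ℝ) 1).contractibleSpace ⟨0, by simp⟩
  let F : C(I × I, DM f g) := ⟨fun z => cy f g (κ z.1, z.2), by fun_prop⟩
  let p₁ : Path ((0 : I), (0 : I)) ((1 : I), (1 : I)) :=
    (Path.id.prod (Path.refl 0)).trans ((Path.refl 1).prod Path.id)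
  let p₂ : Path ((0 : I), (0 : I)) ((1 : I), (1 : I)) :=
    ((Path.refl 0).prod Path.id).trans (Path.id.prod (Path.refl 1))
  obtain ⟨H⟩ := SimplyConnectedSpace.paths_homotopic p₁ p₂
  have e₁ : ∀ t, F (p₁ t) =
      (((κ.map f.continuous).map (inA f g).continuous).trans (vert f g c')) t := by
    intro t
    simp only [p₁, Path.trans_apply]
    split_ifs
    · exact cy_zero f g _
    · exact congrArg (fun x => cy f g (x, _)) κ.target
  have e₂ : ∀ t, F (p₂ t) =
      ((vert f g c).trans ((κ.map g.continuous).map (inB f g).continuous)) t := by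
    intro t
    simp only [p₂, Path.trans_apply]
    split_ifs
    · exact congrArg (fun x => cy f g (x, _)) κ.source
    · exact cy_one f g _
  refine ⟨⟨⟨⟨fun z => F (H z), F.continuous.comp H.continuous⟩, fun t => ?_, fun t => ?_⟩,
    fun s t ht => ?_⟩⟩
  · exact (congrArg F (H.apply_zero t)).trans (e₁ t)
  · exact (congrArg F (H.apply_one t)).trans (e₂ t)
  · exact (congrArg F (H.eq_fst s ht)).trans (e₁ t)

end

end Pool.Agent.Lib.NFB
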