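import Pool.Agent.Lib.NFB.Blue2

/-! Attaching two copies of the fibre or their wedge. -/

namespace Pool.Agent.Lib.NFB

theorem bWEDGE (hPASTE : St_PASTE) (hZDM : St_ZDM) (hCOLW : St_COLW) (hDOLD : St_DOLD)
    (hGLUE : St_GLUE) : St_WEDGE := by
  intro T K _ _ _ _ t₀ ρS ρA ρW hs hw β hc cof
  have hp : Eqv ρS (Act.triv Unit) (cu Bool) := ⟨fun _ => rfl, fun _ => rfl⟩
  have hE : Eqv (Act.dm hp hs) ρW (wcol t₀) :=
    ⟨DM.ind (fun _ => hw.1.symm) (fun _ _ => hw.1.symm) hc.a,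
      DM.ind (fun _ => hw.2.symm) (fun _ _ => hw.2.symm) hc.b⟩
  obtain ⟨κ, k0, k1, k2, k3, k4, k5⟩ := hPASTE _ _ _ _ (β.prodMk (.const _ (1 : Circle)))
    ((β.comp (zpr ρS)).prodMk (.const _ (1 : Circle))) (zpr ρS) (Z.map (bsec t₀) hs) fun _ => rfl
  obtain ⟨e, e1, -⟩ := hZDM _ _ _ (cu Bool) (bsec t₀) _ ρA ρS hp hs
  have s1 : Sim (th₁ β (inA (zpr ρS) (Z.map (bsec t₀) hs)))
      (th₁ (β.comp (zpr ρS)) (Z.map (bsec t₀) hs)) :=
    .of_eq k0 (DM.ind (fun k => by rw [k1]; rfl) (fun c t => by rw [k2]; rfl)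
      (DM.ind (fun b => by rw [k3]; rfl) (fun c t => by rw [k4]; rfl) fun d => by rw [k5]; rfl))
  have h2 := hGLUE _ _ _ _ _ _ (β.prodMk (.const _ (1 : Circle)))
    (inA (zpr ρS) (Z.map (bsec t₀) hs)) (β.prodMk (.const _ (1 : Circle))) (zsec hw)
    (.id _) (.id _) ((Z.map (wcol t₀) hE).comp ⟨e, e.continuous⟩) (fun _ => rfl)
    (Z.ind fun x y => (congrArg (Z.map (wcol t₀) hE) (e1 x y)).symm) HE.id HE.id
    ((hDOLD _ _ _ _ _ hE (hCOLW T t₀ cof)).comp (HE.homeo e))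
  exact s1.symm.trans (.of_eq h2 (DM.ind (fun _ => rfl) (fun _ _ => rfl) fun _ => rfl))

end Pool.Agent.Lib.NFB
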