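import Pool.Agent.Lib.NFB.Blue1

/-! The winding number of a circle valued map along loops. -/

namespace Pool.Agent.Lib.NFB

open Set Topology Metric unitInterval

noncomputable section

namespace WIND

variable {z : Circle}

theorem lift_eq (γ : Path z z) (e : ex ⁻¹' {z}) (L : C(I, ℝ)) (hL : ∀ t, ex (L t) = γ t) :
    (ex_cov.monodromy (.mk γ) e : ℝ) = e + (L 1 - L 0) := by
  obtain ⟨n, hn⟩ := ex_eq_iff.1 ((show ex e = z from e.2).trans ((hL 0).trans γ.source).symm)
  have h1 : L + .const I (n : ℝ) = ex_cov.liftPath γ e (γ.source.trans e.2.symm) :=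
    (ex_cov.eq_liftPath_iff' _).2 ⟨funext fun t => by
      change ex (L t + n) = γ t
      rw [ex_add, ex_int, mul_one, hL], hn.symm⟩
  have h2 : L 1 + n = ex_cov.monodromy (.mk γ) e := DFunLike.congr_fun h1 1
  linarith

theorem shift (g : Path.Homotopic.Quotient z z) :
    ∃ n : ℤ, ∀ e : ex ⁻¹' {z}, (ex_cov.monodromy g e : ℝ) = e + n := by
  obtain ⟨γ⟩ := g
  obtain ⟨x, hx⟩ := ex_surj z
  have hL := congrFun (ex_cov.liftPath_lifts γ x (γ.source.trans hx.symm))
  obtain ⟨n, hn⟩ := ex_eq_iff.1 (((hL 1).trans γ.target).trans ((hL 0).trans γ.source).symm)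
  exact ⟨n, fun e => (lift_eq γ e _ hL).trans (by rw [hn, add_sub_cancel_left])⟩

end WIND

open WIND in
theorem bWIND : St_WIND := by
  intro X _ θ x₀
  choose w hw using shift (z := θ x₀)
  obtain ⟨x, hx⟩ := ex_surj (θ x₀)
  have hm : ∀ a b : FundamentalGroup Circle (θ x₀), w (a * b) = w a + w b := fun a b => by
    have h1 := hw (a * b) ⟨x, hx⟩
    rw [FundamentalGroup.mul_def, ex_cov.monodromy_trans_apply, hw, hw] at h1
    have h2 : (w (a * b) : ℝ) = w a + w b := by
      rw [FundamentalGroup.mul_def]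
      linarith
    exact_mod_cast h2
  refine ⟨(MonoidHom.mk' (fun g : FundamentalGroup Circle (θ x₀) => Multiplicative.ofAdd (w g)) fun a b => by
    rw [hm, ofAdd_add]).comp (FundamentalGroup.map θ x₀), fun γ L hL => ?_⟩
  have h1 := lift_eq (γ.map θ.continuous) ⟨x, hx⟩ L hL
  rw [hw] at h1
  exact (add_left_cancel h1).symm

end

end Pool.Agent.Lib.NFB
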