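import Pool.Agent.Lib.NFB.Blue1

/-! Row WINH: homotopic maps have the same winding number. -/

namespace Pool.Agent.Lib.NFB

open Set Topology unitInterval

theorem bWINH : St_WINH := by
  rintro X _ θ θ' x₀ φ ⟨H⟩ hφ γ L hL
  let K : C(I × I, Circle) := ⟨fun q => H.symm (q.1, γ q.2), by fun_prop⟩
  have k0 : ∀ a, K (0, a) = ex (L a) := fun a => (H.symm.apply_zero _).trans (hL a).symm
  let M := ex_cov.liftHomotopy K L k0
  have m1 : ∀ q, ex (M q) = K q := congrFun (ex_cov.liftHomotopy_lifts K L k0)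
  have m0 : ∀ a, M (0, a) = L a := ex_cov.liftHomotopy_zero K L k0
  obtain ⟨n, hn⟩ := ex_eq_iff.1 ((hL 1).trans ((congrArg θ' (γ.target.trans γ.source.symm)).trans
    (hL 0).symm))
  have a1 : (fun s : I => M (s, 1)) = fun s : I => M (s, 0) + n :=
    ex_cov.eq_of_comp_eq (by fun_prop) (by fun_prop) (funext fun s => by
      simp only [Function.comp_apply, ex_add, ex_int, mul_one, m1]
      simp [K]) 0 (by simp only [m0, hn])
  have a2 := hφ γ ⟨fun t => M (1, t), by fun_prop⟩ fun t => (m1 _).trans (H.symm.apply_one _)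
  have a3 : M (1, 1) = M (1, 0) + n := congrFun a1 1
  rw [← a2, hn]
  change _ = M (1, 1) - M (1, 0)
  rw [a3]
  ring

end Pool.Agent.Lib.NFB
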