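import Pool.Agent.Lib.NFB.Blue2

/-! The space is equivalent to a body. -/

namespace Pool.Agent.Lib.NFB

theorem bXCC (hCLS : St_CLS) (hCBO : St_CBO) (hCBAS : St_CBAS) : St_XCC := by
  intro T _ _ _ D hT
  have hZ : ∀ (A : Type) [TopologicalSpace A] [CompactSpace A] [T2Space A] (ρ : Act A),
      CC A → CC (Z ρ) := fun A _ _ _ ρ h =>
    (hCBO.2 _ ((hCBO.2 A h).1 ρ.a)).1 _
  have hB : CC (Z uDat.toAct) := hZ _ _ hCBAS.1
  have h2 := hCBO.1 _ _ hB hB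
  have hK : CC (KK uDat) := hCLS _ _ _ _ _ hB h2 (hCBO.1 _ _ h2 h2)
  exact hCLS _ _ _ _ _ (hCBO.2 _ hK).2 (hZ _ _ hT) (hZ _ _ hCBAS.1)

end Pool.Agent.Lib.NFB
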