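import Pool.Agent.Lib.NFB.Blue2

/-! The cover of the space. -/

namespace Pool.Agent.Lib.NFB

open Set Topology unitInterval ContinuousMap

namespace XCOV

variable {G : Type} [Group G] [TopologicalSpace G] [DiscreteTopology G] {a b s t : G}

theorem zc (hZ : St_ZCOV) (hP : St_PCOV) (h : MP_dab48e_gt.Pres a b s t) {A : Type}
    [TopologicalSpace A] (ρ : Act A) :
    ∃ _ : MulAction (G × Multiplicative ℤ) (Z (pAct h ρ)),
      (∀ (γ : G × Multiplicative ℤ) x δ y,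
        γ • zm (pAct h ρ) (x, (δ, y)) = zm (pAct h ρ) (x, (γ * δ, y))) ∧
      IsQuotientCoveringMap (ppr h ρ) (G × Multiplicative ℤ) := by
  obtain ⟨i, e, c⟩ := (hP.2.2 (G × Multiplicative ℤ)).2 A
  obtain ⟨j, e', c'⟩ := hZ _ _ _ .snd (pAct h ρ) ρ ⟨fun _ => rfl, fun _ => rfl⟩ c
    (fun γ y => (congrArg _ (e γ y.1 y.2)).trans (Eq.trans
      (by exact Prod.ext (Prod.ext (mul_assoc γ.1 y.1.1 a⁻¹) rfl) rfl)
      (e γ (y.1.1 * a⁻¹, y.1.2) (ρ.a y.2)).symm))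
    (fun γ y => (congrArg _ (e γ y.1 y.2)).trans (Eq.trans
      (by exact Prod.ext (Prod.ext (mul_assoc γ.1 y.1.1 b⁻¹) rfl) rfl)
      (e γ (y.1.1 * b⁻¹, y.1.2) (ρ.b y.2)).symm))
  exact ⟨j, fun γ x δ y => (e' γ x (δ, y)).trans (congrArg (fun w => zm _ (x, w)) (e γ δ y)), c'⟩

theorem iot_zm (h : MP_dab48e_gt.Pres a b s t) (x : ℝ × ℝ) (δ : G × Multiplicative ℤ) (y : Unit) :
    iot h (zm _ (x, (δ, y))) = (kv _ (zm _ (x, δ.1)), ((δ.2.toAdd : ℤ) : ℝ)) := Z.lift_zm ..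

end XCOV

open XCOV

theorem bXCOV (hZ : St_ZCOV) (hD : St_DMCOV) (hP : St_PCOV) : St_XCOV := by
  intro G _ _ _ a b s t h _ hk T _ D
  obtain ⟨iA, eA, cA⟩ := hP.2.1 G _ _ (kpr (gDat h)) hk.1
  obtain ⟨iC, eC, cC⟩ := zc hZ hP h (.triv Unit)
  obtain ⟨iB, eB, cB⟩ := zc hZ hP h D.act
  obtain ⟨j, e1, e2, e3, c⟩ := hD (G × Multiplicative ℤ) _ _ _ _ _ _ (iot h) (sect h D.fix) (io 1)
    (zsec D.fix) ((kpr _).prodMap ex) (ppr h _) (ppr h _)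
    (Z.ind fun x y => by rw [iot, Z.lift_zm]; exact Prod.ext rfl (ex_int _).symm)
    (Z.ind fun _ _ => rfl) cA cC cB
    (fun γ => Z.ind fun x y => (congrArg _ (eC γ x y.1 y.2)).trans ((iot_zm h x _ _).trans
      (Eq.trans (Prod.ext (hk.2 γ.1 x y.1.1).symm (by simp [add_comm]))
        ((congrArg _ (iot_zm h x y.1 y.2)).trans (eA γ _ _)).symm)))
    (fun γ => Z.ind fun x y => (congrArg _ (eC γ x y.1 y.2)).trans (eB γ x y.1 D.t₀).symm)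
  exact ⟨j, c, fun γ k r => (e1 γ (k, r)).trans (congrArg _ (eA γ k r)),
    fun γ x δ u => (e2 γ _ u).trans (congrArg (fun w => cy _ _ (w, u)) (eC γ x δ ())),
    fun γ x δ y => (e3 γ _).trans (congrArg _ (eB γ x δ y))⟩

end Pool.Agent.Lib.NFB
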