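import Pool.Agent.Lib.NFB.Blue2

/-! Row XSC: the cover of the space is simply connected. -/

namespace Pool.Agent.Lib.NFB

open Set Topology unitInterval ContinuousMap

namespace XSC

theorem key (hMON : St_MON) {Γ A A' X X' : Type} [Group Γ] [TopologicalSpace A] [TopologicalSpace A']
    [TopologicalSpace X] [TopologicalSpace X'] [MulAction Γ A'] [MulAction Γ X'] {p : C(A', A)}
    {q : C(X', X)} (hp : IsQuotientCoveringMap p Γ) (hq : IsQuotientCoveringMap q Γ) (k : C(A', X'))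
    (hk : ∀ (g : Γ) y, k (g • y) = g • k y) (e : A') (hA : SimplyConnectedSpace A')
    (hX : PathConnectedSpace X) (j : FundamentalGroup A (p e) → FundamentalGroup X (q (k e)))
    (hs : Function.Surjective j) (hj : ∀ γ : Path (p e) (p e), ∃ γ' : Path (q (k e)) (q (k e)),
      j (cls γ) = cls γ' ∧ ∀ t y, γ t = p y → γ' t = q (k y)) : SimplyConnectedSpace X' := by
  obtain ⟨a1, a2, -, a4⟩ := hMON Γ A A' p hp e
  obtain ⟨b1, -, b3, -⟩ := hMON Γ X X' q hq (k e)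
  have e1 : mon hq (k e) ∘ j = mon hp e := by
    funext x
    obtain ⟨γ⟩ := x
    obtain ⟨g, Λ, hΛ⟩ := a2 γ
    obtain ⟨γ', c1, c2⟩ := hj γ
    exact (congrArg _ c1).trans ((b1 g ((Λ.map k.continuous).cast rfl (hk g e).symm) γ'
      fun t => c2 t _ (hΛ t)).trans (a1 g Λ γ hΛ).symm)
  have e2 := e1 ▸ a4 hA
  exact b3 hX ⟨e2.1.of_comp_right hs, e2.2.of_comp⟩

theorem he_fst {K : Type} [TopologicalSpace K] : HE (ContinuousMap.fst : C(K × ℝ, K)) :=
  ⟨⟨fun x => (x, 0), by fun_prop⟩,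
    homotopic_of ⟨fun z => (z.2.1, z.1 * z.2.2), by fun_prop⟩ (fun x => by simp) fun x => by simp,
    .refl _⟩

end XSC

theorem bXSC (hGEN1 : St_GEN1) (hZPI : St_ZPI) (hMON : St_MON) (hPCOV : St_PCOV) (hHEPI : St_HEPI) :
    St_XSC := by
  intro G _ _ _ a b s t h _ hK hS T _ D _ hX hT
  obtain ⟨act, hact, hp⟩ := hPCOV.2.1 G _ _ (kpr (gDat h)) hK.1
  have hA : SimplyConnectedSpace (KK (gDat h) × ℝ) := (hHEPI _ _ _ XSC.he_fst).2.2 hS
  have pA : PathConnectedSpace (KK uDat × Circle) :=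
    hp.surjective.pathConnectedSpace ((kpr (gDat h)).prodMap ex).continuous
  obtain ⟨pZ, lZ⟩ := (hZPI T D.act D.t₀ D.fix).2 hT
  have fx : Fix (Act.triv Unit) () := ⟨rfl, rfl⟩
  obtain ⟨pB, -⟩ := (hZPI Unit _ () fx).2 inferInstance
  obtain ⟨g1, g2⟩ := hGEN1 _ _ _ (io 1) (zsec D.fix)
  have s1 : Function.Surjective (FundamentalGroup.map (zsec D.fix) (zm _ (0, ()))) := by
    rintro ⟨γ⟩
    obtain ⟨m, n, hγ⟩ := lZ γ
    exact ⟨cls (zl fx m n), (Path.Homotopic.Quotient.eq.2 hγ).symm⟩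
  have s2 : ∀ a₀, a₀ = io 1 (zm _ (0, ())) →
      Function.Surjective (FundamentalGroup.map (inA (io 1) (zsec D.fix)) a₀) := by
    rintro _ rfl
    exact g2 pB _ s1
  refine XSC.key hMON hp hX.cov (inA _ _) (fun g y => ?_) (kv _ (zm _ (0, 1)), 0) hA
    (g1 fun z => ⟨zm _ (0, ()), PathConnectedSpace.joined _ _⟩)
    (FundamentalGroup.map (inA (io 1) (zsec D.fix)) _) (s2 _ (Prod.ext rfl ex_zero))
    fun γ => ⟨γ.map (inA (io 1) (zsec D.fix)).continuous, rfl, fun u y hy => congrArg (inA _ _) hy⟩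
  rw [hact g y.1 y.2]
  exact (hX.onA g y.1 y.2).symm

end Pool.Agent.Lib.NFB
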