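import Pool.Agent.Lib.NFB.Blue2

/-! Row `ZCOV`: quotient coverings of bundles over the torus. -/

namespace Pool.Agent.Lib.NFB

theorem bZCOV (hB : St_BOCOV) : St_ZCOV := by
  intro Γ A A' _ _ _ _ p ρ ρ' h hp ha hb
  obtain ⟨i, h1, h2⟩ := hB Γ A A' p ρ.a ρ'.a h.a hp ha
  obtain ⟨j, h3, h4⟩ := hB Γ _ _ (Bo.map p h.a) (Bo.hat ρ.a ρ.b ρ.comm) (Bo.hat ρ'.a ρ'.b ρ'.comm)
    (Bo.ind fun r y => by simp [h.b]) h2 fun γ => Bo.ind fun r y => by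
      rw [h1, Bo.hat_bm, Bo.hat_bm, h1, hb]
  exact ⟨j, fun γ x y => (h3 γ _ _).trans (congrArg (fun w => bm _ (x.2, w)) (h1 γ x.1 y)), h4⟩

end Pool.Agent.Lib.NFB
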