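import Pool.Agent.Lib.NFB.Blue2

/-! Row ZCV: the plane times the fibre covers the bundle over the torus. -/

open Set Topology Filter

namespace Pool.Agent.Lib.NFB

namespace ZCV

variable {A : Type} [TopologicalSpace A]

theorem cm (ρ : Act A) (m n : ℤ) (y : A) :
    (ρ.b ^ n) ((ρ.a ^ m) y) = (ρ.a ^ m) ((ρ.b ^ n) y) :=
  semi_zpow (F := fun y => (ρ.b ^ n) y) (φ := ρ.a) (φ' := ρ.a)
    (fun y => (semi_zpow (F := fun y => ρ.a y) (φ := ρ.b) (φ' := ρ.b)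
      (fun y => (ρ.comm y).symm) n y).symm) m y

/-- the deck action -/
@[reducible] def act (ρ : Act A) : MulAction (Multiplicative (ℤ × ℤ)) ((ℝ × ℝ) × A) where
  smul g z := ((z.1.1 + g.toAdd.1, z.1.2 + g.toAdd.2), (ρ.a ^ g.toAdd.1) ((ρ.b ^ g.toAdd.2) z.2))
  one_smul z := by
    change ((z.1.1 + ((0 : ℤ) : ℝ), z.1.2 + ((0 : ℤ) : ℝ)),
      (ρ.a ^ (0 : ℤ)) ((ρ.b ^ (0 : ℤ)) z.2)) = z
    simp
  mul_smul g h z := by
    change ((z.1.1 + ((g.toAdd.1 + h.toAdd.1 : ℤ) : ℝ), z.1.2 + ((g.toAdd.2 + h.toAdd.2 : ℤ) : ℝ)),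
      (ρ.a ^ (g.toAdd.1 + h.toAdd.1)) ((ρ.b ^ (g.toAdd.2 + h.toAdd.2)) z.2)) =
      ((z.1.1 + h.toAdd.1 + g.toAdd.1, z.1.2 + h.toAdd.2 + g.toAdd.2),
        (ρ.a ^ g.toAdd.1) ((ρ.b ^ g.toAdd.2) ((ρ.a ^ h.toAdd.1) ((ρ.b ^ h.toAdd.2) z.2))))
    rw [zpow_add_apply, zpow_add_apply, cm]
    refine Prod.ext (Prod.ext ?_ ?_) rfl <;> (push_cast; ring)

end ZCV

theorem bZCV : St_ZCV := by
  intro A _ ρ
  let _ := ZCV.act ρ
  have hs : ∀ (g : Multiplicative (ℤ × ℤ)) (z : (ℝ × ℝ) × A), g • z =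
      ((z.1.1 + g.toAdd.1, z.1.2 + g.toAdd.2), (ρ.a ^ g.toAdd.1) ((ρ.b ^ g.toAdd.2) z.2)) :=
    fun _ _ => rfl
  have h : IsQuotientCoveringMap (zm ρ) (Multiplicative (ℤ × ℤ)) :=
    { toIsQuotientMap := zm_open.isQuotientMap
      continuous_const_smul := fun g => by simp only [hs]; fun_prop
      apply_eq_iff_mem_orbit := fun {z z'} => by
        rw [eq_comm, zm_eq]
        exact ⟨fun ⟨m, n, h1, h2⟩ => ⟨Multiplicative.ofAdd (m, n), (Prod.ext h1 h2).symm⟩,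
          fun ⟨g, hg⟩ => ⟨g.toAdd.1, g.toAdd.2, congrArg Prod.fst hg.symm,
            congrArg Prod.snd hg.symm⟩⟩
      disjoint := fun z => by
        refine ⟨{w | |w.1.1 - z.1.1| < 1 / 2 ∧ |w.1.2 - z.1.2| < 1 / 2},
          IsOpen.mem_nhds (IsOpen.and (isOpen_lt (by fun_prop) continuous_const)
            (isOpen_lt (by fun_prop) continuous_const)) (by simp), ?_⟩
        rintro g ⟨_, ⟨w, ⟨h1, h2⟩, rfl⟩, h3, h4⟩
        simp only [hs] at h3 h4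
        rw [abs_lt] at h1 h2 h3 h4
        have e1 : |(g.toAdd.1 : ℝ)| < 1 := abs_lt.2 ⟨by linarith, by linarith⟩
        have e2 : |(g.toAdd.2 : ℝ)| < 1 := abs_lt.2 ⟨by linarith, by linarith⟩
        have e3 : |g.toAdd.1| < 1 := by exact_mod_cast e1
        have e4 : |g.toAdd.2| < 1 := by exact_mod_cast e2
        exact toAdd_eq_zero.1 (Prod.ext (Int.abs_lt_one_iff.1 e3) (Int.abs_lt_one_iff.1 e4)) }
  exact h.isCoveringMap

end Pool.Agent.Lib.NFB
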