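import Pool.Agent.Lib.NFB.Blue2

/-! Bundles over the torus commute with double mapping cylinders. -/

namespace Pool.Agent.Lib.NFB

open Set Topology unitInterval ContinuousMap

noncomputable section

namespace ZDM

variable {A B C : Type} [TopologicalSpace A] [TopologicalSpace B] [TopologicalSpace C]
  {f : C(C, A)} {g : C(C, B)} {ρA : Act A} {ρB : Act B} {ρC : Act C}

/-- the slice of the cylinder at height `u` -/
def sl (f : C(C, A)) (g : C(C, B)) (u : I) : C(C, DM f g) := ⟨fun c => cy f g (c, u), by fun_prop⟩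

/-- the cylinder over the bundle -/
def cyl (hf : Eqv ρC ρA f) (hg : Eqv ρC ρB g) : C(Z ρC × I, Z (Act.dm hf hg)) :=
  ⟨fun p => Z.map (ρ := ρC) (ρ' := Act.dm hf hg) (sl f g p.2) ⟨fun _ => rfl, fun _ => rfl⟩ p.1, by
    rw [(zm_open.prodMap (IsOpenQuotientMap.id (X := I))).isQuotientMap.continuous_iff]
    show Continuous fun q : ((ℝ × ℝ) × C) × I => zm (Act.dm hf hg) (q.1.1, cy f g (q.1.2, q.2))
    fun_prop⟩

theorem cyl_zm (hf : Eqv ρC ρA f) (hg : Eqv ρC ρB g) (x : ℝ × ℝ) (y : C) (u : I) :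
    cyl hf hg (zm ρC (x, y), u) = zm (Act.dm hf hg) (x, cy f g (y, u)) := rfl

/-- the comparison map -/
def fw (hf : Eqv ρC ρA f) (hg : Eqv ρC ρB g) :
    C(DM (Z.map f hf) (Z.map g hg), Z (Act.dm hf hg)) :=
  DM.lift (Z.map (ρ := ρA) (ρ' := Act.dm hf hg) (inA f g) ⟨fun _ => rfl, fun _ => rfl⟩)
    (cyl hf hg) (Z.map (ρ := ρB) (ρ' := Act.dm hf hg) (inB f g) ⟨fun _ => rfl, fun _ => rfl⟩)
    (Z.ind fun x y => by rw [cyl_zm, cy_zero]; rfl) (Z.ind fun x y => by rw [cyl_zm, cy_one]; rfl)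

theorem bw (hf : Eqv ρC ρA f) (hg : Eqv ρC ρB g) :
    ∃ G : C(Z (Act.dm hf hg), DM (Z.map f hf) (Z.map g hg)),
      (∀ x y, G (zm _ (x, inA f g y)) = inA _ _ (zm _ (x, y))) ∧
      (∀ x y u, G (zm _ (x, cy f g (y, u))) = cy _ _ (zm _ (x, y), u)) ∧
      ∀ x y, G (zm _ (x, inB f g y)) = inB _ _ (zm _ (x, y)) := by
  obtain ⟨F, h1, h2, h3⟩ := DM.lift_prod (f := f) (g := g) (P := ℝ × ℝ)
    ((inA (Z.map f hf) (Z.map g hg)).comp (zm ρA))
    ⟨fun q : (ℝ × ℝ) × (C × I) => cy (Z.map f hf) (Z.map g hg) (zm ρC (q.1, q.2.1), q.2.2),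
      by fun_prop⟩
    ((inB (Z.map f hf) (Z.map g hg)).comp (zm ρB))
    (fun s c => cy_zero _ _ (zm ρC (s, c))) fun s c => cy_one _ _ (zm ρC (s, c))
  refine ⟨Z.lift F (fun α β => DM.ind (fun y => ?_) (fun y u => ?_) fun y => ?_)
    fun α β => DM.ind (fun y => ?_) (fun y u => ?_) fun y => ?_,
    fun x y => (Z.lift_zm _ _ _ _).trans (h1 x y), fun x y u => (Z.lift_zm _ _ _ _).trans (h2 x _),
    fun x y => (Z.lift_zm _ _ _ _).trans (h3 x y)⟩
  · exact (h1 _ (ρA.a y)).trans ((congrArg (inA _ _) (zm_a α β y)).trans (h1 _ y).symm)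
  · exact (h2 _ (ρC.a y, u)).trans
      ((congrArg (fun z => cy (Z.map f hf) (Z.map g hg) (z, u)) (zm_a α β y)).trans
        (h2 _ (y, u)).symm)
  · exact (h3 _ (ρB.a y)).trans ((congrArg (inB _ _) (zm_a α β y)).trans (h3 _ y).symm)
  · exact (h1 _ (ρA.b y)).trans ((congrArg (inA _ _) (zm_b α β y)).trans (h1 _ y).symm)
  · exact (h2 _ (ρC.b y, u)).trans
      ((congrArg (fun z => cy (Z.map f hf) (Z.map g hg) (z, u)) (zm_b α β y)).trans
        (h2 _ (y, u)).symm)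
  · exact (h3 _ (ρB.b y)).trans ((congrArg (inB _ _) (zm_b α β y)).trans (h3 _ y).symm)

end ZDM

theorem bZDM : St_ZDM := by
  intro A B C _ _ _ _ _ _ _ _ _ f g ρA ρB ρC hf hg
  obtain ⟨G, h1, h2, h3⟩ := ZDM.bw hf hg
  refine ⟨⟨⟨ZDM.fw hf hg, G, DM.ind (Z.ind fun x y => h1 x y)
    (fun z u => Z.ind (P := fun z => G (ZDM.fw hf hg (cy _ _ (z, u))) = cy _ _ (z, u))
      (fun x y => h2 x y u) z) (Z.ind fun x y => h3 x y),
    Z.ind fun x => DM.ind (fun y => congrArg (ZDM.fw hf hg) (h1 x y))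
      (fun y u => congrArg (ZDM.fw hf hg) (h2 x y u)) fun y => congrArg (ZDM.fw hf hg) (h3 x y)⟩,
    (ZDM.fw hf hg).continuous, G.continuous⟩, fun _ _ => rfl, fun _ _ _ => rfl, fun _ _ => rfl⟩

end

end Pool.Agent.Lib.NFB
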