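import Pool.Agent.Lib.NFB.Blue2

/-! Row `ZPI`: loops in a bundle over the torus. -/

namespace Pool.Agent.Lib.NFB

open Set Topology unitInterval ContinuousMap

noncomputable section

namespace ZPI

theorem lift {E X : Type} [TopologicalSpace E] [TopologicalSpace X] [SimplyConnectedSpace E]
    (u : C(E, X)) {a b : E} (p q : Path a b) {x x' : X} (γ δ : Path x x')
    (hγ : ∀ t, γ t = u (p t)) (hδ : ∀ t, δ t = u (q t)) : γ.Homotopic δ := by
  obtain rfl : x = u a := by simpa using hγ 0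
  obtain rfl : x' = u b := by simpa using hγ 1
  rw [show γ = p.map u.continuous from Path.ext (funext hγ),
    show δ = q.map u.continuous from Path.ext (funext hδ)]
  exact (SimplyConnectedSpace.paths_homotopic p q).map u

/-- a segment in the plane -/
def seg (a b c : ℝ × ℝ) (h : a + b = c) : Path a c where
  toFun t := (a.1 + t * b.1, a.2 + t * b.2)
  continuous_toFun := by fun_prop
  source' := by simp
  target' := by simp [← h, Prod.ext_iff]

theorem fix {A : Type} [TopologicalSpace A] {ρ : Act A} {y : A} (h : Fix ρ y) (m n : ℤ) :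
    (ρ.a ^ m) ((ρ.b ^ n) y) = y := by
  rw [← semi_zpow (φ := .refl Unit) (F := fun _ => y) (fun _ => h.2.symm) n (),
    ← semi_zpow (φ := .refl Unit) (F := fun _ => y) (fun _ => h.1.symm) m ()]

end ZPI

theorem bZPI (hZCV : St_ZCV) : St_ZPI := by
  intro A _ ρ y h
  refine ⟨fun m n m' n' => ?_, fun hA => ?_⟩
  · refine ZPI.lift ((zm ρ).comp ⟨fun x : ℝ × ℝ => (x, y), by fun_prop⟩)
      (ZPI.seg 0 ((m + m' : ℤ), (n + n' : ℤ)) _ (zero_add _))
      ((ZPI.seg 0 (m, n) _ (zero_add _)).trans (ZPI.seg (m, n) (m', n') _ (by simp))) _ _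
      (fun t => by simp [zl, ZPI.seg]) fun t => ?_
    rw [Path.trans_apply, Path.trans_apply]
    split_ifs
    · simp [zl, ZPI.seg]
    · exact zm_eq.2 ⟨m, n, Prod.ext (add_comm _ _) (add_comm _ _), (ZPI.fix h m n).symm⟩
  · have : SimplyConnectedSpace ((ℝ × ℝ) × A) :=
      (((ContractibleSpace.hequiv (ℝ × ℝ) Unit).some.prodCongr (.refl A)).trans
        (Homeomorph.uniqueProd Unit A).toHomotopyEquiv).simplyConnectedSpace
    refine ⟨zm_open.surjective.pathConnectedSpace (zm ρ).continuous, fun γ => ?_⟩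
    obtain ⟨Γ, h1, h2⟩ := (hZCV A ρ).exists_path_lifts γ (0, y) γ.source
    obtain ⟨m, n, h3, h4⟩ := zm_eq.1 ((congrFun h1 1).trans γ.target).symm
    refine ⟨m, n, ZPI.lift (zm ρ) ⟨Γ, h2, Prod.ext (h3.trans (by simp)) (h4.trans (ZPI.fix h m n))⟩
      ((ZPI.seg 0 (m, n) _ (zero_add _)).prod (.refl y)) _ _ (fun t => (congrFun h1 t).symm)
      fun t => by simp [zl, ZPI.seg]⟩

end

end Pool.Agent.Lib.NFB
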