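import Pool.Agent.Lib.NFB.Kit0
import Pool.Agent.Lib.MP_dab48e_gt.Grp

/-! Block statements: bodies, doubles, coverings, groups. -/

namespace Pool.Agent.Lib.NFB

open Set Topology Metric unitInterval Module

/-- the signed distance decreases along an inward direction -/
def St_PUSH : Prop :=
  ∀ (V : Type) [NormedAddCommGroup V] [NormedSpace ℝ V] (N : Set V) (x₀ e : V) (r : ℝ),
    IsCompact N → x₀ ∈ frontier N → 0 < r → ELat N x₀ e r →
    ∃ r' : ℝ, 0 < r' ∧ ∀ y, ‖y - x₀‖ < r' → ∀ t : ℝ, 0 ≤ t → t ≤ r' →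
      sd N (y + t • e) ≤ sd N y - t * (r / 2)

/-- the global inward field -/
def St_FIELD : Prop :=
  ∀ (V : Type) [NormedAddCommGroup V] [NormedSpace ℝ V] [FiniteDimensional ℝ V] (N : Set V),
    EL N → N.Nonempty → Nᶜ.Nonempty → ∃ u m η c, Fld N u m η c

/-- bodies shrink -/
def St_SHR : Prop :=
  ∀ (V : Type) [NormedAddCommGroup V] [NormedSpace ℝ V] [FiniteDimensional ℝ V] (N : Set V),
    EL N → ∃ S K, Shr N S K

/-- bodies are neighbourhood retracts -/
def St_ENR : Prop :=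
  ∀ (V : Type) [NormedAddCommGroup V] [NormedSpace ℝ V] [FiniteDimensional ℝ V] (N : Set V),
    EL N → ∃ (O : Set V) (r : V → V), IsOpen O ∧ N ⊆ O ∧ Continuous r ∧ MapsTo r O N ∧
      ∀ x ∈ N, r x = x

/-- homotopy extension into bodies -/
def St_BOR : Prop :=
  ∀ (V : Type) [NormedAddCommGroup V] [NormedSpace ℝ V] [FiniteDimensional ℝ V] (N : Set V),
    EL N → HT N

/-- continuous roots -/
def St_ROOT : Prop :=
  ∀ (P : Type) [TopologicalSpace P] (F : P × ℝ → ℝ) (a b : ℝ), a ≤ b → Continuous F →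
    (∀ p, StrictAntiOn (fun t => F (p, t)) (Icc a b)) → (∀ p, 0 ≤ F (p, a) ∧ F (p, b) ≤ 0) →
    ∃ τ : C(P, ℝ), ∀ p, τ p ∈ Icc a b ∧ F (p, τ p) = 0

/-- level sets with a monotone direction are manifolds -/
def St_LEV : Prop :=
  ∀ (E : Type) [NormedAddCommGroup E] [NormedSpace ℝ E] [FiniteDimensional ℝ E] (F : E → ℝ)
    (n : ℕ), Continuous F → finrank ℝ E = n + 1 →
    (∀ p, F p = 0 → ∃ (e : E) (r : ℝ), 0 < r ∧ ∀ q, ‖q - p‖ < r →
      StrictAntiOn (fun t : ℝ => F (q + t • e)) (Icc (-r) r)) →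
    Nonempty (ChartedSpace (EuclideanSpace ℝ (Fin n)) {p // F p = 0})

/-- doubles of bodies are manifolds -/
def St_CHART : Prop :=
  ∀ (V : Type) [NormedAddCommGroup V] [NormedSpace ℝ V] [FiniteDimensional ℝ V] (N : Set V),
    EL N → N.Nonempty → Nᶜ.Nonempty →
    Nonempty (ChartedSpace (EuclideanSpace ℝ (Fin (finrank ℝ V))) (Db N))

/-- points of small depth move to the frontier -/
def St_COLLAR : Prop :=
  ∀ (V : Type) [NormedAddCommGroup V] [NormedSpace ℝ V] [FiniteDimensional ℝ V] (N : Set V),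
    EL N → N.Nonempty → Nᶜ.Nonempty →
    ∃ (η : ℝ) (β : C(I × {x : N // dp N x < η}, N)), 0 < η ∧ (∀ x, β (0, x) = x.1) ∧
      (∀ x, dp N (β (1, x)) = 0) ∧ (∀ l x, dp N (β (l, x)) ≤ dp N x.1) ∧
      ∀ l x, dp N x.1 = 0 → β (l, x) = x.1

/-- maps to a double -/
def St_SIGN : Prop :=
  ∀ (V : Type) [NormedAddCommGroup V] (N : Set V) (Y : Type) [TopologicalSpace Y] (a : C(Y, N))
    (P : Y → Prop), Nᶜ.Nonempty →
    (∀ y, (a y : V) ∈ interior N → ∀ᶠ y' in 𝓝 y, P y' ↔ P y) →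
    ∃ Φ : C(Y, Db N), ∀ y, Over (Φ y) (a y) (P y)

/-- families of fold maps -/
def St_FOLD : Prop :=
  ∀ (V : Type) [NormedAddCommGroup V] (N N' : Set V) (S K : C(I × V, V)), IsClosed N →
    Nᶜ.Nonempty → N'ᶜ.Nonempty → Fam S K → (∀ t, ∀ x ∈ N, S (t, x) ∈ N') →
    ∀ k : C(I × N', N), (∀ t (x : N) (h : S (t, x) ∈ N'), k (t, ⟨S (t, x), h⟩) = x) →
    ∃ Φ : C(I × Db N', Db N), ∀ t z,
      Over (Φ (t, z)) (k (t, dpr N' z)) (0 ≤ z.1.2 ∧ z.1.1 ∈ (fun x => S (t, x)) '' N)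

/-- isotopic embeddings have homotopic fold maps -/
def St_ISO : Prop :=
  ∀ (V : Type) [NormedAddCommGroup V] (N : Set V), IsCompact N → Nᶜ.Nonempty → HT N →
    ∀ F G : V → V, Step N F G → ∀ (k₁ : C(N, N)) (Φ₁ : C(Db N, Db N)),
    (∀ (x : N) (h : G x ∈ N), k₁ ⟨G x, h⟩ = x) → IsFold (G '' N) k₁ Φ₁ →
    ∃ (k₀ : C(N, N)) (Φ₀ : C(Db N, Db N)), (∀ (x : N) (h : F x ∈ N), k₀ ⟨F x, h⟩ = x) ∧
      IsFold (F '' N) k₀ Φ₀ ∧ Φ₀.Homotopic Φ₁

/-- strict left inverses -/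
def St_LEFT : Prop :=
  ∀ (N N' : Type) [TopologicalSpace N] [TopologicalSpace N'] [CompactSpace N] [CompactSpace N']
    [T2Space N'], HT N → ∀ (j : C(N, N')) (c : C(N', N)), Function.Injective j →
    (c.comp j).Homotopic (.id N) → ∃ k : C(N', N), (∀ x, k (j x) = x) ∧ k.Homotopic c

/-- doubles are equivalent, from embeddings both ways -/
def St_ATI0 : Prop :=
  ∀ (V : Type) [NormedAddCommGroup V] (N N' : Set V), IsCompact N → IsCompact N' →
    Nᶜ.Nonempty → N'ᶜ.Nonempty → HT N → HT N' →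
    ∀ (J J' : V ≃ₜ V) (j c' : C(N, N')) (j' c : C(N', N)), (∀ x, (j x : V) = J x) →
    (∀ y, (j' y : V) = J' y) → (c.comp j).Homotopic (.id N) → (c'.comp j').Homotopic (.id N') →
    Relation.ReflTransGen (Step N) id (J' ∘ J) → Relation.ReflTransGen (Step N') id (J ∘ J') →
    ∃ h : C(Db N, Db N'), HE h ∧ ((dpr N').comp h).Homotopic (c'.comp (dpr N))

/-- the shrinking step -/
def St_SC3 : Prop :=
  ∀ (V F : Type) [NormedAddCommGroup V] [NormedAddCommGroup F] [NormedSpace ℝ F] (W : Set V)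
    (S K : C(I × V, V)), Shr W S K →
    Step (NB W F) id fun z => (S (1, z.1), (1 / 4 : ℝ) • z.2)

/-- the linear step -/
def St_LIN : Prop :=
  ∀ (V : Type) [NormedAddCommGroup V] [NormedSpace ℝ V] (W : Set V) (S K : C(I × V, V))
    (l d d' : ℝ), Fam S K → 0 < l → 0 < d → 0 < d' → l * d ≤ 1 / 4 → l * d' ≤ 1 / 4 →
    (∀ x ∈ W, closedBall (S (1, x)) d' ⊆ W) → (∀ x ∈ W, l * ‖x‖ ≤ 1 / 4) →
    Step (NB W (V × V)) (fun z => (S (1, z.1), (1 / 4 : ℝ) • z.2))
      fun z => (S (1, z.1) + d' • z.2.2, (l • S (1, z.1), (l * d) • z.2.1))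

/-- the triangular step -/
def St_TRI : Prop :=
  ∀ (V : Type) [NormedAddCommGroup V] [NormedSpace ℝ V] [FiniteDimensional ℝ V] (W : Set V)
    (S K : C(I × V, V)) (f g : C(V, V)) (l d d' : ℝ), IsCompact W → Shr W S K → 0 < l → 0 < d →
    0 < d' → l * d ≤ 1 / 4 → (∀ x ∈ W, closedBall (S (1, x)) d' ⊆ W) →
    (∀ x ∈ W, l * ‖x‖ ≤ 1 / 4) → (∀ x ∈ W, l * ‖f x‖ ≤ 1 / 4) →
    ∀ H : C(I × (W × closedBall (0 : V) 1), W),
    (∀ p, S (1, H (0, p)) = g (f p.1 + d • (p.2 : V))) → (∀ p, H (1, p) = p.1) →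
    Step (NB W (V × V))
      (fun z => (S (1, z.1) + d' • z.2.2, (l • S (1, z.1), (l * d) • z.2.1)))
      fun z => (g (f z.1 + d • z.2.1) + d' • z.2.2, (l • z.1, l • (f z.1 + d • z.2.1)))

/-- equivalent bodies have equivalent stable doubles -/
def St_ATI : Prop :=
  ∀ (V : Type) [NormedAddCommGroup V] [NormedSpace ℝ V] [FiniteDimensional ℝ V] [Nontrivial V]
    (W W' : Set V), EL W → EL W' → ∀ f₀ : C(W, W'), HE f₀ →
    ∃ h : C(Db (NB W (V × V)), Db (NB W' (V × V))), HE h ∧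
      (((nbp W' _).comp (dpr _)).comp h).Homotopic (f₀.comp ((nbp W _).comp (dpr _)))

/-- products, balls, intervals -/
def St_ELP : Prop :=
  (∀ (V V' : Type) [NormedAddCommGroup V] [NormedSpace ℝ V] [NormedAddCommGroup V']
    [NormedSpace ℝ V'] (N : Set V) (N' : Set V'), EL N → EL N' → EL (N ×ˢ N')) ∧
  (∀ (V : Type) [NormedAddCommGroup V] [NormedSpace ℝ V] [FiniteDimensional ℝ V] (R : ℝ),
    0 < R → EL (closedBall (0 : V) R)) ∧
  ∀ a b : ℝ, a < b → EL (Icc a b)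

/-- tubes around graphs -/
def St_GRN : Prop :=
  ∀ (V V' : Type) [NormedAddCommGroup V] [NormedSpace ℝ V] [NormedAddCommGroup V']
    [NormedSpace ℝ V'] [FiniteDimensional ℝ V'] (C : Set V) (f : V → V') (δ : ℝ),
    EL C → LocallyLipschitz f → 0 < δ → EL (Gr C f δ)

/-- square roots of tubes -/
def St_GRS : Prop :=
  ∀ (V : Type) [NormedAddCommGroup V] [NormedSpace ℝ V] (C : Set V) (f : V → ℂ) (δ : ℝ),
    EL C → LocallyLipschitz f → 0 < δ → (∀ x ∈ C, δ < ‖f x‖) → EL (Gs C f δ)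

/-- approximation by locally Lipschitz maps -/
def St_LIP : Prop :=
  ∀ (V V' : Type) [NormedAddCommGroup V] [NormedSpace ℝ V] [FiniteDimensional ℝ V]
    [NormedAddCommGroup V'] [NormedSpace ℝ V'] [FiniteDimensional ℝ V'] (C : Set V),
    IsCompact C → ∀ (F : C(C, V')) (ε : ℝ), 0 < ε →
    ∃ f : V → V', LocallyLipschitz f ∧ ∀ x : C, ‖f x - F x‖ < ε

/-- good representatives of maps into bodies -/
def St_APX : Prop :=
  ∀ (V V' : Type) [NormedAddCommGroup V] [NormedSpace ℝ V] [FiniteDimensional ℝ V]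
    [NormedAddCommGroup V'] [NormedSpace ℝ V'] [FiniteDimensional ℝ V'] (C : Set V) (A : Set V'),
    IsCompact C → EL A → ∀ f₀ : C(C, A), ∃ (f : V → V') (δ : ℝ) (f₁ : C(C, A)),
      LocallyLipschitz f ∧ 0 < δ ∧ (∀ x ∈ C, closedBall (f x) δ ⊆ A) ∧
      (∀ x : C, (f₁ x : V') = f x) ∧ f₁.Homotopic f₀

/-- the union of three pieces is a body -/
def St_CEL : Prop :=
  ∀ (V A B : Type) [NormedAddCommGroup V] [NormedSpace ℝ V] [FiniteDimensional ℝ V]
    [NormedAddCommGroup A] [NormedSpace ℝ A] [FiniteDimensional ℝ A]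
    [NormedAddCommGroup B] [NormedSpace ℝ B] [FiniteDimensional ℝ B]
    (NA : Set A) (NB : Set B) (C : Set V) (f : V → A) (g : V → B) (δ R : ℝ),
    EL NA → EL NB → EL C → LocallyLipschitz f → LocallyLipschitz g → 0 < δ → 0 < R →
    (∀ x ∈ C, closedBall (f x) (2 * δ) ⊆ NA) → (∀ x ∈ C, closedBall (g x) (2 * δ) ⊆ NB) →
    NA ⊆ ball 0 R → NB ⊆ ball 0 R → C ⊆ ball 0 R → EL (Om NA NB C f g δ R)

/-- first members of the class -/
def St_CBAS : Prop :=
  CC Unit ∧ CC Empty ∧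
  ∀ (V : Type) [NormedAddCommGroup V] [NormedSpace ℝ V] [FiniteDimensional ℝ V],
    CC (sphere (0 : V) 1)

/-- `W₂` is the double cover of `W₁` by the ambient open map `P` -/
structure Two {V : Type} [TopologicalSpace V] {W₁ W₂ : Set V} (P : C(V, V)) (θ₁ : C(W₁, Circle))
    (θ₂ : C(W₂, Circle)) : Prop where
  op : IsOpenMap P
  pre : W₂ = P ⁻¹' W₁
  sq : ∀ (x : W₂) (h : P x ∈ W₁), θ₂ x ^ 2 = θ₁ ⟨P x, h⟩
  inj : ∀ x x' : W₂, P x = P x' → θ₂ x = θ₂ x' → x = x'
  surj : ∀ (y : W₁) (w : Circle), w ^ 2 = θ₁ y → ∃ x : W₂, P x = y ∧ θ₂ x = w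

/-- a body for a space over the circle, with its double cover -/
def St_GRA : Prop :=
  ∀ (X : Type) [TopologicalSpace X] (θ : C(X, Circle)), CC X →
    ∃ (V : Type) (_ : NormedAddCommGroup V) (_ : NormedSpace ℝ V) (_ : FiniteDimensional ℝ V)
      (_ : Nontrivial V) (W₁ W₂ : Set V) (P : C(V, V)) (θ₁ : C(W₁, Circle)) (θ₂ : C(W₂, Circle))
      (e : C(W₁, X)), EL W₁ ∧ EL W₂ ∧ Two P θ₁ θ₂ ∧ HE e ∧ (θ.comp e).Homotopic θ₁

/-- square root covers respect equivalences -/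
def St_SQS : Prop :=
  ∀ (X Y : Type) [TopologicalSpace X] [TopologicalSpace Y] (θ : C(X, Circle)) (θ' : C(Y, Circle)),
    Sim θ θ' → Sim (om θ) (om θ')

/-- the double of the double cover -/
def St_DCOV : Prop :=
  ∀ (V : Type) [NormedAddCommGroup V] (N₁ N₂ : Set V) (P : C(V, V)) (θ₁ : C(N₁, Circle))
    (θ₂ : C(N₂, Circle)), IsCompact N₂ → N₁ᶜ.Nonempty → N₂ᶜ.Nonempty → Two P θ₁ θ₂ →
    ∃ e : Db N₂ ≃ₜ Sq (θ₁.comp (dpr N₁)), ∀ z, om _ (e z) = θ₂ (dpr N₂ z)

/-- generation of the fundamental group by two open sets -/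
def St_GEN0 : Prop :=
  ∀ (D : Type) [TopologicalSpace D] (U V : Set D) (d₀ : D) (R : Subgroup (FundamentalGroup D d₀)),
    IsOpen U → IsOpen V → U ∪ V = univ → (∀ y ∈ U, JoinedIn U d₀ y) → d₀ ∈ U →
    (∀ δ : Path d₀ d₀, range δ ⊆ U → cls δ ∈ R) →
    (∀ (y y' : D) (δ : Path d₀ y) (δ' : Path y y') (δ'' : Path d₀ y'), range δ ⊆ U →
      range δ' ⊆ V → range δ'' ⊆ U → cls (δ.trans (δ'.trans δ''.symm)) ∈ R) → R = ⊤

/-- paths between frontier points of a product with a ball move into the frontier -/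
def St_BDP : Prop :=
  ∀ (V F : Type) [NormedAddCommGroup V] [NormedAddCommGroup F] [NormedSpace ℝ F]
    [FiniteDimensional ℝ F] (W : Set V), 1 < finrank ℝ F →
    ∀ (x y : NB W F) (γ : Path x y), x.1 ∉ interior (NB W F) → y.1 ∉ interior (NB W F) →
      ∃ γ' : Path x y, γ'.Homotopic γ ∧ ∀ t, (γ' t).1 ∉ interior (NB W F)

/-- the upper sheet carries the fundamental group -/
def St_PI1D : Prop :=
  ∀ (V : Type) [NormedAddCommGroup V] [NormedSpace ℝ V] [FiniteDimensional ℝ V] (N : Set V),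
    EL N → Nᶜ.Nonempty → PathConnectedSpace N →
    (∀ (x y : N) (γ : Path x y), x.1 ∉ interior N → y.1 ∉ interior N →
      ∃ γ' : Path x y, γ'.Homotopic γ ∧ ∀ t, (γ' t).1 ∉ interior N) →
    PathConnectedSpace (Db N) ∧ ∀ x₀, Function.Surjective (FundamentalGroup.map (dup N) x₀)

/-- equivalences and the fundamental group -/
def St_HEPI : Prop :=
  ∀ (X Y : Type) [TopologicalSpace X] [TopologicalSpace Y] (f : C(X, Y)), HE f →
    (∀ x, Function.Bijective (FundamentalGroup.map f x)) ∧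
    (PathConnectedSpace Y → PathConnectedSpace X) ∧
    (SimplyConnectedSpace Y → SimplyConnectedSpace X)

/-- monodromy by lifting -/
def St_MON : Prop :=
  ∀ (Γ X Y : Type) [Group Γ] [TopologicalSpace X] [TopologicalSpace Y] [MulAction Γ Y]
    (p : C(Y, X)) (hp : IsQuotientCoveringMap p Γ) (e : Y),
    (∀ (g : Γ) (Λ : Path e (g • e)) (γ : Path (p e) (p e)), (∀ t, γ t = p (Λ t)) →
      mon hp e (cls γ) = MulOpposite.op g) ∧
    (∀ γ : Path (p e) (p e), ∃ (g : Γ) (Λ : Path e (g • e)), ∀ t, γ t = p (Λ t)) ∧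
    (PathConnectedSpace X → Function.Bijective (mon hp e) → SimplyConnectedSpace Y) ∧
    (SimplyConnectedSpace Y → Function.Bijective (mon hp e))

/-- pulling back quotient coverings -/
def St_PB : Prop :=
  ∀ (Γ X Y M : Type) [Group Γ] [TopologicalSpace X] [TopologicalSpace Y] [TopologicalSpace M]
    [MulAction Γ Y] (p : C(Y, X)) (q : C(M, X)), IsQuotientCoveringMap p Γ →
    ∃ _ : MulAction Γ (PB q p), (∀ (γ : Γ) (z : PB q p), (γ • z).1 = (z.1.1, γ • z.1.2)) ∧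
      IsQuotientCoveringMap (fun z : PB q p => z.1.1) Γ ∧
      (SimplyConnectedSpace Y → PathConnectedSpace M →
        ∀ m₀, Function.Bijective (FundamentalGroup.map q m₀) → SimplyConnectedSpace (PB q p))

/-- compact fundamental sets -/
def St_FUND : Prop :=
  ∀ (Γ M Y : Type) [Group Γ] [TopologicalSpace M] [TopologicalSpace Y] [CompactSpace M]
    [T2Space M] [MulAction Γ Y] (p : Y → M), IsQuotientCoveringMap p Γ →
    ∃ C : Set Y, IsCompact C ∧ ∀ y, ∃ γ : Γ, ∃ c ∈ C, y = γ • c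

/-- a bundle over the circle can be rotated -/
def St_ROT : Prop :=
  ∀ (M F : Type) [TopologicalSpace M] [TopologicalSpace F] [CompactSpace M] (f : C(M, Circle)),
    LocTriv F f → ∃ (ε : ℝ) (P : C(I × M, M)) (κ : C(I × M, ℝ)), 0 < ε ∧ (∀ m, P (0, m) = m) ∧
      (∀ m, κ (0, m) = 0) ∧ (∀ t m, f (P (t, m)) = f m * ex (κ (t, m))) ∧ ∀ m, ε ≤ κ (1, m)

/-- no fibration -/
def St_NOFIB : Prop :=
  ∀ (G X : Type) [Group G] [TopologicalSpace X] (θ : C(X, Circle)), Pack G θ →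
    ∀ (M : Type) [TopologicalSpace M] [CompactSpace M] [T2Space M] [LocallyPathConnectedSpace M]
      [PathConnectedSpace M] (q : C(M, X)) (j : C(X, M)), (q.comp j).Homotopic (.id X) →
      ∀ m₀, Function.Bijective (FundamentalGroup.map q m₀) →
      ∀ (F : Type) [TopologicalSpace F] (f : C(M, Circle)), ¬ LocTriv F f

/-- the winding number exists -/
def St_WIND : Prop :=
  ∀ (X : Type) [TopologicalSpace X] (θ : C(X, Circle)) (x₀ : X), ∃ φ, IsWind θ x₀ φ

/-- homotopic maps have the same winding number -/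
def St_WINH : Prop :=
  ∀ (X : Type) [TopologicalSpace X] (θ θ' : C(X, Circle)) (x₀ : X) (φ), θ.Homotopic θ' →
    IsWind θ x₀ φ → IsWind θ' x₀ φ

/-- the kernel of the winding number -/
def St_KER : Prop :=
  ∀ (G X : Type) [Group G] [TopologicalSpace X] (θ : C(X, Circle)), Group.IsFinitelyPresented G →
    TF G → Pack G θ → ∀ (M : Type) [TopologicalSpace M] (q : C(M, X)) (m₀ : M),
    Function.Bijective (FundamentalGroup.map q m₀) → ∀ φ, IsWind (θ.comp q) m₀ φ →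
    Function.Surjective φ ∧ Group.IsFinitelyPresented φ.ker ∧ TF (FundamentalGroup M m₀)

/-- the square root cover is a covering -/
def St_SQC : Prop :=
  ∀ (X : Type) [TopologicalSpace X] (θ : C(X, Circle)), IsCoveringMap (sqp θ)

/-- the subgroup of the square root cover -/
def St_SQW : Prop :=
  ∀ (X : Type) [TopologicalSpace X] (θ : C(X, Circle)) (e₀ : Sq θ) (φ), IsWind θ (sqp θ e₀) φ →
    (FundamentalGroup.map (sqp θ) e₀).range =
      (Subgroup.zpowers (Multiplicative.ofAdd ((2 : ℕ) : ℤ))).comap φ ∧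
    (PathConnectedSpace X → Function.Surjective φ → PathConnectedSpace (Sq θ))

/-- the equivalence preserves the kernel -/
def St_HK : Prop :=
  ∀ (X : Type) [TopologicalSpace X] (θ : C(X, Circle)) (e₀ : Sq θ) (φ), IsWind θ (sqp θ e₀) φ →
    ∀ (h : ContinuousMap.HomotopyEquiv X (Sq θ)) (γ : Path (h.toFun (sqp θ e₀)) e₀),
    ((om θ).comp h.toFun).Homotopic θ →
    φ.ker.map ((FundamentalGroup.map (sqp θ) e₀).comp
      ((FundamentalGroup.fundamentalGroupMulEquivOfPath γ).toMonoidHom.comp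
        (FundamentalGroup.map h.toFun (sqp θ e₀)))) = φ.ker

/-- extensions of torsion free groups by a stable letter -/
def St_TF1 : Prop :=
  ∀ (G : Type) [Group G] (A B : Subgroup G) (φ : A ≃* B), TF G → TF (HNNExtension G A B φ)

/-- the group is torsion free -/
def St_TF2 : Prop :=
  ∀ (G : Type) [Group G] (a b s t : G), MP_dab48e_gt.Univ a b s t → TF G

/-- the statement -/
def Target : Prop :=
  ∃ (n : ℕ) (M : Type) (_ : TopologicalSpace M) (_ : T2Space M) (_ : SecondCountableTopology M)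
    (_ : CompactSpace M) (_ : ConnectedSpace M) (_ : ChartedSpace (EuclideanSpace ℝ (Fin n)) M)
    (E : Type) (_ : TopologicalSpace E) (_ : PathConnectedSpace E) (p : C(E, M)) (e₀ : E)
    (φ : FundamentalGroup M (p e₀) →* Multiplicative ℤ) (k : ℕ)
    (h : ContinuousMap.HomotopyEquiv M E) (γ : Path (h.toFun (p e₀)) e₀),
    IsCoveringMap p ∧ Function.Surjective φ ∧ Group.IsFinitelyPresented φ.ker ∧
    (∀ g : FundamentalGroup M (p e₀), IsOfFinOrder g → g = 1) ∧ 1 < k ∧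
    (FundamentalGroup.map p e₀).range =
      (Subgroup.zpowers (Multiplicative.ofAdd (k : ℤ))).comap φ ∧
    φ.ker.map ((FundamentalGroup.map p e₀).comp
      ((FundamentalGroup.fundamentalGroupMulEquivOfPath γ).toMonoidHom.comp
        (FundamentalGroup.map h.toFun (p e₀)))) = φ.ker ∧
    ∀ (F : Type) [TopologicalSpace F] (f : C(M, Circle)),
      ¬ ∀ z : Circle, ∃ e : Bundle.Trivialization F f, z ∈ e.baseSet

/-- from the space to the manifold -/
def St_MAN : Prop :=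
  ∀ (G X : Type) [Group G] [TopologicalSpace X] (θ : C(X, Circle)), Group.IsFinitelyPresented G →
    TF G → CC X → Pack G θ → Sim θ (om θ) → Target

/-- the space -/
def St_SPACE : Prop :=
  ∀ (G : Type) [Group G] (a b s t : G), MP_dab48e_gt.Univ a b s t →
    ∃ (X : Type) (_ : TopologicalSpace X) (θ : C(X, Circle)), CC X ∧ Pack G θ ∧ Sim θ (om θ)

theorem target_of (h1 : St_TF2) (h2 : St_MAN) (h3 : St_SPACE) : Target := by
  obtain ⟨G, _, a, b, s, t, hG, hU⟩ := MP_dab48e_gt.exists_univ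
  obtain ⟨X, _, θ, c1, c2, c3⟩ := h3 G a b s t hU
  exact h2 G X θ hG (h1 G a b s t hU) c1 c2 c3

end Pool.Agent.Lib.NFB
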