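import Pool.Agent.Lib.NFB.Tor
import Pool.Agent.Lib.MP_dab48e_gt.Grp

/-! The fibre, its wedge, the function spaces and the total spaces. -/

namespace Pool.Agent.Lib.NFB

open Set Topology unitInterval ContinuousMap
open scoped Topology.Homotopy

noncomputable section

variable {A B C P Y Y' : Type} [TopologicalSpace A] [TopologicalSpace B] [TopologicalSpace C]
  [TopologicalSpace P] [TopologicalSpace Y] [TopologicalSpace Y']

/-- homotopy extension for all targets -/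
def Cof (i : C(C, B)) : Prop :=
  ∀ (Y : Type) [TopologicalSpace Y] (F : C(B, Y)) (h : C(I × C, Y)), (∀ c, h (0, c) = F (i c)) →
    ∃ H : C(I × B, Y), (∀ b, H (0, b) = F b) ∧ ∀ s c, H (s, i c) = h (s, c)

/-- `P` is the pushout, also with a parameter -/
structure Push (f : C(C, A)) (i : C(C, B)) (jA : C(A, P)) (jB : C(B, P)) : Prop where
  comm : ∀ c, jB (i c) = jA (f c)
  surj : ∀ p, (∃ a, p = jA a) ∨ ∃ b, p = jB b
  glue : ∀ (Y : Type) [TopologicalSpace Y] (a : C(I × A, Y)) (b : C(I × B, Y)),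
    (∀ s c, b (s, i c) = a (s, f c)) →
    ∃ G : C(I × P, Y), (∀ s x, G (s, jA x) = a (s, x)) ∧ ∀ s x, G (s, jB x) = b (s, x)

/-- the map to the circle on a space attached to a space over the circle -/
def th {β : C(C, A)} {sg : C(C, B)} (θ : C(A, Circle)) (ϑ : C(B, Circle))
    (h : ∀ c, ϑ (sg c) = θ (β c)) : C(DM β sg, Circle) :=
  DM.lift θ ((ϑ.comp sg).comp .fst) ϑ h fun _ => rfl

/-- the four-cube -/
abbrev Q4 : Type := (Fin 2 → I) × (I × I)

/-- the points that go to the base point -/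
def Zr (p : Q4) : Prop := p.1 ∈ Cube.boundary (Fin 2) ∨ p.2.1 = 0 ∨ p.2.1 = 1 ∨ p.2.2 = 1 ∨
  (p.2.2 = 0 ∧ ∃ n : ℤ, 3 * (p.2.1 : ℝ) = n)

/-- the reflection of the second coordinate -/
def rf (x : Fin 2 → I) : Fin 2 → I := fun j => if j = 1 then σ (x 1) else x j

/-- the double suspension of the Moore space -/
structure Mo (T : Type) [TopologicalSpace T] where
  Φ : C(Q4, T)
  t₀ : T
  b : T ≃ₜ T
  surj : Function.Surjective Φ
  base : ∀ p, Φ p = t₀ ↔ Zr p
  fib : ∀ p p', Φ p = Φ p' ↔ p = p' ∨ (Zr p ∧ Zr p') ∨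
    (p.1 = p'.1 ∧ p.2.2 = 0 ∧ p'.2.2 = 0 ∧ ∃ n : ℤ, 3 * ((p.2.1 : ℝ) - p'.2.1) = n)
  b_Φ : ∀ x w, b (Φ (x, w)) = Φ (rf x, w)
  b_t : b t₀ = t₀
  bb : ∀ y, b (b y) = y

/-- the bottom sphere -/
abbrev Mo.S {T : Type} [TopologicalSpace T] (D : Mo T) : Set T := {y | ∃ x z, y = D.Φ (x, (z, 0))}

/-- pointed maps -/
abbrev Pt (a : A) (y : Y) : Type := {F : C(A, Y) // F a = y}

/-- loops with a parameter -/
abbrev LP (P₀ : Set P) (y₀ : Y) : Type :=
  {w : C(I × P, Y) // (∀ p, w (0, p) = y₀) ∧ (∀ p, w (1, p) = y₀) ∧ ∀ z, ∀ p ∈ P₀, w (z, p) = y₀}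

/-- the constant loop -/
def LP.e (P₀ : Set P) (y₀ : Y) : LP P₀ y₀ := ⟨.const _ y₀, fun _ => rfl, fun _ => rfl, fun _ _ _ => rfl⟩

/-- pointed maps from the Moore space -/
abbrev WY (y₀ : Y) : Type :=
  {w : C(I × I, Y) // (∀ u, w (0, u) = y₀) ∧ (∀ u, w (1, u) = y₀) ∧ (∀ z, w (z, 1) = y₀) ∧
    ∀ z z' : I, (∃ n : ℤ, 3 * ((z : ℝ) - z') = n) → w (z, 0) = w (z', 0)}

/-- the constant map -/
def WY.e (y₀ : Y) : WY y₀ := ⟨.const _ y₀, fun _ => rfl, fun _ => rfl, fun _ => rfl, fun _ _ _ => rfl⟩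

/-- the second homotopy group -/
abbrev P2 (y : Y) : Type := HomotopyGroup (Fin 2) Y y

/-- composition of a double loop with a pointed map -/
def gmap {y : Y} {y' : Y'} (k : Pt y y') (p : Ω^ (Fin 2) Y y) : Ω^ (Fin 2) Y' y' :=
  ⟨k.1.comp p.1, fun t ht => (congrArg k.1 (p.2 t ht)).trans k.2⟩

/-- the induced homomorphism -/
def hmap {y : Y} {y' : Y'} (k : Pt y y') : P2 y →* P2 y' :=
  MonoidHom.mk' (Quotient.map (gmap k) fun _ _ h =>
    ContinuousMap.HomotopicRel.comp_continuousMap h k.1) fun x x' =>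
    Quotient.inductionOn₂ x x' fun p q => by
      have e : gmap k (GenLoop.transAt 0 q p) = GenLoop.transAt 0 (gmap k q) (gmap k p) :=
        GenLoop.ext _ _ fun t => apply_ite k.1 _ _ _
      exact (congrArg _ (HomotopyGroup.mul_spec (i := 0))).trans
        ((congrArg (Quotient.mk _) e).trans (HomotopyGroup.mul_spec (i := 0)).symm)

theorem hmap_mk {y : Y} {y' : Y'} (k : Pt y y') (p : Ω^ (Fin 2) Y y) :
    hmap k (⟦p⟧ : P2 y) = (⟦gmap k p⟧ : P2 y') := rfl

/-- `κ` runs three times through a loop -/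
def IsCub {P₀ : Set P} {y₀ : Y} (κ : LP P₀ y₀ → LP P₀ y₀) : Prop :=
  ∀ (w : LP P₀ y₀) (z z' : I) (p : P) (j : ℤ), 3 * (z : ℝ) = z' + j → (κ w).1 (z, p) = w.1 (z', p)

/-- restriction to the bottom loop -/
def rho (y₀ : Y) : Pt (WY.e y₀) (LP.e (∅ : Set Unit) y₀) :=
  ⟨⟨fun w => ⟨w.1.comp ⟨fun z => (⟨z.1 / 3, by
        have := z.1.2.1; have := z.1.2.2; constructor <;> linarith⟩, 0), by fun_prop⟩,
      fun _ => by simpa using w.2.1 0,
      fun _ => (w.2.2.2.2 _ 0 ⟨1, by simp⟩).trans (w.2.1 0), fun _ _ h => h.elim⟩,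
    ((ContinuousMap.continuous_precomp _).comp continuous_subtype_val).subtype_mk _⟩, rfl⟩

/-- double loops as maps from the Moore space -/
def del (y₀ : Y) : Pt (LP.e ({0, 1} : Set I) y₀) (WY.e y₀) :=
  ⟨⟨fun w => ⟨w.1, w.2.1, w.2.2.1, fun z => w.2.2.2 z 1 (by simp),
      fun z z' _ => (w.2.2.2 z 0 (by simp)).trans (w.2.2.2 z' 0 (by simp)).symm⟩,
    continuous_subtype_val.subtype_mk _⟩, rfl⟩

/-- the calculus of pointed homotopy classes of maps out of the fibre -/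
structure Calc {T : Type} [TopologicalSpace T] (D : Mo T) (y₀ : Y) {H : Type} [CommGroup H]
    (cl : Pt D.t₀ y₀ → H) : Prop where
  surj : Function.Surjective cl
  inj : ∀ F F', cl F = cl F' → F.1.HomotopicRel F'.1 {D.t₀}
  nat : ∀ k : Pt y₀ y₀, ∃ h : H →* H, ∀ F F' : Pt D.t₀ y₀, (∀ y, F'.1 y = k.1 (F.1 y)) →
    cl F' = h (cl F)
  inv : ∀ F F' : Pt D.t₀ y₀, (∀ y, F'.1 y = F.1 (D.b y)) → cl F' = (cl F)⁻¹
  pin : ∀ F F', ∃ R : Pt D.t₀ y₀, cl R = cl F * cl F' ∧ ∀ k : Y → Y,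
    (∀ y, k (F.1 y) = F.1 (D.b y)) → (∀ y, k (F'.1 y) = F'.1 (D.b y)) → ∀ y, k (R.1 y) = R.1 (D.b y)

section wedge

variable {T : Type} [TopologicalSpace T]

/-- the wedge of two copies -/
abbrev Wg (t₀ : T) : Type := {z : T × T // z.1 = t₀ ∨ z.2 = t₀}

/-- the base point of the wedge -/
def w₀ (t₀ : T) : Wg t₀ := ⟨(t₀, t₀), .inl rfl⟩

/-- the collapse onto the wedge -/
def col (t₀ : T) : C(Bool × T, Wg t₀) :=
  ⟨fun z => ⟨cond z.1 (t₀, z.2) (z.2, t₀), Bool.rec (.inr rfl) (.inl rfl) z.1⟩,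
    Continuous.subtype_mk (continuous_prod_of_discrete_left.2 fun ε => by
      cases ε <;> simp only [cond_true, cond_false] <;> fun_prop) _⟩

/-- the two base points -/
def bsec (t₀ : T) : C(Bool, Bool × T) := ⟨fun ε => (ε, t₀), by fun_prop⟩

/-- an involution as a homeomorphism -/
def invo {X : Type} [TopologicalSpace X] (u : X → X) (hu : Continuous u) (h : ∀ x, u (u x) = x) :
    X ≃ₜ X := ⟨⟨u, u, h, h⟩, hu, hu⟩

variable (D : Mo T)

/-- the action on the fibre -/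
def Mo.act : Act T := ⟨.refl T, D.b, fun _ => rfl⟩

theorem Mo.fix : Fix D.act D.t₀ := ⟨rfl, D.b_t⟩

/-- the reflection on the wedge -/
def Mo.wb : Wg D.t₀ ≃ₜ Wg D.t₀ :=
  invo (fun z => ⟨(D.b z.1.1, D.b z.1.2), z.2.imp (fun h => (congrArg D.b h).trans D.b_t)
      fun h => (congrArg D.b h).trans D.b_t⟩)
    (by fun_prop) fun z => Subtype.ext (Prod.ext (D.bb _) (D.bb _))

/-- the induced action on the wedge -/
def Mo.wsw : Act (Wg D.t₀) :=
  ⟨invo (fun z => ⟨z.1.swap, z.2.symm⟩) (by fun_prop) fun _ => rfl, D.wb, fun _ => rfl⟩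

/-- the twisted action on the wedge -/
def Mo.wtw : Act (Wg D.t₀) :=
  ⟨invo (fun z => ⟨(z.1.1, D.b z.1.2), z.2.imp id fun h => (congrArg D.b h).trans D.b_t⟩) (by fun_prop)
    fun z => Subtype.ext (Prod.ext rfl (D.bb _)), D.wb, fun _ => rfl⟩

theorem Mo.fix_sw : Fix D.wsw (w₀ D.t₀) := ⟨rfl, Subtype.ext (Prod.ext D.b_t D.b_t)⟩

theorem Mo.fix_tw : Fix D.wtw (w₀ D.t₀) :=
  ⟨Subtype.ext (Prod.ext rfl D.b_t), Subtype.ext (Prod.ext D.b_t D.b_t)⟩

/-- the swap of two points -/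
def bsw : Act Bool := ⟨invo not continuous_of_discreteTopology Bool.not_not, .refl _, fun _ => rfl⟩

/-- the induced action on two copies -/
def Mo.psw : Act (Bool × T) := ⟨bsw.a.prodCongr (.refl T), (Homeomorph.refl _).prodCongr D.b, fun _ => rfl⟩

/-- the twisted action on two copies -/
def Mo.ptw : Act (Bool × T) :=
  ⟨invo (fun z => (z.1, cond z.1 (D.b z.2) z.2))
    (continuous_prod_of_discrete_left.2 fun ε => by
      cases ε <;> simp only [cond_true, cond_false] <;> fun_prop)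
    (by rintro ⟨_ | _, y⟩ <;> simp [D.bb]), (Homeomorph.refl _).prodCongr D.b,
    by rintro ⟨_ | _, y⟩ <;> rfl⟩

theorem Mo.sec_sw : Eqv bsw D.psw (bsec D.t₀) := ⟨fun _ => rfl, fun _ => Prod.ext rfl D.b_t.symm⟩

theorem Mo.sec_tw : Eqv (.triv Bool) D.ptw (bsec D.t₀) :=
  ⟨by rintro (_ | _); exacts [rfl, Prod.ext rfl D.b_t.symm], fun _ => Prod.ext rfl D.b_t.symm⟩

end wedge

/-- an action of the torus group with two intertwining maps -/
structure Dat (Λ : Type) [TopologicalSpace Λ] extends Act Λ where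
  s : C(Λ, Λ)
  t : C(Λ, Λ)
  sa : ∀ y, s (a y) = a (b (s y))
  sb : ∀ y, s (b y) = b (s y)
  ta : ∀ y, t (a y) = a (a (t y))
  tb : ∀ y, t (b y) = b (t y)

variable {Λ : Type} [TopologicalSpace Λ]

/-- the shear -/
def Dat.sh (d : Dat Λ) : C(Z d.toAct, Z d.toAct) :=
  Z.lift ((zm _).comp ⟨fun z => ((z.1.1, z.1.1 + z.1.2), d.s z.2), by fun_prop⟩)
    (fun α β y => by
      simp only [comp_apply, coe_mk, d.sa]
      rw [zm_a, add_right_comm, zm_b])
    fun α β y => by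
      simp only [comp_apply, coe_mk, d.sb]
      rw [← add_assoc, zm_b]

/-- the doubling -/
def Dat.db (d : Dat Λ) : C(Z d.toAct, Z d.toAct) :=
  Z.lift ((zm _).comp ⟨fun z => ((2 * z.1.1, z.1.2), d.t z.2), by fun_prop⟩)
    (fun α β y => by
      simp only [comp_apply, coe_mk, d.ta]
      rw [show 2 * (α + 1) = 2 * α + 1 + 1 by ring, zm_a, zm_a])
    fun α β y => by
      simp only [comp_apply, coe_mk, d.tb]
      rw [zm_b]

@[simp] theorem Dat.sh_zm (d : Dat Λ) (α β : ℝ) (y : Λ) :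
    d.sh (zm _ ((α, β), y)) = zm _ ((α, α + β), d.s y) := Z.lift_zm ..

@[simp] theorem Dat.db_zm (d : Dat Λ) (α β : ℝ) (y : Λ) :
    d.db (zm _ ((α, β), y)) = zm _ ((2 * α, β), d.t y) := Z.lift_zm ..

/-- the graph of tori -/
abbrev KK (d : Dat Λ) : Type := Q (se (.id (Z d.toAct)) (.id (Z d.toAct))) (se d.sh d.db)

/-- the vertex space -/
def kv (d : Dat Λ) : C(Z d.toAct, KK d) := inA _ _

/-- the trivial data -/
def uDat : Dat Unit :=
  ⟨.triv Unit, .id _, .id _, fun _ => rfl, fun _ => rfl, fun _ => rfl, fun _ => rfl⟩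

/-- the attaching map at the level `w` -/
def io (w : Circle) : C(BB, KK uDat × Circle) := (kv uDat).prodMk (.const _ w)

/-- the space -/
abbrev XX {T : Type} [TopologicalSpace T] (D : Mo T) : Type := DM (io 1) (zsec D.fix)

/-- the map to the circle when everything is attached at level one -/
def th₁ {K : Type} [TopologicalSpace K] (β : C(C, K)) (sg : C(C, B)) :
    C(DM (β.prodMk (.const C (1 : Circle))) sg, Circle) :=
  th .snd (.const _ 1) fun _ => rfl

/-- the map of the space to the circle -/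
def thX {T : Type} [TopologicalSpace T] (D : Mo T) : C(XX D, Circle) := th₁ (kv uDat) (zsec D.fix)

section cover

variable {G : Type} [Group G] [TopologicalSpace G] [DiscreteTopology G] {a b s t : G}

/-- right translation -/
def rmul (g : G) : G ≃ₜ G :=
  ⟨Equiv.mulRight g⁻¹, continuous_of_discreteTopology, continuous_of_discreteTopology⟩

/-- the data on the group -/
def gDat (h : MP_dab48e_gt.Pres a b s t) : Dat G where
  a := rmul a
  b := rmul b
  comm y := by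
    show y * a⁻¹ * b⁻¹ = y * b⁻¹ * a⁻¹
    rw [mul_assoc, mul_assoc, ← mul_inv_rev, ← mul_inv_rev, h.ab]
  s := ⟨fun y => y * s, continuous_of_discreteTopology⟩
  t := ⟨fun y => y * t, continuous_of_discreteTopology⟩
  sa y := by
    show y * a⁻¹ * s = y * s * b⁻¹ * a⁻¹
    calc _ = y * a⁻¹ * (s * a * b) * b⁻¹ * a⁻¹ := by group
      _ = _ := by rw [← h.sa]; group
  sb y := by
    show y * b⁻¹ * s = y * s * b⁻¹
    calc _ = y * b⁻¹ * (s * b) * b⁻¹ := by group
      _ = _ := by rw [h.sb]; group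
  ta y := by
    show y * a⁻¹ * t = y * t * a⁻¹ * a⁻¹
    calc _ = y * a⁻¹ * (t * a * a) * a⁻¹ * a⁻¹ := by group
      _ = _ := by rw [← h.ta]; group
  tb y := by
    show y * b⁻¹ * t = y * t * b⁻¹
    calc _ = y * b⁻¹ * (t * b) * b⁻¹ := by group
      _ = _ := by rw [h.tb]; group

/-- the projection of the cover of the graph of tori -/
def kpr (d : Dat Λ) : C(KK d, KK uDat) :=
  DM.map (zpr _) (sm (sm (zpr _) (zpr _)) (sm (zpr _) (zpr _))) (sm (zpr _) (zpr _))
    (by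
      rintro ((z | z) | z | z)
      · rfl
      · rfl
      · induction z using Z.ind with
        | h x y => exact (uDat.sh_zm x.1 x.2 ()).trans (congrArg (zpr _) (d.sh_zm x.1 x.2 y)).symm
      · induction z using Z.ind with
        | h x y => exact (uDat.db_zm x.1 x.2 ()).trans (congrArg (zpr _) (d.db_zm x.1 x.2 y)).symm)
    (by rintro ((z | z) | z | z) <;> rfl)

/-- the action on the product of the group, the integers and a space -/
def pAct (h : MP_dab48e_gt.Pres a b s t) (ρ : Act A) : Act ((G × Multiplicative ℤ) × A) :=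
  ⟨((rmul a).prodCongr (.refl _)).prodCongr ρ.a, ((rmul b).prodCongr (.refl _)).prodCongr ρ.b,
    fun y => Prod.ext (Prod.ext ((gDat h).comm y.1.1) rfl) (ρ.comm y.2)⟩

/-- forgetting the group -/
def ppr (h : MP_dab48e_gt.Pres a b s t) (ρ : Act A) : C(Z (pAct h ρ), Z ρ) :=
  Z.map .snd ⟨fun _ => rfl, fun _ => rfl⟩

/-- the lifted attaching map -/
def iot (h : MP_dab48e_gt.Pres a b s t) : C(Z (pAct h (.triv Unit)), KK (gDat h) × ℝ) :=
  Z.lift ⟨fun z => (kv _ (zm _ (z.1, z.2.1.1)), (z.2.1.2.toAdd : ℤ)),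
      Continuous.prodMk (by fun_prop) (Continuous.comp (f := fun z : (ℝ × ℝ) × ((G × Multiplicative ℤ) × Unit) => z.2.1.2)
        (g := fun n : Multiplicative ℤ => ((n.toAdd : ℤ) : ℝ)) continuous_of_discreteTopology (by fun_prop))⟩
    (fun α β y => Prod.ext (congrArg (kv _) (zm_a (ρ := (gDat h).toAct) α β y.1.1)) rfl)
    fun α β y => Prod.ext (congrArg (kv _) (zm_b (ρ := (gDat h).toAct) α β y.1.1)) rfl

/-- the lifted section -/
def sect (h : MP_dab48e_gt.Pres a b s t) {ρ : Act A} {y : A} (hy : Fix ρ y) :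
    C(Z (pAct h (.triv Unit)), Z (pAct h ρ)) :=
  Z.map ((ContinuousMap.id _).prodMap (.const Unit y))
    ⟨fun _ => Prod.ext rfl hy.1.symm, fun _ => Prod.ext rfl hy.2.symm⟩

/-- the universal cover -/
abbrev Xt {T : Type} [TopologicalSpace T] (h : MP_dab48e_gt.Pres a b s t) (D : Mo T) : Type :=
  DM (iot h) (sect h D.fix)

/-- its projection -/
def xpr {T : Type} [TopologicalSpace T] (h : MP_dab48e_gt.Pres a b s t) (D : Mo T) :
    C(Xt h D, XX D) :=
  DM.map ((kpr _).prodMap ex) (ppr h _) (ppr h _)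
    (Z.ind fun x y => by rw [iot, Z.lift_zm]; exact Prod.ext rfl (ex_int _).symm)
    (Z.ind fun _ _ => rfl)

/-- the action on the cover of the graph of tori -/
def KAct (h : MP_dab48e_gt.Pres a b s t) [MulAction G (KK (gDat h))] : Prop :=
  IsQuotientCoveringMap (kpr (gDat h)) G ∧
    ∀ (γ : G) x g, γ • kv (gDat h) (zm _ (x, g)) = kv (gDat h) (zm _ (x, γ * g))

/-- the action on the universal cover -/
structure XAct {T : Type} [TopologicalSpace T] (h : MP_dab48e_gt.Pres a b s t) (D : Mo T)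
    [MulAction G (KK (gDat h))] [MulAction (G × Multiplicative ℤ) (Xt h D)] : Prop where
  cov : IsQuotientCoveringMap (xpr h D) (G × Multiplicative ℤ)
  onA : ∀ (γ : G × Multiplicative ℤ) k r, γ • (inA _ _ (k, r) : Xt h D) =
    inA _ _ (γ.1 • k, r + (γ.2.toAdd : ℤ))
  onC : ∀ (γ : G × Multiplicative ℤ) x δ u, γ • (cy _ _ (zm _ (x, (δ, ())), u) : Xt h D) =
    cy _ _ (zm _ (x, (γ * δ, ())), u)
  onB : ∀ (γ : G × Multiplicative ℤ) x δ y, γ • (inB _ _ (zm _ (x, (δ, y))) : Xt h D) =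
    inB _ _ (zm _ (x, (γ * δ, y)))

end cover

end

end Pool.Agent.Lib.NFB
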