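import Pool.Agent.Lib.NFB.Blue1
import Pool.Agent.Lib.NFB.Sp
import Pool.Agent.Lib.LT.Defs

/-! Block statements: mapping cylinders, the fibre, the space and its universal cover. -/

namespace Pool.Agent.Lib.NFB

open Set Topology Metric unitInterval
open scoped Topology.Homotopy

noncomputable section

section kit

variable {Y Y' Y'' : Type} [TopologicalSpace Y] [TopologicalSpace Y'] [TopologicalSpace Y'']
  {y : Y} {y' : Y'} {y'' : Y''}

theorem hmap_congr {k k' : Pt y y'} (h : k.1.HomotopicRel k'.1 {y}) (x : P2 y) :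
    hmap k x = hmap k' x := by
  obtain ⟨H⟩ := h
  refine Quotient.inductionOn x fun p => Quotient.sound ⟨⟨⟨⟨fun z => H (z.1, p z.2), by fun_prop⟩,
    fun t => H.apply_zero _, fun t => H.apply_one _⟩, fun s t ht => ?_⟩⟩
  exact H.eq_fst s (p.2 t ht)

theorem hmap_comp (k : Pt y y') (k' : Pt y' y'') (k'' : Pt y y'') (h : ∀ z, k''.1 z = k'.1 (k.1 z))
    (x : P2 y) : hmap k'' x = hmap k' (hmap k x) :=
  Quotient.inductionOn x fun p => congrArg (Quotient.mk _) (GenLoop.ext _ _ fun t => h (p t))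

theorem hmap_id (k : Pt y y) (h : ∀ z, k.1 z = z) (x : P2 y) : hmap k x = x :=
  Quotient.inductionOn x fun p => congrArg (Quotient.mk _) (GenLoop.ext _ _ fun t => h (p t))

theorem hmap_const (k : Pt y y') (h : ∀ z, k.1 z = y') (x : P2 y) : hmap k x = 1 :=
  Quotient.inductionOn x fun p => congrArg (Quotient.mk _) (GenLoop.ext _ _ fun t => h (p t))

instance [CompactSpace Y] [T2Space Y] : CompactSpace (Wg y) :=
  isCompact_iff_compactSpace.1 (show IsClosed {z : Y × Y | z.1 = y ∨ z.2 = y} from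
    (isClosed_eq continuous_fst continuous_const).union
      (isClosed_eq continuous_snd continuous_const)).isCompact

/-- a slice of the cylinder -/
def sl (Y : Type) [TopologicalSpace Y] (t : I) : C(Y, Y × I) := ⟨fun x => (x, t), by fun_prop⟩

theorem HE.sl (t : I) : HE (sl Y t) := HE.slice t

/-- the collapse of the whiskers -/
def wcol (y : Y) : C(DM (cu Bool) (bsec y), Wg y) :=
  DM.lift (.const _ (w₀ y)) (.const _ (w₀ y)) (col y) (fun _ => rfl) (by rintro (_ | _) <;> rfl)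

/-- the stable loop -/
def stab (f₀ f₁ : C(Y', Y)) {e : Y'} (h₀ : f₀ e = y) (h₁ : f₁ e = y) :
    Path (inA _ _ y : Q f₀ f₁) (inA _ _ y) :=
  ((vert (se f₀ f₁) (se (.id _) (.id _)) (.inl e)).trans
    (vert (se f₀ f₁) (se (.id _) (.id _)) (.inr e)).symm).cast
    (congrArg (inA _ _) h₀.symm) (congrArg (inA _ _) h₁.symm)

end kit

/-- the transport lemma -/
def St_TR : Prop :=
  ∀ (A B C : Type) [TopologicalSpace A] [TopologicalSpace B] [TopologicalSpace C]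
    (F : C(C × I, A)) (G : C(C × I, B)) (t : I) (f : C(C, A)) (g : C(C, B))
    (h0 : ∀ c, F (sl C t c) = ContinuousMap.id A (f c))
    (h1 : ∀ c, G (sl C t c) = ContinuousMap.id B (g c)),
    HE (DM.map (.id A) (sl C t) (.id B) h0 h1)

/-- gluing maps homotopic to the identity -/
def St_GL1 : Prop :=
  ∀ (A B C : Type) [TopologicalSpace A] [TopologicalSpace B] [TopologicalSpace C]
    (f f' : C(C, A)) (g g' : C(C, B)) (α : C(A, A)) (γ : C(C, C)) (β : C(B, B))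
    (h0 : ∀ c, f' (γ c) = α (f c)) (h1 : ∀ c, g' (γ c) = β (g c)), α.Homotopic (.id A) →
    γ.Homotopic (.id C) → β.Homotopic (.id B) → HE (DM.map α γ β h0 h1)

/-- the gluing lemma -/
def St_GLUE : Prop :=
  ∀ (A B C A' B' C' : Type) [TopologicalSpace A] [TopologicalSpace B] [TopologicalSpace C]
    [TopologicalSpace A'] [TopologicalSpace B'] [TopologicalSpace C']
    (f : C(C, A)) (g : C(C, B)) (f' : C(C', A')) (g' : C(C', B')) (α : C(A, A')) (γ : C(C, C'))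
    (β : C(B, B')) (h0 : ∀ c, f' (γ c) = α (f c)) (h1 : ∀ c, g' (γ c) = β (g c)),
    HE α → HE γ → HE β → HE (DM.map α γ β h0 h1)

/-- sums and products of equivalences -/
def St_HES : Prop :=
  ∀ (A B A' B' : Type) [TopologicalSpace A] [TopologicalSpace B] [TopologicalSpace A']
    [TopologicalSpace B'] (u : C(A, A')) (v : C(B, B')), HE u → HE v →
    HE (sm u v) ∧ HE (u.prodMap v)

/-- cofibrations -/
def St_COF : Prop :=
  (∀ (A B C : Type) [TopologicalSpace A] [TopologicalSpace B] [TopologicalSpace C],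
    (∀ (f : C(C, A)) (g : C(C, B)), Cof (inA f g)) ∧
    (∀ (i : C(A, B)) (j : C(B, C)), Cof i → Cof j → Cof (j.comp i)) ∧
    ∀ (i : C(A, B)) (e : B ≃ₜ C), Cof i → Cof ((e : C(B, C)).comp i)) ∧
  ∀ (T : Type) [TopologicalSpace T] (t₀ : T), Cof (.const Unit t₀) → Cof (bsec t₀)

/-- pushouts along cofibrations -/
def St_COLL : Prop :=
  ∀ (A B C P : Type) [TopologicalSpace A] [TopologicalSpace B] [TopologicalSpace C]
    [TopologicalSpace P] (f : C(C, A)) (i : C(C, B)) (jA : C(A, P)) (jB : C(B, P))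
    (κ : C(DM f i, P)), Push f i jA jB → Cof i → (∀ a, κ (inA f i a) = jA a) →
    (∀ z, κ (cy f i z) = jA (f z.1)) → (∀ b, κ (inB f i b) = jB b) → HE κ

/-- pasting -/
def St_PASTE : Prop :=
  ∀ (K B C D : Type) [TopologicalSpace K] [TopologicalSpace B] [TopologicalSpace C]
    [TopologicalSpace D] (α : C(B, K)) (α' : C(C, K)) (p : C(C, B)) (sg : C(C, D)),
    (∀ c, α' c = α (p c)) → ∃ κ : C(DM α (inA p sg), DM α' sg), HE κ ∧
      (∀ k, κ (inA _ _ k) = inA _ _ k) ∧ (∀ z, κ (cy _ _ z) = inA _ _ (α z.1)) ∧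
      (∀ b, κ (inB _ _ (inA _ _ b)) = inA _ _ (α b)) ∧
      (∀ z, κ (inB _ _ (cy _ _ z)) = cy _ _ z) ∧ ∀ d, κ (inB _ _ (inB _ _ d)) = inB _ _ d

/-- recognising an attached cell -/
def St_CELL : Prop :=
  ∀ (V A P : Type) [NormedAddCommGroup V] [NormedSpace ℝ V] [FiniteDimensional ℝ V]
    [TopologicalSpace A] [TopologicalSpace P] [CompactSpace A] [T2Space P] (j : C(A, P))
    (Φ : C(closedBall (0 : V) 1, P)) (φ : C(sphere (0 : V) 1, A)), Function.Injective j →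
    (∀ ω : sphere (0 : V) 1, Φ ⟨ω, sphere_subset_closedBall ω.2⟩ = j (φ ω)) →
    (∀ x x', ‖x.1‖ < 1 → ‖x'.1‖ < 1 → Φ x = Φ x' → x = x') → (∀ x a, ‖x.1‖ < 1 → Φ x ≠ j a) →
    (∀ p, (∃ a, p = j a) ∨ ∃ x, p = Φ x) →
    ∃ e : DM φ (cu _) ≃ₜ P, ∀ a, e (inA _ _ a) = j a

/-- recognising a mapping torus -/
def St_TORUS : Prop :=
  ∀ (A Y : Type) [TopologicalSpace A] [TopologicalSpace Y] [CompactSpace A] [T2Space Y]
    (φ : A ≃ₜ A) (π : C(ℝ × A, Y)), Function.Surjective π →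
    (∀ z z', π z = π z' ↔ ∃ n : ℤ, z'.1 = z.1 + n ∧ z'.2 = (φ ^ n) z.2) →
    ∃ e : Q (.id A) (φ.symm : C(A, A)) ≃ₜ Y, (∀ y, e (inA _ _ y) = π (0, y)) ∧
      (∀ y (u : I), e (cy _ _ (.inl y, u)) = π (u / 2, y)) ∧
      (∀ y (u : I), e (cy _ _ (.inr y, u)) = π (1 - u / 2, y)) ∧ ∀ y, e (inB _ _ y) = π (1 / 2, y)

/-- fibrewise equivalences -/
def St_DOLD : Prop :=
  ∀ (A A' : Type) [TopologicalSpace A] [TopologicalSpace A'] [CompactSpace A] [T2Space A]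
    [CompactSpace A'] [T2Space A'] (ρ : Act A) (ρ' : Act A') (F : C(A, A')) (h : Eqv ρ ρ' F),
    HE F → HE (Z.map F h)

/-- the body has the right homotopy type -/
def St_CHE : Prop :=
  ∀ (V A B : Type) [NormedAddCommGroup V] [NormedSpace ℝ V] [FiniteDimensional ℝ V]
    [NormedAddCommGroup A] [NormedSpace ℝ A] [FiniteDimensional ℝ A]
    [NormedAddCommGroup B] [NormedSpace ℝ B] [FiniteDimensional ℝ B]
    (NA : Set A) (NB : Set B) (C : Set V) (f : V → A) (g : V → B) (δ R : ℝ) (f₁ : C(C, NA))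
    (g₁ : C(C, NB)), IsCompact NA → IsCompact NB → IsCompact C → 0 < δ → 0 < R →
    (∀ x ∈ C, closedBall (f x) (2 * δ) ⊆ NA) → (∀ x ∈ C, closedBall (g x) (2 * δ) ⊆ NB) →
    NA ⊆ ball 0 R → NB ⊆ ball 0 R → C ⊆ ball 0 R → (∀ x : C, (f₁ x : A) = f x) →
    (∀ x : C, (g₁ x : B) = g x) → ∃ e : C(Om NA NB C f g δ R, DM f₁ g₁), HE e

/-- the class is closed under double mapping cylinders -/
def St_CLS : Prop :=
  ∀ (A B C : Type) [TopologicalSpace A] [TopologicalSpace B] [TopologicalSpace C]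
    (f : C(C, A)) (g : C(C, B)), CC A → CC B → CC C → CC (DM f g)

/-- sums, mapping tori, products with the circle -/
def St_CBO : Prop :=
  (∀ (A B : Type) [TopologicalSpace A] [TopologicalSpace B], CC A → CC B → CC (A ⊕ B)) ∧
  ∀ (A : Type) [TopologicalSpace A] [CompactSpace A] [T2Space A], CC A →
    (∀ φ : A ≃ₜ A, CC (Bo φ)) ∧ CC (A × Circle)

/-- bundles over the torus commute with double mapping cylinders -/
def St_ZDM : Prop :=
  ∀ (A B C : Type) [TopologicalSpace A] [TopologicalSpace B] [TopologicalSpace C] [CompactSpace A]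
    [CompactSpace B] [CompactSpace C] [T2Space A] [T2Space B] [T2Space C] (f : C(C, A))
    (g : C(C, B)) (ρA : Act A) (ρB : Act B) (ρC : Act C) (hf : Eqv ρC ρA f) (hg : Eqv ρC ρB g),
    ∃ e : DM (Z.map f hf) (Z.map g hg) ≃ₜ Z (Act.dm hf hg),
      (∀ x y, e (inA _ _ (zm _ (x, y))) = zm _ (x, inA _ _ y)) ∧
      (∀ x y u, e (cy _ _ (zm _ (x, y), u)) = zm _ (x, cy _ _ (y, u))) ∧
      ∀ x y, e (inB _ _ (zm _ (x, y))) = zm _ (x, inB _ _ y)

/-- the fibre exists -/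
def St_MOORE : Prop :=
  ∃ (T : Type) (_ : TopologicalSpace T) (_ : CompactSpace T) (_ : T2Space T), Nonempty (Mo T)

/-- the bottom cell -/
def St_TC3 : Prop :=
  ∀ (T : Type) [TopologicalSpace T] [T2Space T] (D : Mo T),
    ∃ e : DM (cu (sphere (0 : (Fin 2 → ℝ) × ℝ) 1)) (cu _) ≃ₜ D.S, (e (inA _ _ ()) : T) = D.t₀

/-- the top cell -/
def St_TC4 : Prop :=
  ∀ (T : Type) [TopologicalSpace T] [T2Space T] (D : Mo T),
    ∃ (φ : C(sphere (0 : (Fin 2 → ℝ) × (ℝ × ℝ)) 1, D.S)) (e : DM φ (cu _) ≃ₜ T),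
      ∀ y, e (inA _ _ y) = y

/-- properties of the fibre -/
def St_TP : Prop :=
  ∀ (T : Type) [TopologicalSpace T] [T2Space T] (D : Mo T),
    CC T ∧ SimplyConnectedSpace T ∧ Cof (.const Unit D.t₀)

/-- pointed maps as double loops -/
def St_ADJ1 : Prop :=
  ∀ (T Y : Type) [TopologicalSpace T] [T2Space T] [TopologicalSpace Y] (D : Mo T) (y₀ : Y),
    ∃ cur : Pt D.t₀ y₀ → Ω^ (Fin 2) (WY y₀) (WY.e y₀),
      (∀ F x w, (cur F x).1 w = F.1 (D.Φ (x, w))) ∧ Function.Surjective cur ∧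
      ∀ F F', GenLoop.Homotopic (cur F) (cur F') → F.1.HomotopicRel F'.1 {D.t₀}

/-- the calculus -/
def St_ADJ : Prop :=
  ∀ (T Y : Type) [TopologicalSpace T] [T2Space T] [TopologicalSpace Y] (D : Mo T) (y₀ : Y),
    ∃ cl : Pt D.t₀ y₀ → P2 (WY.e y₀), Calc D y₀ cl

/-- a ternary operation with units multiplies homotopy classes -/
def St_EH3 : Prop :=
  ∀ (L : Type) [TopologicalSpace L] (e : L) (m : C(L × L × L, L)) (κ : Pt e e) (u v w : C(L, L)),
    (∀ x, κ.1 x = m (x, x, x)) → (∀ x, u x = m (x, e, e)) → (∀ x, v x = m (e, x, e)) →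
    (∀ x, w x = m (e, e, x)) → u.HomotopicRel (.id L) {e} → v.HomotopicRel (.id L) {e} →
    w.HomotopicRel (.id L) {e} → ∀ x, hmap κ x = x ^ 3

/-- cubing -/
def St_CUB : Prop :=
  ∀ (P Y : Type) [TopologicalSpace P] [CompactSpace P] [T2Space P] [TopologicalSpace Y]
    (P₀ : Set P) (y₀ : Y), ∃ κ : Pt (LP.e P₀ y₀) (LP.e P₀ y₀), IsCub κ.1 ∧ ∀ x, hmap κ x = x ^ 3

/-- three times the bottom cell is trivial -/
def St_N2 : Prop :=
  ∀ (Y : Type) [TopologicalSpace Y] (y₀ : Y) (κ : Pt (LP.e (∅ : Set Unit) y₀) (LP.e ∅ y₀)),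
    IsCub κ.1 → ∀ x, hmap κ (hmap (rho y₀) x) = 1

/-- exactness in the middle -/
def St_N3 : Prop :=
  ∀ (Y : Type) [TopologicalSpace Y] (y₀ : Y) (κ : Pt (LP.e (∅ : Set Unit) y₀) (LP.e ∅ y₀)),
    IsCub κ.1 → ∀ x, hmap (rho y₀) x = 1 → ∃ y, x = hmap (del y₀) y

/-- three times the top cell is trivial -/
def St_N4 : Prop :=
  ∀ (Y : Type) [TopologicalSpace Y] (y₀ : Y)
    (κ : Pt (LP.e ({0, 1} : Set I) y₀) (LP.e {0, 1} y₀)),
    IsCub κ.1 → ∀ x, hmap (del y₀) (hmap κ x) = 1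

/-- the equivariant equivalence of wedges -/
def St_GMAP : Prop :=
  ∀ (T : Type) [TopologicalSpace T] [CompactSpace T] [T2Space T] (D : Mo T) (H : Type)
    [CommGroup H] (cl : Pt D.t₀ (w₀ D.t₀) → H), Calc D (w₀ D.t₀) cl → (∀ x : H, x ^ 9 = 1) →
    ∃ g : C(Wg D.t₀, Wg D.t₀), Eqv D.wsw D.wtw g ∧ g (w₀ _) = w₀ _ ∧ HE g

open Pool.Agent.Lib.LT MP_77749b_gt in
/-- homotopic maps agree on homology -/
def St_HI : Prop :=
  ∀ (E F : Type) [TopologicalSpace E] [TopologicalSpace F] (f g : C(E, F)), f.Homotopic g →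
    ∀ (k : ℕ) (z : Ch ℤ E (k + 1)), bd k z = 0 →
      ∃ d : Ch ℤ F (k + 2), bd (k + 1) d = push f (k + 1) z - push g (k + 1) z

open Pool.Agent.Lib.LT in
/-- a three-sphere with a four-cell attached by a map of degree divisible by three -/
structure HD {T E : Type} [TopologicalSpace T] [TopologicalSpace E] (S : Set T) (t₀ : T)
    (σ₄ : Simplex T 4) (e : Simplex T 3) (A : Set E) (ψ : Fin 3 → Simplex E 3) (κ : C(Bdy 5, E))
    (Φ : C(E, T)) (c : Fin 3 → C(E, S)) : Prop where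
  ca4 : CA 4 S univ fun _ : Unit => σ₄
  ca3 : CA 3 {t₀} S fun _ : Unit => e
  caE : CA 3 A univ ψ
  att : ∀ t : Bdy 5, σ₄ t = Φ (κ t)
  ΦA : ∀ x ∈ A, Φ x = t₀
  Φψ : ∀ j t, Φ (ψ j t) = e t
  hom : ∀ j, (c j).Homotopic (c 0)
  cA : ∀ j, ∀ x ∈ A, (c j x : T) = t₀
  cψ : ∀ j t, (c j (ψ j t) : T) = e t
  cψ' : ∀ i j t, i ≠ j → (c j (ψ i t) : T) = t₀

/-- such a space is not contractible -/
def St_HALG : Prop :=
  ∀ (T E : Type) [TopologicalSpace T] [TopologicalSpace E] [T2Space T] [T2Space E] (S : Set T)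
    (t₀ : T) (σ₄ e) (A : Set E) (ψ κ Φ c), HD S t₀ σ₄ e A ψ κ Φ c →
    ¬ (ContinuousMap.id T).Nullhomotopic

open Pool.Agent.Lib.LT MP_77749b_gt in
/-- cubes are simplices -/
def St_CUBE : Prop :=
  (∃ χ : Dl 5 ≃ₜ Q4, ∀ t, Inn t ↔ (χ t).1 ∉ Cube.boundary (Fin 2) ∧ (χ t).2.1 ≠ 0 ∧
    (χ t).2.1 ≠ 1 ∧ (χ t).2.2 ≠ 0 ∧ (χ t).2.2 ≠ 1) ∧
  ∃ χ : Dl 4 ≃ₜ (Fin 2 → I) × I, ∀ t, Inn t ↔ (χ t).1 ∉ Cube.boundary (Fin 2) ∧ (χ t).2 ≠ 0 ∧
    (χ t).2 ≠ 1

/-- the fibre has this shape -/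
def St_HGEO : Prop :=
  ∀ (T : Type) [TopologicalSpace T] [T2Space T] (D : Mo T),
    ∃ (E : Type) (_ : TopologicalSpace E) (_ : T2Space E) (σ₄ e : _) (A : Set E) (ψ κ Φ c : _),
      HD D.S D.t₀ σ₄ e A ψ κ Φ c

/-- the segments of the cylinder are natural -/
def St_VNAT : Prop :=
  ∀ (A B C : Type) [TopologicalSpace A] [TopologicalSpace B] [TopologicalSpace C]
    (f : C(C, A)) (g : C(C, B)) (c c' : C) (κ : Path c c'),
    (((κ.map f.continuous).map (inA f g).continuous).trans (vert f g c')).Homotopic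
      ((vert f g c).trans ((κ.map g.continuous).map (inB f g).continuous))

/-- generation of the fundamental group of a double mapping cylinder -/
def St_GEN : Prop :=
  ∀ (A B C : Type) [TopologicalSpace A] [TopologicalSpace B] [TopologicalSpace C]
    [PathConnectedSpace A] (f : C(C, A)) (g : C(C, B)) (a₀ : A)
    (R : Subgroup (FundamentalGroup (DM f g) (inA f g a₀))),
    (∀ δ : Path a₀ a₀, cls (δ.map (inA f g).continuous) ∈ R) →
    (∀ (c c' : C) (β : Path (g c) (g c')), ∃ (α : Path a₀ (f c)) (α' : Path a₀ (f c')),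
      cls ((α.map (inA f g).continuous).trans ((vert f g c).trans
        ((β.map (inB f g).continuous).trans ((vert f g c').symm.trans
          (α'.map (inA f g).continuous).symm)))) ∈ R) → R = ⊤

/-- the connected case -/
def St_GEN1 : Prop :=
  ∀ (A B C : Type) [TopologicalSpace A] [TopologicalSpace B] [TopologicalSpace C]
    [PathConnectedSpace A] (f : C(C, A)) (g : C(C, B)),
    ((∀ b, ∃ c, Joined (g c) b) → PathConnectedSpace (DM f g)) ∧
    (PathConnectedSpace C → ∀ c₀, Function.Surjective (FundamentalGroup.map g c₀) →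
      Function.Surjective (FundamentalGroup.map (inA f g) (f c₀)))

/-- the case of a graph of spaces with one vertex -/
def St_GEN2 : Prop :=
  ∀ (V E : Type) [TopologicalSpace V] [TopologicalSpace E] [PathConnectedSpace V]
    (f₀ f₁ : C(E, V)) (v₀ : V) (E₀ : Set E) (h₀ : ∀ e ∈ E₀, f₀ e = v₀) (h₁ : ∀ e ∈ E₀, f₁ e = v₀)
    (R : Subgroup (FundamentalGroup (Q f₀ f₁) (inA _ _ v₀))), (∀ e, ∃ e₀ ∈ E₀, Joined e₀ e) →
    (∀ δ : Path v₀ v₀, cls (δ.map (inA _ _ : C(V, Q f₀ f₁)).continuous) ∈ R) →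
    (∀ e (he : e ∈ E₀), cls (stab f₀ f₁ (h₀ e he) (h₁ e he)) ∈ R) → R = ⊤

/-- the plane times the fibre covers the bundle -/
def St_ZCV : Prop :=
  ∀ (A : Type) [TopologicalSpace A] (ρ : Act A), IsCoveringMap (zm ρ)

/-- loops in a bundle over the torus -/
def St_ZPI : Prop :=
  ∀ (A : Type) [TopologicalSpace A] (ρ : Act A) (y : A) (h : Fix ρ y),
    (∀ m n m' n', (zl h (m + m') (n + n')).Homotopic ((zl h m n).trans (zl h m' n'))) ∧
    (SimplyConnectedSpace A → PathConnectedSpace (Z ρ) ∧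
      ∀ γ : Path (zm ρ (0, y)) (zm ρ (0, y)), ∃ m n, γ.Homotopic (zl h m n))

/-- quotient coverings of mapping tori -/
def St_BOCOV : Prop :=
  ∀ (Γ A A' : Type) [Group Γ] [TopologicalSpace A] [TopologicalSpace A'] [MulAction Γ A]
    (p : C(A, A')) (φ : A ≃ₜ A) (φ' : A' ≃ₜ A') (h : ∀ y, p (φ y) = φ' (p y)),
    IsQuotientCoveringMap p Γ → (∀ (γ : Γ) y, φ (γ • y) = γ • φ y) →
    ∃ _ : MulAction Γ (Bo φ), (∀ (γ : Γ) r y, γ • bm φ (r, y) = bm φ (r, γ • y)) ∧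
      IsQuotientCoveringMap (Bo.map p h) Γ

/-- quotient coverings of bundles over the torus -/
def St_ZCOV : Prop :=
  ∀ (Γ A A' : Type) [Group Γ] [TopologicalSpace A] [TopologicalSpace A'] [MulAction Γ A]
    (p : C(A, A')) (ρ : Act A) (ρ' : Act A') (h : Eqv ρ ρ' p), IsQuotientCoveringMap p Γ →
    (∀ (γ : Γ) y, ρ.a (γ • y) = γ • ρ.a y) → (∀ (γ : Γ) y, ρ.b (γ • y) = γ • ρ.b y) →
    ∃ _ : MulAction Γ (Z ρ), (∀ (γ : Γ) x y, γ • zm ρ (x, y) = zm ρ (x, γ • y)) ∧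
      IsQuotientCoveringMap (Z.map p h) Γ

/-- quotient coverings of double mapping cylinders -/
def St_DMCOV : Prop :=
  ∀ (Γ A B C A' B' C' : Type) [Group Γ] [TopologicalSpace A] [TopologicalSpace B]
    [TopologicalSpace C] [TopologicalSpace A'] [TopologicalSpace B'] [TopologicalSpace C']
    [MulAction Γ A] [MulAction Γ B] [MulAction Γ C]
    (f : C(C, A)) (g : C(C, B)) (f' : C(C', A')) (g' : C(C', B')) (α : C(A, A')) (γ : C(C, C'))
    (β : C(B, B')) (h0 : ∀ c, f' (γ c) = α (f c)) (h1 : ∀ c, g' (γ c) = β (g c)),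
    IsQuotientCoveringMap α Γ → IsQuotientCoveringMap γ Γ → IsQuotientCoveringMap β Γ →
    (∀ (δ : Γ) c, f (δ • c) = δ • f c) → (∀ (δ : Γ) c, g (δ • c) = δ • g c) →
    ∃ _ : MulAction Γ (DM f g), (∀ (δ : Γ) a, δ • inA f g a = inA f g (δ • a)) ∧
      (∀ (δ : Γ) c u, δ • cy f g (c, u) = cy f g (δ • c, u)) ∧
      (∀ (δ : Γ) b, δ • inB f g b = inB f g (δ • b)) ∧
      IsQuotientCoveringMap (DM.map α γ β h0 h1) Γ

/-- sums, products with the line, trivial coverings -/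
def St_PCOV : Prop :=
  (∀ (Γ A B A' B' : Type) [Group Γ] [TopologicalSpace A] [TopologicalSpace B] [TopologicalSpace A']
    [TopologicalSpace B'] [MulAction Γ A] [MulAction Γ B] (p : C(A, A')) (q : C(B, B')),
    IsQuotientCoveringMap p Γ → IsQuotientCoveringMap q Γ → IsQuotientCoveringMap (sm p q) Γ) ∧
  (∀ (G K K' : Type) [Group G] [TopologicalSpace K] [TopologicalSpace K'] [MulAction G K]
    (p : C(K, K')), IsQuotientCoveringMap p G → ∃ _ : MulAction (G × Multiplicative ℤ) (K × ℝ),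
      (∀ (γ : G × Multiplicative ℤ) (k : K) (r : ℝ), γ • (k, r) = (γ.1 • k, r + (γ.2.toAdd : ℤ))) ∧
      IsQuotientCoveringMap (p.prodMap ex) (G × Multiplicative ℤ)) ∧
  ∀ (Γ : Type) [Group Γ] [TopologicalSpace Γ] [DiscreteTopology Γ],
    IsQuotientCoveringMap (cu Γ) Γ ∧ ∀ (A : Type) [TopologicalSpace A],
      ∃ _ : MulAction Γ (Γ × A), (∀ (γ δ : Γ) (y : A), γ • (δ, y) = (γ * δ, y)) ∧
        IsQuotientCoveringMap (ContinuousMap.snd : C(Γ × A, A)) Γ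

/-- the cover of the graph of tori -/
def St_KCOV : Prop :=
  ∀ (G : Type) [Group G] [TopologicalSpace G] [DiscreteTopology G] (a b s t : G)
    (h : MP_dab48e_gt.Pres a b s t), ∃ _ : MulAction G (KK (gDat h)), KAct h

/-- the cover of the space -/
def St_XCOV : Prop :=
  ∀ (G : Type) [Group G] [TopologicalSpace G] [DiscreteTopology G] (a b s t : G)
    (h : MP_dab48e_gt.Pres a b s t) [MulAction G (KK (gDat h))], KAct h →
    ∀ (T : Type) [TopologicalSpace T] (D : Mo T),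
      ∃ _ : MulAction (G × Multiplicative ℤ) (Xt h D), XAct h D

/-- loops in the graph of tori -/
def St_KREL : Prop :=
  PathConnectedSpace (KK uDat) ∧
  ∃ (A B S T : Path (kv uDat (zm _ (0, ()))) (kv uDat (zm _ (0, ())))),
    MP_dab48e_gt.Pres (MulOpposite.op (cls A)) (MulOpposite.op (cls B)) (MulOpposite.op (cls S))
      (MulOpposite.op (cls T)) ∧
    (∀ R : Subgroup (FundamentalGroup (KK uDat) (kv uDat (zm _ (0, ())))), cls A ∈ R → cls B ∈ R →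
      cls S ∈ R → cls T ∈ R → R = ⊤) ∧
    ∀ (Λ : Type) [TopologicalSpace Λ] (d : Dat Λ) (y : Λ),
      (∃ L : Path (kv d (zm _ (0, d.a y))) (kv d (zm _ (0, y))), ∀ u, A u = kpr d (L u)) ∧
      (∃ L : Path (kv d (zm _ (0, d.b y))) (kv d (zm _ (0, y))), ∀ u, B u = kpr d (L u)) ∧
      (∃ L : Path (kv d (zm _ (0, y))) (kv d (zm _ (0, d.s y))), ∀ u, S u = kpr d (L u)) ∧
      ∃ L : Path (kv d (zm _ (0, y))) (kv d (zm _ (0, d.t y))), ∀ u, T u = kpr d (L u)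

/-- the cover of the graph of tori is simply connected -/
def St_KSC : Prop :=
  ∀ (G : Type) [Group G] [TopologicalSpace G] [DiscreteTopology G] (a b s t : G)
    (h : MP_dab48e_gt.Univ a b s t) [MulAction G (KK (gDat h.rel))], KAct h.rel →
    SimplyConnectedSpace (KK (gDat h.rel))

/-- the cover of the space is simply connected -/
def St_XSC : Prop :=
  ∀ (G : Type) [Group G] [TopologicalSpace G] [DiscreteTopology G] (a b s t : G)
    (h : MP_dab48e_gt.Pres a b s t) [MulAction G (KK (gDat h))], KAct h →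
    SimplyConnectedSpace (KK (gDat h)) →
    ∀ (T : Type) [TopologicalSpace T] (D : Mo T) [MulAction (G × Multiplicative ℤ) (Xt h D)],
      XAct h D → SimplyConnectedSpace T → SimplyConnectedSpace (Xt h D)

/-- the lift of the map to the circle -/
def St_RETL : Prop :=
  ∀ (G : Type) [Group G] [TopologicalSpace G] [DiscreteTopology G] (a b s t : G)
    (h : MP_dab48e_gt.Pres a b s t) [MulAction G (KK (gDat h))]
    (T : Type) [TopologicalSpace T] (D : Mo T) [MulAction (G × Multiplicative ℤ) (Xt h D)],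
    XAct h D → ∃ L : C(Xt h D, ℝ), (∀ y, ex (L y) = thX D (xpr h D y)) ∧
      ∀ (γ : G × Multiplicative ℤ) y, L (γ • y) = L y + (γ.2.toAdd : ℤ)

/-- the retraction onto one copy of the fibre -/
def St_RET : Prop :=
  ∀ (G : Type) [Group G] [TopologicalSpace G] [DiscreteTopology G] (a b s t : G)
    (h : MP_dab48e_gt.Univ a b s t) [MulAction G (KK (gDat h.rel))]
    (T : Type) [TopologicalSpace T] (D : Mo T) [MulAction (G × Multiplicative ℤ) (Xt h.rel D)],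
    XAct h.rel D → ∃ (i : C(T, Xt h.rel D)) (r : C(Xt h.rel D, T)), (∀ y, r (i y) = y) ∧
      ∀ (ψ : G × Multiplicative ℤ →* Multiplicative ℤ) (C : Set (Xt h.rel D)), IsCompact C →
        ∃ R : ℤ, ∀ γ : G × Multiplicative ℤ, ∀ y ∈ C, r (γ • y) ≠ D.t₀ → |(ψ γ).toAdd| ≤ R

/-- sliding an attaching map -/
def St_SLIDE : Prop :=
  ∀ (K C D : Type) [TopologicalSpace K] [TopologicalSpace C] [TopologicalSpace D]
    (θ : C(K, Circle)) (β : C(C × I, K)) (sg : C(C, D)) (ϑ : C(D × I, Circle)) (β₀ β₁ : C(C, K))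
    (ϑ₀ ϑ₁ : C(D, Circle)) (h₀ : ∀ c, ϑ₀ (sg c) = θ (β₀ c)) (h₁ : ∀ c, ϑ₁ (sg c) = θ (β₁ c)),
    (∀ c u, ϑ (sg c, u) = θ (β (c, u))) → (∀ c, β (c, 0) = β₀ c) → (∀ c, β (c, 1) = β₁ c) →
    (∀ z, ϑ (z, 0) = ϑ₀ z) → (∀ z, ϑ (z, 1) = ϑ₁ z) → Sim (th θ ϑ₀ h₀) (th θ ϑ₁ h₁)

/-- moves at level one -/
def St_SL1 : Prop :=
  (∀ (K C D : Type) [TopologicalSpace K] [TopologicalSpace C] [TopologicalSpace D]
    (β₀ β₁ : C(C, K)) (sg : C(C, D)), β₀.Homotopic β₁ → Sim (th₁ β₀ sg) (th₁ β₁ sg)) ∧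
  (∀ (K C D C' D' : Type) [TopologicalSpace K] [TopologicalSpace C] [TopologicalSpace D]
    [TopologicalSpace C'] [TopologicalSpace D'] (β : C(C, K)) (sg : C(C, D)) (β' : C(C', K))
    (sg' : C(C', D')) (γ : C(C, C')) (ζ : C(D, D')), HE γ → HE ζ → (∀ c, β' (γ c) = β c) →
    (∀ c, sg' (γ c) = ζ (sg c)) → Sim (th₁ β sg) (th₁ β' sg')) ∧
  (kv uDat).Homotopic ((kv uDat).comp uDat.db) ∧
  (se (kv uDat) ((kv uDat).comp uDat.sh)).Homotopic (se (kv uDat) (kv uDat))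

/-- collapsing the whiskers -/
def St_COLW : Prop :=
  ∀ (T : Type) [TopologicalSpace T] [CompactSpace T] [T2Space T] (t₀ : T),
    Cof (.const Unit t₀) → HE (wcol t₀)

/-- attaching two copies or their wedge -/
def St_WEDGE : Prop :=
  ∀ (T K : Type) [TopologicalSpace T] [CompactSpace T] [T2Space T] [TopologicalSpace K] (t₀ : T)
    (ρS : Act Bool) (ρA : Act (Bool × T)) (ρW : Act (Wg t₀)) (hs : Eqv ρS ρA (bsec t₀))
    (hw : Fix ρW (w₀ t₀)) (β : C(BB, K)), Eqv ρA ρW (col t₀) → Cof (.const Unit t₀) →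
    Sim (th₁ (β.comp (zpr ρS)) (Z.map (bsec t₀) hs)) (th₁ β (zsec hw))

/-- the induced bundle -/
def St_IND : Prop :=
  ∀ (T : Type) [TopologicalSpace T] (D : Mo T),
    ∃ (γ : C(BB, Z bsw)) (ζ : C(Z D.act, Z D.psw)), HE γ ∧ HE ζ ∧
      (∀ c, zpr bsw (γ c) = uDat.db c) ∧
      ∀ c, Z.map (bsec D.t₀) D.sec_sw (γ c) = ζ (zsec D.fix c)

/-- the twisted pair -/
def St_TWO : Prop :=
  ∀ (T : Type) [TopologicalSpace T] (D : Mo T),
    ∃ (γ : C(BB ⊕ BB, Z (.triv Bool))) (ζ : C(Z D.act ⊕ Z D.act, Z D.ptw)), HE γ ∧ HE ζ ∧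
      (∀ c, zpr _ (γ c) = se (.id BB) uDat.sh c) ∧
      ∀ c, Z.map (bsec D.t₀) D.sec_tw (γ c) = ζ (sm (zsec D.fix) (zsec D.fix) c)

/-- the double cover has two copies -/
def St_SQX : Prop :=
  ∀ (K C D : Type) [TopologicalSpace K] [TopologicalSpace C] [TopologicalSpace D] [CompactSpace K]
    [CompactSpace C] [CompactSpace D] [T2Space K] [T2Space C] [T2Space D] (β : C(C, K))
    (sg : C(C, D)), Sim (th₁ (se β β) (sm sg sg)) (om (th₁ β sg))

/-- the space is in the class -/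
def St_XCC : Prop :=
  ∀ (T : Type) [TopologicalSpace T] [CompactSpace T] [T2Space T] (D : Mo T), CC T → CC (XX D)

theorem nine (hC : St_CUB) (h2 : St_N2) (h3 : St_N3) (h4 : St_N4) {Y : Type} [TopologicalSpace Y]
    (y₀ : Y) (x : P2 (WY.e y₀)) : x ^ 9 = 1 := by
  obtain ⟨κ, k1, k2⟩ := hC Unit Y ∅ y₀
  obtain ⟨κ', k3, k4⟩ := hC I Y {0, 1} y₀
  obtain ⟨y, hy⟩ := h3 Y y₀ κ k1 (x ^ 3) (by rw [map_pow, ← k2, h2 Y y₀ κ k1])
  rw [show 9 = 3 * 3 from rfl, pow_mul, hy, ← map_pow, ← k4, h4 Y y₀ κ' k3]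

theorem self_sim (hSL : St_SL1) (hI : St_IND) (hW : St_WEDGE) (hD : St_DOLD) (hT : St_TWO)
    (hQ : St_SQX) {T : Type} [TopologicalSpace T] [CompactSpace T] [T2Space T] (D : Mo T)
    (hc : Cof (.const Unit D.t₀)) {g : C(Wg D.t₀, Wg D.t₀)} (g1 : Eqv D.wsw D.wtw g)
    (g2 : g (w₀ _) = w₀ _) (g3 : HE g) : Sim (thX D) (om (thX D)) := by
  obtain ⟨γ, ζ, a1, a2, a3, a4⟩ := hI T D
  obtain ⟨γ', ζ', b1, b2, b3, b4⟩ := hT T D
  refine (hSL.1 _ _ _ _ _ _ hSL.2.2.1).trans <|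
    (hSL.2.1 _ _ _ _ _ ((kv uDat).comp uDat.db) _ ((kv uDat).comp (zpr bsw)) _ γ ζ a1 a2
      (fun c => congrArg (kv uDat) (a3 c)) a4).trans <|
    (hW T _ D.t₀ bsw D.psw D.wsw D.sec_sw D.fix_sw _ ⟨?_, ?_⟩ hc).trans <|
    (hSL.2.1 _ _ _ _ _ (kv uDat) (zsec D.fix_sw) (kv uDat) (zsec D.fix_tw) (.id _) (Z.map g g1)
      HE.id (hD _ _ _ _ g g1 g3) (fun _ => rfl)
      (Z.ind fun x y => congrArg (fun w => zm D.wtw (x, w)) g2.symm)).trans <|
    (hW T _ D.t₀ (.triv Bool) D.ptw D.wtw D.sec_tw D.fix_tw _ ⟨?_, ?_⟩ hc).symm.trans <|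
    (hSL.2.1 _ _ _ _ _ (se (kv uDat) ((kv uDat).comp uDat.sh)) _ ((kv uDat).comp (zpr _)) _
      γ' ζ' b1 b2
      (fun c => (congrArg (kv uDat) (b3 c)).trans (by cases c <;> rfl)) b4).symm.trans <|
    (hSL.1 _ _ _ _ _ _ hSL.2.2.2).trans (hQ _ _ _ _ _)
  · rintro ⟨_ | _, y⟩ <;> rfl
  · rintro ⟨_ | _, y⟩
    exacts [Subtype.ext (Prod.ext rfl D.b_t.symm), Subtype.ext (Prod.ext D.b_t.symm rfl)]
  · rintro ⟨_ | _, y⟩
    exacts [Subtype.ext (Prod.ext rfl D.b_t.symm), rfl]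
  · rintro ⟨_ | _, y⟩
    exacts [Subtype.ext (Prod.ext rfl D.b_t.symm), Subtype.ext (Prod.ext D.b_t.symm rfl)]

theorem space_of (hM : St_MOORE) (hTP : St_TP) (hA : St_ADJ) (hC : St_CUB) (h2 : St_N2)
    (h3 : St_N3) (h4 : St_N4) (hG : St_GMAP) (hHA : St_HALG) (hHG : St_HGEO) (hSL : St_SL1)
    (hI : St_IND) (hW : St_WEDGE) (hD : St_DOLD) (hT : St_TWO) (hQ : St_SQX) (hX : St_XCC)
    (hKC : St_KCOV) (hXC : St_XCOV) (hKS : St_KSC) (hXS : St_XSC) (hL : St_RETL) (hR : St_RET) :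
    St_SPACE := by
  intro G _ a b s t h
  let _ : TopologicalSpace G := ⊥
  have : DiscreteTopology G := ⟨rfl⟩
  obtain ⟨T, _, _, _, ⟨D⟩⟩ := hM
  obtain ⟨t1, t2, t3⟩ := hTP T D
  obtain ⟨cl, hcl⟩ := hA T _ D (w₀ D.t₀)
  obtain ⟨g, g1, g2, g3⟩ := hG T D _ cl hcl (nine hC h2 h3 h4 _)
  obtain ⟨E, _, _, σ₄, e, A, ψ, κ, Φ, c, hd⟩ := hHG T D
  obtain ⟨_, hk⟩ := hKC G a b s t h.rel
  obtain ⟨_, hx⟩ := hXC G a b s t h.rel hk T D
  obtain ⟨L, l1, l2⟩ := hL G a b s t h.rel T D hx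
  obtain ⟨i, r, r1, r2⟩ := hR G a b s t h T D hx
  exact ⟨XX D, inferInstance, thX D, hX T D t1,
    ⟨Xt h.rel D, inferInstance, inferInstance, xpr h.rel D, L, T, inferInstance, inferInstance,
      D.t₀, i, r, hx.cov, hXS G a b s t h.rel hk (hKS G a b s t h hk) T D hx t2, l1, l2,
      hHA T E _ _ _ _ _ _ _ _ _ hd, r1, r2⟩, self_sim hSL hI hW hD hT hQ D t3 g1 g2 g3⟩

end

end Pool.Agent.Lib.NFB
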