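import Pool.Agent.Lib.NFB.Blue1

/-! Block statements: doubles of bodies are smooth manifolds. -/

namespace Pool.Agent.Lib.NFB

open Set Topology Metric Module
open scoped Manifold ContDiff

/-- `G` decreases along the field `w` near its zero set -/
structure Dec {E : Type} [NormedAddCommGroup E] [NormedSpace ℝ E] (G : E → ℝ) (w : E → E)
    (L B η c : ℝ) : Prop where
  pos : 0 < c
  eta : 0 < η
  lg : ∀ x y, |G x - G y| ≤ L * ‖x - y‖
  lip : LipschitzWith (1 / 2) w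
  bd : ∀ x, ‖w x‖ ≤ B
  push : ∀ x, |G x| ≤ η → ∀ y, ‖y - x‖ ≤ η → ∀ t : ℝ, 0 ≤ t → t ≤ 1 →
    G (y + t • w x) ≤ G y - t * c

/-- the equation of the double decreases along a global field -/
def St_FLG : Prop :=
  ∀ (V : Type) [NormedAddCommGroup V] [NormedSpace ℝ V] [FiniteDimensional ℝ V] (N : Set V),
    EL N → N.Nonempty → Nᶜ.Nonempty →
    ∃ w L B η c, Dec (fun p : V × ℝ => sd N p.1 + |p.2|) w L B η c

/-- smoothing by convolution -/
def St_MOL : Prop :=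
  ∀ (E : Type) [NormedAddCommGroup E] [NormedSpace ℝ E] [FiniteDimensional ℝ E] (G : E → ℝ)
    (w : E → E) (L B η c : ℝ), Dec G w L B η c → ∀ ε : ℝ, 0 < ε →
    ∃ F : E → ℝ, ContDiff ℝ ∞ F ∧ (∀ x, |F x - G x| ≤ ε) ∧
      ∀ x, |G x| ≤ η → ∀ y, ‖y - x‖ ≤ η / 2 → ∀ t : ℝ, 0 ≤ t → t ≤ 1 →
        F (y + t • w x) ≤ F y - t * c

/-- nearby level sets are homeomorphic -/
def St_LVH : Prop :=
  ∀ (E : Type) [NormedAddCommGroup E] [NormedSpace ℝ E] [FiniteDimensional ℝ E] (G : E → ℝ)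
    (w : E → E) (L B η c : ℝ), Dec G w L B η c → CompactSpace {p // G p = 0} →
    ∃ ε : ℝ, 0 < ε ∧ 3 * ε ≤ η ∧ ∀ F : E → ℝ, Continuous F →
      (∀ x, G x + ε ≤ F x ∧ F x ≤ G x + 3 * ε) →
      (∀ x, |G x| ≤ η → ∀ y, ‖y - x‖ ≤ η / 2 → ∀ t : ℝ, 0 ≤ t → t ≤ 1 →
        F (y + t • w x) ≤ F y - t * c) →
      Nonempty ({p // G p = 0} ≃ₜ {p // F p = 0})

/-- regular level sets are smooth manifolds -/
def St_SLEV : Prop :=
  ∀ (E : Type) [NormedAddCommGroup E] [NormedSpace ℝ E] [FiniteDimensional ℝ E] (F : E → ℝ)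
    (n : ℕ), ContDiff ℝ ∞ F → finrank ℝ E = n + 1 → (∀ p, F p = 0 → fderiv ℝ F p ≠ 0) →
    ∀ (M : Type) [TopologicalSpace M], Nonempty (M ≃ₜ {p // F p = 0}) →
      ∃ _ : ChartedSpace (EuclideanSpace ℝ (Fin n)) M, IsManifold (𝓡 n) ∞ M

/-- doubles of bodies are smooth manifolds -/
def St_SMO : Prop :=
  ∀ (V : Type) [NormedAddCommGroup V] [NormedSpace ℝ V] [FiniteDimensional ℝ V] (N : Set V),
    EL N → N.Nonempty → Nᶜ.Nonempty →
    ∃ _ : ChartedSpace (EuclideanSpace ℝ (Fin (finrank ℝ V))) (Db N),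
      IsManifold (𝓡 (finrank ℝ V)) ∞ (Db N)

theorem smo_of (hF : St_FLG) (hM : St_MOL) (hL : St_LVH) (hS : St_SLEV) : St_SMO := by
  intro V _ _ _ N hN h1 h2
  obtain ⟨w, L, B, η, c, d⟩ := hF V N hN h1 h2
  have key : ∀ z : V × ℝ, (z.1 ∈ N ∧ |z.2| = dp N z.1) ↔ sd N z.1 + |z.2| = 0 := fun z =>
    ⟨fun h => by rw [sd_of_mem h.1, h.2, neg_add_cancel], fun h => by
      have h3 : z.1 ∈ N := (sd_nonpos_iff hN.1.isClosed h1).1 (by linarith [abs_nonneg z.2])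
      rw [sd_of_mem h3] at h
      exact ⟨h3, by linarith⟩⟩
  let e : Db N ≃ₜ {p : V × ℝ // sd N p.1 + |p.2| = 0} := (Homeomorph.refl _).subtype key
  have := compact_Db hN.1
  obtain ⟨ε, e1, e2, e3⟩ := hL _ _ w L B η c d e.compactSpace
  obtain ⟨F, f1, f2, f3⟩ := hM _ _ w L B η c d ε e1
  have g1 : ContDiff ℝ ∞ fun x => F x + 2 * ε := f1.add contDiff_const
  obtain ⟨e'⟩ := e3 (fun x => F x + 2 * ε) g1.continuous
    (fun x => by constructor <;> linarith [(abs_le.1 (f2 x)).1, (abs_le.1 (f2 x)).2])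
    fun x hx y hy t t0 t1 => by linarith [f3 x hx y hy t t0 t1]
  refine hS (V × ℝ) _ _ g1 (by rw [finrank_prod, finrank_self]) (fun p hp h0 => ?_) _ ⟨e.trans e'⟩
  have hp' : F p + 2 * ε = 0 := hp
  have hd : HasFDerivAt (fun x => F x + 2 * ε) (0 : V × ℝ →L[ℝ] ℝ) (p + (0 : ℝ) • w p) := by
    rw [zero_smul, add_zero, ← h0]
    exact (g1.differentiable (by simp) p).hasFDerivAt
  have hl : HasDerivAt (fun t : ℝ => p + t • w p) (w p) 0 := by
    simpa using ((hasDerivAt_id (0 : ℝ)).smul_const (w p)).const_add p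
  have h3 := (hd.comp_hasDerivAt 0 hl).hasDerivWithinAt (s := Ioi 0)
  rw [hasDerivWithinAt_iff_tendsto_slope' (by simp)] at h3
  have h4 : (0 : V × ℝ →L[ℝ] ℝ) (w p) ≤ -c := by
    refine le_of_tendsto h3 ?_
    filter_upwards [Ioc_mem_nhdsGT one_pos] with t ht
    have h5 := f3 p (abs_le.2 ⟨by linarith [(abs_le.1 (f2 p)).2], by
      linarith [(abs_le.1 (f2 p)).1, d.eta]⟩) p (by simpa using (half_pos d.eta).le) t ht.1.le ht.2
    rw [slope_def_field, sub_zero, div_le_iff₀ ht.1]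
    simp only [Function.comp, zero_smul, add_zero]
    linarith
  simp only [zero_apply] at h4
  linarith [d.pos]

end Pool.Agent.Lib.NFB
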