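import Pool.Agent.Lib.NFB.Kit0

/-! Double mapping cylinders and mapping tori. -/

namespace Pool.Agent.Lib.NFB

open Set Topology unitInterval ContinuousMap

noncomputable section

variable {A B C A' B' C' Y : Type} [TopologicalSpace A] [TopologicalSpace B] [TopologicalSpace C]
  [TopologicalSpace A'] [TopologicalSpace B'] [TopologicalSpace C'] [TopologicalSpace Y]

open Classical in
/-- normal forms of points of the double mapping cylinder -/
def nf (f : C(C, A)) (g : C(C, B)) : A ⊕ (C × I) ⊕ B → A ⊕ (C × I) ⊕ B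
  | .inr (.inl z) => if z.2 = 0 then .inl (f z.1) else if z.2 = 1 then .inr (.inr (g z.1))
      else .inr (.inl z)
  | z => z

/-- the double mapping cylinder -/
def DM (f : C(C, A)) (g : C(C, B)) : Type := Quotient (Setoid.ker (nf f g))

variable (f : C(C, A)) (g : C(C, B))

instance : TopologicalSpace (DM f g) := inferInstanceAs (TopologicalSpace (Quotient _))

/-- the quotient map -/
def dq : C(A ⊕ (C × I) ⊕ B, DM f g) := ⟨Quotient.mk _, continuous_quotient_mk'⟩

theorem dq_quot : IsQuotientMap (dq f g) := isQuotientMap_quotient_mk'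

/-- the left end -/
def inA : C(A, DM f g) := (dq f g).comp ⟨.inl, continuous_inl⟩

/-- the right end -/
def inB : C(B, DM f g) := (dq f g).comp ⟨fun b => .inr (.inr b), by fun_prop⟩

/-- the cylinder -/
def cy : C(C × I, DM f g) := (dq f g).comp ⟨fun z => .inr (.inl z), by fun_prop⟩

theorem dq_eq {x y : A ⊕ (C × I) ⊕ B} : dq f g x = dq f g y ↔ nf f g x = nf f g y :=
  Quotient.eq (r := Setoid.ker (nf f g))

@[simp] theorem cy_zero (c : C) : cy f g (c, 0) = inA f g (f c) := (dq_eq f g).2 (by simp [nf])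

@[simp] theorem cy_one (c : C) : cy f g (c, 1) = inB f g (g c) := (dq_eq f g).2 (by simp [nf])

variable {f g}

theorem DM.ind {P : DM f g → Prop} (hA : ∀ a, P (inA f g a)) (hC : ∀ c t, P (cy f g (c, t)))
    (hB : ∀ b, P (inB f g b)) (x : DM f g) : P x := by
  obtain ⟨a | ⟨c, t⟩ | b⟩ := x
  exacts [hA a, hC c t, hB b]

/-- every point is in an end or in the open cylinder -/
theorem DM.cases (x : DM f g) : (∃ a, x = inA f g a) ∨
    (∃ c t, t ≠ 0 ∧ t ≠ 1 ∧ x = cy f g (c, t)) ∨ ∃ b, x = inB f g b := by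
  induction x using DM.ind with
  | hA a => exact .inl ⟨a, rfl⟩
  | hB b => exact .inr (.inr ⟨b, rfl⟩)
  | hC c t =>
    by_cases h0 : t = 0
    · exact .inl ⟨f c, by simp [h0]⟩
    by_cases h1 : t = 1
    · exact .inr (.inr ⟨g c, by simp [h1]⟩)
    exact .inr (.inl ⟨c, t, h0, h1, rfl⟩)

theorem inA_inj {a a' : A} (h : inA f g a = inA f g a') : a = a' := by
  simpa [nf] using (dq_eq f g).1 h

theorem inB_inj {b b' : B} (h : inB f g b = inB f g b') : b = b' := by
  simpa [nf] using (dq_eq f g).1 h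

theorem cy_inj {c c' : C} {t t' : I} (h0 : t ≠ 0) (h1 : t ≠ 1)
    (h : cy f g (c, t) = cy f g (c', t')) : c = c' ∧ t = t' := by
  have := (dq_eq f g).1 h
  simp only [coe_mk, nf, h0, h1, if_false] at this
  split_ifs at this <;> simp_all

theorem DM.continuous_iff {F : DM f g → Y} : Continuous F ↔ Continuous (fun a => F (inA f g a)) ∧
    Continuous (fun z => F (cy f g z)) ∧ Continuous fun b => F (inB f g b) := by
  rw [(dq_quot f g).continuous_iff, continuous_sum_dom, continuous_sum_dom]
  rfl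

/-- continuity with a locally compact parameter -/
theorem DM.continuous_prod {P : Type} [TopologicalSpace P] [LocallyCompactSpace P]
    {F : P × DM f g → Y} (hA : Continuous fun z : P × A => F (z.1, inA f g z.2))
    (hC : Continuous fun z : P × (C × I) => F (z.1, cy f g z.2))
    (hB : Continuous fun z : P × B => F (z.1, inB f g z.2)) : Continuous F := by
  refine (dq_quot f g).continuous_lift_prod_right ?_
  rw [← (Homeomorph.prodSumDistrib.symm).comp_continuous_iff', continuous_sum_dom]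
  refine ⟨hA, ?_⟩
  rw [← (Homeomorph.prodSumDistrib.symm).comp_continuous_iff', continuous_sum_dom]
  exact ⟨hC, hB⟩

/-- the set map out of the double mapping cylinder -/
def DM.liftF {Y : Type} (a : A → Y) (H : C × I → Y) (b : B → Y) (h0 : ∀ c, H (c, 0) = a (f c))
    (h1 : ∀ c, H (c, 1) = b (g c)) : DM f g → Y :=
  Quotient.lift (Sum.elim a (Sum.elim H b)) fun x y h => by
    have key : ∀ z, Sum.elim a (Sum.elim H b) (nf f g z) = Sum.elim a (Sum.elim H b) z := by
      rintro (z | ⟨c, t⟩ | z)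
      · rfl
      · simp only [nf]
        split_ifs with e e'
        · subst e; exact (h0 c).symm
        · subst e'; exact (h1 c).symm
        · rfl
      · rfl
    rw [← key x, ← key y, show nf f g x = nf f g y from h]

/-- maps out of the double mapping cylinder -/
def DM.lift (a : C(A, Y)) (H : C(C × I, Y)) (b : C(B, Y)) (h0 : ∀ c, H (c, 0) = a (f c))
    (h1 : ∀ c, H (c, 1) = b (g c)) : C(DM f g, Y) :=
  ⟨DM.liftF a H b h0 h1, DM.continuous_iff.2 ⟨a.continuous, H.continuous, b.continuous⟩⟩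

@[simp] theorem DM.lift_inA (a : C(A, Y)) (H : C(C × I, Y)) (b : C(B, Y)) (h0) (h1) (x : A) :
    DM.lift (f := f) (g := g) a H b h0 h1 (inA f g x) = a x := rfl

@[simp] theorem DM.lift_cy (a : C(A, Y)) (H : C(C × I, Y)) (b : C(B, Y)) (h0) (h1) (x : C × I) :
    DM.lift (f := f) (g := g) a H b h0 h1 (cy f g x) = H x := rfl

@[simp] theorem DM.lift_inB (a : C(A, Y)) (H : C(C × I, Y)) (b : C(B, Y)) (h0) (h1) (x : B) :
    DM.lift (f := f) (g := g) a H b h0 h1 (inB f g x) = b x := rfl

/-- families of maps out of the double mapping cylinder -/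
theorem DM.lift_prod {P : Type} [TopologicalSpace P] [LocallyCompactSpace P] (a : C(P × A, Y))
    (H : C(P × (C × I), Y)) (b : C(P × B, Y)) (h0 : ∀ s c, H (s, (c, 0)) = a (s, f c))
    (h1 : ∀ s c, H (s, (c, 1)) = b (s, g c)) :
    ∃ F : C(P × DM f g, Y), (∀ s x, F (s, inA f g x) = a (s, x)) ∧
      (∀ s x, F (s, cy f g x) = H (s, x)) ∧ ∀ s x, F (s, inB f g x) = b (s, x) :=
  ⟨⟨fun z => DM.liftF (fun x => a (z.1, x)) (fun x => H (z.1, x)) (fun x => b (z.1, x))
      (h0 z.1) (h1 z.1) z.2, DM.continuous_prod a.continuous H.continuous b.continuous⟩,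
    fun _ _ => rfl, fun _ _ => rfl, fun _ _ => rfl⟩

/-- functoriality -/
def DM.map {f' : C(C', A')} {g' : C(C', B')} (α : C(A, A')) (γ : C(C, C')) (β : C(B, B'))
    (h0 : ∀ c, f' (γ c) = α (f c)) (h1 : ∀ c, g' (γ c) = β (g c)) : C(DM f g, DM f' g') :=
  DM.lift ((inA f' g').comp α) ((cy f' g').comp (γ.prodMap (.id I))) ((inB f' g').comp β)
    (fun c => by simp [h0]) fun c => by simp [h1]

@[simp] theorem DM.map_inA {f' : C(C', A')} {g' : C(C', B')} (α : C(A, A')) (γ : C(C, C'))
    (β : C(B, B')) (h0) (h1) (x : A) :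
    DM.map (f := f) (g := g) α γ β h0 h1 (inA f g x) = inA f' g' (α x) := rfl

@[simp] theorem DM.map_cy {f' : C(C', A')} {g' : C(C', B')} (α : C(A, A')) (γ : C(C, C'))
    (β : C(B, B')) (h0) (h1) (c : C) (t : I) :
    DM.map (f := f) (g := g) α γ β h0 h1 (cy f g (c, t)) = cy f' g' (γ c, t) := rfl

@[simp] theorem DM.map_inB {f' : C(C', A')} {g' : C(C', B')} (α : C(A, A')) (γ : C(C, C'))
    (β : C(B, B')) (h0) (h1) (x : B) :
    DM.map (f := f) (g := g) α γ β h0 h1 (inB f g x) = inB f' g' (β x) := rfl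

variable (f g) in
/-- the height -/
def ht : C(DM f g, I) := DM.lift (.const _ 0) .snd (.const _ 1) (fun _ => rfl) fun _ => rfl

@[simp] theorem ht_inA (x : A) : ht f g (inA f g x) = 0 := rfl
@[simp] theorem ht_cy (x : C × I) : ht f g (cy f g x) = x.2 := rfl
@[simp] theorem ht_inB (x : B) : ht f g (inB f g x) = 1 := rfl

variable (f g) in
/-- the segment of the cylinder over `c` -/
def vert (c : C) : Path (inA f g (f c)) (inB f g (g c)) :=
  ⟨⟨fun t => cy f g (c, t), by fun_prop⟩, cy_zero f g c, cy_one f g c⟩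

instance [CompactSpace A] [CompactSpace B] [CompactSpace C] : CompactSpace (DM f g) :=
  (dq_quot f g).surjective.compactSpace (dq f g).continuous

/-- maps defined on an open part given by the height -/
theorem DM.continuousOn {U : Set I} (hU : IsOpen U) {F : DM f g → Y}
    (hA : 0 ∈ U → Continuous fun a => F (inA f g a))
    (hC : ContinuousOn (fun z => F (cy f g z)) {z | z.2 ∈ U})
    (hB : 1 ∈ U → Continuous fun b => F (inB f g b)) : ContinuousOn F (ht f g ⁻¹' U) := by
  have ho : IsOpen (ht f g ⁻¹' U) := hU.preimage (ht f g).continuous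
  rw [continuousOn_open_iff ho]
  intro O hO
  rw [← (dq_quot f g).isOpen_preimage, isOpen_sum_iff, isOpen_sum_iff]
  refine ⟨?_, (continuousOn_open_iff (hU.preimage continuous_snd)).1 hC O hO, ?_⟩
  · show IsOpen {a | 0 ∈ U ∧ F (inA f g a) ∈ O}
    by_cases h : (0 : I) ∈ U
    · simp only [h, true_and]; exact hO.preimage (hA h)
    · simp [h]
  · show IsOpen {b | 1 ∈ U ∧ F (inB f g b) ∈ O}
    by_cases h : (1 : I) ∈ U
    · simp only [h, true_and]; exact hO.preimage (hB h)
    · simp [h]

/-- the retraction of the part below the top onto the left end -/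
theorem DM.retA (a₀ : A) : ∃ r : DM f g → A, ContinuousOn r (ht f g ⁻¹' {1}ᶜ) ∧
    (∀ a, r (inA f g a) = a) ∧ ∀ c t, t ≠ 1 → r (cy f g (c, t)) = f c := by
  classical
  refine ⟨DM.liftF id (fun z => if z.2 = 1 then a₀ else f z.1) (fun _ => a₀) (by simp) (by simp),
    DM.continuousOn isOpen_compl_singleton (fun _ => continuous_id) ?_ (fun h => absurd rfl h),
    fun _ => rfl, fun c t h => if_neg h⟩
  exact (f.continuous.comp continuous_fst).continuousOn.congr fun z hz => if_neg hz

/-- the retraction of the part above the bottom onto the right end -/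
theorem DM.retB (b₀ : B) : ∃ r : DM f g → B, ContinuousOn r (ht f g ⁻¹' {0}ᶜ) ∧
    (∀ b, r (inB f g b) = b) ∧ ∀ c t, t ≠ 0 → r (cy f g (c, t)) = g c := by
  classical
  refine ⟨DM.liftF (fun _ => b₀) (fun z => if z.2 = 0 then b₀ else g z.1) id (by simp) (by simp),
    DM.continuousOn isOpen_compl_singleton (fun h => absurd rfl h) ?_ (fun _ => continuous_id),
    fun _ => rfl, fun c t h => if_neg h⟩
  exact (g.continuous.comp continuous_fst).continuousOn.congr fun z hz => if_neg hz

/-- the retraction of the open cylinder -/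
theorem DM.retC (c₀ : C) : ∃ r : DM f g → C, ContinuousOn r (ht f g ⁻¹' {0, 1}ᶜ) ∧
    ∀ c t, t ≠ 0 → t ≠ 1 → r (cy f g (c, t)) = c := by
  classical
  refine ⟨DM.liftF (fun _ => c₀) (fun z => if z.2 ∈ ({0, 1} : Set I) then c₀ else z.1)
    (fun _ => c₀) (by simp) (by simp), DM.continuousOn (toFinite _).isClosed.isOpen_compl
    (fun h => absurd (by simp) h) ?_ (fun h => absurd (by simp) h),
    fun c t h h' => if_neg (by simp [h, h'])⟩
  exact continuous_fst.continuousOn.congr fun z hz => if_neg hz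

theorem sep_of {X Z : Type} [TopologicalSpace X] [TopologicalSpace Z] [T2Space Z] {r : X → Z}
    {U : Set X} (hU : IsOpen U) (hr : ContinuousOn r U) {x y : X} (hx : x ∈ U) (hy : y ∈ U)
    (h : r x ≠ r y) : ∃ u v : Set X, IsOpen u ∧ IsOpen v ∧ x ∈ u ∧ y ∈ v ∧ Disjoint u v := by
  obtain ⟨u, v, hu, hv, h1, h2, h3⟩ := t2_separation h
  exact ⟨U ∩ r ⁻¹' u, U ∩ r ⁻¹' v, hr.isOpen_inter_preimage hU hu, hr.isOpen_inter_preimage hU hv,
    ⟨hx, h1⟩, ⟨hy, h2⟩, (h3.preimage r).mono inter_subset_right inter_subset_right⟩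

instance [T2Space A] [T2Space B] [T2Space C] : T2Space (DM f g) := ⟨fun x y hxy => by
  by_cases h : ht f g x = ht f g y
  swap
  · exact sep_of isOpen_univ (ht f g).continuous.continuousOn trivial trivial h
  rcases x.cases with ⟨a, rfl⟩ | ⟨c, t, h0, h1, rfl⟩ | ⟨b, rfl⟩ <;>
    rcases y.cases with ⟨a', rfl⟩ | ⟨c', t', h0', h1', rfl⟩ | ⟨b', rfl⟩
  · obtain ⟨r, r1, r2, -⟩ := DM.retA (f := f) (g := g) a
    exact sep_of (isOpen_compl_singleton.preimage (ht f g).continuous) r1 (by simp) (by simp)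
      (by rw [r2, r2]; rintro rfl; exact hxy rfl)
  · exact absurd h.symm h0'
  · exact absurd h zero_ne_one
  · exact absurd h h0
  · obtain ⟨r, r1, r2⟩ := DM.retC (f := f) (g := g) c
    obtain rfl : t = t' := h
    exact sep_of ((toFinite _).isClosed.isOpen_compl.preimage (ht f g).continuous) r1
      (by simp [h0, h1]) (by simp [h0, h1])
      (by rw [r2 _ _ h0 h1, r2 _ _ h0 h1]; rintro rfl; exact hxy rfl)
  · exact absurd h h1
  · exact absurd h one_ne_zero
  · exact absurd h.symm h1'
  · obtain ⟨r, r1, r2, -⟩ := DM.retB (f := f) (g := g) b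
    exact sep_of (isOpen_compl_singleton.preimage (ht f g).continuous) r1 (by simp) (by simp)
      (by rw [r2, r2]; rintro rfl; exact hxy rfl)⟩

/-- maps out of a sum -/
def se (u : C(A, Y)) (v : C(B, Y)) : C(A ⊕ B, Y) := ⟨Sum.elim u v, by fun_prop⟩

/-- sums of maps -/
def sm (u : C(A, A')) (v : C(B, B')) : C(A ⊕ B, A' ⊕ B') := ⟨Sum.map u v, by fun_prop⟩

/-- the map to a point -/
abbrev cu (A : Type) [TopologicalSpace A] : C(A, Unit) := .const A ()

/-- the homotopy coequaliser -/
abbrev Q (f₀ f₁ : C(C, A)) : Type := DM (se f₀ f₁) (se (.id C) (.id C))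

end

end Pool.Agent.Lib.NFB
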