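import Mathlib

/-! Homotopy equivalences, square root covers, bodies in vector spaces and their doubles. -/

namespace Pool.Agent.Lib.NFB

open Set Topology Metric unitInterval

noncomputable section

section basic

variable {X Y : Type} [TopologicalSpace X] [TopologicalSpace Y]

/-- `f` is a homotopy equivalence -/
def HE (f : C(X, Y)) : Prop :=
  ∃ g : C(Y, X), (g.comp f).Homotopic (.id X) ∧ (f.comp g).Homotopic (.id Y)

/-- the exponential of period one -/
def ex : C(ℝ, Circle) := ⟨fun x => Circle.exp (2 * Real.pi * x), by fun_prop⟩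

/-- the double cover on which `θ` has a square root -/
abbrev Sq (θ : C(X, Circle)) : Type := {z : X × Circle // z.2 ^ 2 = θ z.1}

/-- the projection of the double cover -/
def sqp (θ : C(X, Circle)) : C(Sq θ, X) := ⟨fun z => z.1.1, by fun_prop⟩

/-- the square root -/
def om (θ : C(X, Circle)) : C(Sq θ, Circle) := ⟨fun z => z.1.2, by fun_prop⟩

/-- equivalence of spaces over the circle, up to homotopy -/
def Sim (θ : C(X, Circle)) (θ' : C(Y, Circle)) : Prop :=
  ∃ q : C(X, Y), HE q ∧ (θ'.comp q).Homotopic θ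

/-- no element of finite order except the unit -/
def TF (G : Type) [Group G] : Prop := ∀ g : G, IsOfFinOrder g → g = 1

/-- the class of a loop -/
abbrev cls {x : X} (γ : Path x x) : FundamentalGroup X x := FundamentalGroup.fromPath (.mk γ)

/-- `φ` is the winding number of `θ` along loops -/
def IsWind (θ : C(X, Circle)) (x₀ : X) (φ : FundamentalGroup X x₀ →* Multiplicative ℤ) : Prop :=
  ∀ (γ : Path x₀ x₀) (L : C(I, ℝ)), (∀ t, ex (L t) = θ (γ t)) →
    L 1 - L 0 = ((φ (cls γ)).toAdd : ℤ)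

/-- the monodromy homomorphism of a quotient covering -/
def mon {Γ : Type} [Group Γ] [MulAction Γ Y] {p : C(Y, X)} (hp : IsQuotientCoveringMap p Γ) (e : Y) :
    FundamentalGroup X (p e) →* Γᵐᵒᵖ :=
  hp.fundamentalGroupToMulOpposite ⟨e, rfl⟩

/-- the pull-back of `p` along `q` -/
abbrev PB {M : Type} (q : M → X) (p : Y → X) : Type := {z : M × Y // q z.1 = p z.2}

/-- `f` is locally trivial with fibre `F` -/
def LocTriv (F : Type) [TopologicalSpace F] (f : X → Circle) : Prop :=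
  ∀ z : Circle, ∃ e : Bundle.Trivialization F f, z ∈ e.baseSet

/-- homotopies of maps to `X` extend from closed subsets of compact spaces -/
def HT (X : Type) [TopologicalSpace X] : Prop :=
  ∀ (Y : Type) [TopologicalSpace Y] [CompactSpace Y] [T2Space Y] (A : Set Y), IsClosed A →
    ∀ (c : C(Y, X)) (h : C(I × A, X)), (∀ a : A, h (0, a) = c a) →
      ∃ H : C(I × Y, X), (∀ y, H (0, y) = c y) ∧ ∀ s (a : A), H (s, a) = h (s, a)

/-- the universal cover of `X` with deck group `G × ℤ`, a lift of `θ`, and a compact retract `T`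
that cannot be moved far -/
def Pack (G : Type) [Group G] (θ : C(X, Circle)) : Prop :=
  ∃ (Y : Type) (_ : TopologicalSpace Y) (_ : MulAction (G × Multiplicative ℤ) Y) (p : C(Y, X))
    (L : C(Y, ℝ)) (T : Type) (_ : TopologicalSpace T) (_ : CompactSpace T) (t₀ : T) (i : C(T, Y))
    (r : C(Y, T)), IsQuotientCoveringMap p (G × Multiplicative ℤ) ∧ SimplyConnectedSpace Y ∧
    (∀ y, ex (L y) = θ (p y)) ∧
    (∀ (γ : G × Multiplicative ℤ) y, L (γ • y) = L y + (γ.2.toAdd : ℤ)) ∧
    ¬ (ContinuousMap.id T).Nullhomotopic ∧ (∀ t, r (i t) = t) ∧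
    ∀ (ψ : G × Multiplicative ℤ →* Multiplicative ℤ) (C : Set Y), IsCompact C →
      ∃ R : ℤ, ∀ γ : G × Multiplicative ℤ, ∀ y ∈ C, r (γ • y) ≠ t₀ → |(ψ γ).toAdd| ≤ R

end basic

section body

variable {V : Type} [NormedAddCommGroup V] [NormedSpace ℝ V]

/-- near `x₀` the set `N` is stable under the cone of directions close to `e` -/
def ELat (N : Set V) (x₀ e : V) (r : ℝ) : Prop :=
  ∀ y ∈ N, ‖y - x₀‖ < r → ∀ w, ‖w - e‖ < r → ∀ t : ℝ, 0 ≤ t → t ≤ r → y + t • w ∈ N

/-- bodies: compact sets with a cone of inward directions at each point -/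
def EL (N : Set V) : Prop := IsCompact N ∧ ∀ x₀ ∈ N, ∃ e r, 0 < r ∧ ELat N x₀ e r

/-- spaces equivalent to a body -/
def CC (X : Type) [TopologicalSpace X] : Prop :=
  ∃ (V : Type) (_ : NormedAddCommGroup V) (_ : NormedSpace ℝ V) (_ : FiniteDimensional ℝ V)
    (N : Set V) (e : C(N, X)), EL N ∧ HE e

/-- the depth of a point -/
def dp (N : Set V) (x : V) : ℝ := infDist x Nᶜ

/-- the signed distance -/
def sd (N : Set V) (x : V) : ℝ := infDist x N - infDist x Nᶜ

/-- an inward vector field -/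
structure Fld (N : Set V) (u : V → V) (m : V → ℝ) (η c : ℝ) : Prop where
  pos : 0 < c
  le : c ≤ η
  lip : LipschitzWith (1 / 2) u
  bd : ∀ x, ‖u x‖ ≤ η
  nn : ∀ x, 0 ≤ m x
  big : ∀ x, |sd N x| ≤ η → c ≤ m x
  push : ∀ x y, ‖y - x‖ ≤ η → ∀ t : ℝ, 0 ≤ t → t ≤ 1 → sd N (y + t • u x) ≤ sd N y - t * m x

/-- `S` is a family of homeomorphisms with inverses `K` -/
structure Fam (S K : C(I × V, V)) : Prop where
  left : ∀ t x, K (t, S (t, x)) = x
  right : ∀ t y, S (t, K (t, y)) = y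

/-- a shrinking isotopy of `N` -/
structure Shr (N : Set V) (S K : C(I × V, V)) : Prop where
  fam : Fam S K
  zero : ∀ x, S (0, x) = x
  mem : ∀ t, ∀ x ∈ N, S (t, x) ∈ N
  one : ∃ μ : ℝ, 0 < μ ∧ ∀ x ∈ N, closedBall (S (1, x)) μ ⊆ N

/-- `F` and `G` are joined on `N` by an ambient isotopy that keeps `N` inside `N` -/
def Step (N : Set V) (F G : V → V) : Prop :=
  ∃ S K : C(I × V, V), Fam S K ∧ (∀ t, ∀ x ∈ N, S (t, x) ∈ N) ∧
    (∀ x ∈ N, S (0, x) = F x) ∧ ∀ x ∈ N, S (1, x) = G x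

/-- the double of `N` -/
abbrev Db (N : Set V) : Type := {z : V × ℝ // z.1 ∈ N ∧ |z.2| = dp N z.1}

/-- the folding projection -/
def dpr (N : Set V) : C(Db N, N) := ⟨fun z => ⟨z.1.1, z.2.1⟩, by fun_prop⟩

omit [NormedSpace ℝ V] in
theorem continuous_dp (N : Set V) : Continuous (dp N) := continuous_infDist_pt _

omit [NormedSpace ℝ V] in
theorem dp_nonneg (N : Set V) (x : V) : 0 ≤ dp N x := infDist_nonneg

/-- the upper sheet -/
def dup (N : Set V) : C(N, Db N) :=
  ⟨fun x => ⟨(x.1, dp N x.1), x.2, abs_of_nonneg (dp_nonneg N _)⟩,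
    (continuous_subtype_val.prodMk ((continuous_dp N).comp continuous_subtype_val)).subtype_mk _⟩

open Classical in
/-- the point `w` of the double of `N` lies over `x`, on the upper sheet when `P` holds -/
def Over {N : Set V} (w : Db N) (x : N) (P : Prop) : Prop :=
  w.1.1 = x.1 ∧ w.1.2 = (if P then 1 else -1) * dp N x.1

/-- `Φ` is the fold map of the subset `P` of `N'` and the map `k` -/
def IsFold {N N' : Set V} (P : Set V) (k : C(N', N)) (Φ : C(Db N', Db N)) : Prop :=
  ∀ z, Over (Φ z) (k (dpr N' z)) (0 ≤ z.1.2 ∧ z.1.1 ∈ P)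

/-- the product of `W` with the unit ball of `F` -/
abbrev NB (W : Set V) (F : Type) [NormedAddCommGroup F] : Set (V × F) := W ×ˢ closedBall 0 1

/-- the projection of the product -/
def nbp (W : Set V) (F : Type) [NormedAddCommGroup F] : C(NB W F, W) :=
  ⟨fun z => ⟨z.1.1, z.2.1⟩, by fun_prop⟩

/-- a tube around a graph -/
def Gr {V' : Type} [NormedAddCommGroup V'] (C : Set V) (f : V → V') (δ : ℝ) : Set (V × V') :=
  {z | z.1 ∈ C ∧ ‖z.2 - f z.1‖ ≤ δ}

/-- the preimage of a tube under squaring -/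
def Gs (C : Set V) (f : V → ℂ) (δ : ℝ) : Set (V × ℂ) := {z | z.1 ∈ C ∧ ‖z.2 ^ 2 - f z.1‖ ≤ δ}

/-- the body that realises a double mapping cylinder -/
def Om {A B : Type} [NormedAddCommGroup A] [NormedAddCommGroup B] (NA : Set A) (NB : Set B)
    (C : Set V) (f : V → A) (g : V → B) (δ R : ℝ) : Set ((V × (A × B)) × ℝ) :=
  (closedBall 0 R ×ˢ (NA ×ˢ closedBall 0 R)) ×ˢ Icc (-2) (-1) ∪
    Gr C (fun x => (f x, g x)) δ ×ˢ Icc (-3 / 2) (3 / 2) ∪
    (closedBall 0 R ×ˢ (closedBall 0 R ×ˢ NB)) ×ˢ Icc 1 2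

end body

end

end Pool.Agent.Lib.NFB
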