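import Pool.Agent.Lib.NFB.B_ADJ
import Pool.Agent.Lib.NFB.B_ADJ1
import Pool.Agent.Lib.NFB.B_APX
import Pool.Agent.Lib.NFB.B_BOCOV
import Pool.Agent.Lib.NFB.B_CBAS
import Pool.Agent.Lib.NFB.B_CBO
import Pool.Agent.Lib.NFB.B_CEL
import Pool.Agent.Lib.NFB.B_CELL
import Pool.Agent.Lib.NFB.B_CHE
import Pool.Agent.Lib.NFB.B_CLS
import Pool.Agent.Lib.NFB.B_COF
import Pool.Agent.Lib.NFB.B_COLL
import Pool.Agent.Lib.NFB.B_COLW
import Pool.Agent.Lib.NFB.B_CUB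
import Pool.Agent.Lib.NFB.B_CUBE
import Pool.Agent.Lib.NFB.B_DMCOV
import Pool.Agent.Lib.NFB.B_DOLD
import Pool.Agent.Lib.NFB.B_EH3
import Pool.Agent.Lib.NFB.B_ELP
import Pool.Agent.Lib.NFB.B_FIELD
import Pool.Agent.Lib.NFB.B_GEN
import Pool.Agent.Lib.NFB.B_GEN0
import Pool.Agent.Lib.NFB.B_GEN1
import Pool.Agent.Lib.NFB.B_GEN2
import Pool.Agent.Lib.NFB.B_GL1
import Pool.Agent.Lib.NFB.B_GLUE
import Pool.Agent.Lib.NFB.B_GMAP
import Pool.Agent.Lib.NFB.B_GRN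
import Pool.Agent.Lib.NFB.B_HALG
import Pool.Agent.Lib.NFB.B_HEPI
import Pool.Agent.Lib.NFB.B_HES
import Pool.Agent.Lib.NFB.B_HGEO
import Pool.Agent.Lib.NFB.B_HI
import Pool.Agent.Lib.NFB.B_IND
import Pool.Agent.Lib.NFB.B_KCOV
import Pool.Agent.Lib.NFB.B_KREL
import Pool.Agent.Lib.NFB.B_KSC
import Pool.Agent.Lib.NFB.B_LIP
import Pool.Agent.Lib.NFB.B_MON
import Pool.Agent.Lib.NFB.B_MOORE
import Pool.Agent.Lib.NFB.B_N2
import Pool.Agent.Lib.NFB.B_N3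
import Pool.Agent.Lib.NFB.B_N4
import Pool.Agent.Lib.NFB.B_PASTE
import Pool.Agent.Lib.NFB.B_PCOV
import Pool.Agent.Lib.NFB.B_PUSH
import Pool.Agent.Lib.NFB.B_RET
import Pool.Agent.Lib.NFB.B_RETL
import Pool.Agent.Lib.NFB.B_SHR
import Pool.Agent.Lib.NFB.B_SL1
import Pool.Agent.Lib.NFB.B_SLIDE
import Pool.Agent.Lib.NFB.B_SQX
import Pool.Agent.Lib.NFB.B_TC3
import Pool.Agent.Lib.NFB.B_TC4
import Pool.Agent.Lib.NFB.B_TF1
import Pool.Agent.Lib.NFB.B_TF2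
import Pool.Agent.Lib.NFB.B_TORUS
import Pool.Agent.Lib.NFB.B_TP
import Pool.Agent.Lib.NFB.B_TR
import Pool.Agent.Lib.NFB.B_TWO
import Pool.Agent.Lib.NFB.B_VNAT
import Pool.Agent.Lib.NFB.B_WEDGE
import Pool.Agent.Lib.NFB.B_XCC
import Pool.Agent.Lib.NFB.B_XCOV
import Pool.Agent.Lib.NFB.B_XSC
import Pool.Agent.Lib.NFB.B_ZCOV
import Pool.Agent.Lib.NFB.B_ZCV
import Pool.Agent.Lib.NFB.B_ZDM
import Pool.Agent.Lib.NFB.B_ZPI

/-! The space: all blocks together. -/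

namespace Pool.Agent.Lib.NFB

theorem stMOORE : St_MOORE := bMOORE
theorem stCELL : St_CELL := bCELL
theorem stTC3 : St_TC3 := bTC3 stCELL
theorem stTC4 : St_TC4 := bTC4 stCELL
theorem stPUSH : St_PUSH := bPUSH
theorem stFIELD : St_FIELD := bFIELD stPUSH
theorem stSHR : St_SHR := bSHR stFIELD
theorem stLIP : St_LIP := bLIP
theorem stAPX : St_APX := bAPX stSHR stLIP
theorem stELP : St_ELP := bELP
theorem stGRN : St_GRN := bGRN
theorem stCEL : St_CEL := bCEL stELP stGRN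
theorem stTR : St_TR := bTR
theorem stGL1 : St_GL1 := bGL1 stTR
theorem stGLUE : St_GLUE := bGLUE stGL1
theorem stCHE : St_CHE := bCHE stGLUE
theorem stCLS : St_CLS := bCLS stAPX stCEL stCHE stGLUE stTR
theorem stCBAS : St_CBAS := bCBAS stELP
theorem stGEN0 : St_GEN0 := bGEN0
theorem stGEN : St_GEN := bGEN stGEN0
theorem stVNAT : St_VNAT := bVNAT
theorem stGEN1 : St_GEN1 := bGEN1 stGEN stVNAT
theorem stCOF : St_COF := bCOF
theorem stTP : St_TP := bTP stTC3 stTC4 stCLS stCBAS stGEN1 stCOF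
theorem stADJ1 : St_ADJ1 := bADJ1
theorem stADJ : St_ADJ := bADJ stADJ1
theorem stEH3 : St_EH3 := bEH3
theorem stCUB : St_CUB := bCUB stEH3
theorem stN2 : St_N2 := bN2
theorem stN3 : St_N3 := bN3
theorem stN4 : St_N4 := bN4
theorem stGMAP : St_GMAP := bGMAP
theorem stHI : St_HI := bHI
theorem stHALG : St_HALG := bHALG stHI
theorem stCUBE : St_CUBE := bCUBE
theorem stHGEO : St_HGEO := bHGEO stCUBE
theorem stSLIDE : St_SLIDE := bSLIDE stGLUE
theorem stSL1 : St_SL1 := bSL1 stSLIDE stGLUE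
theorem stIND : St_IND := bIND
theorem stCOLL : St_COLL := bCOLL
theorem stPASTE : St_PASTE := bPASTE stCOF stCOLL
theorem stZDM : St_ZDM := bZDM
theorem stCOLW : St_COLW := bCOLW stCOF stCOLL
theorem stTORUS : St_TORUS := bTORUS
theorem stHES : St_HES := bHES
theorem stDOLD : St_DOLD := bDOLD stTORUS stGLUE stHES
theorem stWEDGE : St_WEDGE := bWEDGE stPASTE stZDM stCOLW stDOLD stGLUE
theorem stTWO : St_TWO := bTWO
theorem stSQX : St_SQX := bSQX stSLIDE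
theorem stCBO : St_CBO := bCBO stTORUS stCLS stCBAS
theorem stXCC : St_XCC := bXCC stCLS stCBO stCBAS
theorem stBOCOV : St_BOCOV := bBOCOV
theorem stZCOV : St_ZCOV := bZCOV stBOCOV
theorem stDMCOV : St_DMCOV := bDMCOV
theorem stPCOV : St_PCOV := bPCOV
theorem stKCOV : St_KCOV := bKCOV stZCOV stDMCOV stPCOV
theorem stXCOV : St_XCOV := bXCOV stZCOV stDMCOV stPCOV
theorem stGEN2 : St_GEN2 := bGEN2 stGEN stVNAT
theorem stZCV : St_ZCV := bZCV
theorem stZPI : St_ZPI := bZPI stZCV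
theorem stKREL : St_KREL := bKREL stVNAT stGEN1 stGEN2 stZPI
theorem stMON : St_MON := bMON
theorem stKSC : St_KSC := bKSC stKREL stMON
theorem stHEPI : St_HEPI := bHEPI
theorem stXSC : St_XSC := bXSC stGEN1 stZPI stMON stPCOV stHEPI
theorem stRETL : St_RETL := bRETL
theorem stRET : St_RET := bRET
theorem stTF1 : St_TF1 := bTF1
theorem stTF2 : St_TF2 := bTF2 stTF1

theorem stSPACE : St_SPACE :=
  space_of stMOORE stTP stADJ stCUB stN2 stN3 stN4 stGMAP stHALG stHGEO stSL1 stIND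
    stWEDGE stDOLD stTWO stSQX stXCC stKCOV stXCOV stKSC stXSC stRETL stRET

end Pool.Agent.Lib.NFB
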