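import Pool.Agent.Lib.NFB.B_MAN
import Pool.Agent.Lib.NFB.B_KER
import Pool.Agent.Lib.NFB.Blue3

/-! From the space to the closed manifold, keeping track of the fundamental group. -/

namespace Pool.Agent.Lib.NFB

open Set Topology Metric unitInterval Module ContinuousMap
open scoped Manifold ContDiff

/-- the statement, for a given group -/
def Target2 (G : Type) [Group G] : Prop :=
  ∃ (n : ℕ) (M : Type) (_ : TopologicalSpace M) (_ : T2Space M) (_ : SecondCountableTopology M)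
    (_ : CompactSpace M) (_ : ConnectedSpace M) (_ : ChartedSpace (EuclideanSpace ℝ (Fin n)) M)
    (_ : IsManifold (𝓡 n) ∞ M) (E : Type) (_ : TopologicalSpace E) (_ : PathConnectedSpace E) (p : C(E, M)) (e₀ : E)
    (φ : FundamentalGroup M (p e₀) →* Multiplicative ℤ) (k : ℕ)
    (h : ContinuousMap.HomotopyEquiv M E) (γ : Path (h.toFun (p e₀)) e₀),
    IsCoveringMap p ∧ Function.Surjective φ ∧ Group.IsFinitelyPresented φ.ker ∧
    (∀ g : FundamentalGroup M (p e₀), IsOfFinOrder g → g = 1) ∧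
    (∃ ι : FundamentalGroup M (p e₀) ≃* G × Multiplicative ℤ, ∀ x, φ x = (ι x).2) ∧ 1 < k ∧
    (FundamentalGroup.map p e₀).range =
      (Subgroup.zpowers (Multiplicative.ofAdd (k : ℤ))).comap φ ∧
    φ.ker.map ((FundamentalGroup.map p e₀).comp
      ((FundamentalGroup.fundamentalGroupMulEquivOfPath γ).toMonoidHom.comp
        (FundamentalGroup.map h.toFun (p e₀)))) = φ.ker ∧
    (∀ (F : Type) [TopologicalSpace F] (f : C(M, Circle)),
      ¬ ∀ z : Circle, ∃ e : Bundle.Trivialization F f, z ∈ e.baseSet) ∧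
    ∀ (M' : Type) [TopologicalSpace M'] [CompactSpace M'] [T2Space M']
      [LocallyPathConnectedSpace M'], Nonempty (ContinuousMap.HomotopyEquiv M' M) →
      ∀ (F : Type) [TopologicalSpace F] (f : C(M', Circle)),
        ¬ ∀ z : Circle, ∃ e : Bundle.Trivialization F f, z ∈ e.baseSet

theorem ker_iso (hMON : St_MON) {G X : Type} [Group G] [TopologicalSpace X] {θ : C(X, Circle)}
    (hP : Pack G θ) {M : Type} [TopologicalSpace M] (q : C(M, X)) (m₀ : M)
    (hq : Function.Bijective (FundamentalGroup.map q m₀)) {φ} (hφ : IsWind (θ.comp q) m₀ φ) :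
    ∃ ι : FundamentalGroup M m₀ ≃* G × Multiplicative ℤ, ∀ x, φ x = (ι x).2 := by
  obtain ⟨Y, _, _, p, L, -, -, -, -, -, -, hp, hY, hL, hs, -⟩ := hP
  obtain ⟨e, μ, hμ, hl⟩ := KER.lift hMON p hp hY (q m₀)
  let Ψ := MulEquiv.ofBijective (μ.comp (FundamentalGroup.map q m₀)) (hμ.comp hq)
  refine ⟨(Ψ.trans (MulEquiv.inv' _).symm).trans
    ((MulEquiv.refl G).prodCongr (MulEquiv.inv _)), fun x => ?_⟩
  obtain ⟨γ, rfl⟩ : ∃ γ : Path m₀ m₀, x = cls γ := by
    induction x using Quotient.inductionOn with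
    | h γ => exact ⟨γ, rfl⟩
  obtain ⟨g, Λ, h1, h2⟩ := hl (γ.map q.continuous)
  have h3 : Ψ (cls γ) = MulOpposite.op g := h2
  have h4 := hφ γ (L.comp Λ.toContinuousMap) fun t => by
    rw [ContinuousMap.comp_apply, hL]
    exact congrArg θ (h1 t).symm
  have h5 : (L.comp Λ.toContinuousMap) 1 - (L.comp Λ.toContinuousMap) 0 = (g.2.toAdd : ℤ) := by
    show L (Λ 1) - L (Λ 0) = _
    rw [Λ.source, Λ.target, hs, add_sub_cancel_left]
  have h6 : φ (cls γ) = g.2 := by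
    rw [h5] at h4
    exact Multiplicative.toAdd.injective (by exact_mod_cast h4.symm)
  rw [MulEquiv.trans_apply, MulEquiv.trans_apply, h3, h6]
  exact (inv_inv g.2).symm

theorem bij_move {X Y : Type} [TopologicalSpace X] [TopologicalSpace Y] (f : C(X, Y)) {a b : X}
    (γ : Path a b) (h : Function.Bijective (FundamentalGroup.map f a)) :
    Function.Bijective (FundamentalGroup.map f b) := by
  have k : ∀ x, FundamentalGroup.map f b (FundamentalGroup.fundamentalGroupMulEquivOfPath γ x) =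
      FundamentalGroup.fundamentalGroupMulEquivOfPath (γ.map f.continuous)
        (FundamentalGroup.map f a x) := by
    rintro ⟨δ⟩
    show cls ((γ.symm.trans (δ.trans γ)).map f.continuous) =
      cls ((γ.map f.continuous).symm.trans ((δ.map f.continuous).trans (γ.map f.continuous)))
    rw [Path.map_trans, Path.map_trans, Path.map_symm]
  rw [← Function.Bijective.of_comp_iff _
    (FundamentalGroup.fundamentalGroupMulEquivOfPath γ).bijective]
  rw [show _ ∘ _ = _ ∘ _ from funext k]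
  exact (MulEquiv.bijective _).comp h

open MAN in
theorem man2 (hGRA : St_GRA) (hSQS : St_SQS) (hATI : St_ATI) (hELP : St_ELP) (hSMO : St_SMO)
    (hDCOV : St_DCOV) (hBDP : St_BDP) (hPI1D : St_PI1D) (hHEPI : St_HEPI) (hNOFIB : St_NOFIB)
    (hWIND : St_WIND) (hWINH : St_WINH)
    (hKER : St_KER) (hSQC : St_SQC) (hSQW : St_SQW) (hHK : St_HK) (hMON : St_MON)
    (G X : Type) [Group G] [TopologicalSpace X] (θ : C(X, Circle))
    (hG : Group.IsFinitelyPresented G) (hT : TF G) (hC : CC X) (hP : Pack G θ)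
    (hS : Sim θ (om θ)) : Target2 G := by
  obtain ⟨V, _, _, _, _, W₁, W₂, P, θ₁, θ₂, e, e1, e2, h2, he, hθ⟩ := hGRA X θ hC
  have s1 : Sim θ₁ θ := ⟨e, he, hθ⟩
  obtain ⟨f₀, hf₀, hf⟩ := ((s1.trans hS).trans (hSQS _ _ _ _ s1.symm)).trans (sim_two h2 e2.1).symm
  obtain ⟨h, hh, hh'⟩ := hATI V W₁ W₂ e1 e2 f₀ hf₀
  have n1 : EL (NB W₁ (V × V)) := hELP.1 _ _ _ _ e1 (hELP.2.1 _ 1 one_pos)
  have n2 : EL (NB W₂ (V × V)) := hELP.1 _ _ _ _ e2 (hELP.2.1 _ 1 one_pos)
  have c1 := compl_ne n1.1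
  have c2 := compl_ne n2.1
  obtain ⟨E, hE⟩ := hDCOV _ _ _ _ _ _ n2.1 c1 c2 (two_nb h2 (V × V))
  have pX : PathConnectedSpace X := by
    obtain ⟨Y, _, _, p, -, -, -, -, -, -, -, hp, hY, -⟩ := hP
    exact hp.surjective.pathConnectedSpace hp.continuous
  have hq₀ : HE (e.comp (nbp W₁ (V × V))) := he.comp (he_nbp _ _)
  have pN := (hHEPI _ _ _ hq₀).2.1 pX
  have rk : 1 < finrank ℝ (V × V) := by
    have := finrank_pos (R := ℝ) (M := V)
    rw [finrank_prod]; omega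
  obtain ⟨pM, hs⟩ := hPI1D _ _ n1 c1 pN (hBDP V (V × V) W₁ rk)
  obtain ⟨x₀⟩ := pN.nonempty
  obtain ⟨ch, sm⟩ := hSMO _ _ n1 ⟨x₀.1, x₀.2⟩ c1
  have := compact_Db n1.1
  set q : C(Db (NB W₁ (V × V)), X) := (e.comp (nbp W₁ (V × V))).comp (dpr _) with hq
  have hb : Function.Bijective (FundamentalGroup.map q (dup _ x₀)) := by
    have hb := (hHEPI _ _ _ hq₀).1 x₀
    have hc : ∀ γ, FundamentalGroup.map q (dup _ x₀) (FundamentalGroup.map (dup _) x₀ γ) =
        FundamentalGroup.map (e.comp (nbp W₁ (V × V))) x₀ γ := fun γ => (map_comp (dup _) q x₀ γ).symm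
    refine ⟨fun a b hab => ?_, fun y => ?_⟩
    · obtain ⟨a, rfl⟩ := hs x₀ a
      obtain ⟨b, rfl⟩ := hs x₀ b
      rw [hb.1 ((hc a).symm.trans (hab.trans (hc b)))]
    · obtain ⟨a, rfl⟩ := hb.2 y
      exact ⟨_, hc a⟩
  let ϑ : C(Db (NB W₁ (V × V)), Circle) := (θ₁.comp (nbp W₁ (V × V))).comp (dpr _)
  obtain ⟨r, hr⟩ := ex_surj (ϑ (dup _ x₀))
  let e₀ : Sq ϑ := ⟨(dup _ x₀, ex (r / 2)), by rw [sq, ← ex_add, add_halves, hr]⟩
  obtain ⟨φ, hφ⟩ := hWIND _ ϑ (sqp ϑ e₀)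
  have hϑ : (θ.comp q).Homotopic ϑ := hθ.comp (.refl ((nbp W₁ (V × V)).comp (dpr _)))
  obtain ⟨k1, k2, k3⟩ := hKER G X θ hG hT hP _ q _ hb φ (hWINH _ _ _ _ _ hϑ.symm hφ)
  obtain ⟨w1, w2⟩ := hSQW _ ϑ e₀ φ hφ
  have pE := w2 pM k1
  obtain ⟨H, hH⟩ := ((HE.homeo E).comp hh).equiv
  have hom : ((om ϑ).comp H.toFun).Homotopic ϑ := by
    have : (om ϑ).comp H.toFun = θ₂.comp (((nbp W₂ _).comp (dpr _)).comp h) := by
      rw [hH]; exact ContinuousMap.ext fun z => hE (h z)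
    rw [this]
    exact ((Homotopic.refl θ₂).comp hh').trans (hf.comp (.refl ((nbp W₁ (V × V)).comp (dpr _))))
  obtain ⟨j, -, hj⟩ := hq₀
  have lp := ChartedSpace.locallyPathConnectedSpace
    (EuclideanSpace ℝ (Fin (finrank ℝ (V × (V × V))))) (Db (NB W₁ (V × V)))
  refine ⟨_, _, inferInstance, inferInstance, inferInstance, this, inferInstance, ch, sm, Sq ϑ,
    inferInstance, pE, sqp ϑ, e₀, φ, 2, H, PathConnectedSpace.somePath _ _, hSQC _ ϑ, k1, k2, k3,
    ker_iso hMON hP q _ hb (hWINH _ _ _ _ _ hϑ.symm hφ), one_lt_two, w1, hHK _ ϑ e₀ φ hφ H _ hom,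
    hNOFIB G X θ hP _ q ((dup _).comp j) hj _ hb, fun M' _ _ _ _ ⟨u⟩ => ?_⟩
  have hu : HE u.toFun := ⟨u.invFun, u.left_inv, u.right_inv⟩
  have pM' := (hHEPI _ _ _ hu).2.1 pM
  obtain ⟨m'⟩ := pM'.nonempty
  refine hNOFIB G X θ hP M' (q.comp u.toFun) (u.invFun.comp ((dup _).comp j))
    (((Homotopic.refl q).comp (u.right_inv.comp (.refl ((dup _).comp j)))).trans hj) m' ?_
  rw [show ⇑(FundamentalGroup.map (q.comp u.toFun) m') = _ ∘ _ from
    funext (map_comp u.toFun q m')]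
  exact (bij_move q (PathConnectedSpace.somePath _ _) hb).comp ((hHEPI _ _ _ hu).1 m')

end Pool.Agent.Lib.NFB
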