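import Pool.Agent.Lib.NFB.Fin1
import Pool.Agent.Lib.NFB.Man2
import Pool.Agent.Lib.NFB.B_ATI
import Pool.Agent.Lib.NFB.B_ATI0
import Pool.Agent.Lib.NFB.B_BDP
import Pool.Agent.Lib.NFB.B_BOR
import Pool.Agent.Lib.NFB.B_COLLAR
import Pool.Agent.Lib.NFB.B_DCOV
import Pool.Agent.Lib.NFB.B_ENR
import Pool.Agent.Lib.NFB.B_FLG
import Pool.Agent.Lib.NFB.B_FOLD
import Pool.Agent.Lib.NFB.B_FUND
import Pool.Agent.Lib.NFB.B_GRA
import Pool.Agent.Lib.NFB.B_GRS
import Pool.Agent.Lib.NFB.B_HK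
import Pool.Agent.Lib.NFB.B_ISO
import Pool.Agent.Lib.NFB.B_KER
import Pool.Agent.Lib.NFB.B_LEFT
import Pool.Agent.Lib.NFB.B_LIN
import Pool.Agent.Lib.NFB.B_LVH
import Pool.Agent.Lib.NFB.B_MOL
import Pool.Agent.Lib.NFB.B_NOFIB
import Pool.Agent.Lib.NFB.B_PB
import Pool.Agent.Lib.NFB.B_PI1D
import Pool.Agent.Lib.NFB.B_ROOT
import Pool.Agent.Lib.NFB.B_ROT
import Pool.Agent.Lib.NFB.B_SC3
import Pool.Agent.Lib.NFB.B_SIGN
import Pool.Agent.Lib.NFB.B_SLEV
import Pool.Agent.Lib.NFB.B_SQC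
import Pool.Agent.Lib.NFB.B_SQS
import Pool.Agent.Lib.NFB.B_SQW
import Pool.Agent.Lib.NFB.B_TRI
import Pool.Agent.Lib.NFB.B_WIND
import Pool.Agent.Lib.NFB.B_WINH

/-! The manifold: all blocks together. -/

namespace Pool.Agent.Lib.NFB

theorem stGRS : St_GRS := bGRS
theorem stGRA : St_GRA := bGRA stGRN stGRS stLIP
theorem stSQS : St_SQS := bSQS
theorem stENR : St_ENR := bENR stFIELD
theorem stBOR : St_BOR := bBOR stENR
theorem stSIGN : St_SIGN := bSIGN
theorem stFOLD : St_FOLD := bFOLD stSIGN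
theorem stISO : St_ISO := bISO stFOLD
theorem stLEFT : St_LEFT := bLEFT
theorem stATI0 : St_ATI0 := bATI0 stFOLD stISO stLEFT
theorem stSC3 : St_SC3 := bSC3
theorem stLIN : St_LIN := bLIN
theorem stTRI : St_TRI := bTRI
theorem stATI : St_ATI := bATI stSHR stBOR stELP stATI0 stSC3 stLIN stTRI
theorem stDCOV : St_DCOV := bDCOV stSIGN
theorem stBDP : St_BDP := bBDP
theorem stROOT : St_ROOT := bROOT
theorem stCOLLAR : St_COLLAR := bCOLLAR stFIELD stROOT
theorem stPI1D : St_PI1D := bPI1D stCOLLAR stSIGN stGEN0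
theorem stROT : St_ROT := bROT
theorem stPB : St_PB := bPB stMON
theorem stFUND : St_FUND := bFUND
theorem stNOFIB : St_NOFIB := bNOFIB stROT stPB stFUND
theorem stWIND : St_WIND := bWIND
theorem stWINH : St_WINH := bWINH
theorem stKER : St_KER := bKER stMON
theorem stSQC : St_SQC := bSQC
theorem stSQW : St_SQW := bSQW
theorem stHK : St_HK := bHK stWIND stWINH stHEPI stSQW
theorem stFLG : St_FLG := bFLG stFIELD
theorem stMOL : St_MOL := bMOL
theorem stLVH : St_LVH := bLVH stROOT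
theorem stSLEV : St_SLEV := bSLEV

theorem final {G : Type} [Group G] {a b s t : G} (hG : Group.IsFinitelyPresented G)
    (hU : MP_dab48e_gt.Univ a b s t) : Target2 G := by
  obtain ⟨X, _, θ, c1, c2, c3⟩ := stSPACE G a b s t hU
  exact man2 stGRA stSQS stATI stELP (smo_of stFLG stMOL stLVH stSLEV) stDCOV stBDP stPI1D stHEPI
    stNOFIB stWIND stWINH stKER stSQC stSQW stHK stMON G X θ hG (stTF2 G a b s t hU) c1 c2 c3

end Pool.Agent.Lib.NFB
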