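import Pool.Agent.Lib.NFB.Defs

/-! Basic facts on homotopy equivalences, the exponential and doubles. -/

namespace Pool.Agent.Lib.NFB

open Set Topology Metric unitInterval ContinuousMap

variable {X Y Z W : Type} [TopologicalSpace X] [TopologicalSpace Y] [TopologicalSpace Z]
  [TopologicalSpace W]

theorem HE.id : HE (ContinuousMap.id X) := ⟨.id X, .refl _, .refl _⟩

theorem HE.of_inv {f : C(X, Y)} (g : C(Y, X)) (h1 : ∀ x, g (f x) = x) (h2 : ∀ y, f (g y) = y) :
    HE f :=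
  ⟨g, by rw [show g.comp f = .id X from ContinuousMap.ext h1],
    by rw [show f.comp g = .id Y from ContinuousMap.ext h2]⟩

theorem HE.homeo (e : X ≃ₜ Y) : HE (e : C(X, Y)) :=
  .of_inv (e.symm : C(Y, X)) e.symm_apply_apply e.apply_symm_apply

theorem HE.of_homeo {f : C(X, Y)} (e : X ≃ₜ Y) (h : ∀ x, f x = e x) : HE f := by
  rw [show f = (e : C(X, Y)) from ContinuousMap.ext h]; exact .homeo e

theorem HE.of_bij [CompactSpace X] [T2Space Y] {f : C(X, Y)} (h : Function.Bijective f) : HE f :=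
  .of_homeo (Continuous.homeoOfEquivCompactToT2 (f := Equiv.ofBijective f h) f.continuous)
    fun _ => rfl

theorem HE.congr {f g : C(X, Y)} (hf : HE f) (h : f.Homotopic g) : HE g := by
  obtain ⟨k, h1, h2⟩ := hf
  exact ⟨k, ((Homotopic.refl k).comp h.symm).trans h1, (h.symm.comp (.refl k)).trans h2⟩

theorem HE.of_id {f : C(X, X)} (h : f.Homotopic (.id X)) : HE f := HE.id.congr h.symm

theorem HE.comp {f : C(X, Y)} {g : C(Y, Z)} (hg : HE g) (hf : HE f) : HE (g.comp f) := by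
  obtain ⟨f', a1, a2⟩ := hf
  obtain ⟨g', b1, b2⟩ := hg
  exact ⟨f'.comp g', ((Homotopic.refl f').comp (b1.comp (.refl f))).trans a1,
    ((Homotopic.refl g).comp (a2.comp (.refl g'))).trans b2⟩

theorem HE.inv {f : C(X, Y)} (hf : HE f) :
    ∃ g : C(Y, X), HE g ∧ (g.comp f).Homotopic (.id X) ∧ (f.comp g).Homotopic (.id Y) := by
  obtain ⟨g, a1, a2⟩ := hf
  exact ⟨g, ⟨f, a2, a1⟩, a1, a2⟩

theorem HE.of_left {f : C(X, Y)} {g : C(Y, Z)} (hf : HE f) (h : HE (g.comp f)) : HE g := by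
  obtain ⟨f', hf', -, a2⟩ := hf.inv
  exact (h.comp hf').congr ((Homotopic.refl g).comp a2)

theorem HE.of_right {f : C(X, Y)} {g : C(Y, Z)} (hg : HE g) (h : HE (g.comp f)) : HE f := by
  obtain ⟨g', hg', a1, -⟩ := hg.inv
  exact (hg'.comp h).congr (a1.comp (.refl f))

theorem HE.six {f : C(X, Y)} {g : C(Y, Z)} {h : C(Z, W)} (h1 : HE (g.comp f))
    (h2 : HE (h.comp g)) : HE f ∧ HE g ∧ HE h := by
  have hg : HE g := by
    obtain ⟨u, -, a2⟩ := h1
    obtain ⟨v, b1, -⟩ := h2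
    have e : (f.comp u).Homotopic (v.comp h) :=
      (b1.symm.comp (.refl (f.comp u))).trans ((Homotopic.refl (v.comp h)).comp a2)
    exact ⟨f.comp u, (e.comp (.refl g)).trans b1, a2⟩
  exact ⟨hg.of_right h1, hg, hg.of_left h2⟩

theorem HE.equiv {f : C(X, Y)} (hf : HE f) : ∃ e : HomotopyEquiv X Y, e.toFun = f := by
  obtain ⟨g, a1, a2⟩ := hf
  exact ⟨⟨f, g, a1, a2⟩, rfl⟩

/-- a homotopy from a map on the cylinder -/
theorem homotopic_of {f g : C(X, Y)} (H : C(I × X, Y)) (h0 : ∀ x, H (0, x) = f x)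
    (h1 : ∀ x, H (1, x) = g x) : f.Homotopic g := ⟨⟨H, h0, h1⟩⟩

theorem HE.fst : HE (ContinuousMap.fst : C(X × I, X)) :=
  ⟨⟨fun x => (x, 0), by fun_prop⟩,
    homotopic_of ⟨fun z => (z.2.1, z.1 * z.2.2), by fun_prop⟩ (fun x => by simp) fun x => by simp,
    .refl _⟩

theorem HE.slice (t : I) : HE (⟨fun x => (x, t), by fun_prop⟩ : C(X, X × I)) :=
  HE.fst.of_right HE.id

theorem Sim.of_eq {θ : C(X, Circle)} {θ' : C(Y, Circle)} {q : C(X, Y)} (hq : HE q)
    (h : ∀ x, θ' (q x) = θ x) : Sim θ θ' :=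
  ⟨q, hq, by rw [show θ'.comp q = θ from ContinuousMap.ext h]⟩

theorem Sim.refl (θ : C(X, Circle)) : Sim θ θ := .of_eq HE.id fun _ => rfl

theorem Sim.symm {θ : C(X, Circle)} {θ' : C(Y, Circle)} (h : Sim θ θ') : Sim θ' θ := by
  obtain ⟨q, hq, h⟩ := h
  obtain ⟨q', hq', -, a2⟩ := hq.inv
  exact ⟨q', hq', (h.symm.comp (.refl q')).trans ((Homotopic.refl θ').comp a2)⟩

theorem Sim.trans {θ : C(X, Circle)} {θ' : C(Y, Circle)} {θ'' : C(Z, Circle)} (h : Sim θ θ')
    (h' : Sim θ' θ'') : Sim θ θ'' := by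
  obtain ⟨q, hq, h⟩ := h
  obtain ⟨q', hq', h'⟩ := h'
  exact ⟨q'.comp q, hq'.comp hq, (h'.comp (.refl q)).trans h⟩

theorem ex_add (x y : ℝ) : ex (x + y) = ex x * ex y := by
  simp [ex, mul_add, Circle.exp_add]

theorem ex_zero : ex 0 = 1 := by simp [ex]

theorem ex_eq_iff {x y : ℝ} : ex x = ex y ↔ ∃ n : ℤ, x = y + n := by
  have : (2 * Real.pi) ≠ 0 := by positivity
  refine Circle.exp_eq_exp.trans (exists_congr fun n => ⟨fun h => ?_, fun h => ?_⟩)
  · exact mul_left_cancel₀ this (by rw [h]; ring)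
  · rw [h]; ring

theorem ex_int (n : ℤ) : ex n = 1 := ex_zero ▸ ex_eq_iff.2 ⟨n, by simp⟩

theorem ex_half : ex (1 / 2) = -1 := by
  ext
  have : ((ex (1 / 2) : Circle) : ℂ) = Complex.exp (Real.pi * Complex.I) := by
    show ((Circle.exp (2 * Real.pi * (1 / 2)) : Circle) : ℂ) = _
    rw [Circle.coe_exp, show 2 * Real.pi * (1 / 2) = Real.pi by ring]
  rw [this, Complex.exp_pi_mul_I]
  simp

theorem ex_cov : IsCoveringMap ex :=
  Circle.isCoveringMap_exp.comp_homeomorph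
    (Homeomorph.mulLeft₀ (2 * Real.pi) (by positivity))

theorem ex_surj : Function.Surjective ex := fun z => by
  obtain ⟨x, rfl⟩ := Circle.exp_surjective z
  refine ⟨x / (2 * Real.pi), ?_⟩
  simp only [ex, coe_mk]
  rw [mul_div_cancel₀ _ (by positivity)]

theorem CC.of_HE {f : C(X, Y)} (hf : HE f) : CC X ↔ CC Y := by
  refine ⟨fun ⟨V, a, b, c, N, e, h1, h2⟩ => ⟨V, a, b, c, N, f.comp e, h1, hf.comp h2⟩, ?_⟩
  obtain ⟨g, hg, -⟩ := hf.inv
  exact fun ⟨V, a, b, c, N, e, h1, h2⟩ => ⟨V, a, b, c, N, g.comp e, h1, hg.comp h2⟩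

section body

variable {V : Type} [NormedAddCommGroup V]

theorem dp_pos_iff {N : Set V} (h : Nᶜ.Nonempty) {x : V} : 0 < dp N x ↔ x ∈ interior N := by
  rw [dp, ← infDist_pos_iff_notMem_closure h, closure_compl, notMem_compl_iff]

theorem sd_nonpos_iff {N : Set V} (hc : IsClosed N) (h : N.Nonempty) {x : V} :
    sd N x ≤ 0 ↔ x ∈ N := by
  refine ⟨fun hx => by_contra fun hn => ?_, fun hx => ?_⟩
  · rw [sd, infDist_zero_of_mem (s := Nᶜ) hn, sub_zero] at hx
    exact hn ((hc.mem_iff_infDist_zero h).2 (hx.antisymm infDist_nonneg))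
  · rw [sd, infDist_zero_of_mem hx, zero_sub, neg_nonpos]; exact infDist_nonneg

theorem sd_of_mem {N : Set V} {x : V} (hx : x ∈ N) : sd N x = -dp N x := by
  rw [sd, infDist_zero_of_mem hx, zero_sub, dp]

theorem continuous_sd (N : Set V) : Continuous (sd N) :=
  (continuous_infDist_pt _).sub (continuous_infDist_pt _)

theorem compact_Db {N : Set V} (h : IsCompact N) : CompactSpace (Db N) := by
  refine isCompact_iff_compactSpace.1
    (show IsCompact {z : V × ℝ | z.1 ∈ N ∧ |z.2| = dp N z.1} from ?_)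
  refine ((h.image (f := fun x => (x, dp N x)) (continuous_id.prodMk (continuous_dp N))).union
    (h.image (f := fun x => (x, -dp N x))
      (continuous_id.prodMk (continuous_dp N).neg))).of_isClosed_subset ?_ ?_
  · exact (h.isClosed.preimage continuous_fst).inter
      (isClosed_eq continuous_snd.abs ((continuous_dp N).comp continuous_fst))
  · rintro ⟨x, s⟩ ⟨h1, h2⟩
    rcases abs_cases s with h3 | h3
    · exact .inl ⟨x, h1, Prod.ext rfl (by simp only at h2 ⊢; linarith [h3.1])⟩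
    · exact .inr ⟨x, h1, Prod.ext rfl (by simp only at h2 ⊢; linarith [h3.1])⟩

theorem Over.unique {N : Set V} {w w' : Db N} {x : N} {P P' : Prop} (h : Over w x P)
    (h' : Over w' x P') (e : P ↔ P') : w = w' := by
  obtain rfl := propext e
  exact Subtype.ext (Prod.ext (h.1.trans h'.1.symm) (h.2.trans h'.2.symm))

end body

end Pool.Agent.Lib.NFB
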