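import Pool.Agent.Lib.NFB.Cyl

/-! Bundles over the circle and over the torus. -/

namespace Pool.Agent.Lib.NFB

open Set Topology unitInterval ContinuousMap

noncomputable section

variable {A A' Y : Type} [TopologicalSpace A] [TopologicalSpace A'] [TopologicalSpace Y]

theorem zpow_add_apply (φ : A ≃ₜ A) (m n : ℤ) (y : A) : (φ ^ (m + n)) y = (φ ^ m) ((φ ^ n) y) := by
  rw [zpow_add]; rfl

theorem zpow_one_add (φ : A ≃ₜ A) (n : ℤ) (y : A) : (φ ^ (n + 1)) y = φ ((φ ^ n) y) := by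
  rw [add_comm, zpow_add_apply, zpow_one]

/-- invariance under the generator gives invariance under the group -/
theorem inv_zpow {Y : Type} {φ : A ≃ₜ A} {F : ℝ × A → Y} (h : ∀ r y, F (r + 1, φ y) = F (r, y))
    (n : ℤ) (r : ℝ) (y : A) : F (r + n, (φ ^ n) y) = F (r, y) := by
  induction n using Int.induction_on with
  | zero => simp
  | succ n ih => rw [zpow_one_add, Int.cast_add, Int.cast_one, ← add_assoc, h, ih]
  | pred n ih =>
    rw [← h, ← zpow_one_add, sub_add_cancel, Int.cast_sub, Int.cast_one, add_assoc,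
      sub_add_cancel, ih]

theorem semi_zpow {φ : A ≃ₜ A} {φ' : A' ≃ₜ A'} {F : A → A'} (h : ∀ y, F (φ y) = φ' (F y)) (n : ℤ)
    (y : A) : F ((φ ^ n) y) = (φ' ^ n) (F y) := by
  induction n using Int.induction_on with
  | zero => simp
  | succ n ih => rw [zpow_one_add, zpow_one_add, h, ih]
  | pred n ih => apply φ'.injective; rw [← h, ← zpow_one_add, ← zpow_one_add, sub_add_cancel, ih]

/-- the relation of the mapping torus -/
def boS (φ : A ≃ₜ A) : Setoid (ℝ × A) where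
  r z z' := ∃ n : ℤ, z'.1 = z.1 + n ∧ z'.2 = (φ ^ n) z.2
  iseqv := ⟨fun _ => ⟨0, by simp, by simp⟩,
    fun ⟨n, h1, h2⟩ => ⟨-n, by simp [h1], by rw [h2, ← zpow_add_apply]; simp⟩,
    fun ⟨n, h1, h2⟩ ⟨m, h3, h4⟩ => ⟨m + n, by rw [h3, h1]; push_cast; ring,
      by rw [h4, h2, zpow_add_apply]⟩⟩

/-- the mapping torus -/
def Bo (φ : A ≃ₜ A) : Type := Quotient (boS φ)

instance (φ : A ≃ₜ A) : TopologicalSpace (Bo φ) := inferInstanceAs (TopologicalSpace (Quotient _))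

/-- the quotient map -/
def bm (φ : A ≃ₜ A) : C(ℝ × A, Bo φ) := ⟨Quotient.mk _, continuous_quotient_mk'⟩

variable {φ : A ≃ₜ A} {φ' : A' ≃ₜ A'}

theorem bm_eq {z z' : ℝ × A} :
    bm φ z = bm φ z' ↔ ∃ n : ℤ, z'.1 = z.1 + n ∧ z'.2 = (φ ^ n) z.2 := Quotient.eq (r := boS φ)

theorem bm_step (r : ℝ) (y : A) : bm φ (r + 1, φ y) = bm φ (r, y) :=
  (bm_eq.2 ⟨1, by simp, by simp⟩).symm

theorem bm_open : IsOpenQuotientMap (bm φ) := by
  refine ⟨Quotient.mk_surjective, (bm φ).continuous, fun U hU => ?_⟩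
  have hq : IsQuotientMap (bm φ) := isQuotientMap_quotient_mk'
  rw [← hq.isOpen_preimage]
  have : bm φ ⁻¹' (bm φ '' U) =
      ⋃ n : ℤ, (fun z : ℝ × A => (z.1 + n, (φ ^ n) z.2)) ⁻¹' U := by
    ext z
    simp only [mem_preimage, mem_image, mem_iUnion]
    constructor
    · rintro ⟨w, hw, e⟩
      obtain ⟨n, h1, h2⟩ := bm_eq.1 (show bm φ z = bm φ w from e.symm)
      exact ⟨n, by rwa [← h1, ← h2]⟩
    · exact fun ⟨n, hn⟩ => ⟨_, hn, (bm_eq.2 ⟨n, rfl, rfl⟩ : bm φ z = _).symm⟩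
  rw [this]
  exact isOpen_iUnion fun n => hU.preimage (by fun_prop)

theorem Bo.ind {P : Bo φ → Prop} (h : ∀ r y, P (bm φ (r, y))) (x : Bo φ) : P x := by
  obtain ⟨r, y⟩ := x
  exact h r y

/-- maps out of the mapping torus -/
def Bo.lift (F : C(ℝ × A, Y)) (h : ∀ r y, F (r + 1, φ y) = F (r, y)) : C(Bo φ, Y) :=
  ⟨Quotient.lift F fun z z' ⟨n, h1, h2⟩ => by
    rw [show z' = (z.1 + n, (φ ^ n) z.2) from Prod.ext h1 h2, inv_zpow h],
    F.continuous.quotient_lift _⟩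

@[simp] theorem Bo.lift_bm (F : C(ℝ × A, Y)) (h) (z : ℝ × A) :
    Bo.lift (φ := φ) F h (bm φ z) = F z := rfl

/-- functoriality -/
def Bo.map (F : C(A, A')) (h : ∀ y, F (φ y) = φ' (F y)) : C(Bo φ, Bo φ') :=
  Bo.lift ((bm φ').comp ((ContinuousMap.id ℝ).prodMap F)) fun r y => by
    simpa [h] using bm_step r (F y)

@[simp] theorem Bo.map_bm (F : C(A, A')) (h) (r : ℝ) (y : A) :
    Bo.map (φ := φ) (φ' := φ') F h (bm φ (r, y)) = bm φ' (r, F y) := rfl

instance [CompactSpace A] : CompactSpace (Bo φ) := by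
  refine ⟨((isCompact_Icc (a := (0 : ℝ)) (b := 1)).prod (isCompact_univ (X := A))).image
    (bm φ).continuous |>.of_isClosed_subset isClosed_univ fun x _ => ?_⟩
  induction x using Bo.ind with
  | h r y =>
    exact ⟨(Int.fract r, (φ ^ (-⌊r⌋)) y), ⟨⟨Int.fract_nonneg r, (Int.fract_lt_one r).le⟩, trivial⟩,
      (bm_eq.2 ⟨-⌊r⌋, by simp [Int.fract, sub_eq_add_neg], rfl⟩).symm⟩

instance [T2Space A] : T2Space (Bo φ) := by
  rw [t2Space_iff_of_isOpenQuotientMap bm_open]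
  have : {q : (ℝ × A) × ℝ × A | bm φ q.1 = bm φ q.2} =
      ⋃ n : ℤ, {q : (ℝ × A) × ℝ × A | q.2.1 = q.1.1 + n ∧ q.2.2 = (φ ^ n) q.1.2} := by
    ext q; simp [bm_eq]
  rw [this]
  refine LocallyFinite.isClosed_iUnion (fun q => ?_) fun n =>
    (isClosed_eq (by fun_prop) (by fun_prop)).inter (isClosed_eq (by fun_prop) (by fun_prop))
  refine ⟨{w | |w.2.1 - w.1.1| < |q.2.1 - q.1.1| + 1},
    (isOpen_lt (by fun_prop) continuous_const).mem_nhds (by simp), ?_⟩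
  refine (Set.finite_Icc (-⌈|q.2.1 - q.1.1| + 1⌉) ⌈|q.2.1 - q.1.1| + 1⌉).subset ?_
  rintro n ⟨w, ⟨h1, -⟩, h2⟩
  have h3 : |(n : ℝ)| < |q.2.1 - q.1.1| + 1 := by simpa [h1] using h2
  have h4 : |n| ≤ ⌈|q.2.1 - q.1.1| + 1⌉ := by
    have := h3.le.trans (Int.le_ceil _)
    exact_mod_cast this
  exact abs_le.1 h4

/-- a commuting homeomorphism acts on the mapping torus -/
def Bo.hat (φ ψ : A ≃ₜ A) (h : ∀ y, ψ (φ y) = φ (ψ y)) : Bo φ ≃ₜ Bo φ where
  toFun := Bo.map (ψ : C(A, A)) h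
  invFun := Bo.map (ψ.symm : C(A, A)) fun y => ψ.injective (by simp [h])
  left_inv := Bo.ind fun r y => by simp
  right_inv := Bo.ind fun r y => by simp
  continuous_toFun := map_continuous _
  continuous_invFun := map_continuous _

@[simp] theorem Bo.hat_bm (ψ : A ≃ₜ A) (h) (r : ℝ) (y : A) :
    Bo.hat φ ψ h (bm φ (r, y)) = bm φ (r, ψ y) := rfl

/-- an action of the free abelian group of rank two -/
structure Act (A : Type) [TopologicalSpace A] where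
  a : A ≃ₜ A
  b : A ≃ₜ A
  comm : ∀ y, b (a y) = a (b y)

/-- the associated bundle over the torus -/
abbrev Z (ρ : Act A) : Type := Bo (Bo.hat ρ.a ρ.b ρ.comm)

/-- the points of the bundle -/
def zm (ρ : Act A) : C((ℝ × ℝ) × A, Z ρ) :=
  ⟨fun z => bm _ (z.1.2, bm _ (z.1.1, z.2)), by fun_prop⟩

variable {ρ : Act A} {ρ' : Act A'}

theorem zm_a (α β : ℝ) (y : A) : zm ρ ((α + 1, β), ρ.a y) = zm ρ ((α, β), y) := by
  simp only [zm, coe_mk, bm_step]

theorem zm_b (α β : ℝ) (y : A) : zm ρ ((α, β + 1), ρ.b y) = zm ρ ((α, β), y) :=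
  bm_step (φ := Bo.hat ρ.a ρ.b ρ.comm) β (bm _ (α, y))

theorem zm_eq {z z' : (ℝ × ℝ) × A} : zm ρ z = zm ρ z' ↔ ∃ m n : ℤ,
    z'.1 = (z.1.1 + m, z.1.2 + n) ∧ z'.2 = (ρ.a ^ m) ((ρ.b ^ n) z.2) := by
  have key : ∀ (n : ℤ) r y, (Bo.hat ρ.a ρ.b ρ.comm ^ n) (bm _ (r, y)) = bm _ (r, (ρ.b ^ n) y) :=
    fun n r y => (semi_zpow (F := fun y => bm ρ.a (r, y)) (φ := ρ.b) (fun _ => rfl) n y).symm
  refine bm_eq.trans ⟨fun ⟨n, h1, h2⟩ => ?_, fun ⟨m, n, h1, h2⟩ => ⟨n, congrArg Prod.snd h1, ?_⟩⟩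
  · obtain ⟨m, h3, h4⟩ := bm_eq.1 (h2.trans (key n _ _)).symm
    exact ⟨m, n, Prod.ext h3 h1, h4⟩
  · exact ((key n _ _).trans (bm_eq.2 ⟨m, congrArg Prod.fst h1, h2⟩)).symm

theorem zm_open : IsOpenQuotientMap (zm ρ) :=
  (bm_open.comp (IsOpenQuotientMap.id.prodMap bm_open)).comp
    ((((Homeomorph.prodComm ℝ ℝ).prodCongr (Homeomorph.refl A)).trans
      (Homeomorph.prodAssoc ℝ ℝ A)).isOpenQuotientMap)

theorem Z.ind {P : Z ρ → Prop} (h : ∀ x y, P (zm ρ (x, y))) (z : Z ρ) : P z := by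
  obtain ⟨⟨x, y⟩, rfl⟩ := zm_open.surjective z
  exact h x y

theorem inv_zm {Y : Type} {F : (ℝ × ℝ) × A → Y} (ha : ∀ α β y, F ((α + 1, β), ρ.a y) = F ((α, β), y))
    (hb : ∀ α β y, F ((α, β + 1), ρ.b y) = F ((α, β), y)) {z z' : (ℝ × ℝ) × A}
    (h : zm ρ z = zm ρ z') : F z = F z' := by
  obtain ⟨m, n, h1, h2⟩ := zm_eq.1 h
  rw [show z' = ((z.1.1 + m, z.1.2 + n), (ρ.a ^ m) ((ρ.b ^ n) z.2)) from Prod.ext h1 h2,
    inv_zpow (F := fun w => F ((w.1, z.1.2 + n), w.2)) (fun r y => ha r _ y),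
    inv_zpow (F := fun w => F ((z.1.1, w.1), w.2)) (fun r y => hb _ r y)]

/-- maps out of the bundle -/
def Z.lift (F : C((ℝ × ℝ) × A, Y)) (ha : ∀ α β y, F ((α + 1, β), ρ.a y) = F ((α, β), y))
    (hb : ∀ α β y, F ((α, β + 1), ρ.b y) = F ((α, β), y)) : C(Z ρ, Y) :=
  ⟨fun z => F (zm_open.surjective z).choose, by
    rw [zm_open.isQuotientMap.continuous_iff]
    exact F.continuous.congr fun z => inv_zm ha hb (zm_open.surjective (zm ρ z)).choose_spec.symm⟩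

@[simp] theorem Z.lift_zm (F : C((ℝ × ℝ) × A, Y)) (ha) (hb) (z : (ℝ × ℝ) × A) :
    Z.lift (ρ := ρ) F ha hb (zm ρ z) = F z :=
  inv_zm ha hb (zm_open.surjective (zm ρ z)).choose_spec

/-- equivariant maps -/
structure Eqv (ρ : Act A) (ρ' : Act A') (F : A → A') : Prop where
  a : ∀ y, F (ρ.a y) = ρ'.a (F y)
  b : ∀ y, F (ρ.b y) = ρ'.b (F y)

/-- functoriality -/
def Z.map (F : C(A, A')) (h : Eqv ρ ρ' F) : C(Z ρ, Z ρ') :=
  Bo.map (Bo.map F h.a) (Bo.ind fun r y => by simp [h.b])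

@[simp] theorem Z.map_zm (F : C(A, A')) (h : Eqv ρ ρ' F) (x : ℝ × ℝ) (y : A) :
    Z.map F h (zm ρ (x, y)) = zm ρ' (x, F y) := rfl

/-- the trivial action -/
def Act.triv (A : Type) [TopologicalSpace A] : Act A := ⟨.refl A, .refl A, fun _ => rfl⟩

/-- the torus -/
abbrev BB : Type := Z (Act.triv Unit)

/-- the projection to the torus -/
def zpr (ρ : Act A) : C(Z ρ, BB) := Z.map (cu A) ⟨fun _ => rfl, fun _ => rfl⟩

/-- `y` is a fixed point -/
def Fix (ρ : Act A) (y : A) : Prop := ρ.a y = y ∧ ρ.b y = y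

/-- the section given by a fixed point -/
def zsec {y : A} (h : Fix ρ y) : C(BB, Z ρ) :=
  Z.map (.const Unit y) ⟨fun _ => h.1.symm, fun _ => h.2.symm⟩

/-- the straight loops at a fixed point -/
def zl {y : A} (h : Fix ρ y) (m n : ℤ) : Path (zm ρ (0, y)) (zm ρ (0, y)) where
  toFun t := zm ρ (((t : ℝ) * m, (t : ℝ) * n), y)
  continuous_toFun := by fun_prop
  source' := by simp [Prod.mk_zero_zero]
  target' := (zm_eq.2 ⟨m, n, by simp, by
    rw [← semi_zpow (φ := .refl Unit) (F := fun _ => y) (fun _ => h.2.symm) n (),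
      ← semi_zpow (φ := .refl Unit) (F := fun _ => y) (fun _ => h.1.symm) m ()]⟩).symm

section dm

variable {B C : Type} [TopologicalSpace B] [TopologicalSpace C] {f : C(C, A)} {g : C(C, B)}

/-- homeomorphisms of a double mapping cylinder -/
def DM.homeo (α : A ≃ₜ A) (γ : C ≃ₜ C) (β : B ≃ₜ B) (h0 : ∀ c, f (γ c) = α (f c))
    (h1 : ∀ c, g (γ c) = β (g c)) : DM f g ≃ₜ DM f g where
  toFun := DM.map (α : C(A, A)) (γ : C(C, C)) (β : C(B, B)) h0 h1
  invFun := DM.map (α.symm : C(A, A)) (γ.symm : C(C, C)) (β.symm : C(B, B))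
    (fun c => α.injective (by simp [← h0])) fun c => β.injective (by simp [← h1])
  left_inv := DM.ind (by simp) (by simp) (by simp)
  right_inv := DM.ind (by simp) (by simp) (by simp)
  continuous_toFun := map_continuous _
  continuous_invFun := map_continuous _

/-- the action on a double mapping cylinder -/
def Act.dm {ρA : Act A} {ρB : Act B} {ρC : Act C} (hf : Eqv ρC ρA f) (hg : Eqv ρC ρB g) :
    Act (DM f g) where
  a := DM.homeo ρA.a ρC.a ρB.a hf.a hg.a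
  b := DM.homeo ρA.b ρC.b ρB.b hf.b hg.b
  comm := DM.ind (fun y => congrArg (inA f g) (ρA.comm y))
    (fun y t => congrArg (fun c => cy f g (c, t)) (ρC.comm y))
    fun y => congrArg (inB f g) (ρB.comm y)

end dm

end

end Pool.Agent.Lib.NFB
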