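import Pool.Agent.Lib.NFB.B_TF2
import Pool.Agent.Lib.NIL.FinalW
import Pool.Agent.Lib.MP_63c928_gt.LN.BS

/-! The Whitehead groups of the products of the group with free abelian groups vanish. -/

namespace Pool.Agent.Lib.NFB

open Multiplicative Function NilV

/-- every group that embeds in `H` lies in the generated class -/
def Emb (H : Type) [Group H] : Prop :=
  ∀ (K : Type) [Group K] (f : K →* H), Injective f → Generated (fun L _ => FlatSeed L) K

namespace WH

theorem base : Emb (Multiplicative (ℤ × ℤ)) := fun K _ f hf =>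
  .ext K _ f (.abelian _ mul_comm) fun F _ => .seed _ (.inl ⟨fun x y => Subtype.ext (hf (by
    have k : ∀ z : F.comap f, f z = 1 := fun z =>
      (F.subtype.isOfFinOrder (isOfFinOrder_of_finite (⟨f z, z.2⟩ : F))).eq_one'
    rw [k, k]))⟩)

theorem hnn {H : Type} [Group H] {A B : Subgroup H} (φ : A ≃* B) (h : Emb H) :
    Emb (HNNExtension H A B φ) := by
  intro K _ f hf
  obtain ⟨V, T, ρ, η, h1, h2, h3, -, -, h4⟩ := FJ63.exists_bs_tree φ
  let _ : MulAction K V := MulAction.compHom V (ρ.comp f)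
  refine .tree K V T ⟨h1, fun g => h2 (f g), fun g => h3 (f g)⟩ fun v => ?_
  obtain ⟨x, -, hx⟩ := h4 v
  let c := ((MulAut.conj x⁻¹).toMonoidHom.comp f).comp (MulAction.stabilizer K v).subtype
  have hc : ∀ g, c g ∈ (HNNExtension.of : H →* HNNExtension H A B φ).range := fun g => by
    obtain ⟨b, hb⟩ := hx (f g) g.2
    exact ⟨b, by simp [c, hb, mul_assoc]⟩
  refine h _ ((MonoidHom.ofInjective (HNNExtension.of_injective φ)).symm.toMonoidHom.comp
    (c.codRestrict _ hc)) fun g g' e => ?_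
  have e' := (MonoidHom.ofInjective (HNNExtension.of_injective φ)).symm.injective e
  exact Subtype.ext (hf ((MulAut.conj x⁻¹).injective (congrArg Subtype.val e')))

theorem ext {H : Type} [Group H] (hH : Emb H) {x y x' y' : H} (c : Commute x y)
    (c' : Commute x' y') (hi : ∀ n m : ℤ, x ^ n * y ^ m = 1 → n = 0 ∧ m = 0)
    (hi' : ∀ n m : ℤ, x' ^ n * y' ^ m = 1 → n = 0 ∧ m = 0) :
    ∃ (H' : Type) (_ : Group H') (ι : H →* H') (τ : H'), Emb H' ∧ Injective ι ∧
      τ * ι x = ι x' * τ ∧ τ * ι y = ι y' * τ ∧ ∀ (G : Type) [Group G] (f : H →* G) (z : G),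
        z * f x = f x' * z → z * f y = f y' * z → ∃ F : H' →* G, (∀ h, F (ι h) = f h) ∧ F τ = z := by
  let φ : (TF2.e2 c).range ≃* (TF2.e2 c').range :=
    (MonoidHom.ofInjective (TF2.e2_inj c hi)).symm.trans (MonoidHom.ofInjective (TF2.e2_inj c' hi'))
  have hφ : ∀ p, (φ ⟨TF2.e2 c p, p, rfl⟩ : H) = TF2.e2 c' p := fun p => by
    have : (MonoidHom.ofInjective (TF2.e2_inj c hi)).symm ⟨TF2.e2 c p, p, rfl⟩ = p :=
      (MulEquiv.symm_apply_eq _).2 rfl
    simp only [φ, MulEquiv.trans_apply, this, MonoidHom.ofInjective_apply]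
  have key : ∀ p, HNNExtension.t * (HNNExtension.of (TF2.e2 c p) : HNNExtension H _ _ φ) =
      HNNExtension.of (TF2.e2 c' p) * HNNExtension.t := fun p =>
    hφ p ▸ HNNExtension.t_mul_of (φ := φ) ⟨TF2.e2 c p, p, rfl⟩
  refine ⟨HNNExtension H _ _ φ, inferInstance, HNNExtension.of, HNNExtension.t, hnn φ hH,
    HNNExtension.of_injective φ, by simpa [TF2.e2] using key (ofAdd (1, 0)),
    by simpa [TF2.e2] using key (ofAdd (0, 1)), fun G _ f z a b => ?_⟩
  refine ⟨HNNExtension.lift f z ?_, fun h => HNNExtension.lift_of _ _ _ h, HNNExtension.lift_t _ _ _⟩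
  rintro ⟨_, p, rfl⟩
  rw [hφ]
  simpa [TF2.e2] using ((SemiconjBy.zpow_right a p.toAdd.1).mul_right
    (SemiconjBy.zpow_right b p.toAdd.2)).eq

theorem emb {G : Type} [Group G] {a b s t : G} (hU : MP_dab48e_gt.Univ a b s t) : Emb G := by
  obtain ⟨H₁, _, ι, S, t1, i1, a1, b1, l1⟩ := ext base
    (x := ofAdd (1, 0) * ofAdd (0, 1)) (y := ofAdd (0, 1)) (x' := ofAdd (1, 0)) (y' := ofAdd (0, 1))
    (Commute.all _ _) (Commute.all _ _)
    (fun n m h => by
      have := congrArg toAdd h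
      simp [Prod.ext_iff] at this
      omega)
    (fun n m h => by simpa [Prod.ext_iff] using congrArg toAdd h)
  have c : Commute (ι (ofAdd (1, 0))) (ι (ofAdd (0, 1))) := (Commute.all _ _).map ι
  have ind : ∀ n m : ℤ, ι (ofAdd (1, 0)) ^ n * ι (ofAdd (0, 1)) ^ m = 1 → n = 0 ∧ m = 0 := fun n m h => by
    rw [← map_zpow ι, ← map_zpow ι, ← map_mul ι, map_eq_one_iff _ i1] at h
    simpa [Prod.ext_iff] using congrArg toAdd h
  obtain ⟨H₂, _, κ, T, t2, -, a2, b2, l2⟩ := ext t1 (c.mul_left c) c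
    (fun n m h => by
      rw [← zpow_two, ← zpow_mul] at h
      have := ind _ _ h
      omega) ind
  obtain ⟨θ, ha, hb, hs, ht⟩ := hU.lift (A := κ (ι (ofAdd (1, 0)))) (B := κ (ι (ofAdd (0, 1))))
    (S := κ S) (T := T) ⟨(c.map κ).eq, by rw [← map_mul, b1, map_mul], b2,
      by rw [← a2, map_mul, mul_assoc], by rw [← map_mul, ← a1, map_mul ι, map_mul, map_mul, mul_assoc]⟩
  obtain ⟨F₁, f1, g1⟩ := l1 G (TF2.e2 (x := a) (y := b) hU.rel.ab) s
    (by simp [TF2.e2, hU.rel.sa, mul_assoc]) (by simp [TF2.e2, hU.rel.sb])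
  have fa : F₁ (ι (ofAdd (1, 0))) = a := by simp [f1, TF2.e2]
  have fb : F₁ (ι (ofAdd (0, 1))) = b := by simp [f1, TF2.e2]
  obtain ⟨F₂, f2, g2⟩ := l2 G F₁ t (by rw [map_mul, fa, hU.rel.ta, mul_assoc]) (by rw [fb, hU.rel.tb])
  have key : ∀ g, F₂ (θ g) = g := hU.gen ((F₂.comp θ).eqLocus (MonoidHom.id G))
    (show F₂ (θ a) = a by rw [ha, f2, fa]) (show F₂ (θ b) = b by rw [hb, f2, fb])
    (show F₂ (θ s) = s by rw [hs, f2, g1]) (show F₂ (θ t) = t by rw [ht, g2])
  exact fun K _ f hf => t2 K (θ.comp f) ((LeftInverse.injective key).comp hf)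

end WH

theorem wh_ker {G Γ : Type} [Group G] [Group Γ] {a b s t : G} (hU : MP_dab48e_gt.Univ a b s t)
    {φ : Γ →* Multiplicative ℤ} (ι : Γ ≃* G × Multiplicative ℤ) (h : ∀ x, φ x = (ι x).2) (m : ℕ) :
    Subsingleton (WhDet.Wh (φ.ker × Multiplicative (Fin m → ℤ))) :=
  NIL.final_wh _ (WH.emb hU _ ((MonoidHom.fst _ _).comp (ι.toMonoidHom.comp φ.ker.subtype))
    fun x y e => Subtype.ext (ι.injective (Prod.ext e (by
      rw [← h, ← h, show φ x = 1 from x.2, show φ y = 1 from y.2])))) m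

end Pool.Agent.Lib.NFB
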